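import Pool.Agent.H36.NX.Base

/-!
# Pc : the three pieces (chart `x ≠ 0`, chart `y ≠ 0`, overlap) of a Čech complex
-/

set_option autoImplicit false

namespace H36.NX

/-- the three pieces of a Čech complex: the chart `x ≠ 0`, the chart `y ≠ 0`, the overlap -/
inductive Pc where
  | X : Pc
  | Y : Pc
  | R : Pc
  deriving DecidableEq, Fintype

/-- the piece `X`, `Y n` or `R` of the cubic ring -/
noncomputable def CubicRing.pc {k : Type} [Field k] {t : k} {R : Type} [CommRing R] [Algebra k R]
    (C : CubicRing k t R) (s : Pc) (n : ℤ) : Submodule k R :=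
  match s with
  | Pc.X => C.X
  | Pc.Y => C.Y n
  | Pc.R => ⊤

end H36.NX
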