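import Pool.Agent.H16.NC.Tens

/-!
# Coker : cokernels and products of dg bimodules
-/

set_option autoImplicit false

open NC

namespace NC

variable {k : Type} [Field k]

/-- the descended operator on a quotient -/
def quotMap {M N : Type} [AddCommGroup M] [Module k M] [AddCommGroup N] [Module k N]
    (S : Submodule k M) (T : Submodule k N) (f : M →ₗ[k] N) (h : ∀ x ∈ S, f x ∈ T) :
    M ⧸ S →ₗ[k] N ⧸ T :=
  S.mapQ T f (fun x hx => h x hx)

@[simp] theorem quotMap_mk {M N : Type} [AddCommGroup M] [Module k M] [AddCommGroup N] [Module k N]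
    (S : Submodule k M) (T : Submodule k N) (f : M →ₗ[k] N) (h : ∀ x ∈ S, f x ∈ T) (x : M) :
    quotMap S T f h (S.mkQ x) = T.mkQ (f x) := rfl

/-- the descended bilinear action on a quotient -/
def quotAct {A M : Type} [AddCommGroup A] [Module k A] [AddCommGroup M] [Module k M]
    (S : Submodule k M) (f : A →ₗ[k] M →ₗ[k] M) (h : ∀ r, ∀ x ∈ S, f r x ∈ S) :
    A →ₗ[k] (M ⧸ S) →ₗ[k] (M ⧸ S) where
  toFun r := quotMap S S (f r) (h r)
  map_add' r s := LinearMap.ext fun v => by
    obtain ⟨x, rfl⟩ := S.mkQ_surjective v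
    rw [LinearMap.add_apply, quotMap_mk, quotMap_mk, quotMap_mk, map_add, LinearMap.add_apply,
      map_add]
  map_smul' c r := LinearMap.ext fun v => by
    obtain ⟨x, rfl⟩ := S.mkQ_surjective v
    rw [LinearMap.smul_apply, quotMap_mk, quotMap_mk, map_smul, LinearMap.smul_apply, map_smul,
      RingHom.id_apply]

/-- quotient of a differential module -/
abbrev SD.quot (N : SD k) (S : Submodule k N.V) (hD : ∀ x ∈ S, N.D x ∈ S)
    (hP : ∀ x ∈ S, N.P x ∈ S) : SD k where
  V := N.V ⧸ S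
  D := quotMap S S N.D hD
  P := quotMap S S N.P hP
  DD v := by
    obtain ⟨x, rfl⟩ := S.mkQ_surjective v
    rw [quotMap_mk, quotMap_mk, N.DD, map_zero]
  PP v := by
    obtain ⟨x, rfl⟩ := S.mkQ_surjective v
    rw [quotMap_mk, quotMap_mk, N.PP]
  DP v := by
    obtain ⟨x, rfl⟩ := S.mkQ_surjective v
    rw [quotMap_mk, quotMap_mk, quotMap_mk, quotMap_mk, N.DP, map_sub]

/-- the projection -/
def SD.mkq (N : SD k) (S : Submodule k N.V) (hD : ∀ x ∈ S, N.D x ∈ S)
    (hP : ∀ x ∈ S, N.P x ∈ S) : SD.Hom N (N.quot S hD hP) where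
  f := S.mkQ
  D _ := rfl
  P _ := rfl

/-- the descended left action -/
def LA.quot {A : DGA k} {N : SD k} (a : LA A N) (S : Submodule k N.V) (hD : ∀ x ∈ S, N.D x ∈ S)
    (hP : ∀ x ∈ S, N.P x ∈ S) (h : ∀ r, ∀ x ∈ S, a.act r x ∈ S) : LA A (N.quot S hD hP) where
  act := quotAct S a.act h
  mul_act r s v := by
    obtain ⟨x, rfl⟩ := S.mkQ_surjective v
    change S.mkQ (a.act (r * s) x) = S.mkQ (a.act r (a.act s x))
    rw [a.mul_act]
  P_act r v := by
    obtain ⟨x, rfl⟩ := S.mkQ_surjective v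
    change S.mkQ (N.P (a.act r x)) = S.mkQ (a.act (A.P r) (N.P x)) +
      S.mkQ (a.act (r - A.P r) (x - N.P x))
    rw [a.P_act, map_add]
  D_act r v := by
    obtain ⟨x, rfl⟩ := S.mkQ_surjective v
    change S.mkQ (N.D (a.act r x)) = S.mkQ (a.act (A.D r) x) + S.mkQ (a.act (A.E r) (N.D x))
    rw [a.D_act, map_add]

/-- the descended right action -/
def RA.quot {A : DGA k} {N : SD k} (a : RA A N) (S : Submodule k N.V) (hD : ∀ x ∈ S, N.D x ∈ S)
    (hP : ∀ x ∈ S, N.P x ∈ S) (h : ∀ r, ∀ x ∈ S, a.act x r ∈ S) : RA A (N.quot S hD hP) where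
  act := (quotAct S a.act.flip h).flip
  act_mul v r s := by
    obtain ⟨x, rfl⟩ := S.mkQ_surjective v
    change S.mkQ (a.act (a.act x r) s) = S.mkQ (a.act x (r * s))
    rw [a.act_mul]
  P_act v r := by
    obtain ⟨x, rfl⟩ := S.mkQ_surjective v
    change S.mkQ (N.P (a.act x r)) = S.mkQ (a.act (N.P x) (A.P r)) +
      S.mkQ (a.act (x - N.P x) (r - A.P r))
    rw [a.P_act, map_add]
  D_act v r := by
    obtain ⟨x, rfl⟩ := S.mkQ_surjective v
    change S.mkQ (N.D (a.act x r)) = S.mkQ (a.act (N.D x) r) + S.mkQ (a.act (N.E x) (A.D r))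
    rw [a.D_act, map_add]

/-- quotient of a bimodule -/
def BMod.quot {A B : DGA k} (X : BMod A B) (S : Submodule k X.N.V) (hD : ∀ x ∈ S, X.N.D x ∈ S)
    (hP : ∀ x ∈ S, X.N.P x ∈ S) (hl : ∀ a, ∀ x ∈ S, X.b.l.act a x ∈ S)
    (hr : ∀ b, ∀ x ∈ S, X.b.r.act x b ∈ S) : BMod A B where
  N := X.N.quot S hD hP
  b :=
    { l := X.b.l.quot S hD hP hl
      r := X.b.r.quot S hD hP hr
      lr := fun a v b => by
        obtain ⟨x, rfl⟩ := S.mkQ_surjective v
        change S.mkQ (X.b.r.act (X.b.l.act a x) b) = S.mkQ (X.b.l.act a (X.b.r.act x b))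
        rw [X.b.lr] }
  one_l := fun v => by
    obtain ⟨x, rfl⟩ := S.mkQ_surjective v
    change S.mkQ (X.b.l.act 1 x) = S.mkQ x
    rw [X.one_l]
  r_one := fun v => by
    obtain ⟨x, rfl⟩ := S.mkQ_surjective v
    change S.mkQ (X.b.r.act x 1) = S.mkQ x
    rw [X.r_one]

/-- the cokernel of a morphism of bimodules -/
def BMod.coker {A B : DGA k} {X Y : BMod A B} (f : BMod.Hom X Y) : BMod A B :=
  Y.quot (LinearMap.range f.f)
    (by rintro _ ⟨x, rfl⟩; exact ⟨X.N.D x, f.D x⟩)
    (by rintro _ ⟨x, rfl⟩; exact ⟨X.N.P x, f.P x⟩)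
    (by rintro a _ ⟨x, rfl⟩; exact ⟨X.b.l.act a x, f.isHom.l a x⟩)
    (by rintro b _ ⟨x, rfl⟩; exact ⟨X.b.r.act x b, f.isHom.r x b⟩)

/-- the projection on the cokernel -/
def BMod.cokerπ {A B : DGA k} {X Y : BMod A B} (f : BMod.Hom X Y) :
    BMod.Hom Y (BMod.coker f) where
  f := (LinearMap.range f.f).mkQ
  D _ := rfl
  P _ := rfl
  isHom := ⟨fun _ _ => rfl, fun _ _ => rfl⟩

theorem BMod.cokerπ_surjective {A B : DGA k} {X Y : BMod A B} (f : BMod.Hom X Y) :
    Function.Surjective (BMod.cokerπ f).f :=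
  (LinearMap.range f.f).mkQ_surjective

theorem BMod.cokerπ_eq_zero {A B : DGA k} {X Y : BMod A B} (f : BMod.Hom X Y) (y : Y.N.V) :
    (BMod.cokerπ f).f y = 0 ↔ ∃ x, f.f x = y := by
  change (LinearMap.range f.f).mkQ y = 0 ↔ _
  rw [Submodule.mkQ_apply, Submodule.Quotient.mk_eq_zero]
  rfl

/-- the universal property of the cokernel -/
def BMod.cokerDesc {A B : DGA k} {X Y Z : BMod A B} (f : BMod.Hom X Y) (g : BMod.Hom Y Z)
    (h : ∀ x, g.f (f.f x) = 0) : BMod.Hom (BMod.coker f) Z where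
  f := (LinearMap.range f.f).liftQ g.f (by rintro _ ⟨x, rfl⟩; exact h x)
  D v := by
    obtain ⟨x, rfl⟩ := (LinearMap.range f.f).mkQ_surjective v
    exact g.D x
  P v := by
    obtain ⟨x, rfl⟩ := (LinearMap.range f.f).mkQ_surjective v
    exact g.P x
  isHom :=
    { l := fun a v => by
        obtain ⟨x, rfl⟩ := (LinearMap.range f.f).mkQ_surjective v
        exact g.isHom.l a x
      r := fun v b => by
        obtain ⟨x, rfl⟩ := (LinearMap.range f.f).mkQ_surjective v
        exact g.isHom.r x b }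

@[simp] theorem BMod.cokerDesc_π {A B : DGA k} {X Y Z : BMod A B} (f : BMod.Hom X Y)
    (g : BMod.Hom Y Z) (h : ∀ x, g.f (f.f x) = 0) (y : Y.N.V) :
    (BMod.cokerDesc f g h).f ((BMod.cokerπ f).f y) = g.f y := rfl

theorem BMod.coker_ses {A B : DGA k} {X Y : BMod A B} (f : BMod.Hom X Y)
    (hf : Function.Injective f.f) : SD.SES f.toHom (BMod.cokerπ f).toHom where
  inj x hx := hf (by rw [hx, map_zero])
  surj := BMod.cokerπ_surjective f
  zero x := (BMod.cokerπ_eq_zero f _).2 ⟨x, rfl⟩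
  exact y hy := (BMod.cokerπ_eq_zero f y).1 hy

/-- the product of two differential modules -/
abbrev SD.prod (M N : SD k) : SD k where
  V := M.V × N.V
  D := M.D.prodMap N.D
  P := M.P.prodMap N.P
  DD v := Prod.ext (M.DD v.1) (N.DD v.2)
  PP v := Prod.ext (M.PP v.1) (N.PP v.2)
  DP v := Prod.ext (M.DP v.1) (N.DP v.2)

/-- the product of two bimodules -/
def BMod.prod {A B : DGA k} (X Y : BMod A B) : BMod A B where
  N := X.N.prod Y.N
  b :=
    { l :=
        { act := LinearMap.mk₂ k (fun a v => (X.b.l.act a v.1, Y.b.l.act a v.2))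
            (fun a a' v => Prod.ext (by simp) (by simp)) (fun c a v => Prod.ext (by simp) (by simp))
            (fun a v v' => Prod.ext (map_add _ _ _) (map_add _ _ _))
            (fun c a v => Prod.ext (map_smul _ _ _) (map_smul _ _ _))
          mul_act := fun a b v => Prod.ext (X.b.l.mul_act a b v.1) (Y.b.l.mul_act a b v.2)
          P_act := fun a v => Prod.ext (X.b.l.P_act a v.1) (Y.b.l.P_act a v.2)
          D_act := fun a v => Prod.ext (X.b.l.D_act a v.1) (Y.b.l.D_act a v.2) }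
      r :=
        { act := LinearMap.mk₂ k (fun v b => (X.b.r.act v.1 b, Y.b.r.act v.2 b))
            (fun v v' b => Prod.ext
              (by change X.b.r.act (v.1 + v'.1) b = _; rw [map_add]; rfl)
              (by change Y.b.r.act (v.2 + v'.2) b = _; rw [map_add]; rfl))
            (fun c v b => Prod.ext
              (by change X.b.r.act (c • v.1) b = _; rw [map_smul]; rfl)
              (by change Y.b.r.act (c • v.2) b = _; rw [map_smul]; rfl))
            (fun v b b' => Prod.ext (map_add _ _ _) (map_add _ _ _))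
            (fun c v b => Prod.ext (map_smul _ _ _) (map_smul _ _ _))
          act_mul := fun v a b => Prod.ext (X.b.r.act_mul v.1 a b) (Y.b.r.act_mul v.2 a b)
          P_act := fun v a => Prod.ext (X.b.r.P_act v.1 a) (Y.b.r.P_act v.2 a)
          D_act := fun v a => Prod.ext (X.b.r.D_act v.1 a) (Y.b.r.D_act v.2 a) }
      lr := fun a v b => Prod.ext (X.b.lr a v.1 b) (Y.b.lr a v.2 b) }
  one_l := fun v => Prod.ext (X.one_l v.1) (Y.one_l v.2)
  r_one := fun v => Prod.ext (X.r_one v.1) (Y.r_one v.2)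

end NC
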