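import Pool.Agent.H16.NC.PF
import Pool.Agent.H36.NX.Coker

/-!
# Push : closure lemmas for perfect bimodules

If `b = β α : M → W → M'` is injective with perfect cokernel and `W` is perfect, then `M'` is perfect:
`M'` is a direct factor of the pushout `Po = (W × M') / M` (`m ↦ (α m, - b m)`), through `(w, m') ↦ β w + m'`, and
`0 → W → Po → coker b → 0` is exact.
-/

set_option autoImplicit false

namespace NC

variable {k : Type} [Field k] {A : DGA k}

/-- strict direct factors of perfect bimodules are perfect -/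
theorem PF.ret {X F : BMod A A} (i : BMod.Hom X F) (r : BMod.Hom F X) (h : ∀ x, r.f (i.f x) = x)
    (hF : PF A F) : PF A X :=
  PF.retr
    { s := i
      r := r
      h := 0
      hl := fun _ _ => by simp
      hr := fun _ _ => by simp
      eq := fun x => by simp [h] } hF

/-- a multiple of a morphism -/
def BMod.Hom.smul {A B : DGA k} {X Y : BMod A B} (c : k) (f : BMod.Hom X Y) : BMod.Hom X Y where
  f := c • f.f
  D v := by simp [f.D]
  P v := by simp [f.P]
  isHom := ⟨fun a v => by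
    change c • f.f (X.b.l.act a v) = Y.b.l.act a (c • f.f v)
    rw [f.isHom.l a v, map_smul], fun v b => by
    change c • f.f (X.b.r.act v b) = Y.b.r.act (c • f.f v) b
    rw [f.isHom.r v b, map_smul, LinearMap.smul_apply]⟩

/-- the map `m ↦ (α m, - b m)` -/
def pushMap {M M' W : BMod A A} (α : BMod.Hom M W) (b : BMod.Hom M M') :
    BMod.Hom M (W.prod M') where
  f := α.f.prod (-b.f)
  D v := Prod.ext (α.D v) (by
    change -(b.f (M.N.D v)) = M'.N.D (-(b.f v))
    rw [b.D, map_neg])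
  P v := Prod.ext (α.P v) (by
    change -(b.f (M.N.P v)) = M'.N.P (-(b.f v))
    rw [b.P, map_neg])
  isHom := ⟨fun a v => Prod.ext (α.isHom.l a v) (by
      change -(b.f (M.b.l.act a v)) = M'.b.l.act a (-(b.f v))
      rw [b.isHom.l a v, map_neg]),
    fun v a => Prod.ext (α.isHom.r v a) (by
      change -(b.f (M.b.r.act v a)) = M'.b.r.act (-(b.f v)) a
      rw [b.isHom.r v a, map_neg, LinearMap.neg_apply])⟩

/-- the map `(w, m) ↦ β w + m` -/
private def Push_add {M' W : BMod A A} (β : BMod.Hom W M') : BMod.Hom (W.prod M') M' where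
  f := β.f.coprod LinearMap.id
  D v := by
    change β.f (W.N.D v.1) + M'.N.D v.2 = M'.N.D (β.f v.1 + v.2)
    rw [β.D, map_add]
  P v := by
    change β.f (W.N.P v.1) + M'.N.P v.2 = M'.N.P (β.f v.1 + v.2)
    rw [β.P, map_add]
  isHom := ⟨fun a v => by
      change β.f (W.b.l.act a v.1) + M'.b.l.act a v.2 = M'.b.l.act a (β.f v.1 + v.2)
      rw [β.isHom.l, map_add],
    fun v a => by
      change β.f (W.b.r.act v.1 a) + M'.b.r.act v.2 a = M'.b.r.act (β.f v.1 + v.2) a
      rw [β.isHom.r, map_add, LinearMap.add_apply]⟩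

/-- the map `(w, m) ↦ γ m` -/
private def Push_snd {M' W Q : BMod A A} (γ : BMod.Hom M' Q) : BMod.Hom (W.prod M') Q where
  f := γ.f ∘ₗ LinearMap.snd k W.N.V M'.N.V
  D v := γ.D v.2
  P v := γ.P v.2
  isHom := ⟨fun a v => γ.isHom.l a v.2, fun v a => γ.isHom.r v.2 a⟩

/-- composition with a morphism of bimodules -/
private def Push_comp {X Y Z : BMod A A} (g : BMod.Hom Y Z) (f : BMod.Hom X Y) :
    BMod.Hom X Z where
  f := g.f ∘ₗ f.f
  D v := by
    change g.f (f.f (X.N.D v)) = Z.N.D (g.f (f.f v))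
    rw [f.D, g.D]
  P v := by
    change g.f (f.f (X.N.P v)) = Z.N.P (g.f (f.f v))
    rw [f.P, g.P]
  isHom := ⟨fun a v => by
      change g.f (f.f (X.b.l.act a v)) = Z.b.l.act a (g.f (f.f v))
      rw [f.isHom.l, g.isHom.l],
    fun v a => by
      change g.f (f.f (X.b.r.act v a)) = Z.b.r.act (g.f (f.f v)) a
      rw [f.isHom.r, g.isHom.r]⟩

/-- a pair as an element of the product -/
private def Push_mk {M' W : BMod A A} (w : W.N.V) (m : M'.N.V) : (W.prod M').N.V := (w, m)

/-- the map `w ↦ (w, 0)` -/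
private def Push_inl (W M' : BMod A A) : BMod.Hom W (W.prod M') where
  f := LinearMap.inl k W.N.V M'.N.V
  D v := Prod.ext rfl (map_zero M'.N.D).symm
  P v := Prod.ext rfl (map_zero M'.N.P).symm
  isHom := ⟨fun a v => Prod.ext rfl (map_zero (M'.b.l.act a)).symm,
    fun v a => Prod.ext rfl (by
      change (0 : M'.N.V) = M'.b.r.act 0 a
      rw [map_zero, LinearMap.zero_apply])⟩

/-- the map `m ↦ (0, m)` -/
private def Push_inr (W M' : BMod A A) : BMod.Hom M' (W.prod M') where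
  f := LinearMap.inr k W.N.V M'.N.V
  D v := Prod.ext (map_zero W.N.D).symm rfl
  P v := Prod.ext (map_zero W.N.P).symm rfl
  isHom := ⟨fun a v => Prod.ext (map_zero (W.b.l.act a)).symm rfl,
    fun v a => Prod.ext (by
      change (0 : W.N.V) = W.b.r.act 0 a
      rw [map_zero, LinearMap.zero_apply]) rfl⟩

theorem PF_push {M M' W : BMod A A} (α : BMod.Hom M W) (β : BMod.Hom W M') (b : BMod.Hom M M')
    (hb : ∀ m, β.f (α.f m) = b.f m) (hinj : Function.Injective b.f) (hW : PF A W)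
    (hc : PF A (BMod.coker b)) : PF A M' := by
  let p := pushMap α b
  have hp : ∀ m, p.f m = Push_mk (α.f m) (-(b.f m)) := fun _ => rfl
  let π := BMod.cokerπ p
  have hπ0 : ∀ y, π.f y = 0 ↔ ∃ x, p.f x = y := BMod.cokerπ_eq_zero p
  have hπs : Function.Surjective π.f := BMod.cokerπ_surjective p
  let i : BMod.Hom M' (BMod.coker p) := Push_comp π (Push_inr W M')
  have hi : ∀ m, i.f m = π.f (Push_mk 0 m) := fun _ => rfl
  let j : BMod.Hom W (BMod.coker p) := Push_comp π (Push_inl W M')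
  have hj : ∀ w, j.f w = π.f (Push_mk w 0) := fun _ => rfl
  let ad : BMod.Hom (W.prod M') M' := Push_add β
  have had : ∀ w m, ad.f (Push_mk w m) = β.f w + m := fun _ _ => rfl
  let r : BMod.Hom (BMod.coker p) M' := BMod.cokerDesc p ad (fun x => by
    rw [hp, had, hb, add_neg_cancel])
  have hr : ∀ y, r.f (π.f y) = ad.f y := fun _ => rfl
  let sd : BMod.Hom (W.prod M') (BMod.coker b) := Push_snd (BMod.cokerπ b)
  have hsd : ∀ w m, sd.f (Push_mk w m) = (BMod.cokerπ b).f m := fun _ _ => rfl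
  let q : BMod.Hom (BMod.coker p) (BMod.coker b) := BMod.cokerDesc p sd (fun x => by
    rw [hp, hsd, BMod.cokerπ_eq_zero]
    exact ⟨-x, map_neg _ _⟩)
  have hq : ∀ y, q.f (π.f y) = sd.f y := fun _ => rfl
  refine PF.ret i r (fun x => ?_) ?_
  · rw [hi, hr, had, map_zero, zero_add]
  · refine PF.ses2 j q ⟨?_, ?_, ?_, ?_⟩ hW hc
    · intro w hw
      have hw' : π.f (Push_mk w 0) = 0 := hw
      obtain ⟨m, hm⟩ := (hπ0 _).1 hw'
      rw [hp] at hm
      have h2 : -(b.f m) = 0 := congrArg Prod.snd hm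
      have h1 : α.f m = w := congrArg Prod.fst hm
      have h3 : m = 0 := hinj (by rw [map_zero]; exact neg_eq_zero.1 h2)
      rw [← h1, h3, map_zero]
    · intro z
      obtain ⟨m, rfl⟩ := BMod.cokerπ_surjective b z
      exact ⟨π.f (Push_mk 0 m), rfl⟩
    · intro w
      change q.f (π.f (Push_mk w 0)) = 0
      rw [hq, hsd, map_zero]
    · intro y hy
      obtain ⟨v, rfl⟩ := hπs y
      obtain ⟨w, m', rfl⟩ : ∃ w m', v = Push_mk w m' := ⟨v.1, v.2, rfl⟩
      have hy' : q.f (π.f (Push_mk w m')) = 0 := hy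
      rw [hq, hsd] at hy'
      obtain ⟨m, hm⟩ := (BMod.cokerπ_eq_zero b m').1 hy'
      refine ⟨w + α.f m, ?_⟩
      change π.f (Push_mk (w + α.f m) 0) = π.f (Push_mk w m')
      rw [← sub_eq_zero, ← map_sub, hπ0]
      refine ⟨m, ?_⟩
      rw [hp]
      refine Prod.ext ?_ ?_
      · change α.f m = w + α.f m - w
        abel
      · change -(b.f m) = 0 - m'
        rw [hm, zero_sub]

/-- a bijective morphism is a quasi-isomorphism -/
theorem QI_of_bijective {X Y : SD k} (f : SD.Hom X Y) (hf : Function.Bijective f.f) : f.QI := by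
  constructor
  · intro x y _ h
    obtain ⟨y', rfl⟩ := hf.2 y
    exact ⟨y', hf.1 (by rw [f.D, h])⟩
  · intro y hy
    obtain ⟨x, rfl⟩ := hf.2 y
    refine ⟨x, 0, hf.1 (by rw [f.D, hy, map_zero]), by rw [map_zero, add_zero]⟩

/-- a surjective morphism with acyclic kernel is a quasi-isomorphism -/
theorem QI_of_ker {X Y : SD k} (f : SD.Hom X Y) (hs : Function.Surjective f.f)
    (hk : ∀ x, f.f x = 0 → X.D x = 0 → ∃ y, f.f y = 0 ∧ X.D y = x) : f.QI := by
  constructor
  · intro x y hx h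
    obtain ⟨y', rfl⟩ := hs y
    obtain ⟨u, _, hu⟩ := hk (x - X.D y') (by rw [map_sub, f.D, h, sub_self])
      (by rw [map_sub, hx, X.DD, sub_zero])
    exact ⟨u + y', by rw [map_add, hu, sub_add_cancel]⟩
  · intro y hy
    obtain ⟨x, rfl⟩ := hs y
    obtain ⟨u, hu0, hu⟩ := hk (X.D x) (by rw [f.D, hy]) (X.DD x)
    exact ⟨x - u, 0, by rw [map_sub, hu, sub_self], by rw [map_sub, hu0, map_zero, sub_zero, add_zero]⟩

/-- the cokernel of a composite of two injective maps is an extension of the cokernels -/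
theorem PF_coker_comp {X Y Z : BMod A A} (f : BMod.Hom X Y) (g : BMod.Hom Y Z)
    (h : BMod.Hom X Z) (hh : ∀ x, h.f x = g.f (f.f x)) (hg : Function.Injective g.f)
    (h1 : PF A (BMod.coker f)) (h2 : PF A (BMod.coker g)) : PF A (BMod.coker h) := by
  let j : BMod.Hom (BMod.coker f) (BMod.coker h) :=
    BMod.cokerDesc f (Push_comp (BMod.cokerπ h) g) (fun x => by
      change (BMod.cokerπ h).f (g.f (f.f x)) = 0
      rw [BMod.cokerπ_eq_zero]
      exact ⟨x, hh x⟩)
  have hj : ∀ y, j.f ((BMod.cokerπ f).f y) = (BMod.cokerπ h).f (g.f y) := fun _ => rfl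
  let q : BMod.Hom (BMod.coker h) (BMod.coker g) :=
    BMod.cokerDesc h (BMod.cokerπ g) (fun x => by
      rw [BMod.cokerπ_eq_zero]
      exact ⟨f.f x, (hh x).symm⟩)
  have hq : ∀ z, q.f ((BMod.cokerπ h).f z) = (BMod.cokerπ g).f z := fun _ => rfl
  refine PF.ses2 j q ⟨?_, ?_, ?_, ?_⟩ h1 h2
  · intro v hv
    obtain ⟨y, rfl⟩ := BMod.cokerπ_surjective f v
    rw [hj] at hv
    obtain ⟨x, hx⟩ := (BMod.cokerπ_eq_zero h _).1 hv
    rw [hh] at hx
    exact (BMod.cokerπ_eq_zero f _).2 ⟨x, hg hx⟩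
  · intro w
    obtain ⟨z, rfl⟩ := BMod.cokerπ_surjective g w
    exact ⟨(BMod.cokerπ h).f z, rfl⟩
  · intro v
    obtain ⟨y, rfl⟩ := BMod.cokerπ_surjective f v
    rw [hj, hq]
    exact (BMod.cokerπ_eq_zero g _).2 ⟨y, rfl⟩
  · intro w hw
    obtain ⟨z, rfl⟩ := BMod.cokerπ_surjective h w
    rw [hq] at hw
    obtain ⟨y, hy⟩ := (BMod.cokerπ_eq_zero g _).1 hw
    refine ⟨(BMod.cokerπ f).f y, ?_⟩
    rw [hj, hy]

/-- in a short exact sequence the third term is isomorphic to the cokernel -/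
theorem PF_coker_of_ses {X Y Z : BMod A A} (f : BMod.Hom X Y) (g : BMod.Hom Y Z)
    (h : SD.SES f.toHom g.toHom) (hZ : PF A Z) : PF A (BMod.coker f) := by
  let q : BMod.Hom (BMod.coker f) Z := BMod.cokerDesc f g h.zero
  have hq : ∀ y, q.f ((BMod.cokerπ f).f y) = g.f y := fun _ => rfl
  refine PF.qi' q (QI_of_bijective _ ⟨?_, ?_⟩) hZ
  · rw [injective_iff_map_eq_zero]
    intro v hv
    obtain ⟨y, rfl⟩ := BMod.cokerπ_surjective f v
    rw [hq] at hv
    exact (BMod.cokerπ_eq_zero f _).2 (h.exact y hv)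
  · intro z
    obtain ⟨y, hy⟩ := h.surj z
    exact ⟨(BMod.cokerπ f).f y, hy⟩

end NC
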