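import Pool.Agent.H36.NX.AA
import Pool.Agent.H16.NC.Tens

/-!
# Bim : the dg modules and bimodules `L m`, `P n`, `K m n = L m ⊗ P n`, `Q n` over `AA`
-/

set_option autoImplicit false

open NC

namespace H36.NX

variable {k : Type} [Field k] {t : k} {R : Type} [CommRing R] [Algebra k R] {I J : Type}

theorem mul_mem_QQ_shift (C : CubicRing k t R) {α : I → ℤ} {n : ℤ} {f : Pc → Matrix I (Fin 2) R}
    (hf : f ∈ QQ C α (wtn n)) {g : Pc → Matrix (Fin 2) (Fin 2) R} (hg : g ∈ QQ C wt wt) :
    cMul k (matMul k R I (Fin 2) (Fin 2)) f g ∈ QQ C α (wtn n) :=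
  mul_mem_QQ C α (wtn n) (wtn n) f hf g (QQ_le C (fun i j => by simp [wt, wtn]) hg)

/-- the underlying Čech matrix of an element of `A` -/
noncomputable def av (C : CubicRing k t R) : (AA C).V →ₗ[k] (Pc → Matrix (Fin 2) (Fin 2) R) :=
  qv C wt wt

/-- constructor -/
def amk (C : CubicRing k t R) (f : Pc → Matrix (Fin 2) (Fin 2) R) (hf : f ∈ QQ C wt wt) :
    (AA C).V := qmk C wt wt f hf

@[simp] theorem av_amk (C : CubicRing k t R) (f : Pc → Matrix (Fin 2) (Fin 2) R)
    (hf : f ∈ QQ C wt wt) : av C (amk C f hf) = f := rfl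

theorem av_mem (C : CubicRing k t R) (a : (AA C).V) : av C a ∈ QQ C wt wt := qv_mem C a

theorem a_ext (C : CubicRing k t R) {a b : (AA C).V} (h : av C a = av C b) : a = b := q_ext C h

theorem av_mul (C : CubicRing k t R) (a b : (AA C).V) :
    av C (a * b) = cMul k (matMul k R (Fin 2) (Fin 2) (Fin 2)) (av C a) (av C b) := rfl

theorem av_one (C : CubicRing k t R) : av C (1 : (AA C).V) = cOne _ := rfl

theorem av_P (C : CubicRing k t R) (a : (AA C).V) : av C ((AA C).P a) = cP k _ (av C a) := rfl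

theorem av_D (C : CubicRing k t R) (a : (AA C).V) : av C ((AA C).D a) = cD k _ (av C a) := rfl

theorem av_E (C : CubicRing k t R) (a : (AA C).V) :
    av C ((AA C).E a) = cP k _ (av C a) + cP k _ (av C a) - av C a := rfl

theorem av_sub_P (C : CubicRing k t R) (a : (AA C).V) :
    av C (a - (AA C).P a) = av C a - cP k _ (av C a) := by
  rw [map_sub, av_P]

/-- the left product by elements of `A` -/
noncomputable def qMulL (C : CubicRing k t R) (β : J → ℤ) :
    (AA C).V →ₗ[k] (qSD C wt β).V →ₗ[k] (qSD C wt β).V :=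
  qMul C wt wt β

@[simp] theorem qv_qMulL (C : CubicRing k t R) (β : J → ℤ) (a : (AA C).V) (f : (qSD C wt β).V) :
    qv C wt β (qMulL C β a f) = cMul k (matMul k R (Fin 2) (Fin 2) J) (av C a) (qv C wt β f) := rfl

/-- the right product by elements of `A` -/
noncomputable def qMulR (C : CubicRing k t R) (α : I → ℤ) (n : ℤ) :
    (qSD C α (wtn n)).V →ₗ[k] (AA C).V →ₗ[k] (qSD C α (wtn n)).V :=
  LinearMap.mk₂ k (fun f g => qmk C α (wtn n)
      (cMul k (matMul k R I (Fin 2) (Fin 2)) (qv C α (wtn n) f) (av C g))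
      (mul_mem_QQ_shift C (qv_mem C f) (av_mem C g)))
    (fun f f' g => q_ext C (by
      change cMul k (matMul k R I (Fin 2) (Fin 2)) (qv C α (wtn n) (f + f')) (av C g)
        = cMul k (matMul k R I (Fin 2) (Fin 2)) (qv C α (wtn n) f) (av C g)
          + cMul k (matMul k R I (Fin 2) (Fin 2)) (qv C α (wtn n) f') (av C g)
      rw [map_add, map_add, LinearMap.add_apply]))
    (fun c f g => q_ext C (by
      change cMul k (matMul k R I (Fin 2) (Fin 2)) (qv C α (wtn n) (c • f)) (av C g)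
        = c • cMul k (matMul k R I (Fin 2) (Fin 2)) (qv C α (wtn n) f) (av C g)
      rw [map_smul, map_smul, LinearMap.smul_apply]))
    (fun f g g' => q_ext C (by
      change cMul k (matMul k R I (Fin 2) (Fin 2)) (qv C α (wtn n) f) (av C (g + g'))
        = cMul k (matMul k R I (Fin 2) (Fin 2)) (qv C α (wtn n) f) (av C g)
          + cMul k (matMul k R I (Fin 2) (Fin 2)) (qv C α (wtn n) f) (av C g')
      rw [map_add, map_add]))
    (fun c f g => q_ext C (by
      change cMul k (matMul k R I (Fin 2) (Fin 2)) (qv C α (wtn n) f) (av C (c • g))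
        = c • cMul k (matMul k R I (Fin 2) (Fin 2)) (qv C α (wtn n) f) (av C g)
      rw [map_smul, map_smul]))

@[simp] theorem qv_qMulR (C : CubicRing k t R) (α : I → ℤ) (n : ℤ)
    (f : (qSD C α (wtn n)).V) (g : (AA C).V) :
    qv C α (wtn n) (qMulR C α n f g)
      = cMul k (matMul k R I (Fin 2) (Fin 2)) (qv C α (wtn n) f) (av C g) := rfl

/-- the left action of `A` on Čech matrices with rows of weights `wt` -/
noncomputable def qLA (C : CubicRing k t R) (β : J → ℤ) : LA (AA C) (qSD C wt β) where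
  act := qMulL C β
  mul_act a b y := q_ext C (by
    rw [qv_qMulL, qv_qMulL, qv_qMulL, av_mul]
    exact cMul_assoc k (matMul k R (Fin 2) (Fin 2) (Fin 2)) (matMul k R (Fin 2) (Fin 2) J)
      (matMul k R (Fin 2) (Fin 2) J) (matMul k R (Fin 2) (Fin 2) J)
      (fun a b c => matMul_assoc' a b c) _ _ _)
  P_act a b := q_ext C (by
    rw [qv_P, qv_qMulL, map_add, qv_qMulL, qv_qMulL, av_sub_P, qv_sub_P, av_P, qv_P]
    exact cMul_P k (matMul k R (Fin 2) (Fin 2) J) _ _)
  D_act a b := q_ext C (by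
    rw [qv_D, qv_qMulL, map_add, qv_qMulL, qv_qMulL, av_D, qv_D, av_E]
    exact cMul_D k (matMul k R (Fin 2) (Fin 2) J) _ _)

/-- the right action of `A` on Čech matrices with columns of weights `wtn n` -/
noncomputable def qRA (C : CubicRing k t R) (α : I → ℤ) (n : ℤ) :
    RA (AA C) (qSD C α (wtn n)) where
  act := qMulR C α n
  act_mul x a b := q_ext C (by
    rw [qv_qMulR, qv_qMulR, qv_qMulR, av_mul]
    exact cMul_assoc k (matMul k R I (Fin 2) (Fin 2)) (matMul k R I (Fin 2) (Fin 2))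
      (matMul k R (Fin 2) (Fin 2) (Fin 2)) (matMul k R I (Fin 2) (Fin 2))
      (fun a b c => matMul_assoc' a b c) _ _ _)
  P_act a b := q_ext C (by
    rw [qv_P, qv_qMulR, map_add, qv_qMulR, qv_qMulR, av_sub_P, qv_sub_P, av_P, qv_P]
    exact cMul_P k (matMul k R I (Fin 2) (Fin 2)) _ _)
  D_act a b := q_ext C (by
    rw [qv_D, qv_qMulR, map_add, qv_qMulR, qv_qMulR, av_D, qv_D, qv_E]
    exact cMul_D k (matMul k R I (Fin 2) (Fin 2)) _ _)

theorem qLA_one (C : CubicRing k t R) (β : J → ℤ) (y : (qSD C wt β).V) :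
    (qLA C β).act 1 y = y :=
  q_ext C (by
    change qv C wt β (qMulL C β 1 y) = _
    rw [qv_qMulL, av_one, cOne_cMul])

theorem qRA_one (C : CubicRing k t R) (α : I → ℤ) (n : ℤ) (y : (qSD C α (wtn n)).V) :
    (qRA C α n).act y 1 = y :=
  q_ext C (by
    change qv C α (wtn n) (qMulR C α n y 1) = _
    rw [qv_qMulR, av_one, cMul_cOne])

/-- the bimodule `Q n`, with entries in `O(n + j - i)` -/
noncomputable def Qb (C : CubicRing k t R) (n : ℤ) : BMod (AA C) (AA C) where
  N := qSD C wt (wtn n)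
  b :=
    { l := qLA C (wtn n)
      r := qRA C wt n
      lr := fun a x b => q_ext C (by
        change qv C wt (wtn n) (qMulR C wt n (qMulL C (wtn n) a x) b)
          = qv C wt (wtn n) (qMulL C (wtn n) a (qMulR C wt n x b))
        rw [qv_qMulR, qv_qMulL, qv_qMulL, qv_qMulR]
        exact cMul_assoc k (matMul k R (Fin 2) (Fin 2) (Fin 2)) (matMul k R (Fin 2) (Fin 2) (Fin 2))
          (matMul k R (Fin 2) (Fin 2) (Fin 2)) (matMul k R (Fin 2) (Fin 2) (Fin 2))
          (fun a b c => matMul_assoc' a b c) _ _ _) }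
  one_l := fun y => qLA_one C (wtn n) y
  r_one := fun y => qRA_one C wt n y

/-- the bimodule `K m n = L m ⊗ P n` -/
noncomputable def Kb (C : CubicRing k t R) (m n : ℤ) : BMod (AA C) (AA C) where
  N := (Lc C m).tens (Pr C n)
  b := Bi.tensLR (qLA C (fun _ : Unit => m)) (qRA C (fun _ : Unit => (0 : ℤ)) n)
  one_l := fun v => by
    refine tens_ext (f := ((qLA C (fun _ : Unit => m)).tensL (Pr C n)).act 1)
      (g := LinearMap.id) (fun x y => ?_) v
    rw [LA.tensL_act, qLA_one]
    rfl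
  r_one := fun v => by
    refine tens_ext (f := ((qRA C (fun _ : Unit => (0 : ℤ)) n).tensR (Lc C m)).act.flip 1)
      (g := LinearMap.id) (fun x y => ?_) v
    change ((qRA C (fun _ : Unit => (0 : ℤ)) n).tensR (Lc C m)).act (x ⊗ₜ[k] y) 1 = _
    rw [RA.tensR_act, qRA_one]
    rfl

end H36.NX
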