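import Pool.Agent.H36.NX.Tri
import Pool.Agent.H36.NX.Mul

/-!
# Alg : Čech matrices of sections

`QQ C α β`: Čech matrices with rows indexed by `I` (weights `α`) and columns indexed by `J` (weights `β`), the entry
`(i, j)` being a section of `O(β j - α i)`. `A = QQ C wt wt` with `I = J = Fin 2`, `wt i = i`.
-/

set_option autoImplicit false

open NC

namespace H36.NX

variable {k : Type} [Field k] {t : k} {R : Type} [CommRing R] [Algebra k R]

theorem CubicRing.pc_mul_mem (C : CubicRing k t R) (s : Pc) {m n : ℤ} {a b : R}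
    (ha : a ∈ C.pc s m) (hb : b ∈ C.pc s n) : a * b ∈ C.pc s (m + n) := by
  cases s with
  | X => exact C.mul_mem_X ha hb
  | Y => exact C.mul_mem_Y ha hb
  | R => exact Submodule.mem_top

theorem CubicRing.one_mem_pc (C : CubicRing k t R) (s : Pc) {n : ℤ} (hn : 0 ≤ n) :
    (1 : R) ∈ C.pc s n := by
  cases s with
  | X => exact C.one_mem_X
  | Y => exact C.one_mem_Y hn
  | R => exact Submodule.mem_top

theorem CubicRing.u_mem_pc (C : CubicRing k t R) (s : Pc) {n : ℤ} (hn : 1 ≤ n) :
    (C.u : R) ∈ C.pc s n := by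
  cases s with
  | X => exact C.u_mem_X
  | Y =>
    have h := C.upow_mem_Y hn
    rw [zpow_one] at h
    exact h
  | R => exact Submodule.mem_top

theorem CubicRing.w_mem_pc (C : CubicRing k t R) (s : Pc) {n : ℤ} (hn : 1 ≤ n) :
    C.w ∈ C.pc s n := by
  cases s with
  | X => exact C.w_mem_X
  | Y => exact C.w_mem_Y hn
  | R => exact Submodule.mem_top

theorem CubicRing.pc_mono (C : CubicRing k t R) (s : Pc) {m n : ℤ} (h : m ≤ n) :
    C.pc s m ≤ C.pc s n := by
  cases s with
  | X => exact le_rfl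
  | Y => exact C.Y_mono h
  | R => exact le_rfl

/-- Čech matrices of sections, with weights -/
noncomputable def QQ (C : CubicRing k t R) {I J : Type} (α : I → ℤ) (β : J → ℤ) :
    Submodule k (Pc → Matrix I J R) where
  carrier := {f | ∀ s i j, f s i j ∈ C.pc s (β j - α i)}
  add_mem' := fun ha hb s i j => (C.pc s _).add_mem (ha s i j) (hb s i j)
  zero_mem' := fun s _ _ => (C.pc s _).zero_mem
  smul_mem' := fun c _ ha s i j => (C.pc s _).smul_mem c (ha s i j)

theorem mem_QQ (C : CubicRing k t R) {I J : Type} (α : I → ℤ) (β : J → ℤ)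
    (f : Pc → Matrix I J R) : f ∈ QQ C α β ↔ ∀ s i j, f s i j ∈ C.pc s (β j - α i) := Iff.rfl

theorem cD_mem_QQ (C : CubicRing k t R) {I J : Type} (α : I → ℤ) (β : J → ℤ)
    (f : Pc → Matrix I J R) (_hf : f ∈ QQ C α β) : cD k _ f ∈ QQ C α β := by
  intro s i j
  cases s with
  | X => exact C.X.zero_mem
  | Y => exact (C.Y _).zero_mem
  | R => exact Submodule.mem_top

theorem cP_mem_QQ (C : CubicRing k t R) {I J : Type} (α : I → ℤ) (β : J → ℤ)
    (f : Pc → Matrix I J R) (hf : f ∈ QQ C α β) : cP k _ f ∈ QQ C α β := by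
  intro s i j
  cases s with
  | X => exact hf Pc.X i j
  | Y => exact hf Pc.Y i j
  | R => exact Submodule.mem_top

/-- the product of matrices as a bilinear map -/
def matMul (k : Type) [Field k] (R : Type) [CommRing R] [Algebra k R] (I J L : Type) [Fintype J] :
    Matrix I J R →ₗ[k] Matrix J L R →ₗ[k] Matrix I L R :=
  LinearMap.mk₂ k (fun M N => M * N) (fun _ _ _ => Matrix.add_mul _ _ _)
    (fun _ _ _ => by simp) (fun _ _ _ => Matrix.mul_add _ _ _) (fun _ _ _ => by simp)

@[simp] theorem matMul_apply (I J L : Type) [Fintype J] (M : Matrix I J R) (N : Matrix J L R) :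
    matMul k R I J L M N = M * N := rfl

theorem mul_mem_QQ (C : CubicRing k t R) {I J L : Type} [Fintype J] (α : I → ℤ) (β : J → ℤ)
    (γ : L → ℤ) (f : Pc → Matrix I J R) (hf : f ∈ QQ C α β) (g : Pc → Matrix J L R)
    (hg : g ∈ QQ C β γ) : cMul k (matMul k R I J L) f g ∈ QQ C α γ := by
  intro s i j
  cases s with
  | X =>
    change (f Pc.X * g Pc.X) i j ∈ C.pc Pc.X (γ j - α i)
    rw [Matrix.mul_apply]
    refine Submodule.sum_mem _ (fun l _ => ?_)
    have h := C.pc_mul_mem Pc.X (hf Pc.X i l) (hg Pc.X l j)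
    rwa [show β l - α i + (γ j - β l) = γ j - α i by ring] at h
  | Y =>
    change (f Pc.Y * g Pc.Y) i j ∈ C.pc Pc.Y (γ j - α i)
    rw [Matrix.mul_apply]
    refine Submodule.sum_mem _ (fun l _ => ?_)
    have h := C.pc_mul_mem Pc.Y (hf Pc.Y i l) (hg Pc.Y l j)
    rwa [show β l - α i + (γ j - β l) = γ j - α i by ring] at h
  | R => exact Submodule.mem_top

theorem one_mem_QQ (C : CubicRing k t R) {I : Type} [Fintype I] [DecidableEq I] (α : I → ℤ) :
    cOne (Matrix I I R) ∈ QQ C α α := by
  intro s i j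
  cases s with
  | X =>
    change (1 : Matrix I I R) i j ∈ C.pc Pc.X (α j - α i)
    rw [Matrix.one_apply]
    split
    · next h => subst h; exact C.one_mem_pc _ (by simp)
    · exact Submodule.zero_mem _
  | Y =>
    change (1 : Matrix I I R) i j ∈ C.pc Pc.Y (α j - α i)
    rw [Matrix.one_apply]
    split
    · next h => subst h; exact C.one_mem_pc _ (by simp)
    · exact Submodule.zero_mem _
  | R => exact Submodule.mem_top

/-- the weights `0`, `1` -/
def wt (i : Fin 2) : ℤ := ((i : ℕ) : ℤ)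

end H36.NX
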