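import Pool.Agent.H16.NC.Tens

/-!
# TensHom : tensor products of module maps, and of short exact sequences
-/

set_option autoImplicit false

open NC
open scoped TensorProduct

namespace H36.NX

variable {k : Type} [Field k]

/-- a tensor product of module maps is a bimodule map -/
theorem isHom_tens {A B : DGA k} {X X' Y Y' : SD k} {a : LA A X} {a' : LA A X'} {b : RA B Y}
    {b' : RA B Y'} (f : SD.Hom X X') (g : SD.Hom Y Y') (hf : a.IsHom a' f) (hg : b.IsHom b' g) :
    (Bi.tensLR a b).IsHom (Bi.tensLR a' b') (f.tens g) := by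
  constructor
  · intro r v
    refine tens_ext (f := TensorProduct.map f.f g.f ∘ₗ (a.tensL Y).act r)
      (g := (a'.tensL Y').act r ∘ₗ TensorProduct.map f.f g.f) (fun x y => ?_) v
    change f.f (a.act r x) ⊗ₜ[k] g.f y = a'.act r (f.f x) ⊗ₜ[k] g.f y
    rw [hf r x]
  · intro v r
    refine tens_ext (f := TensorProduct.map f.f g.f ∘ₗ (b.tensR X).act.flip r)
      (g := (b'.tensR X').act.flip r ∘ₗ TensorProduct.map f.f g.f) (fun x y => ?_) v
    change f.f x ⊗ₜ[k] g.f (b.act y r) = f.f x ⊗ₜ[k] b'.act (g.f y) r
    rw [hg y r]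

/-- tensoring an exact sequence on the right, over a field -/
theorem ses_tensR {X' X X'' : SD k} {f : SD.Hom X' X} {g : SD.Hom X X''} (h : SD.SES f g)
    (Y : SD k) : SD.SES (f.tens (SD.Hom.id Y)) (g.tens (SD.Hom.id Y)) := by
  have hinj : Function.Injective f.f := (injective_iff_map_eq_zero f.f).2 h.inj
  have hsurj : Function.Surjective g.f := h.surj
  have hex : Function.Exact f.f g.f := by
    intro y
    constructor
    · intro hy; exact h.exact y hy
    · rintro ⟨x, rfl⟩; exact h.zero x
  have e1 : (f.tens (SD.Hom.id Y)).f = f.f.rTensor Y.V := rfl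
  have e2 : (g.tens (SD.Hom.id Y)).f = g.f.rTensor Y.V := rfl
  have hex' := rTensor_exact Y.V hex hsurj
  constructor
  · intro x hx
    rw [e1] at hx
    have := Module.Flat.rTensor_preserves_injective_linearMap (M := Y.V) f.f hinj
    exact this (hx.trans (map_zero _).symm)
  · intro z
    rw [e2]
    exact LinearMap.rTensor_surjective Y.V hsurj z
  · intro x
    rw [e1, e2]
    exact (hex' _).2 ⟨x, rfl⟩
  · intro y hy
    rw [e2] at hy
    rw [e1]
    exact (hex' y).1 hy

/-- tensoring an exact sequence on the left, over a field -/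
theorem ses_tensL {X' X X'' : SD k} {f : SD.Hom X' X} {g : SD.Hom X X''} (h : SD.SES f g)
    (Y : SD k) : SD.SES ((SD.Hom.id Y).tens f) ((SD.Hom.id Y).tens g) := by
  have hinj : Function.Injective f.f := (injective_iff_map_eq_zero f.f).2 h.inj
  have hsurj : Function.Surjective g.f := h.surj
  have hex : Function.Exact f.f g.f := by
    intro y
    constructor
    · intro hy; exact h.exact y hy
    · rintro ⟨x, rfl⟩; exact h.zero x
  have e1 : ((SD.Hom.id Y).tens f).f = f.f.lTensor Y.V := rfl
  have e2 : ((SD.Hom.id Y).tens g).f = g.f.lTensor Y.V := rfl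
  have hex' := lTensor_exact Y.V hex hsurj
  constructor
  · intro x hx
    rw [e1] at hx
    have := Module.Flat.lTensor_preserves_injective_linearMap (M := Y.V) f.f hinj
    exact this (hx.trans (map_zero _).symm)
  · intro z
    rw [e2]
    exact LinearMap.lTensor_surjective Y.V hsurj z
  · intro x
    rw [e1, e2]
    exact (hex' _).2 ⟨x, rfl⟩
  · intro y hy
    rw [e2] at hy
    rw [e1]
    exact (hex' y).1 hy

end H36.NX
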