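import Pool.Agent.H36.NX.RCd
import Pool.Agent.H9.NC.Coh

/-!
# RCf : `hom(V, Z) ⊗ Y → hom(V, Z ⊗ Y)` is a quasi-isomorphism for `V` with finite dimensional homology
-/

set_option autoImplicit false

open scoped TensorProduct

noncomputable section

namespace NC

variable {k : Type} [Field k] {V V' W Z Y : SD k}

/-- a homotopy on the left factor of a tensor product -/
theorem tensL_htpF {X : SD k} (u : SD.Hom X X) (σ : X.V →ₗ[k] X.V)
    (hσ : ∀ x, X.E (σ x) = - σ (X.E x)) (h : ∀ x, u.f x = x + X.D (σ x) + σ (X.D x)) (Y : SD k)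
    (v : (X.tens Y).V) :
    (u.tens (SD.Hom.id Y)).f v = v + (X.tens Y).D (TensorProduct.map σ LinearMap.id v)
      + TensorProduct.map σ LinearMap.id ((X.tens Y).D v) := by
  refine tens_ext (f := (u.tens (SD.Hom.id Y)).f)
    (g := LinearMap.id + SD.tD X Y ∘ₗ TensorProduct.map σ LinearMap.id
      + TensorProduct.map σ LinearMap.id ∘ₗ SD.tD X Y) (fun x y => ?_) v
  change u.f x ⊗ₜ y = x ⊗ₜ y + (X.D (σ x) ⊗ₜ y + X.E (σ x) ⊗ₜ Y.D y)
    + TensorProduct.map σ LinearMap.id (X.D x ⊗ₜ y + X.E x ⊗ₜ Y.D y)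
  rw [map_add, TensorProduct.map_tmul, TensorProduct.map_tmul, LinearMap.id_apply,
    LinearMap.id_apply, hσ, TensorProduct.neg_tmul, h, TensorProduct.add_tmul,
    TensorProduct.add_tmul]
  abel

/-- precomposition on all linear maps -/
def homPreK (u : SD.Hom V' V) (Z : SD k) : SD.Hom (SD.hom V Z) (SD.hom V' Z) where
  f := LinearMap.lcomp k Z.V u.f
  D φ := by
    refine LinearMap.ext fun x => ?_
    have e1 : (SD.hom V' Z).D ((LinearMap.lcomp k Z.V u.f) φ) x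
        = Z.D (φ (u.f x)) - Z.E (φ (u.f (V'.E (V'.D x)))) := SD.hom_D _ _ _ _
    have e2 : LinearMap.lcomp k Z.V u.f ((SD.hom V Z).D φ) x
        = Z.D (φ (u.f x)) - Z.E (φ (V.E (V.D (u.f x)))) := SD.hom_D _ _ _ _
    rw [e1, e2, u.E, u.D]
  P φ := by
    refine LinearMap.ext fun x => ?_
    change Z.P (φ (V.P (u.f x))) + (φ (u.f x - V.P (u.f x)) - Z.P (φ (u.f x - V.P (u.f x))))
      = Z.P (φ (u.f (V'.P x))) + (φ (u.f (x - V'.P x)) - Z.P (φ (u.f (x - V'.P x))))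
    rw [map_sub u.f, u.P]

theorem homPreK_apply (u : SD.Hom V' V) (Z : SD k) (φ : V.V →ₗ[k] Z.V) (x : V'.V) :
    (homPreK u Z).f φ x = φ (u.f x) := rfl

/-- naturality in `V` -/
theorem homK_nat (u : SD.Hom V' V) (Z Y : SD k) (v : ((SD.hom V Z).tens Y).V) :
    (homK V' Z Y).f (((homPreK u Z).tens (SD.Hom.id Y)).f v)
      = (homPreK u (Z.tens Y)).f ((homK V Z Y).f v) := by
  refine tens_ext (f := (homK V' Z Y).f ∘ₗ ((homPreK u Z).tens (SD.Hom.id Y)).f)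
    (g := (homPreK u (Z.tens Y)).f ∘ₗ (homK V Z Y).f) (fun φ y => ?_) v
  refine LinearMap.ext fun x => ?_
  change φ (u.f (V'.P x)) ⊗ₜ y + φ (u.f (x - V'.P x)) ⊗ₜ Y.E y
    = φ (V.P (u.f x)) ⊗ₜ y + φ (u.f x - V.P (u.f x)) ⊗ₜ Y.E y
  rw [map_sub u.f, u.P]

/-- finite dimensional `V`: bijective (`rTensorHomEquivHomRTensor` of Mathlib, up to the sign involution
`f ⊗ y ↦ f P ⊗ y + f (1 - P) ⊗ E y`) -/
theorem homK_bijective (V Z Y : SD k) [FiniteDimensional k V.V] :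
    Function.Bijective (homK V Z Y).f := by
  let τ : (V.V →ₗ[k] Z.V) ⊗[k] Y.V →ₗ[k] (V.V →ₗ[k] Z.V) ⊗[k] Y.V :=
    TensorProduct.map (LinearMap.lcomp k Z.V V.P) LinearMap.id
      + TensorProduct.map (LinearMap.lcomp k Z.V (LinearMap.id - V.P)) Y.E
  have h1 : ∀ (φ : V.V →ₗ[k] Z.V) (y : Y.V),
      τ (φ ⊗ₜ y) = (φ ∘ₗ V.P) ⊗ₜ y + (φ ∘ₗ (LinearMap.id - V.P)) ⊗ₜ Y.E y := fun _ _ => rfl
  have p1 : V.P ∘ₗ V.P = V.P := LinearMap.ext V.PP
  have p2 : V.P ∘ₗ (LinearMap.id - V.P) = 0 := by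
    refine LinearMap.ext fun x => ?_
    change V.P (x - V.P x) = 0
    rw [map_sub, V.PP, sub_self]
  have p3 : (LinearMap.id - V.P) ∘ₗ V.P = 0 := by
    refine LinearMap.ext fun x => ?_
    change V.P x - V.P (V.P x) = 0
    rw [V.PP, sub_self]
  have p4 : (LinearMap.id - V.P) ∘ₗ (LinearMap.id - V.P) = LinearMap.id - V.P := by
    refine LinearMap.ext fun x => ?_
    change (x - V.P x) - V.P (x - V.P x) = x - V.P x
    rw [map_sub, V.PP, sub_self, sub_zero]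
  have h2 : ∀ v, τ (τ v) = v := by
    intro v
    refine tens_ext (f := τ ∘ₗ τ) (g := LinearMap.id) (fun φ y => ?_) v
    rw [LinearMap.comp_apply, h1, map_add, h1, h1, LinearMap.comp_assoc, LinearMap.comp_assoc,
      LinearMap.comp_assoc, LinearMap.comp_assoc, p1, p2, p3, p4, LinearMap.comp_zero,
      TensorProduct.zero_tmul, Y.EE, add_zero, zero_add,
      ← TensorProduct.add_tmul, ← LinearMap.comp_add, add_sub_cancel, LinearMap.comp_id]
    rfl
  have h3 : Function.Bijective τ :=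
    ⟨fun a b hab => by rw [← h2 a, hab, h2 b], fun b => ⟨τ b, h2 b⟩⟩
  have h4 : ∀ v, (homK V Z Y).f v = rTensorHomEquivHomRTensor k V.V Z.V Y.V (τ v) := by
    intro v
    refine tens_ext (f := (homK V Z Y).f)
      (g := (rTensorHomEquivHomRTensor k V.V Z.V Y.V).toLinearMap ∘ₗ τ) (fun φ y => ?_) v
    refine LinearMap.ext fun x => ?_
    rw [LinearMap.comp_apply, h1, map_add, homK_tmul]
    change _ = (rTensorHomEquivHomRTensor k V.V Z.V Y.V ((φ ∘ₗ V.P) ⊗ₜ y)) x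
      + (rTensorHomEquivHomRTensor k V.V Z.V Y.V ((φ ∘ₗ (LinearMap.id - V.P)) ⊗ₜ Y.E y)) x
    rw [rTensorHomEquivHomRTensor_apply, rTensorHomEquivHomRTensor_apply]
    rfl
  have h5 : ((homK V Z Y).f : _ → _) = fun v => rTensorHomEquivHomRTensor k V.V Z.V Y.V (τ v) :=
    funext h4
  rw [h5]
  exact (rTensorHomEquivHomRTensor k V.V Z.V Y.V).bijective.comp h3

/-- the homotopy `φ ↦ (E φ E) h` -/
def homHK (Z : SD k) (h : V.V →ₗ[k] V.V) : (V.V →ₗ[k] Z.V) →ₗ[k] (V.V →ₗ[k] Z.V) :=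
  LinearMap.lcomp k Z.V h ∘ₗ SD.hE V Z

theorem homHK_odd (Z : SD k) (h : V.V →ₗ[k] V.V) (hE : ∀ x, V.E (h x) = - h (V.E x))
    (φ : V.V →ₗ[k] Z.V) : (SD.hom V Z).E (homHK Z h φ) = - homHK Z h ((SD.hom V Z).E φ) := by
  have e0 : ∀ (ψ : V.V →ₗ[k] Z.V) (x : V.V), homHK Z h ψ x = Z.E (ψ (V.E (h x))) :=
    fun ψ x => SD.hE_apply V Z ψ (h x)
  have e1 : ∀ x, V.E (h (V.E x)) = - h x := by
    intro x
    rw [hE, V.EE]
  refine LinearMap.ext fun x => ?_
  rw [SD.hom_E, e0, Z.EE, e1, LinearMap.neg_apply, e0, SD.hom_E, Z.EE, V.EE, map_neg]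

theorem homHK_htp (Z : SD k) (s : SD.Hom V W) (ρ : SD.Hom W V) (h : V.V →ₗ[k] V.V)
    (hE : ∀ x, V.E (h x) = - h (V.E x)) (heq : ∀ x, ρ.f (s.f x) = x + V.D (h x) + h (V.D x))
    (φ : V.V →ₗ[k] Z.V) :
    (homPreK s Z).f ((homPreK ρ Z).f φ) = φ + (SD.hom V Z).D (homHK Z h φ)
      + homHK Z h ((SD.hom V Z).D φ) := by
  have e0 : ∀ (ψ : V.V →ₗ[k] Z.V) (x : V.V), homHK Z h ψ x = Z.E (ψ (V.E (h x))) :=
    fun ψ x => SD.hE_apply V Z ψ (h x)
  have e1 : ∀ x, V.E (h (V.E x)) = - h x := by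
    intro x
    rw [hE, V.EE]
  refine LinearMap.ext fun x => ?_
  change φ (ρ.f (s.f x)) = φ x + (SD.hom V Z).D (homHK Z h φ) x
    + homHK Z h ((SD.hom V Z).D φ) x
  rw [heq, SD.hom_D, e0, e0, e0, SD.hom_D, Z.EE, e1, map_sub, Z.EE, V.DE, map_neg V.E, V.EE,
    Z.DE, map_add, map_add, map_neg, map_neg]
  abel

/-- **quasi-isomorphism** (retract of the harmonic space: `SD.hodge`, `Hodge.harm`, `incl`, `proj`) -/
theorem homK_qi (hV : V.FinH) (Z Y : SD k) : (homK V Z Y).QI := by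
  obtain ⟨H⟩ := V.hodge
  have i1 : FiniteDimensional k H.harm.V := H.finite hV
  have hE : ∀ x, V.E ((-H.h) x) = - (-H.h) (V.E x) := by
    intro x
    have e : H.h (V.E x) = - V.E (H.h x) := SD.OddMap.E H.h_P x
    rw [LinearMap.neg_apply, LinearMap.neg_apply, e, map_neg, neg_neg]
  have heq : ∀ x, H.incl.f (H.proj.f x) = x + V.D ((-H.h) x) + (-H.h) (V.D x) := by
    intro x
    have e : H.pi x = x - (V.D (H.h x) + H.h (V.D x)) := by rw [H.eq, sub_sub_cancel]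
    rw [H.incl_proj, e, LinearMap.neg_apply, LinearMap.neg_apply, map_neg]
    abel
  have key : ∀ (W : SD k) (φ : (SD.hom V W).V), (homPreK H.proj W).f ((homPreK H.incl W).f φ)
      = φ + (SD.hom V W).D (homHK W (-H.h) φ) + homHK W (-H.h) ((SD.hom V W).D φ) :=
    fun W φ => homHK_htp W H.proj H.incl (-H.h) hE heq φ
  refine (SD.Hom.QI.of_bijective (homK_bijective H.harm Z Y)).of_retract
    ((homPreK H.incl Z).tens (SD.Hom.id Y)) ((homPreK H.proj Z).tens (SD.Hom.id Y))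
    (homPreK H.incl (Z.tens Y)) (homPreK H.proj (Z.tens Y)) (fun v hv => ?_) (fun φ hφ => ?_)
    (fun v => homK_nat H.incl Z Y v) (fun v => homK_nat H.proj Z Y v)
  · have e := tensL_htpF ((homPreK H.proj Z).comp (homPreK H.incl Z)) (homHK Z (-H.h))
      (fun φ => homHK_odd Z (-H.h) hE φ) (fun φ => key Z φ) Y v
    refine ⟨TensorProduct.map (homHK Z (-H.h)) LinearMap.id v, ?_⟩
    have e2 : (((homPreK H.proj Z).comp (homPreK H.incl Z)).tens (SD.Hom.id Y)).f v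
        = ((homPreK H.proj Z).tens (SD.Hom.id Y)).f (((homPreK H.incl Z).tens (SD.Hom.id Y)).f v) :=
      tens_ext (f := (((homPreK H.proj Z).comp (homPreK H.incl Z)).tens (SD.Hom.id Y)).f)
        (g := (((homPreK H.proj Z).tens (SD.Hom.id Y)).comp
          ((homPreK H.incl Z).tens (SD.Hom.id Y))).f) (fun _ _ => rfl) v
    rw [← e2, e, hv, map_zero, add_zero, add_sub_cancel_left]
  · refine ⟨homHK (Z.tens Y) (-H.h) φ, ?_⟩
    rw [key, hφ, map_zero, add_zero, add_sub_cancel_left]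

end NC
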