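import Pool.Agent.H36.NX.RCb

/-!
# RCc : the contraction `Bar(Z, B, HomR(M, B)) → HomR(M, Z)` is a quasi-isomorphism for perfect right modules `M`
-/

set_option autoImplicit false

open scoped TensorProduct

noncomputable section

namespace NC

variable {k : Type} [Field k] {B : DGA k} {M M' M'' Z : SD k}

/-- zero module -/
theorem contrR_zero (rM : RA B M) (rZ : RA B Z) (h : M.IsZero) : (contrR rM rZ).QI := by
  have hz : ∀ (Z' : SD k) (rZ' : RA B Z') (φ : (HomR rM rZ').V), φ = 0 := fun Z' rZ' φ =>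
    Subtype.ext (LinearMap.ext fun x => by
      rw [h x, map_zero, map_zero])
  have hb : ∀ v : (Bar rZ (mstL rM)).V, v = 0 := by
    intro v
    refine tens_ext (f := LinearMap.id) (g := 0) (fun w φ => ?_) v
    rw [hz _ _ φ]
    simp
  constructor
  · intro x y _ _
    exact ⟨0, (hb _).trans (hb x).symm⟩
  · intro y _
    exact ⟨0, 0, hb _, (hz _ _ y).trans (hz _ _ _).symm⟩

/-- free module: `ev1 ∘ contrR = augR ∘ Bar(id, ev1)` -/
theorem contrR_free (rZ : RA B Z) (h1 : ∀ z, rZ.act z 1 = z) : (contrR B.diag.r rZ).QI := by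
  have he : (ev1 (B := B) rZ).QI := SD.Hom.QI.of_bijective (ev1_bijective rZ h1)
  have heB : (ev1 (B := B) B.diag.r).QI :=
    SD.Hom.QI.of_bijective (ev1_bijective B.diag.r fun z => mul_one (M := B.V) z)
  have hL : (mstL B.diag.r).IsHom B.diag.l (ev1 B.diag.r) := ev1_left B.diag.r B.diag.l B.diag.lr
  have hb := qi_bar_right rZ hL heB
  have hc : ((augR rZ).comp (barMap (SD.Hom.id Z) (ev1 B.diag.r) (RA.isHom_id rZ) hL)).QI :=
    (qi_augR rZ h1).comp hb
  refine SD.Hom.QI.of_comp_left he (hc.congr fun v => ?_)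
  rw [SD.Hom.comp_f, SD.Hom.comp_f]
  refine tens_ext
    (f := (augR rZ).f ∘ₗ (barMap (SD.Hom.id Z) (ev1 B.diag.r) (RA.isHom_id rZ) hL).f)
    (g := (ev1 rZ).f ∘ₗ (contrR B.diag.r rZ).f) (fun w φ => ?_) v
  simp only [LinearMap.comp_apply]
  induction w using Wd.induction with
  | hadd a b ha hb =>
    rw [TensorProduct.add_tmul, map_add, map_add, map_add, map_add, ha, hb]
  | hnil z =>
    rw [ev1_apply, contrR_nil, barMap_tmul, Wd.map_nil]
    exact augB_nil rZ B.diag.l _ _ _ _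
  | hsnoc w _ r =>
    rw [barMap_tmul, Wd.map_snoc]
    have e1 : (augR rZ).f (Wd.snoc (Wd.map (SD.Hom.id Z).f LinearMap.id w) ((LinearMap.id : B.V →ₗ[k] B.V) r)
        ⊗ₜ (ev1 B.diag.r).f φ) = 0 := augB_snoc rZ B.diag.l _ _ _ _ _
    have e2 : (contrR B.diag.r rZ).f (Wd.snoc w r ⊗ₜ φ) = 0 := augB_snoc rZ _ _ _ _ _ _
    rw [e1, e2, map_zero]

/-- the inverse of a bijective morphism -/
private def invHom {N N' : SD k} (f : SD.Hom N N') (g : N'.V →ₗ[k] N.V) (h1 : ∀ x, g (f.f x) = x)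
    (h2 : ∀ y, f.f (g y) = y) : SD.Hom N' N where
  f := g
  D v := by
    have h3 := f.D (g v)
    rw [h2] at h3
    rw [← h3, h1]
  P v := by
    have h3 := f.P (g v)
    rw [h2] at h3
    rw [← h3, h1]

/-- shift: conjugation by `homSh`, `barShR` -/
theorem contrR_sh (rM : RA B M) (rZ : RA B Z) (h : (contrR rM rZ).QI) : (contrR rM.sh rZ).QI := by
  have hs : (homSh rM rZ).QI := SD.Hom.QI.of_bijective (homSh_bijective rM rZ)
  have hsB : (homSh rM B.diag.r).QI := SD.Hom.QI.of_bijective (homSh_bijective rM B.diag.r)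
  have hL : (mstL rM.sh).IsHom (mstL rM).sh (homSh rM B.diag.r) :=
    homSh_left rM B.diag.r B.diag.l B.diag.lr
  have hb := qi_bar_right rZ hL hsB
  have t1 : ∀ x, BM.TO Z B (LinearMap.id : (HomR rM B.diag.r).V →ₗ[k] (HomR rM B.diag.r).V)
      ((barShR rZ (mstL rM)).f x) = x :=
    fun x => (BM.TO_TO Z B _ _ x).trans (BM.TT_id Z B x)
  have t2 : ∀ x, (barShR rZ (mstL rM)).f
      (BM.TO Z B (LinearMap.id : (HomR rM B.diag.r).V →ₗ[k] (HomR rM B.diag.r).V) x) = x :=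
    fun x => (BM.TO_TO Z B _ _ x).trans (BM.TT_id Z B x)
  let b2 : SD.Hom (Bar rZ (mstL rM).sh) (Bar rZ (mstL rM)).sh :=
    invHom (barShR rZ (mstL rM)) (BM.TO Z B LinearMap.id) t1 t2
  have hb2 : b2.QI := BM.qi_of_bij b2 (barShR rZ (mstL rM)).f t2 t1
  have hc : ((contrR rM rZ).sh.comp
      (b2.comp (barMap (SD.Hom.id Z) (homSh rM B.diag.r) (RA.isHom_id rZ) hL))).QI :=
    h.sh.comp (hb2.comp hb)
  refine SD.Hom.QI.of_comp_left hs (hc.congr fun v => ?_)
  refine tens_ext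
    (f := (contrR rM rZ).f ∘ₗ (BM.TO Z B LinearMap.id) ∘ₗ
      (barMap (SD.Hom.id Z) (homSh rM B.diag.r) (RA.isHom_id rZ) hL).f)
    (g := (homSh rM rZ).f ∘ₗ (contrR rM.sh rZ).f) (fun w φ => ?_) v
  simp only [LinearMap.comp_apply]
  induction w using Wd.induction with
  | hadd a b ha hb =>
    rw [TensorProduct.add_tmul, map_add, map_add, map_add, map_add, map_add, ha, hb]
  | hnil z =>
    rw [barMap_tmul, Wd.map_nil]
    refine Subtype.ext (LinearMap.ext fun x => ?_)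
    rw [homSh_apply, contrR_nil]
    have e1 : BM.TO Z B (LinearMap.id : (HomR rM B.diag.r).V →ₗ[k] (HomR rM B.diag.r).V)
        (Wd.nil ((SD.Hom.id Z).f z) ⊗ₜ (homSh rM B.diag.r).f φ)
        = Wd.nil (Z.E z) ⊗ₜ (homSh rM B.diag.r).f φ := by
      rw [BM.TO_tmul]
      exact congrArg (· ⊗ₜ (homSh rM B.diag.r).f φ) (EW_nil Z B.toSD z)
    refine (congrArg (fun t => ((contrR rM rZ).f t).1 x) e1).trans ?_
    refine (contrR_nil rM rZ (Z.E z) ((homSh rM B.diag.r).f φ) x).trans ?_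
    rw [homSh_apply, rZ.E_act]
  | hsnoc w _ r =>
    have e2 : (contrR rM.sh rZ).f (Wd.snoc w r ⊗ₜ φ) = 0 := augB_snoc rZ _ _ _ _ _ _
    rw [e2, map_zero, barMap_tmul, Wd.map_snoc]
    have e1 : BM.TO Z B (LinearMap.id : (HomR rM B.diag.r).V →ₗ[k] (HomR rM B.diag.r).V)
        (Wd.snoc (Wd.map (SD.Hom.id Z).f LinearMap.id w) ((LinearMap.id : B.V →ₗ[k] B.V) r)
          ⊗ₜ (homSh rM B.diag.r).f φ)
        = - (Wd.snoc (EW Z B.toSD (Wd.map (SD.Hom.id Z).f LinearMap.id w)) (B.E r)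
          ⊗ₜ (homSh rM B.diag.r).f φ) := by
      rw [BM.TO_tmul, ← TensorProduct.neg_tmul]
      exact congrArg (· ⊗ₜ (homSh rM B.diag.r).f φ) (EW_snoc Z B.toSD _ _)
    refine (congrArg (contrR rM rZ).f e1).trans ?_
    rw [map_neg]
    refine (congrArg Neg.neg (augB_snoc rZ _ _ _ _ _ _)).trans neg_zero

/-- split extensions -/
theorem contrR_ext {rM' : RA B M'} {rM : RA B M} {rM'' : RA B M''} {f : SD.Hom M' M}
    (hf : rM'.IsHom rM f) {g : SD.Hom M M''} (hg : rM.IsHom rM'' g) (hs : SD.SES f g)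
    (s : M''.V →ₗ[k] M.V) (hs1 : ∀ x, g.f (s x) = x) (hsb : ∀ x b, s (rM''.act x b) = rM.act (s x) b)
    (rZ : RA B Z) (h' : (contrR rM' rZ).QI) (h'' : (contrR rM'' rZ).QI) : (contrR rM rZ).QI :=
  SD.SES.qi_mid
    (ses_bar_right (homPre_ses hf hg hs s hs1 hsb B.diag.r)
      (homPre_left g hg B.diag.r B.diag.l B.diag.lr) (homPre_left f hf B.diag.r B.diag.l B.diag.lr) rZ)
    (homPre_ses hf hg hs s hs1 hsb rZ) (fun v => contrR_nat g hg rZ v)
    (fun v => contrR_nat f hf rZ v) h'' h'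

theorem contrR_fin (rZ : RA B Z) (h1 : ∀ z, rZ.act z 1 = z) {rM : RA B M} (h : FinSF B M rM) :
    (contrR rM rZ).QI := by
  induction h with
  | zero h => exact contrR_zero _ rZ h
  | ext f hf g hg hs _ ih =>
    obtain ⟨s, hs1, hs2⟩ := split_free hg hs.surj
    exact contrR_ext hf hg hs s hs1 hs2 rZ ih (contrR_free rZ h1)
  | exts f hf g hg hs _ ih =>
    obtain ⟨s, hs1, hs2⟩ := split_freeSh hg hs.surj
    exact contrR_ext hf hg hs s hs1 hs2 rZ ih (contrR_sh _ rZ (contrR_free rZ h1))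

/-- **the contraction is a quasi-isomorphism** -/
theorem contrR_qi {rM : RA B M} (hM : RPf rM) (rZ : RA B Z) (h1 : ∀ z, rZ.act z 1 = z) :
    (contrR rM rZ).QI := by
  obtain ⟨F, rF, s, ρ, h, hF, hs, hρ, hr, hE, heq⟩ := hM.odd
  refine (contrR_fin rZ h1 hF).of_retract
    (barMap (SD.Hom.id Z) (homPre ρ hρ B.diag.r) (RA.isHom_id rZ)
      (homPre_left ρ hρ B.diag.r B.diag.l B.diag.lr))
    (barMap (SD.Hom.id Z) (homPre s hs B.diag.r) (RA.isHom_id rZ)
      (homPre_left s hs B.diag.r B.diag.l B.diag.lr))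
    (homPre ρ hρ rZ) (homPre s hs rZ) (fun v hv => ?_) (fun φ hφ => ?_)
    (fun v => contrR_nat ρ hρ rZ v) (fun v => contrR_nat s hs rZ v)
  · exact bar_htp_right rZ (homPre ρ hρ B.diag.r) (homPre_left ρ hρ B.diag.r B.diag.l B.diag.lr)
      (homPre s hs B.diag.r) (homPre_left s hs B.diag.r B.diag.l B.diag.lr)
      (homH rM B.diag.r h hr) (fun b φ => homH_left rM B.diag.r h hr B.diag.l B.diag.lr b φ)
      (fun φ => homH_odd rM B.diag.r h hr hE φ)
      (fun φ => homH_htp B.diag.r s hs ρ hρ h hr hE heq φ) v hv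
  · refine ⟨homH rM rZ h hr φ, ?_⟩
    rw [homH_htp rZ s hs ρ hρ h hr hE heq φ, hφ, map_zero, add_zero, add_sub_cancel_left]

end NC
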