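import Pool.Agent.H16.NC.A5S
import Pool.Agent.H16.NC.PF

/-!
# RCg : if `M` is right perfect then so is `A ⊕ M`
-/

set_option autoImplicit false

open scoped TensorProduct

noncomputable section

namespace NC

variable {k : Type} [Field k] {A : DGA k}

/-- the product of two right modules -/
def RA.prodG {X Y : SD k} (r : RA A X) (r' : RA A Y) : RA A (X.prod Y) where
  act := LinearMap.mk₂ k (fun v b => (r.act v.1 b, r'.act v.2 b))
    (fun v v' b => Prod.ext
      (by change r.act (v.1 + v'.1) b = _; rw [map_add]; rfl)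
      (by change r'.act (v.2 + v'.2) b = _; rw [map_add]; rfl))
    (fun c v b => Prod.ext
      (by change r.act (c • v.1) b = _; rw [map_smul]; rfl)
      (by change r'.act (c • v.2) b = _; rw [map_smul]; rfl))
    (fun v b b' => Prod.ext (map_add _ _ _) (map_add _ _ _))
    (fun c v b => Prod.ext (map_smul _ _ _) (map_smul _ _ _))
  act_mul := fun v a b => Prod.ext (r.act_mul v.1 a b) (r'.act_mul v.2 a b)
  P_act := fun v a => Prod.ext (r.P_act v.1 a) (r'.P_act v.2 a)
  D_act := fun v a => Prod.ext (r.D_act v.1 a) (r'.D_act v.2 a)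

/-- `A ⊕ F` is finite semi-free if `F` is -/
theorem FinSF.addFree {F : SD k} {rF : RA A F} (h : FinSF A F rF) :
    FinSF A (A.toSD.prod F) (A.diag.r.prodG rF) :=
  FinSF.ext (N' := F) (r' := rF)
    { f := LinearMap.inr k A.V F.V
      D := fun v => Prod.ext (map_zero A.D).symm rfl
      P := fun v => Prod.ext (map_zero A.P).symm rfl }
    (fun v a => Prod.ext (by
      change (0 : A.V) = (0 : A.V) * a
      rw [zero_mul]) rfl)
    { f := LinearMap.fst k A.V F.V
      D := fun v => rfl
      P := fun v => rfl }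
    (fun v a => rfl)
    ⟨fun x hx => congrArg Prod.snd hx, fun y => ⟨(y, 0), rfl⟩, fun x => rfl,
      fun y hy => ⟨y.2, Prod.ext hy.symm rfl⟩⟩ h

theorem RPf.AM (M : BMod A A) (hM : RPf M.b.r) : RPf (AM M).b.r := by
  obtain ⟨F, rF, s, ρ, h, hF, hs, hρ, hr, heq⟩ := hM.out
  refine ⟨A.toSD.prod F, A.diag.r.prodG rF,
    { f := LinearMap.id.prodMap s.f
      D := fun v => Prod.ext rfl (s.D v.2)
      P := fun v => Prod.ext rfl (s.P v.2) },
    { f := LinearMap.id.prodMap ρ.f
      D := fun v => Prod.ext rfl (ρ.D v.2)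
      P := fun v => Prod.ext rfl (ρ.P v.2) },
    (0 : A.V →ₗ[k] A.V).prodMap h, hF.addFree, fun v a => Prod.ext rfl (hs v.2 a),
    fun v a => Prod.ext rfl (hρ v.2 a), fun v a => Prod.ext ?_ (hr v.2 a),
    fun v => Prod.ext ?_ (heq v.2)⟩
  · change (0 : A.V) = (0 : A.V) * a
    rw [zero_mul]
  · have h0 : ∀ x : A.V, x = x + A.D 0 + 0 := fun x => by
      rw [map_zero, add_zero, add_zero]
    exact h0 v.1

end NC
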