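import Pool.Agent.H36.NX.RCs
import Pool.Agent.H94.NC.CoR
import Pool.Agent.H28.NC.BarMap

/-!
# RCb : the contraction `Bar(Z, B, HomR(M, B)) → HomR(M, Z)`, naturality
-/

set_option autoImplicit false

open scoped TensorProduct

noncomputable section

namespace NC

variable {k : Type} [Field k] {B : DGA k} {M M' M'' Z : SD k}

/-- the left action on `HomR(M, B)` -/
abbrev mstL (rM : RA B M) : LA B (HomR rM B.diag.r) := B.diag.l.postR rM B.diag.lr

/-- the pairing `Z ⊗ HomR(M, B) → HomR(M, Z)`, `z ⊗ φ ↦ (m ↦ z φ(m))` (helper94) -/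
abbrev zPair (rM : RA B M) (rZ : RA B Z) : SD.Hom (Z.tens (HomR rM B.diag.r)) (HomR rM rZ) :=
  coR rM rZ

theorem zPair_apply (rM : RA B M) (rZ : RA B Z) (z : Z.V) (φ : (HomR rM B.diag.r).V) (x : M.V) :
    ((zPair rM rZ).f (z ⊗ₜ φ)).1 x = rZ.act z (φ.1 x) := rfl

/-- the contraction -/
def contrR (rM : RA B M) (rZ : RA B Z) : SD.Hom (Bar rZ (mstL rM)) (HomR rM rZ) :=
  augB rZ (mstL rM) (zPair rM rZ) (fun z b φ => Subtype.ext (LinearMap.ext fun x =>
    rZ.act_mul z b (φ.1 x)))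

theorem contrR_nil (rM : RA B M) (rZ : RA B Z) (z : Z.V) (φ : (HomR rM B.diag.r).V) (x : M.V) :
    ((contrR rM rZ).f (Wd.nil z ⊗ₜ φ)).1 x = rZ.act z (φ.1 x) := by
  have h1 : (contrR rM rZ).f (Wd.nil z ⊗ₜ φ) = (zPair rM rZ).f (z ⊗ₜ φ) := augB_nil _ _ _ _ z φ
  rw [h1]
  rfl

/-- naturality in `M` -/
theorem contrR_nat {rM : RA B M} {rM' : RA B M'} (u : SD.Hom M' M) (hu : rM'.IsHom rM u)
    (rZ : RA B Z) (v : (Bar rZ (mstL rM)).V) :
    (contrR rM' rZ).f ((barMap (SD.Hom.id Z) (homPre u hu B.diag.r) (RA.isHom_id rZ)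
      (homPre_left u hu B.diag.r B.diag.l B.diag.lr)).f v)
      = (homPre u hu rZ).f ((contrR rM rZ).f v) := by
  refine tens_ext (f := (contrR rM' rZ).f ∘ₗ (barMap (SD.Hom.id Z) (homPre u hu B.diag.r)
      (RA.isHom_id rZ) (homPre_left u hu B.diag.r B.diag.l B.diag.lr)).f)
    (g := (homPre u hu rZ).f ∘ₗ (contrR rM rZ).f) (fun w φ => ?_) v
  rw [LinearMap.comp_apply, LinearMap.comp_apply, barMap_tmul]
  induction w using Wd.induction with
  | hadd a b ha hb =>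
    rw [map_add, TensorProduct.add_tmul, TensorProduct.add_tmul, map_add, map_add, map_add, ha, hb]
  | hnil z =>
    refine Subtype.ext (LinearMap.ext fun x => ?_)
    rw [Wd.map_nil, homPre_apply, contrR_nil, contrR_nil]
    rfl
  | hsnoc w _ b =>
    have h1 : (contrR rM rZ).f (Wd.snoc w b ⊗ₜ φ) = 0 := augB_snoc _ _ _ _ w b φ
    rw [h1, map_zero, Wd.map_snoc]
    exact augB_snoc _ _ _ _ _ _ _

/-- left homotopies between left modules give homotopies of the bar complex (`BM.barD_TO`) -/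
theorem bar_htp_right (ρ : RA B Z) {Y Y' : SD k} {l : LA B Y} {l' : LA B Y'} (s : SD.Hom Y Y')
    (hs : l.IsHom l' s) (r : SD.Hom Y' Y) (hr : l'.IsHom l r) (L : Y.V →ₗ[k] Y.V)
    (hL : ∀ b y, L (l.act b y) = l.act (B.E b) (L y)) (hE : ∀ y, Y.E (L y) = - L (Y.E y))
    (heq : ∀ y, r.f (s.f y) = y + Y.D (L y) + L (Y.D y)) (v : (Bar ρ l).V) (hv : (Bar ρ l).D v = 0) :
    (Bar ρ l).Hml ((barMap (SD.Hom.id Z) r (RA.isHom_id ρ) hr).f
      ((barMap (SD.Hom.id Z) s (RA.isHom_id ρ) hs).f v)) v := by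
  have hid : ∀ w : Wd k Z.V B.V, Wd.map (SD.Hom.id Z).f LinearMap.id w = w := by
    intro w
    induction w using Wd.induction with
    | hadd a b ha hb => rw [map_add, ha, hb]
    | hnil n => rw [Wd.map_nil]; rfl
    | hsnoc w hw b => rw [Wd.map_snoc, hw]; rfl
  have h1 : (barMap (SD.Hom.id Z) r (RA.isHom_id ρ) hr).f
      ((barMap (SD.Hom.id Z) s (RA.isHom_id ρ) hs).f v)
      = v + BM.TT Z B (Y.D ∘ₗ L + L ∘ₗ Y.D) v := by
    refine tens_ext (f := (barMap (SD.Hom.id Z) r (RA.isHom_id ρ) hr).f ∘ₗ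
        (barMap (SD.Hom.id Z) s (RA.isHom_id ρ) hs).f)
      (g := LinearMap.id + BM.TT Z B (Y.D ∘ₗ L + L ∘ₗ Y.D)) (fun w y => ?_) v
    rw [LinearMap.comp_apply, barMap_tmul, barMap_tmul, hid, hid, heq, LinearMap.add_apply,
      BM.TT_tmul, LinearMap.id_apply, LinearMap.add_apply, LinearMap.comp_apply,
      LinearMap.comp_apply, ← TensorProduct.tmul_add, add_assoc]
  have h2 := BM.barD_TO (l := l) (l' := l) ρ L hL v
  have h3 : barD ρ l v = 0 := hv
  rw [h3, map_zero, neg_zero, zero_add] at h2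
  refine ⟨BM.TO Z B L v, ?_⟩
  rw [h1, add_sub_cancel_left]
  exact h2

end NC
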