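import Pool.Agent.H36.NX.RCd
import Pool.Agent.H15.NC.TensQ
import Pool.Agent.H16.NC.Cross

/-!
# RCe : `HomR(M, Z) ⊗ Y → HomR(M, Z ⊗ Y)` is a quasi-isomorphism for perfect right modules `M`
-/

set_option autoImplicit false

open scoped TensorProduct

noncomputable section

namespace NC

variable {k : Type} [Field k] {B : DGA k} {M M' M'' Z Y : SD k}

/-- a homotopy on the left factor of a tensor product -/
theorem tensL_htpE {X : SD k} (u : SD.Hom X X) (σ : X.V →ₗ[k] X.V)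
    (hσ : ∀ x, X.E (σ x) = - σ (X.E x)) (h : ∀ x, u.f x = x + X.D (σ x) + σ (X.D x)) (Y : SD k)
    (v : (X.tens Y).V) :
    (u.tens (SD.Hom.id Y)).f v = v + (X.tens Y).D (TensorProduct.map σ LinearMap.id v)
      + TensorProduct.map σ LinearMap.id ((X.tens Y).D v) := by
  refine tens_ext (f := (u.tens (SD.Hom.id Y)).f)
    (g := LinearMap.id + SD.tD X Y ∘ₗ TensorProduct.map σ LinearMap.id
      + TensorProduct.map σ LinearMap.id ∘ₗ SD.tD X Y) (fun x y => ?_) v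
  change u.f x ⊗ₜ y = x ⊗ₜ y + (X.D (σ x) ⊗ₜ y + X.E (σ x) ⊗ₜ Y.D y)
    + TensorProduct.map σ LinearMap.id (X.D x ⊗ₜ y + X.E x ⊗ₜ Y.D y)
  rw [map_add, TensorProduct.map_tmul, TensorProduct.map_tmul, LinearMap.id_apply,
    LinearMap.id_apply, hσ, TensorProduct.neg_tmul, h, TensorProduct.add_tmul,
    TensorProduct.add_tmul]
  abel

/-- `X[1] ⊗ Y = (X ⊗ Y)[1]`, the identity map -/
def shTens (X Y : SD k) : SD.Hom (X.sh.tens Y) (X.tens Y).sh where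
  f := LinearMap.id
  D v := by
    refine tens_ext (f := SD.tD X.sh Y) (g := -SD.tD X Y) (fun x y => ?_) v
    have e : X.sh.E x = - X.E x := SD.E_sh X x
    change (-(X.D x)) ⊗ₜ y + X.sh.E x ⊗ₜ Y.D y = -(X.D x ⊗ₜ y + X.E x ⊗ₜ Y.D y)
    rw [e, TensorProduct.neg_tmul, TensorProduct.neg_tmul]
    abel
  P v := by
    refine tens_ext (f := SD.tP X.sh Y) (g := LinearMap.id - SD.tP X Y) (fun x y => ?_) v
    change (x - X.P x) ⊗ₜ Y.P y + (x - (x - X.P x)) ⊗ₜ (y - Y.P y)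
      = x ⊗ₜ y - (X.P x ⊗ₜ Y.P y + (x - X.P x) ⊗ₜ (y - Y.P y))
    simp only [TensorProduct.sub_tmul, TensorProduct.tmul_sub]
    abel

/-- naturality in `M` -/
theorem homTens_nat {rM : RA B M} {rM' : RA B M'} (u : SD.Hom M' M) (hu : rM'.IsHom rM u)
    (rZ : RA B Z) (Y : SD k) (v : ((HomR rM rZ).tens Y).V) :
    (homTens rM' rZ Y).f (((homPre u hu rZ).tens (SD.Hom.id Y)).f v)
      = (homPre u hu (rZ.tensL Y)).f ((homTens rM rZ Y).f v) := by
  refine tens_ext (f := (homTens rM' rZ Y).f ∘ₗ ((homPre u hu rZ).tens (SD.Hom.id Y)).f)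
    (g := (homPre u hu (rZ.tensL Y)).f ∘ₗ (homTens rM rZ Y).f) (fun φ y => ?_) v
  refine Subtype.ext (LinearMap.ext fun x => ?_)
  change φ.1 (u.f (M'.P x)) ⊗ₜ y + φ.1 (u.f (x - M'.P x)) ⊗ₜ Y.E y
    = φ.1 (M.P (u.f x)) ⊗ₜ y + φ.1 (u.f x - M.P (u.f x)) ⊗ₜ Y.E y
  rw [map_sub u.f, u.P]

/-- zero module: both sides vanish -/
theorem homTens_zero (rM : RA B M) (rZ : RA B Z) (Y : SD k) (h : M.IsZero) :
    (homTens rM rZ Y).QI := by
  have h1 : ∀ (W : SD k) (rW : RA B W) (φ : (HomR rM rW).V), φ = 0 := by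
    intro W rW φ
    refine Subtype.ext (LinearMap.ext fun x => ?_)
    rw [h x, map_zero]
    rfl
  refine SD.Hom.QI.of_acyclic _ (fun v _ => ⟨0, ?_⟩) (fun v _ => ⟨0, ?_⟩)
  · have h2 : v = 0 := by
      refine tens_ext (f := (LinearMap.id : ((HomR rM rZ).tens Y).V →ₗ[k] ((HomR rM rZ).tens Y).V))
        (g := 0) (fun φ y => ?_) v
      rw [h1 Z rZ φ, TensorProduct.zero_tmul, map_zero, map_zero]
    rw [h2, map_zero]
  · rw [h1 _ _ v, map_zero]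

/-- free module: `ev1 ∘ homTens = ev1 ⊗ id` -/
theorem homTens_free (rZ : RA B Z) (Y : SD k) (h1 : ∀ z, rZ.act z 1 = z) :
    (homTens B.diag.r rZ Y).QI := by
  have hP1 : B.P 1 = 1 := B.P_one
  have h2 : ∀ z, (rZ.tensL Y).act z 1 = z := by
    intro z
    refine tens_ext (f := (rZ.tensL Y).act.flip 1) (g := LinearMap.id) (fun x y => ?_) z
    rw [LinearMap.flip_apply, RA.tensL_act, hP1, sub_self, map_zero, TensorProduct.zero_tmul,
      add_zero, h1]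
    rfl
  refine (SD.Hom.QI.of_bijective (ev1_bijective (rZ.tensL Y) h2)).of_comp_left ?_
  refine ((SD.Hom.QI.of_bijective (ev1_bijective rZ h1)).tensL Y).congr (fun v => ?_)
  refine tens_ext (f := ((ev1 rZ).tens (SD.Hom.id Y)).f)
    (g := ((ev1 (rZ.tensL Y)).comp (homTens B.diag.r rZ Y)).f) (fun φ y => ?_) v
  change φ.1 (1 : B.V) ⊗ₜ y = φ.1 (B.P 1) ⊗ₜ y + φ.1 (1 - B.P 1) ⊗ₜ Y.E y
  rw [hP1, sub_self, map_zero, TensorProduct.zero_tmul, add_zero]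

/-- shift: `homSh ∘ homTens = homTens ∘ (homSh ⊗ id)` with `X[1] ⊗ Y = (X ⊗ Y)[1]` (the identity) -/
theorem homTens_sh (rM : RA B M) (rZ : RA B Z) (Y : SD k) (h : (homTens rM rZ Y).QI) :
    (homTens rM.sh rZ Y).QI := by
  refine (SD.Hom.QI.of_bijective (homSh_bijective rM (rZ.tensL Y))).of_comp_left ?_
  have h1 : ((homSh rM rZ).tens (SD.Hom.id Y)).QI :=
    (SD.Hom.QI.of_bijective (homSh_bijective rM rZ)).tensL Y
  have h2 : (shTens (HomR rM rZ) Y).QI := SD.Hom.QI.of_bijective Function.bijective_id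
  refine (h.sh.comp (h2.comp h1)).congr (fun v => ?_)
  refine tens_ext (f := ((homTens rM rZ Y).sh.comp
      ((shTens (HomR rM rZ) Y).comp ((homSh rM rZ).tens (SD.Hom.id Y)))).f)
    (g := ((homSh rM (rZ.tensL Y)).comp (homTens rM.sh rZ Y)).f) (fun φ y => ?_) v
  refine Subtype.ext (LinearMap.ext fun x => ?_)
  have e0 : ∀ w : M.V, ((homSh rM rZ).f φ).1 w = Z.E (φ.1 (M.E w)) := homSh_apply rM rZ φ
  have e1 : ((homSh rM (rZ.tensL Y)).f ((homTens rM.sh rZ Y).f (φ ⊗ₜ y))).1 x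
      = (Z.tens Y).E (((homTens rM.sh rZ Y).f (φ ⊗ₜ y)).1 (M.E x)) := homSh_apply _ _ _ x
  have e2 : ((homTens rM.sh rZ Y).f (φ ⊗ₜ y)).1 (M.E x)
      = φ.1 (M.E x - M.P (M.E x)) ⊗ₜ y + φ.1 (M.E x - (M.E x - M.P (M.E x))) ⊗ₜ Y.E y := rfl
  change ((homSh rM rZ).f φ).1 (M.P x) ⊗ₜ y + ((homSh rM rZ).f φ).1 (x - M.P x) ⊗ₜ Y.E y
    = ((homSh rM (rZ.tensL Y)).f ((homTens rM.sh rZ Y).f (φ ⊗ₜ y))).1 x
  have e3 : M.E (x - M.P x) = M.E x - M.P x := by rw [map_sub, M.EP]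
  rw [e0, e0, e1, e2, map_add, SD.tens_E, SD.tens_E, Y.EE, M.EP, M.PE, e3, sub_sub_cancel,
    add_comm]

/-- split extensions -/
theorem homTens_ext {rM' : RA B M'} {rM : RA B M} {rM'' : RA B M''} {f : SD.Hom M' M}
    (hf : rM'.IsHom rM f) {g : SD.Hom M M''} (hg : rM.IsHom rM'' g) (hs : SD.SES f g)
    (s : M''.V →ₗ[k] M.V) (hs1 : ∀ x, g.f (s x) = x) (hsb : ∀ x b, s (rM''.act x b) = rM.act (s x) b)
    (rZ : RA B Z) (Y : SD k) (h' : (homTens rM' rZ Y).QI) (h'' : (homTens rM'' rZ Y).QI) :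
    (homTens rM rZ Y).QI :=
  SD.SES.qi_mid ((homPre_ses hf hg hs s hs1 hsb rZ).tensL Y)
    (homPre_ses hf hg hs s hs1 hsb (rZ.tensL Y)) (fun v => homTens_nat g hg rZ Y v)
    (fun v => homTens_nat f hf rZ Y v) h'' h'

theorem homTens_fin (rZ : RA B Z) (Y : SD k) (h1 : ∀ z, rZ.act z 1 = z) {rM : RA B M}
    (h : FinSF B M rM) : (homTens rM rZ Y).QI := by
  induction h with
  | zero h => exact homTens_zero _ rZ Y h
  | ext f hf g hg hs _ ih =>
    obtain ⟨s, hs1, hs2⟩ := split_free hg hs.surj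
    exact homTens_ext hf hg hs s hs1 hs2 rZ Y ih (homTens_free rZ Y h1)
  | exts f hf g hg hs _ ih =>
    obtain ⟨s, hs1, hs2⟩ := split_freeSh hg hs.surj
    exact homTens_ext hf hg hs s hs1 hs2 rZ Y ih (homTens_sh _ rZ Y (homTens_free rZ Y h1))

/-- **quasi-isomorphism** -/
theorem homTens_qi {rM : RA B M} (hM : RPf rM) (rZ : RA B Z) (Y : SD k)
    (h1 : ∀ z, rZ.act z 1 = z) : (homTens rM rZ Y).QI := by
  obtain ⟨F, rF, s, ρ, h, hF, hs, hρ, hr, hE, heq⟩ := hM.odd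
  refine (homTens_fin rZ Y h1 hF).of_retract
    ((homPre ρ hρ rZ).tens (SD.Hom.id Y)) ((homPre s hs rZ).tens (SD.Hom.id Y))
    (homPre ρ hρ (rZ.tensL Y)) (homPre s hs (rZ.tensL Y)) (fun v hv => ?_) (fun φ hφ => ?_)
    (fun v => homTens_nat ρ hρ rZ Y v) (fun v => homTens_nat s hs rZ Y v)
  · have hσ : ∀ φ, (HomR rM rZ).E (homH rM rZ h hr φ) = - homH rM rZ h hr ((HomR rM rZ).E φ) :=
      fun φ => homH_odd rM rZ h hr hE φ
    have e := tensL_htpE ((homPre s hs rZ).comp (homPre ρ hρ rZ)) (homH rM rZ h hr) hσ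
      (fun φ => homH_htp rZ s hs ρ hρ h hr hE heq φ) Y v
    refine ⟨TensorProduct.map (homH rM rZ h hr) LinearMap.id v, ?_⟩
    have e2 : (((homPre s hs rZ).comp (homPre ρ hρ rZ)).tens (SD.Hom.id Y)).f v
        = ((homPre s hs rZ).tens (SD.Hom.id Y)).f (((homPre ρ hρ rZ).tens (SD.Hom.id Y)).f v) :=
      tens_ext (f := (((homPre s hs rZ).comp (homPre ρ hρ rZ)).tens (SD.Hom.id Y)).f)
        (g := (((homPre s hs rZ).tens (SD.Hom.id Y)).comp
          ((homPre ρ hρ rZ).tens (SD.Hom.id Y))).f) (fun _ _ => rfl) v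
    rw [← e2, e, hv, map_zero, add_zero, add_sub_cancel_left]
  · refine ⟨homH rM (rZ.tensL Y) h hr φ, ?_⟩
    rw [homH_htp (rZ.tensL Y) s hs ρ hρ h hr hE heq φ, hφ, map_zero, add_zero,
      add_sub_cancel_left]

end NC
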