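import Pool.Agent.H36.NX.RP

/-!
# RPB : if the diagonal bimodule is perfect then every bimodule which is perfect as a right module is perfect

Devissage of `Bar(N, A, M)` in `N`.
-/

set_option autoImplicit false

open scoped TensorProduct

noncomputable section

namespace NC

variable {k : Type} [Field k] {A : DGA k}

private theorem RPB_hd_one {X : SD k} (a : LA A X) (h1 : ∀ y, a.act 1 y = y)
    (w : Wd k X.V A.V) : hd A a 1 w = w := by
  induction w using Wd.induction with
  | hadd a b ha hb => simp only [map_add, ha, hb]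
  | hnil n => simp [h1]
  | hsnoc w hw r => simp [hw]

private theorem RPB_hd_odd {X : SD k} (b : LA A X) (h : X.V →ₗ[k] X.V)
    (hl : ∀ a x, h (b.act a x) = b.act (A.E a) (h x)) (a : A.V) (w : Wd k X.V A.V) :
    Wd.map h (LinearMap.id : A.V →ₗ[k] A.V) (hd A b a w)
      = hd A b (A.E a) (Wd.map h LinearMap.id w) := by
  induction w using Wd.induction with
  | hadd a b ha hb => simp only [map_add, ha, hb]
  | hnil n => simp [hl]
  | hsnoc w hw r => simp [hw]

/-- the bar product of two bimodules -/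
def BMod.bar (N M : BMod A A) : BMod A A where
  N := Bar N.b.r M.b.l
  b := N.b.bar M.b
  one_l := fun v => by
    refine tens_ext (f := LinearMap.rTensorHom M.N.V (hd A N.b.l 1))
      (g := LinearMap.id) (fun w y => ?_) v
    simp only [LinearMap.coe_rTensorHom, LinearMap.rTensor_tmul, LinearMap.id_apply,
      RPB_hd_one N.b.l N.one_l]
  r_one := fun v => by
    refine tens_ext (f := LinearMap.lTensorHom (Wd k N.N.V A.V) (M.b.r.act.flip 1))
      (g := LinearMap.id) (fun w y => ?_) v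
    simp only [LinearMap.coe_lTensorHom, LinearMap.lTensor_tmul, LinearMap.id_apply,
      LinearMap.flip_apply, M.r_one]

/-- functoriality in the first variable -/
def BMod.barL {N N' : BMod A A} (f : BMod.Hom N N') (M : BMod A A) :
    BMod.Hom (BMod.bar N M) (BMod.bar N' M) where
  toHom := barMap f.toHom (SD.Hom.id M.N) f.isHom.r (LA.isHom_id M.b.l)
  isHom := barMap_isHom f.isHom (Bi.isHom_id M.b)

private theorem RPB_ret_eq {N F : BMod A A} (M : BMod A A) (H' : HRet N F)
    (hE : ∀ x, N.N.E (H'.h x) = - H'.h (N.N.E x)) (v : Wd k N.N.V A.V ⊗[k] M.N.V) :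
    BM.HT A.V M.N.V (H'.r.f ∘ₗ H'.s.f) v
      = v + barD N.b.r M.b.l (BM.HT A.V M.N.V H'.h v)
        + BM.HT A.V M.N.V H'.h (barD N.b.r M.b.l v) := by
  have h1 := BM.barD_HT_odd (ρ := N.b.r) (ρ' := N.b.r) M.b.l H'.h hE H'.hr v
  have h3 : H'.r.f ∘ₗ H'.s.f
      = LinearMap.id + (N.N.D ∘ₗ H'.h + H'.h ∘ₗ N.N.D) := by
    refine LinearMap.ext fun x => ?_
    simp only [LinearMap.comp_apply, LinearMap.add_apply, LinearMap.id_apply]
    rw [H'.eq x, add_assoc]
  rw [h3, BM.HT_add, BM.HT_id, h1]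
  abel

/-- homotopy retracts -/
theorem BMod.bar_ret {N F : BMod A A} (H : HRet N F) (M : BMod A A) :
    Nonempty (HRet (BMod.bar N M) (BMod.bar F M)) := by
  obtain ⟨H', -, -, hE⟩ := HRet.exists_odd' H
  refine ⟨{ s := BMod.barL H'.s M
            r := BMod.barL H'.r M
            h := BM.HT A.V M.N.V H'.h
            hl := fun a v => ?_
            hr := fun v a => ?_
            eq := fun v => ?_ }⟩
  · refine tens_ext (f := BM.HT A.V M.N.V H'.h ∘ₗ LinearMap.rTensorHom M.N.V (hd A N.b.l a))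
      (g := LinearMap.rTensorHom M.N.V (hd A N.b.l (A.E a)) ∘ₗ BM.HT A.V M.N.V H'.h)
      (fun w y => ?_) v
    simp only [LinearMap.comp_apply, LinearMap.coe_rTensorHom, LinearMap.rTensor_tmul,
      BM.HT_tmul, RPB_hd_odd N.b.l H'.h H'.hl]
  · refine tens_ext (f := BM.HT A.V M.N.V H'.h ∘ₗ
        LinearMap.lTensorHom (Wd k N.N.V A.V) (M.b.r.act.flip a))
      (g := LinearMap.lTensorHom (Wd k N.N.V A.V) (M.b.r.act.flip a) ∘ₗ
        BM.HT A.V M.N.V H'.h) (fun w y => rfl) v
  · exact (BM.HT_HT H'.s.f H'.r.f v).trans (RPB_ret_eq M H' hE v)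

theorem PF_bar {N : BMod A A} (hN : PF A N) (M : BMod A A) (hM : RPf M.b.r) :
    PF A (BMod.bar N M) := by
  induction hN with
  | free =>
    exact PF.qi' (X := BMod.bar (BMod.free A A) M) (Y := BMod.tR M.b.r M.r_one)
      { toHom := augVL A.toSD M.b.l
        isHom := augVL_isHom A.diag.l M.b } (qi_augVL A.toSD M.b.l M.one_l) (PF_tR M.r_one hM)
  | @sh X _ ih =>
    exact PF.qi' (X := BMod.bar X.sh M) (Y := (BMod.bar X M).sh)
      { toHom := barShL X.b.r M.b.l
        isHom := barShL_isHom X.b M.b } (qi_barShL X.b.r M.b.l) ih.sh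
  | qi f hf _ ih =>
    exact PF.qi (BMod.barL f M) (qi_bar f.isHom.r (LA.isHom_id M.b.l) hf (SD.Hom.QI.id M.N)) ih
  | qi' f hf _ ih =>
    exact PF.qi' (BMod.barL f M) (qi_bar f.isHom.r (LA.isHom_id M.b.l) hf (SD.Hom.QI.id M.N)) ih
  | ses1 f g h _ _ ih' ih =>
    exact PF.ses1 (BMod.barL f M) (BMod.barL g M) (ses_bar_left h f.isHom.r g.isHom.r M.b.l) ih' ih
  | ses2 f g h _ _ ih' ih'' =>
    exact PF.ses2 (BMod.barL f M) (BMod.barL g M) (ses_bar_left h f.isHom.r g.isHom.r M.b.l) ih' ih''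
  | ses3 f g h _ _ ih ih'' =>
    exact PF.ses3 (BMod.barL f M) (BMod.barL g M) (ses_bar_left h f.isHom.r g.isHom.r M.b.l) ih ih''
  | retr h _ ih =>
    obtain ⟨H⟩ := BMod.bar_ret h M
    exact PF.retr H ih

/-- **right perfect bimodules are perfect when the diagonal is perfect** -/
theorem PF_of_RPf (hA : PF A (BMod.diag A)) (M : BMod A A) (hM : RPf M.b.r) : PF A M :=
  PF.qi (X := BMod.bar (BMod.diag A) M)
    { toHom := augL M.b.l
      isHom := augL_isHom M.b } (qi_augL M.b.l M.one_l) (PF_bar hA M hM)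

end NC
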