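import Pool.Agent.H36.NX.DDG
import Pool.Agent.H36.NX.RPB

/-!
# FH : finiteness of the homology of perfect bimodules and of their Hochschild complexes
-/

set_option autoImplicit false

open scoped TensorProduct

noncomputable section

namespace NC

variable {k : Type} [Field k] {A : DGA k}

/-- the Hochschild complex of a perfect bimodule has finite dimensional homology -/
theorem finH_HC_of_PF (hA : A.toSD.FinH) {X : BMod A A} (hX : PF A X) : (HC X.b).FinH :=
  (DDdiag_qi X).finH (H36.NX.finH_DD (Q := BMod.diag A) hA hX)

/-- a perfect bimodule has finite dimensional homology -/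
theorem finH_of_PF (hA : A.toSD.FinH) {X : BMod A A} (hX : PF A X) : X.N.FinH := by
  induction hX with
  | free => exact SD.FinH.tens hA hA
  | sh _ ih => exact ih.sh
  | qi f hf _ ih => exact hf.finH ih
  | qi' f hf _ ih => exact hf.finH' ih
  | ses1 f g h _ _ ih' ih => exact h.finH_right ih' ih
  | ses2 f g h _ _ ih' ih'' => exact h.finH_mid ih' ih''
  | ses3 f g h _ _ ih ih'' => exact h.finH_left ih ih''
  | @retr X F H _ ih =>
    exact ih.of_retract H.s.toHom H.r.toHom (fun x hx => ⟨H.h x, by
      change X.N.D (H.h x) = H.r.f (H.s.f x) - x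
      rw [H.eq, hx, map_zero, add_zero, add_sub_cancel_left]⟩)

/-- the same for bimodules which are perfect as right modules -/
theorem finH_HC_of_RPf (hA : A.toSD.FinH) (hPF : PF A (BMod.diag A)) (M : BMod A A)
    (hM : RPf M.b.r) : (HC M.b).FinH := finH_HC_of_PF hA (PF_of_RPf hPF M hM)

theorem finH_of_RPf (hA : A.toSD.FinH) (hPF : PF A (BMod.diag A)) (M : BMod A A)
    (hM : RPf M.b.r) : M.N.FinH := finH_of_PF hA (PF_of_RPf hPF M hM)

end NC
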