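import Mathlib

/-!
# TensPi : tensor products of finite products of subspaces

`P ≅ ∏ a, S a` through `e : P → (ι → M)`, `P' ≅ ∏ b, S' b` through `e' : P' → (ι' → M')`; then `P ⊗ P'` is the
space of the families `F a b` in the image of `S a ⊗ S' b` (over a field).
-/

set_option autoImplicit false

open scoped TensorProduct

namespace H36.NX

variable {k : Type} [Field k] {P P' M M' ι ι' : Type} [AddCommGroup P] [Module k P]
  [AddCommGroup P'] [Module k P'] [AddCommGroup M] [Module k M] [AddCommGroup M'] [Module k M']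
  [Fintype ι] [Fintype ι']

/-- the component `(a, b)` of an element of `P ⊗ P'` -/
noncomputable def tcomp (e : P →ₗ[k] (ι → M)) (e' : P' →ₗ[k] (ι' → M')) (a : ι) (b : ι') :
    P ⊗[k] P' →ₗ[k] M ⊗[k] M' :=
  TensorProduct.map ((LinearMap.proj a).comp e) ((LinearMap.proj b).comp e')

theorem tcomp_injective (e : P →ₗ[k] (ι → M)) (e' : P' →ₗ[k] (ι' → M'))
    (he : Function.Injective e) (he' : Function.Injective e') (z : P ⊗[k] P')
    (h : ∀ a b, tcomp e e' a b z = 0) : z = 0 := by
  classical
  have hinj : Function.Injective (TensorProduct.map e e') :=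
    TensorProduct.map_injective_of_flat_flat e e' he he'
  refine hinj ?_
  rw [map_zero]
  have hkey : TensorProduct.map e e' = ∑ a, ∑ b,
      (TensorProduct.map (LinearMap.single k (fun _ : ι => M) a)
        (LinearMap.single k (fun _ : ι' => M') b)) ∘ₗ (tcomp e e' a b) := by
    refine TensorProduct.ext' fun p p' => ?_
    simp only [tcomp, LinearMap.sum_apply, LinearMap.comp_apply, TensorProduct.map_tmul,
      LinearMap.proj_apply, LinearMap.coe_single]
    simp only [← TensorProduct.tmul_sum, ← TensorProduct.sum_tmul]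
    rw [Finset.univ_sum_single, Finset.univ_sum_single]
  rw [hkey, LinearMap.sum_apply]
  refine Finset.sum_eq_zero fun a _ => ?_
  rw [LinearMap.sum_apply]
  refine Finset.sum_eq_zero fun b _ => ?_
  rw [LinearMap.comp_apply, h a b, map_zero]

theorem tcomp_mem (e : P →ₗ[k] (ι → M)) (e' : P' →ₗ[k] (ι' → M')) (S : ι → Submodule k M)
    (S' : ι' → Submodule k M') (hS : ∀ p a, e p a ∈ S a) (hS' : ∀ p b, e' p b ∈ S' b) (z : P ⊗[k] P')
    (a : ι) (b : ι') :
    tcomp e e' a b z ∈ LinearMap.range (TensorProduct.map (S a).subtype (S' b).subtype) := by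
  induction z using TensorProduct.induction_on with
  | zero => rw [map_zero]; exact Submodule.zero_mem _
  | tmul p p' => exact ⟨(⟨e p a, hS p a⟩ : S a) ⊗ₜ[k] (⟨e' p' b, hS' p' b⟩ : S' b), rfl⟩
  | add x y hx hy => rw [map_add]; exact Submodule.add_mem _ hx hy

theorem tcomp_surjective (e : P →ₗ[k] (ι → M)) (e' : P' →ₗ[k] (ι' → M')) (S : ι → Submodule k M)
    (S' : ι' → Submodule k M') (hS : ∀ f : ι → M, (∀ a, f a ∈ S a) → ∃ p, e p = f)
    (hS' : ∀ f : ι' → M', (∀ b, f b ∈ S' b) → ∃ p, e' p = f) (F : ι → ι' → M ⊗[k] M')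
    (hF : ∀ a b, F a b ∈ LinearMap.range (TensorProduct.map (S a).subtype (S' b).subtype)) :
    ∃ z : P ⊗[k] P', ∀ a b, tcomp e e' a b z = F a b := by
  classical
  have key : ∀ a b (w : S a ⊗[k] S' b), ∃ z : P ⊗[k] P', ∀ a' b', tcomp e e' a' b' z =
      if a' = a ∧ b' = b then TensorProduct.map (S a).subtype (S' b).subtype w else 0 := by
    intro a b w
    induction w using TensorProduct.induction_on with
    | zero => exact ⟨0, fun a' b' => by simp⟩
    | tmul s s' =>
      obtain ⟨p, hp⟩ := hS (Pi.single a (s : M)) (by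
        intro a'
        by_cases h : a' = a
        · subst h
          rw [Pi.single_eq_same]
          exact s.2
        · rw [Pi.single_eq_of_ne h]
          exact Submodule.zero_mem _)
      obtain ⟨p', hp'⟩ := hS' (Pi.single b (s' : M')) (by
        intro b'
        by_cases h : b' = b
        · subst h
          rw [Pi.single_eq_same]
          exact s'.2
        · rw [Pi.single_eq_of_ne h]
          exact Submodule.zero_mem _)
      refine ⟨p ⊗ₜ p', fun a' b' => ?_⟩
      rw [tcomp, TensorProduct.map_tmul]
      simp only [LinearMap.comp_apply, LinearMap.proj_apply, hp, hp', TensorProduct.map_tmul,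
        Submodule.subtype_apply]
      by_cases ha : a' = a
      · subst ha
        by_cases hb : b' = b
        · subst hb
          simp
        · simp [hb]
      · simp [ha]
    | add x y hx hy =>
      obtain ⟨z1, h1⟩ := hx
      obtain ⟨z2, h2⟩ := hy
      refine ⟨z1 + z2, fun a' b' => ?_⟩
      rw [map_add, h1, h2, map_add]
      split_ifs
      · rfl
      · rw [add_zero]
  choose w hw using hF
  choose z hz using fun a b => key a b (w a b)
  refine ⟨∑ a, ∑ b, z a b, fun a' b' => ?_⟩
  rw [map_sum, Finset.sum_eq_single a']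
  · rw [map_sum, Finset.sum_eq_single b']
    · rw [hz, if_pos ⟨rfl, rfl⟩, hw]
    · intro b _ hb
      rw [hz, if_neg]
      exact fun h => hb h.2.symm
    · intro h
      exact absurd (Finset.mem_univ _) h
  · intro a _ ha
    rw [map_sum]
    refine Finset.sum_eq_zero fun b _ => ?_
    rw [hz, if_neg]
    exact fun h => ha h.1.symm
  · intro h
    exact absurd (Finset.mem_univ _) h

end H36.NX
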