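import Pool.Agent.H36.NX.Base

/-!
# The index hypothesis for `k = F_3(t)` (MP_eadf0f_ag, example half)

If `L / k` is a finite extension with `3 ∤ [L : k]`, it is separable, and by the fundamental identity some
prime `P` of the integral closure of `F_3[t]` over `(t)` has ramification index prime to `3`. For its valuation
the three terms `z^3`, `t y^3`, `t^2 x^3` have distinct absolute values (unless `0`), and the other two terms of the cubic
are smaller than their maximum.
-/

set_option autoImplicit false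

namespace H36.NX

open WithZero Module Polynomial

theorem index_cube_ne {a b : ℤᵐ⁰} {e : ℤ} (he : ¬ (3 : ℤ) ∣ e) (h : a ^ 3 = exp e * b ^ 3) :
    a = 0 ∧ b = 0 := by
  by_cases ha : a = 0
  · subst ha
    refine ⟨rfl, ?_⟩
    have h1 : exp e * b ^ 3 = 0 := by rw [← h]; simp
    rcases mul_eq_zero.1 h1 with h2 | h2
    · exact absurd h2 exp_ne_zero
    · exact pow_eq_zero_iff (by norm_num) |>.1 h2
  · by_cases hb : b = 0
    · subst hb
      have h1 : a ^ 3 = 0 := by rw [h]; simp
      exact absurd (pow_eq_zero_iff (by norm_num) |>.1 h1) ha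
    · exfalso
      obtain ⟨α, rfl⟩ : ∃ α : ℤ, a = exp α := ⟨log a, (exp_log ha).symm⟩
      obtain ⟨β, rfl⟩ : ∃ β : ℤ, b = exp β := ⟨log b, (exp_log hb).symm⟩
      rw [← exp_nsmul, ← exp_nsmul, ← exp_add] at h
      have h2 := exp_injective h
      simp only [nsmul_eq_mul, Nat.cast_ofNat] at h2
      exact he ⟨α - β, by linarith⟩

theorem index_val_contra {L : Type} [Field L] (v : Valuation L ℤᵐ⁰) (t : L) (e : ℤ)
    (ht : v t = exp (-e)) (he : ¬ (3 : ℤ) ∣ e) (he0 : 0 < e) (x y z : L)
    (hne : x ≠ 0 ∨ y ≠ 0 ∨ z ≠ 0)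
    (hrel : z ^ 3 = t ^ 2 * x ^ 2 * z + t * y ^ 3 + t ^ 2 * x * y ^ 2 + t ^ 2 * x ^ 3) : False := by
  have hτ1 : v t < 1 := by rw [ht, ← exp_zero, exp_lt_exp]; omega
  have hτ0 : v t ≠ 0 := by rw [ht]; exact exp_ne_zero
  have ht0 : t ≠ 0 := fun h => hτ0 (by rw [h]; simp)
  set A := v (z ^ 3) with hA
  set B := v (t * y ^ 3) with hB
  set C := v (t ^ 2 * x ^ 3) with hC
  -- pairwise distinct
  have hAB : A = B → A = 0 := by
    intro h
    rw [hA, hB, map_pow, map_mul, map_pow, ht] at h
    have := index_cube_ne (e := -e) (by rwa [dvd_neg]) h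
    rw [hA, map_pow, this.1]; simp
  have hAC : A = C → A = 0 := by
    intro h
    rw [hA, hC, map_pow, map_mul, map_pow, map_pow, ht, ← exp_nsmul] at h
    have := index_cube_ne (e := 2 • (-e)) (by
      intro h3; apply he; simp only [nsmul_eq_mul, Nat.cast_ofNat] at h3; omega) h
    rw [hA, map_pow, this.1]; simp
  have hBC : B = C → B = 0 := by
    intro h
    rw [hB, hC, map_mul, map_mul, map_pow, map_pow, map_pow, ht, ← exp_nsmul] at h
    have h' : v y ^ 3 = exp (-e) * v x ^ 3 := by
      have h2 : exp (-e) * (v y ^ 3) = exp (-e) * (exp (-e) * v x ^ 3) := by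
        rw [h, ← mul_assoc, ← exp_add]; congr 2; simp only [nsmul_eq_mul, Nat.cast_ofNat]; ring_nf
      exact mul_left_cancel₀ exp_ne_zero h2
    have := index_cube_ne (e := -e) (by rwa [dvd_neg]) h'
    rw [hB, map_mul, map_pow, this.1]; simp
  set m := max A (max B C) with hm
  have hAm : A ≤ m := le_max_left _ _
  have hBm : B ≤ m := le_trans (le_max_left _ _) (le_max_right _ _)
  have hCm : C ≤ m := le_trans (le_max_right _ _) (le_max_right _ _)
  have hm0 : 0 < m := by
    rcases hne with h | h | h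
    · refine lt_of_lt_of_le ?_ hCm
      rw [hC, Valuation.pos_iff]; exact mul_ne_zero (pow_ne_zero _ ht0) (pow_ne_zero _ h)
    · refine lt_of_lt_of_le ?_ hBm
      rw [hB, Valuation.pos_iff]; exact mul_ne_zero ht0 (pow_ne_zero _ h)
    · refine lt_of_lt_of_le ?_ hAm
      rw [hA, Valuation.pos_iff]; exact pow_ne_zero _ h
  have hτm : v t ^ 2 * m ^ 3 < m ^ 3 := by
    have h1 : v t ^ 2 < 1 := pow_lt_one₀ zero_le hτ1 (by norm_num)
    calc v t ^ 2 * m ^ 3 < 1 * m ^ 3 := by
          exact mul_lt_mul_of_pos_right h1 (pow_pos hm0 3)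
      _ = m ^ 3 := one_mul _
  have hS1 : v (t ^ 2 * x ^ 2 * z) < m := by
    have h3 : v (t ^ 2 * x ^ 2 * z) ^ 3 = v t ^ 2 * (C * C * A) := by
      rw [hA, hC, ← map_pow, ← map_pow, ← map_mul, ← map_mul, ← map_mul]
      congr 1; ring
    refine lt_of_pow_lt_pow_left₀ 3 zero_le ?_
    rw [h3]
    refine lt_of_le_of_lt ?_ hτm
    refine mul_le_mul_right ?_ _
    calc C * C * A ≤ m * m * m := mul_le_mul' (mul_le_mul' hCm hCm) hAm
      _ = m ^ 3 := by rw [pow_succ, pow_two]
  have hS2 : v (t ^ 2 * x * y ^ 2) < m := by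
    have h3 : v (t ^ 2 * x * y ^ 2) ^ 3 = v t ^ 2 * (C * B * B) := by
      rw [hB, hC, ← map_pow, ← map_pow, ← map_mul, ← map_mul, ← map_mul]
      congr 1; ring
    refine lt_of_pow_lt_pow_left₀ 3 zero_le ?_
    rw [h3]
    refine lt_of_le_of_lt ?_ hτm
    refine mul_le_mul_right ?_ _
    calc C * B * B ≤ m * m * m := mul_le_mul' (mul_le_mul' hCm hBm) hBm
      _ = m ^ 3 := by rw [pow_succ, pow_two]
  have hcase : m = A ∨ m = B ∨ m = C := by
    rcases max_choice A (max B C) with h | h
    · exact Or.inl h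
    · rcases max_choice B C with h' | h'
      · exact Or.inr (Or.inl (h.trans h'))
      · exact Or.inr (Or.inr (h.trans h'))
  rcases hcase with h | h | h
  · have hB' : B < m := lt_of_le_of_ne hBm fun hh => by
      have := hAB (h.symm.trans hh.symm); rw [← h] at this; exact hm0.ne' this
    have hC' : C < m := lt_of_le_of_ne hCm fun hh => by
      have := hAC (h.symm.trans hh.symm); rw [← h] at this; exact hm0.ne' this
    have : v (z ^ 3) < m := by
      rw [hrel]
      exact Valuation.map_add_lt v (Valuation.map_add_lt v (Valuation.map_add_lt v hS1 hB') hS2) hC'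
    exact absurd h (ne_of_gt this)
  · have hA' : A < m := lt_of_le_of_ne hAm fun hh => by
      have h1 := hAB (hh.trans h); rw [hh] at h1; exact hm0.ne' h1
    have hC' : C < m := lt_of_le_of_ne hCm fun hh => by
      have h1 := hBC (h.symm.trans hh.symm); rw [← h] at h1; exact hm0.ne' h1
    have : v (t * y ^ 3) < m := by
      have e1 : t * y ^ 3 = z ^ 3 - t ^ 2 * x ^ 2 * z - t ^ 2 * x * y ^ 2 - t ^ 2 * x ^ 3 := by
        rw [hrel]; ring
      rw [e1]
      exact Valuation.map_sub_lt v (Valuation.map_sub_lt v (Valuation.map_sub_lt v hA' hS1) hS2) hC'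
    exact absurd h (ne_of_gt this)
  · have hA' : A < m := lt_of_le_of_ne hAm fun hh => by
      have h1 := hAC (hh.trans h); rw [hh] at h1; exact hm0.ne' h1
    have hB' : B < m := lt_of_le_of_ne hBm fun hh => by
      have h1 := hBC (hh.trans h); rw [hh] at h1; exact hm0.ne' h1
    have : v (t ^ 2 * x ^ 3) < m := by
      have e1 : t ^ 2 * x ^ 3 = z ^ 3 - t ^ 2 * x ^ 2 * z - t ^ 2 * x * y ^ 2 - t * y ^ 3 := by
        rw [hrel]; ring
      rw [e1]
      exact Valuation.map_sub_lt v (Valuation.map_sub_lt v (Valuation.map_sub_lt v hA' hS1) hS2) hB'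
    exact absurd h (ne_of_gt this)

theorem index_separable {K L : Type} [Field K] [CharP K 3] [Field L] [Algebra K L]
    [FiniteDimensional K L] (h3 : ¬ 3 ∣ finrank K L) : Algebra.IsSeparable K L := by
  refine ⟨fun α => ?_⟩
  have hint : IsIntegral K α := IsIntegral.of_finite K α
  rcases separable_or 3 (minpoly.irreducible hint) with h | ⟨_, g, _, hg⟩
  · exact h
  · exfalso
    apply h3
    have h1 : (minpoly K α).natDegree ∣ finrank K L := minpoly.degree_dvd hint
    refine dvd_trans ?_ h1
    rw [← hg, natDegree_expand]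
    exact dvd_mul_left _ _

set_option linter.deprecated false in
theorem indexThree_ratFunc : IndexThree (RatFunc (ZMod 3)) RatFunc.X := by
  intro L _ _ _ x y z hne hrel
  by_contra h3
  have : Fact (Nat.Prime 3) := ⟨Nat.prime_three⟩
  have : CharP (RatFunc (ZMod 3)) 3 :=
    charP_of_injective_algebraMap (algebraMap (ZMod 3) (RatFunc (ZMod 3))).injective 3
  have hsep : Algebra.IsSeparable (RatFunc (ZMod 3)) L := index_separable h3
  let A := (ZMod 3)[X]
  let : Algebra A L := ((algebraMap (RatFunc (ZMod 3)) L).comp (algebraMap A (RatFunc (ZMod 3)))).toAlgebra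
  have : IsScalarTower A (RatFunc (ZMod 3)) L := IsScalarTower.of_algebraMap_eq fun _ => rfl
  let S := integralClosure A L
  have : IsFractionRing S L :=
    integralClosure.isFractionRing_of_finite_extension (RatFunc (ZMod 3)) L
  have : Module.Finite A S := IsIntegralClosure.finite A (RatFunc (ZMod 3)) L S
  have : IsDedekindDomain S := integralClosure.isDedekindDomain A (RatFunc (ZMod 3)) L
  have hinj : Function.Injective (algebraMap A S) := by
    have h1 : Function.Injective (algebraMap A L) :=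
      (algebraMap (RatFunc (ZMod 3)) L).injective.comp (IsFractionRing.injective A (RatFunc (ZMod 3)))
    exact Function.Injective.of_comp (f := algebraMap S L) h1
  have htf : Module.IsTorsionFree A S := Module.isTorsionFree_iff_algebraMap_injective.2 hinj
  let p : Ideal A := Ideal.span {(X : A)}
  have hp0 : p ≠ ⊥ := by
    simp only [p, Ne, Ideal.span_singleton_eq_bot]; exact X_ne_zero
  have hpmax : p.IsMaximal :=
    PrincipalIdealRing.isMaximal_of_irreducible irreducible_X
  have hsum := Ideal.sum_ramification_inertia S (RatFunc (ZMod 3)) L hp0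
  obtain ⟨P, hP, hPe⟩ : ∃ P ∈ IsDedekindDomain.primesOverFinset p S,
      ¬ 3 ∣ Ideal.ramificationIdx' p P := by
    by_contra hcon
    push Not at hcon
    apply h3
    rw [← hsum]
    exact Finset.dvd_sum fun P hP => Dvd.dvd.mul_right (hcon P hP) _
  obtain ⟨hPp, hPl⟩ := (IsDedekindDomain.mem_primesOverFinset_iff hp0 _).1 hP
  have hPbot : P ≠ ⊥ := by
    rintro rfl
    apply hp0
    have h1 := hPl.over
    rw [h1]
    refine (Ideal.comap_bot_of_injective _ ?_)
    exact hinj
  let v : IsDedekindDomain.HeightOneSpectrum S := ⟨P, hPp, hPbot⟩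
  have hXS : algebraMap A S X ≠ 0 := by
    intro h
    exact X_ne_zero (hinj (h.trans (map_zero _).symm))
  obtain ⟨n, hn⟩ : ∃ n : ℕ, v.intValuation (algebraMap A S X) = exp (-(n : ℤ)) :=
    ⟨_, v.intValuation_if_neg hXS⟩
  have hmap : ∀ j : ℕ, Ideal.map (algebraMap A S) p ≤ P ^ j ↔ j ≤ n := by
    intro j
    rw [Ideal.map_span, Set.image_singleton, Ideal.span_singleton_le_iff_mem]
    change algebraMap A S X ∈ v.asIdeal ^ j ↔ _
    rw [← v.intValuation_le_pow_iff_mem, hn, exp_le_exp]
    omega
  have hen : Ideal.ramificationIdx' p P = n :=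
    Ideal.ramificationIdx'_spec ((hmap n).2 le_rfl) (fun h => by
      have := (hmap (n + 1)).1 h; omega)
  rw [hen] at hPe
  have hvt : v.valuation L (algebraMap (RatFunc (ZMod 3)) L RatFunc.X) = exp (-(n : ℤ)) := by
    rw [← hn, ← v.valuation_of_algebraMap (K := L)]
    congr 1
  have hn0 : (0 : ℤ) < n := by
    rcases Nat.eq_zero_or_pos n with h | h
    · exact absurd (h ▸ dvd_zero 3) hPe
    · exact_mod_cast h
  exact index_val_contra (v.valuation L) (algebraMap (RatFunc (ZMod 3)) L RatFunc.X) n hvt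
    (by intro h; apply hPe; exact_mod_cast h) hn0 x y z hne (by simpa only [map_pow] using hrel)

end H36.NX
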