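import Pool.Agent.H36.NX.DD

/-!
# DDR : homotopy retracts in the first variable of `D(N, Q)`
-/

set_option autoImplicit false

open scoped TensorProduct

noncomputable section

namespace NC

variable {k : Type} [Field k] {A : DGA k}

/-- the homotopy of a homotopy retract can be chosen odd: `P h (1 - P) + (1 - P) h P` -/
theorem HRet.exists_odd' {X F : BMod A A} (H : HRet X F) : ∃ H' : HRet X F, H'.s = H.s ∧ H'.r = H.r ∧
    ∀ x, X.N.E (H'.h x) = - H'.h (X.N.E x) := by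
  let P := X.N.P
  let h' : X.N.V →ₗ[k] X.N.V :=
    P ∘ₗ H.h ∘ₗ (LinearMap.id - P) + (LinearMap.id - P) ∘ₗ H.h ∘ₗ P
  have hh : ∀ x, h' x = X.N.P (H.h (x - X.N.P x)) + (H.h (X.N.P x) - X.N.P (H.h (X.N.P x))) :=
    fun x => rfl
  refine ⟨⟨H.s, H.r, h', ?_, ?_, ?_⟩, rfl, rfl, ?_⟩
  · intro a x
    rw [hh, hh]
    have p1 : X.b.l.act a x - X.N.P (X.b.l.act a x)
        = X.b.l.act (A.P a) (x - X.N.P x) + X.b.l.act (a - A.P a) (X.N.P x) := by
      rw [X.b.l.P_act]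
      simp only [map_sub, LinearMap.sub_apply]
      abel
    rw [p1, X.b.l.P_act]
    simp only [map_add, H.hl, X.b.l.P_act, A.PP, sub_self, map_zero,
      LinearMap.zero_apply, add_zero, map_sub, SD.E_apply, add_sub_cancel_right,
      LinearMap.sub_apply, LinearMap.add_apply]
    abel
  · intro x a
    rw [hh, hh]
    have p1 : X.b.r.act x a - X.N.P (X.b.r.act x a)
        = X.b.r.act (x - X.N.P x) (A.P a) + X.b.r.act (X.N.P x) (a - A.P a) := by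
      rw [X.b.r.P_act]
      simp only [map_sub, LinearMap.sub_apply]
      abel
    rw [p1, X.b.r.P_act]
    simp only [map_add, H.hr, X.b.r.P_act, A.PP, sub_self, map_zero,
      add_zero, map_sub, LinearMap.sub_apply, LinearMap.add_apply]
    abel
  · intro x
    have dP : ∀ v, X.N.P (X.N.D v) = X.N.D v - X.N.D (X.N.P v) := fun v => by
      rw [X.N.DP]; abel
    have t0 : H.r.f (H.s.f (X.N.P x)) = X.N.P x + X.N.P (X.N.D (H.h (X.N.P x)))
        + X.N.P (H.h (X.N.D (X.N.P x))) := by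
      have c1 := congrArg X.N.P (H.eq (X.N.P x))
      rw [← H.r.P, ← H.s.P, X.N.PP, map_add, map_add, X.N.PP] at c1
      exact c1
    have t1 : H.r.f (H.s.f (x - X.N.P x)) = (x - X.N.P x)
        + (X.N.D (H.h (x - X.N.P x)) - X.N.P (X.N.D (H.h (x - X.N.P x))))
        + (H.h (X.N.D (x - X.N.P x)) - X.N.P (H.h (X.N.D (x - X.N.P x)))) := by
      have c2 := H.eq (x - X.N.P x)
      have c3 := congrArg X.N.P c2
      rw [← H.r.P, ← H.s.P, map_add, map_add, show X.N.P (x - X.N.P x) = 0 by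
        rw [map_sub, X.N.PP, sub_self], map_zero, map_zero, zero_add] at c3
      have c4 : X.N.P (H.h (X.N.D (x - X.N.P x))) = - X.N.P (X.N.D (H.h (x - X.N.P x))) := by
        rw [eq_neg_iff_add_eq_zero, add_comm]; exact c3.symm
      rw [c4, c2]
      abel
    have key : H.r.f (H.s.f x) = H.r.f (H.s.f (X.N.P x)) + H.r.f (H.s.f (x - X.N.P x)) := by
      rw [← map_add, ← map_add, add_sub_cancel]
    rw [key, t0, t1, hh, hh]
    simp only [map_sub, map_add, dP]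
    abel
  · intro x
    change X.N.E (h' x) = - h' (X.N.E x)
    rw [hh, hh]
    simp only [SD.E_apply, map_sub, map_add, X.N.PP]
    abel

private theorem om_mh_odd {R : DGA k} {N N' : SD k} (l : LA R N) (l' : LA R N')
    (φ : N.V →ₗ[k] N'.V) (hE : ∀ x, N'.E (φ x) = - φ (N.E x))
    (hl : ∀ a x, φ (l.act a x) = l'.act (R.E a) (φ x)) (w : Wd k N.V R.V) :
    om l' (Wd.mh R.V φ w) = - Wd.mh R.V φ (om l w) := by
  have hhd : ∀ (s : R.V) (w : Wd k N.V R.V),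
      hd R l' (R.E s) (Wd.mh R.V φ w) = Wd.mh R.V φ (hd R l s w) := fun s w =>
    hd_mh (R := R) l l' φ R.E (fun a x => (hl a x)) s w
  induction w using Wd.induction with
  | hadd a b ha hb => simp only [map_add, ha, hb]; abel
  | hnil n => simp
  | hsnoc w _ r =>
    have h1 : EW N' R.toSD (Wd.mh R.V φ w) = - Wd.mh R.V φ (EW N R.toSD w) :=
      BM.EW_map_odd R.toSD φ hE w
    have h2 := hhd (R.P r) (EW N R.toSD w)
    have h3 := hhd (r - R.P r) w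
    rw [R.EP] at h2
    have h4 : R.E (r - R.P r) = -(r - R.P r) := by
      rw [map_sub, R.EP, SD.E_apply]; abel
    rw [h4, map_neg, LinearMap.neg_apply] at h3
    rw [Wd.mh_snoc, om_snoc, om_snoc, h1, map_neg, h2, map_add, ← h3]
    abel

private theorem hcD_mh_odd {R : DGA k} {N N' : SD k} (b : Bi R R N) (b' : Bi R R N')
    (φ : N.V →ₗ[k] N'.V) (hE : ∀ x, N'.E (φ x) = - φ (N.E x))
    (hl : ∀ a x, φ (b.l.act a x) = b'.l.act (R.E a) (φ x))
    (hr : ∀ x a, φ (b.r.act x a) = b'.r.act (φ x) a) (w : Wd k N.V R.V) :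
    hcD b' (Wd.mh R.V φ w) = - Wd.mh R.V φ (hcD b w)
      + Wd.mh R.V (N'.D ∘ₗ φ + φ ∘ₗ N.D) w := by
  have h1 : Db b'.r (Wd.mh R.V φ w) = - Wd.mh R.V φ (Db b.r w)
      + Wd.mh R.V (N'.D ∘ₗ φ + φ ∘ₗ N.D) w :=
    BM.Db_map_odd (ρ := b.r) (ρ' := b'.r) φ hE hr w
  rw [hcD_apply, hcD_apply, h1, om_mh_odd b.l b'.l φ hE hl, map_sub]
  abel

/-- an odd linear map `h` with `h (a x) = E a h x`, `h (x a) = h x a` induces a homotopy of `D(N, Q)`
(use `BM.barD_HT_odd` and the analogous statements for `HC`) -/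
theorem hcD_ddL_odd {X Y Q : BMod A A} (h : X.N.V →ₗ[k] Y.N.V)
    (hE : ∀ x, Y.N.E (h x) = - h (X.N.E x)) (hl : ∀ a x, h (X.b.l.act a x) = Y.b.l.act (A.E a) (h x))
    (hr : ∀ x a, h (X.b.r.act x a) = Y.b.r.act (h x) a) (v : (DD X Q).V) :
    (DD Y Q).D (ddL (N := X) (N' := Y) (Q := Q) (Q' := Q) h LinearMap.id v)
      = - ddL (N := X) (N' := Y) (Q := Q) (Q' := Q) h LinearMap.id ((DD X Q).D v)
        + ddL (N := X) (N' := Y) (Q := Q) (Q' := Q) (Y.N.D ∘ₗ h + h ∘ₗ X.N.D) LinearMap.id v := by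
  have key := hcD_mh_odd (X.b.bar Q.b) (Y.b.bar Q.b) (BM.HT A.V Q.N.V h) ?_ ?_ ?_ v
  · refine key.trans ?_
    congr 1
    refine Wd.mh_congr (fun n => ?_) v
    have h2 := BM.barD_HT_odd (ρ := X.b.r) (ρ' := Y.b.r) Q.b.l h hE hr n
    change barD Y.b.r Q.b.l (BM.HT A.V Q.N.V h n) + BM.HT A.V Q.N.V h (barD X.b.r Q.b.l n) = _
    rw [h2]
    have : - BM.HT A.V Q.N.V h (barD X.b.r Q.b.l n)
        + BM.HT A.V Q.N.V (Y.N.D ∘ₗ h + h ∘ₗ X.N.D) n + BM.HT A.V Q.N.V h (barD X.b.r Q.b.l n)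
        = BM.HT A.V Q.N.V (Y.N.D ∘ₗ h + h ∘ₗ X.N.D) n := by abel
    exact this
  · intro n
    rw [Bar_E, Bar_E]
    refine tens_ext (f := TensorProduct.map (EW Y.N A.toSD) Q.N.E ∘ₗ BM.HT A.V Q.N.V h)
      (g := - (BM.HT A.V Q.N.V h ∘ₗ TensorProduct.map (EW X.N A.toSD) Q.N.E)) (fun w y => ?_) n
    simp only [LinearMap.comp_apply, LinearMap.neg_apply, BM.HT_tmul, TensorProduct.map_tmul,
      BM.EW_map_odd A.toSD h hE, TensorProduct.neg_tmul]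
  · intro a n
    refine tens_ext (f := BM.HT A.V Q.N.V h ∘ₗ (X.b.bar Q.b).l.act a)
      (g := (Y.b.bar Q.b).l.act (A.E a) ∘ₗ BM.HT A.V Q.N.V h) (fun w y => ?_) n
    have := hd_mh (R := A) X.b.l Y.b.l h A.E (fun a x => hl a x) a w
    change Wd.mh A.V h (hd A X.b.l a w) ⊗ₜ[k] y = hd A Y.b.l (A.E a) (Wd.mh A.V h w) ⊗ₜ[k] y
    rw [this]
  · intro n a
    refine tens_ext (f := BM.HT A.V Q.N.V h ∘ₗ (X.b.bar Q.b).r.act.flip a)
      (g := (Y.b.bar Q.b).r.act.flip a ∘ₗ BM.HT A.V Q.N.V h) (fun w y => rfl) n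

theorem DD_retr {X F : BMod A A} (H : HRet X F) (Q : BMod A A) (x : (DD X Q).V)
    (hx : (DD X Q).D x = 0) :
    (DD X Q).Hml ((DDmap H.r (BMod.Hom.id Q)).f ((DDmap H.s (BMod.Hom.id Q)).f x)) x := by
  obtain ⟨H', hs, hr, hodd⟩ := H.exists_odd'
  rw [← hs, ← hr]
  refine ⟨ddL (N := X) (N' := X) (Q := Q) (Q' := Q) H'.h LinearMap.id x, ?_⟩
  rw [hcD_ddL_odd (Q := Q) H'.h hodd H'.hl H'.hr x, hx, map_zero, neg_zero, zero_add]
  rw [DDmap_f, DDmap_f, ddL_comp]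
  have e : H'.r.f ∘ₗ H'.s.f = LinearMap.id + (X.N.D ∘ₗ H'.h + H'.h ∘ₗ X.N.D) :=
    LinearMap.ext fun y => (H'.eq y).trans (add_assoc _ _ _)
  rw [e]
  have h2 : ddL (N := X) (N' := X) (Q := Q) (Q' := Q)
      (LinearMap.id + (X.N.D ∘ₗ H'.h + H'.h ∘ₗ X.N.D)) LinearMap.id x
      = x + ddL (N := X) (N' := X) (Q := Q) (Q' := Q)
        (X.N.D ∘ₗ H'.h + H'.h ∘ₗ X.N.D) LinearMap.id x := by
    refine (Wd.mh_congr (f := BM.HT A.V Q.N.V (LinearMap.id + (X.N.D ∘ₗ H'.h + H'.h ∘ₗ X.N.D)))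
      (g := BM.HT A.V Q.N.V LinearMap.id + BM.HT A.V Q.N.V (X.N.D ∘ₗ H'.h + H'.h ∘ₗ X.N.D))
      (fun n => BM.HT_add _ _ n) x).trans ?_
    rw [Wd.mh_add, BM.HT_id_eq, Wd.mh_id]
    rfl
  have h3 : ddL (N := X) (N' := X) (Q := Q) (Q' := Q)
      (LinearMap.id + (X.N.D ∘ₗ H'.h + H'.h ∘ₗ X.N.D))
      ((BMod.Hom.id Q).f ∘ₗ (BMod.Hom.id Q).f) x
      = ddL (N := X) (N' := X) (Q := Q) (Q' := Q)
      (LinearMap.id + (X.N.D ∘ₗ H'.h + H'.h ∘ₗ X.N.D)) LinearMap.id x := rfl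
  rw [h3, h2, add_sub_cancel_left]

end NC
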