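import Mathlib

/-!
# Base : the coordinate ring of the overlap of the two charts of the cubic

MP_eadf0f_ag, example half. `k` is a field of characteristic 3, `t` an element of `k` and
`R = k[u, 1/u][w] / (w^3 - t^2 w - t u^3 - t^2 u^2 - t^2)` with its `k`-basis `u^m w^a`
(`m` an integer, `a = 0, 1, 2`). The sections of the chart `x ≠ 0` are spanned by the `u^m w^a`, `m ≥ 0`,
those of `O(n)` over the chart `y ≠ 0` (trivialised by `x^n`) by the `u^m w^a`, `m ≤ n - a`.
-/

set_option autoImplicit false

namespace H36.NX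

/-- A commutative `k`-algebra `R` with a unit `u` and an element `w` with
`w^3 = t^2 w + t u^3 + t^2 u^2 + t^2`, with basis `u^m w^a`. -/
structure CubicRing (k : Type) [Field k] (t : k) (R : Type) [CommRing R] [Algebra k R] where
  /-- `u = y / x` -/
  u : Rˣ
  /-- `w = z / x` -/
  w : R
  /-- the basis `u^m w^a` -/
  bas : Module.Basis (ℤ × Fin 3) k R
  bas_eq : ∀ (m : ℤ) (a : Fin 3), bas (m, a) = ((u ^ m : Rˣ) : R) * w ^ (a : ℕ)
  rel : w ^ 3 = algebraMap k R (t ^ 2) * w + algebraMap k R t * (u : R) ^ 3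
    + algebraMap k R (t ^ 2) * (u : R) ^ 2 + algebraMap k R (t ^ 2)

namespace CubicRing

variable {k : Type} [Field k] {t : k} {R : Type} [CommRing R] [Algebra k R]

/-- functions on the chart `x ≠ 0` -/
noncomputable def X (C : CubicRing k t R) : Submodule k R :=
  Submodule.span k (Set.range fun p : ℕ × Fin 3 => C.bas ((p.1 : ℤ), p.2))

/-- sections of `O(n)` on the chart `y ≠ 0`, divided by `x^n` -/
noncomputable def Y (C : CubicRing k t R) (n : ℤ) : Submodule k R :=
  Submodule.span k (Set.range fun p : ℕ × Fin 3 => C.bas (n - ((p.2 : ℕ) : ℤ) - (p.1 : ℤ), p.2))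

/-- global sections of `O(n)`, divided by `x^n` -/
noncomputable def B (C : CubicRing k t R) (n : ℤ) : Submodule k R := C.X ⊓ C.Y n

end CubicRing

/-- The index hypothesis: every point of the cubic in a finite extension has degree divisible by 3. -/
def IndexThree (k : Type) [Field k] (t : k) : Prop :=
  ∀ (L : Type) [Field L] [Algebra k L] [FiniteDimensional k L] (x y z : L),
    (x ≠ 0 ∨ y ≠ 0 ∨ z ≠ 0) →
    z ^ 3 = algebraMap k L (t ^ 2) * x ^ 2 * z + algebraMap k L t * y ^ 3
      + algebraMap k L (t ^ 2) * x * y ^ 2 + algebraMap k L (t ^ 2) * x ^ 3 →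
    3 ∣ Module.finrank k L

end H36.NX
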