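import Pool.Agent.H36.NX.Dbl
import Pool.Agent.H36.NX.Pc

/-!
# Tens : exactness of `K(-1,1-n) → K(0,-n) → W n`, one pair of pieces at a time (step S4)

For pieces `S, T ∈ {X, Y, R}`: `S_(p-1) ⊗ T_(q-1) → S_p ⊗ T_q → (ST)_(p+q) → 0` is exact, the first map being the
multiplication by `kz = 1 ⊗ u - u ⊗ 1` (injective on `R ⊗ R`), the second `x ⊗ y ↦ l x * r y`.

Proof: use the basis `u^i w^a ⊗ u^j w^b` of `R ⊗ R`; for fixed `a, b` and fixed `N = i + j` the coefficients
`c i` of `z` have sum zero, and `y` has the coefficients `∑ m ≤ i, c m` (total degree `N - 1`); if this is not zero then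
`c` is not zero at some `m ≤ i` and at some `m ≥ i + 1`, and the supports are intervals.
-/

set_option autoImplicit false

open scoped TensorProduct

namespace H36.NX

section

variable {k : Type} [Field k] {t : k} {R : Type} [CommRing R] [Algebra k R]

/-- the product of two pieces, in `D` -/
noncomputable def DblRing.pc {C : CubicRing k t R} {D : Type} [CommRing D] [Algebra k D]
    (W : DblRing k C D) (s s' : Pc) (n : ℤ) : Submodule k D :=
  match s, s' with
  | Pc.X, Pc.X => W.X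
  | Pc.Y, Pc.Y => W.Y n
  | _, _ => ⊤

/-- the image of `S ⊗ T` in `R ⊗ R` -/
noncomputable def TT (S T : Submodule k R) : Submodule k (R ⊗[k] R) :=
  LinearMap.range (TensorProduct.map S.subtype T.subtype)

/-- `1 ⊗ u - u ⊗ 1` -/
noncomputable def CubicRing.kz (C : CubicRing k t R) : R ⊗[k] R :=
  (1 : R) ⊗ₜ[k] (C.u : R) - (C.u : R) ⊗ₜ[k] (1 : R)

/-- `x ⊗ y ↦ l x * r y` -/
noncomputable def DblRing.mu {C : CubicRing k t R} {D : Type} [CommRing D] [Algebra k D]
    (W : DblRing k C D) : R ⊗[k] R →ₐ[k] D :=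
  Algebra.TensorProduct.productMap W.l W.r

variable {C : CubicRing k t R} {D : Type} [CommRing D] [Algebra k D]

/-- the basis vectors of a piece -/
def Pc.idx (s : Pc) (n : ℤ) (m : ℤ) (a : Fin 3) : Prop :=
  match s with
  | Pc.X => 0 ≤ m
  | Pc.Y => m + ((a : ℕ) : ℤ) ≤ n
  | Pc.R => True

theorem Pc.idx_between (s : Pc) {n m m' i : ℤ} {a : Fin 3} (h : s.idx n m a) (h' : s.idx n m' a)
    (h1 : m ≤ i) (h2 : i ≤ m') : s.idx n i a := by
  cases s
  · simp only [Pc.idx] at *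
    omega
  · simp only [Pc.idx] at *
    omega
  · trivial

theorem Pc.idx_step (s : Pc) {n m m' i : ℤ} {a : Fin 3} (h : s.idx n m a) (h' : s.idx n m' a)
    (h1 : m ≤ i) (h2 : i + 1 ≤ m') : s.idx (n - 1) i a := by
  cases s
  · simp only [Pc.idx] at *
    omega
  · simp only [Pc.idx] at *
    omega
  · trivial

theorem bas_mem_pc (C : CubicRing k t R) (s : Pc) (n m : ℤ) (a : Fin 3) (h : s.idx n m a) :
    C.bas (m, a) ∈ C.pc s n := by
  cases s
  · exact C.bas_mem_X m a h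
  · exact C.bas_mem_Y n m a h
  · trivial

theorem pc_le (C : CubicRing k t R) (s : Pc) (n : ℤ) (U : Submodule k R)
    (h : ∀ m a, s.idx n m a → C.bas (m, a) ∈ U) : C.pc s n ≤ U := by
  cases s
  · refine Submodule.span_le.2 ?_
    rintro _ ⟨⟨p, a⟩, rfl⟩
    exact h _ _ (by simp only [Pc.idx]; omega)
  · refine Submodule.span_le.2 ?_
    rintro _ ⟨⟨p, a⟩, rfl⟩
    exact h _ _ (by simp only [Pc.idx]; omega)
  · have : C.pc Pc.R n = Submodule.span k (Set.range C.bas) := by
      rw [C.bas.span_eq]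
      rfl
    rw [this]
    refine Submodule.span_le.2 ?_
    rintro _ ⟨⟨p, a⟩, rfl⟩
    exact h _ _ trivial

theorem tmul_mem_TT {S T : Submodule k R} {x y : R} (hx : x ∈ S) (hy : y ∈ T) :
    x ⊗ₜ[k] y ∈ TT S T :=
  ⟨(⟨x, hx⟩ : S) ⊗ₜ[k] (⟨y, hy⟩ : T), rfl⟩

theorem TT_le (C : CubicRing k t R) (s s' : Pc) (p q : ℤ) (U : Submodule k (R ⊗[k] R))
    (h : ∀ i a j b, s.idx p i a → s'.idx q j b → C.bas (i, a) ⊗ₜ[k] C.bas (j, b) ∈ U) :
    TT (C.pc s p) (C.pc s' q) ≤ U := by
  rintro _ ⟨z, rfl⟩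
  have key : ∀ x ∈ C.pc s p, ∀ y ∈ C.pc s' q, x ⊗ₜ[k] y ∈ U := by
    have h1 : ∀ i a, s.idx p i a → ∀ y ∈ C.pc s' q, C.bas (i, a) ⊗ₜ[k] y ∈ U := by
      intro i a hi y hy
      have := pc_le C s' q (U.comap (TensorProduct.mk k R R (C.bas (i, a))))
        (fun j b hj => h i a j b hi hj)
      exact this hy
    intro x hx y hy
    have := pc_le C s p (U.comap ((TensorProduct.mk k R R).flip y)) (fun i a hi => h1 i a hi y hy)
    exact this hx
  induction z using TensorProduct.induction_on with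
  | zero => rw [map_zero]; exact zero_mem _
  | tmul x y => exact key x x.2 y y.2
  | add x y hx hy => rw [map_add]; exact add_mem hx hy

theorem upow_one_add (C : CubicRing k t R) (m : ℤ) (a : Fin 3) :
    (C.u : R) * C.bas (m, a) = C.bas (m + 1, a) := by
  rw [C.bas_eq, C.bas_eq, zpow_add_one, Units.val_mul]
  ring

theorem kz_mul_bas (C : CubicRing k t R) (i j : ℤ) (a b : Fin 3) :
    C.kz * (C.bas (i, a) ⊗ₜ[k] C.bas (j, b)) =
      C.bas (i, a) ⊗ₜ[k] C.bas (j + 1, b) - C.bas (i + 1, a) ⊗ₜ[k] C.bas (j, b) := by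
  rw [CubicRing.kz, sub_mul, Algebra.TensorProduct.tmul_mul_tmul,
    Algebra.TensorProduct.tmul_mul_tmul, one_mul, one_mul, upow_one_add, upow_one_add]

/-- the coefficient of a basis vector of `R ⊗ R` -/
noncomputable def coef (C : CubicRing k t R) (i j : ℤ) (a b : Fin 3) : R ⊗[k] R →ₗ[k] k :=
  (Finsupp.lapply ((i, a), (j, b)) :
    ((ℤ × Fin 3) × (ℤ × Fin 3) →₀ k) →ₗ[k] k).comp
      ((C.bas.tensorProduct C.bas).repr : R ⊗[k] R →ₗ[k] _)

theorem coef_bas (C : CubicRing k t R) (i j m n : ℤ) (a b c d : Fin 3) :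
    coef C i j a b (C.bas (m, c) ⊗ₜ[k] C.bas (n, d)) =
      if m = i ∧ n = j ∧ c = a ∧ d = b then 1 else 0 := by
  have e : C.bas (m, c) ⊗ₜ[k] C.bas (n, d) = (C.bas.tensorProduct C.bas) ((m, c), (n, d)) := by
    rw [Module.Basis.tensorProduct_apply]
  rw [e, coef, LinearMap.comp_apply, LinearEquiv.coe_coe, Module.Basis.repr_self,
    Finsupp.lapply_apply, Finsupp.single_apply]
  by_cases h : m = i ∧ n = j ∧ c = a ∧ d = b
  · obtain ⟨rfl, rfl, rfl, rfl⟩ := h
    rw [if_pos rfl, if_pos ⟨rfl, rfl, rfl, rfl⟩]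
  · rw [if_neg h, if_neg]
    intro he
    apply h
    simp only [Prod.mk.injEq] at he
    exact ⟨he.1.1, he.2.1, he.1.2, he.2.2⟩

theorem coef_kz_mul (C : CubicRing k t R) (i j : ℤ) (a b : Fin 3) (z : R ⊗[k] R) :
    coef C i j a b (C.kz * z) = coef C i (j - 1) a b z - coef C (i - 1) j a b z := by
  have h : (coef C i j a b).comp (LinearMap.mulLeft k C.kz) =
      coef C i (j - 1) a b - coef C (i - 1) j a b := by
    refine (C.bas.tensorProduct C.bas).ext fun p => ?_
    obtain ⟨⟨m, c⟩, ⟨n, d⟩⟩ := p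
    rw [Module.Basis.tensorProduct_apply, LinearMap.comp_apply, LinearMap.mulLeft_apply,
      kz_mul_bas, map_sub, LinearMap.sub_apply, coef_bas, coef_bas, coef_bas, coef_bas]
    congr 1
    · refine if_congr ?_ rfl rfl
      constructor
      · rintro ⟨h1, h2, h3, h4⟩
        exact ⟨h1, by omega, h3, h4⟩
      · rintro ⟨h1, h2, h3, h4⟩
        exact ⟨h1, by omega, h3, h4⟩
    · refine if_congr ?_ rfl rfl
      constructor
      · rintro ⟨h1, h2, h3, h4⟩
        exact ⟨by omega, h2, h3, h4⟩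
      · rintro ⟨h1, h2, h3, h4⟩
        exact ⟨by omega, h2, h3, h4⟩
  have h2 := congrArg (fun f => f z) h
  simpa using h2

theorem kz_mul_injective (C : CubicRing k t R) (z : R ⊗[k] R) (h : C.kz * z = 0) : z = 0 := by
  have h1 : ∀ (i j : ℤ) (a b : Fin 3), coef C i j a b z = coef C (i - 1) (j + 1) a b z := by
    intro i j a b
    have := coef_kz_mul C i (j + 1) a b z
    rw [h, map_zero, add_sub_cancel_right] at this
    exact (sub_eq_zero.1 this.symm)
  have h2 : ∀ (n : ℕ) (i j : ℤ) (a b : Fin 3),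
      coef C i j a b z = coef C (i - n) (j + n) a b z := by
    intro n
    induction n with
    | zero => intro i j a b; simp
    | succ n ih =>
      intro i j a b
      rw [ih i j a b, h1]
      push_cast
      rw [sub_sub, add_assoc]
  have h3 : ∀ (i j : ℤ) (a b : Fin 3), coef C i j a b z = 0 := by
    intro i j a b
    by_contra hne
    have hfin := ((C.bas.tensorProduct C.bas).repr z).support.finite_toSet
    have hinj : Function.Injective
        (fun n : ℕ => (((i - (n : ℤ), a), (j + (n : ℤ), b)) : (ℤ × Fin 3) × (ℤ × Fin 3))) := by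
      intro n n' hn
      simp only [Prod.mk.injEq] at hn
      omega
    have hmem : ∀ n : ℕ, (((i - (n : ℤ), a), (j + (n : ℤ), b)) : (ℤ × Fin 3) × (ℤ × Fin 3)) ∈
        (((C.bas.tensorProduct C.bas).repr z).support : Set ((ℤ × Fin 3) × (ℤ × Fin 3))) := by
      intro n
      rw [Finset.mem_coe, Finsupp.mem_support_iff]
      have := h2 n i j a b
      rw [this] at hne
      exact hne
    exact Set.infinite_of_injective_forall_mem hinj hmem hfin
  have h4 : (C.bas.tensorProduct C.bas).repr z = 0 := by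
    ext p
    obtain ⟨⟨m, c⟩, ⟨n, d⟩⟩ := p
    exact h3 m n c d
  exact (LinearEquiv.map_eq_zero_iff _).1 h4

theorem mu_tmul (W : DblRing k C D) (x y : R) : W.mu (x ⊗ₜ[k] y) = W.l x * W.r y := rfl

theorem mu_kz (W : DblRing k C D) : W.mu C.kz = 0 := by
  rw [CubicRing.kz, map_sub, mu_tmul, mu_tmul, map_one, map_one, one_mul, mul_one, W.lr, sub_self]

theorem l_upow (W : DblRing k C D) (j : ℤ) :
    W.l ((C.u ^ j : Rˣ) : R) = W.r ((C.u ^ j : Rˣ) : R) := by
  have h : Units.map (W.l : R →* D) C.u = Units.map (W.r : R →* D) C.u := Units.ext W.lr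
  have h2 : Units.map (W.l : R →* D) (C.u ^ j) = Units.map (W.r : R →* D) (C.u ^ j) := by
    rw [map_zpow, map_zpow, h]
  exact congrArg Units.val h2

theorem mu_bas (W : DblRing k C D) (i j : ℤ) (a b : Fin 3) :
    W.mu (C.bas (i, a) ⊗ₜ[k] C.bas (j, b)) = W.bas (i + j, a, b) := by
  rw [mu_tmul, W.bas_eq, C.bas_eq j b, map_mul W.r, ← l_upow, ← mul_assoc, ← map_mul,
    C.bas_eq, C.bas_eq, zpow_add, Units.val_mul]
  congr 2
  ring

/-- the difference of two basis vectors of the same image is a multiple of `kz` -/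
theorem sub_mem_kz (C : CubicRing k t R) (s s' : Pc) (p q : ℤ) (a b : Fin 3) (d : ℕ) :
    ∀ (i j : ℤ), s.idx p i a → s.idx p (i + d) a → s'.idx q j b → s'.idx q (j - d) b →
      C.bas (i, a) ⊗ₜ[k] C.bas (j, b) - C.bas (i + d, a) ⊗ₜ[k] C.bas (j - d, b) ∈
        (TT (C.pc s (p - 1)) (C.pc s' (q - 1))).map (LinearMap.mulLeft k C.kz) := by
  induction d with
  | zero =>
    intro i j _ _ _ _
    simp
  | succ d ih =>
    intro i j h1 h2 h3 h4
    have h5 : s.idx p (i + d) a := s.idx_between h1 h2 (by omega) (by push_cast; omega)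
    have h6 : s'.idx q (j - d) b := s'.idx_between h4 h3 (by push_cast; omega) (by omega)
    have h7 : s.idx (p - 1) (i + d) a := s.idx_step h1 h2 (by omega) (by push_cast; omega)
    have h8 : s'.idx (q - 1) (j - d - 1) b :=
      s'.idx_step h4 h3 (by push_cast; omega) (by omega)
    have h9 := ih i j h1 h5 h3 h6
    have h10 : C.kz * (C.bas (i + d, a) ⊗ₜ[k] C.bas (j - d - 1, b)) ∈
        (TT (C.pc s (p - 1)) (C.pc s' (q - 1))).map (LinearMap.mulLeft k C.kz) :=
      ⟨_, tmul_mem_TT (bas_mem_pc C s (p - 1) _ a h7) (bas_mem_pc C s' (q - 1) _ b h8), rfl⟩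
    rw [kz_mul_bas, sub_add_cancel] at h10
    have h11 := add_mem h9 h10
    rw [sub_add_sub_cancel] at h11
    have e1 : i + (d : ℤ) + 1 = i + ((d + 1 : ℕ) : ℤ) := by push_cast; ring
    have e2 : j - (d : ℤ) - 1 = j - ((d + 1 : ℕ) : ℤ) := by push_cast; ring
    rw [e1, e2] at h11
    exact h11

theorem sub_mem_kz' (C : CubicRing k t R) (s s' : Pc) (p q : ℤ) (a b : Fin 3) (i j i' j' : ℤ)
    (h1 : s.idx p i a) (h2 : s.idx p i' a) (h3 : s'.idx q j b) (h4 : s'.idx q j' b)
    (he : i + j = i' + j') :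
      C.bas (i, a) ⊗ₜ[k] C.bas (j, b) - C.bas (i', a) ⊗ₜ[k] C.bas (j', b) ∈
        (TT (C.pc s (p - 1)) (C.pc s' (q - 1))).map (LinearMap.mulLeft k C.kz) := by
  rcases le_total i i' with h | h
  · obtain ⟨d, hd⟩ := Int.eq_ofNat_of_zero_le (sub_nonneg.2 h)
    have e1 : i' = i + d := by omega
    have e2 : j' = j - d := by omega
    subst e1 e2
    exact sub_mem_kz C s s' p q a b d i j h1 h2 h3 h4
  · obtain ⟨d, hd⟩ := Int.eq_ofNat_of_zero_le (sub_nonneg.2 h)
    have e1 : i = i' + d := by omega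
    have e2 : j = j' - d := by omega
    subst e1 e2
    have := neg_mem (sub_mem_kz C s s' p q a b d i' j' h2 h1 h4 h3)
    rwa [neg_sub] at this

theorem ker_mu (W : DblRing k C D) (s s' : Pc) (p q : ℤ) (z : R ⊗[k] R)
    (hz : z ∈ TT (C.pc s p) (C.pc s' q)) (h0 : W.mu z = 0) :
    ∃ y ∈ TT (C.pc s (p - 1)) (C.pc s' (q - 1)), z = C.kz * y := by
  classical
  let U := (TT (C.pc s (p - 1)) (C.pc s' (q - 1))).map (LinearMap.mulLeft k C.kz)
  let σ : D →ₗ[k] R ⊗[k] R := W.bas.constr k fun x =>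
    if h : ∃ i : ℤ, s.idx p i x.2.1 ∧ s'.idx q (x.1 - i) x.2.2 then
      C.bas (h.choose, x.2.1) ⊗ₜ[k] C.bas (x.1 - h.choose, x.2.2) else 0
  have h1 : TT (C.pc s p) (C.pc s' q) ≤
      U.comap (LinearMap.id - σ.comp W.mu.toLinearMap) := by
    refine TT_le C s s' p q _ fun i a j b hi hj => ?_
    have h2 : ∃ i' : ℤ, s.idx p i' a ∧ s'.idx q (i + j - i') b :=
      ⟨i, hi, by rwa [add_sub_cancel_left]⟩
    have h3 : σ (W.mu (C.bas (i, a) ⊗ₜ[k] C.bas (j, b))) =
        C.bas (h2.choose, a) ⊗ₜ[k] C.bas (i + j - h2.choose, b) := by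
      rw [mu_bas, Module.Basis.constr_basis]
      exact dif_pos h2
    rw [Submodule.mem_comap, LinearMap.sub_apply, LinearMap.id_apply, LinearMap.comp_apply,
      AlgHom.toLinearMap_apply, h3]
    exact sub_mem_kz' C s s' p q a b _ _ _ _ hi h2.choose_spec.1 hj h2.choose_spec.2 (by omega)
  have h4 := h1 hz
  rw [Submodule.mem_comap, LinearMap.sub_apply, LinearMap.id_apply, LinearMap.comp_apply,
    AlgHom.toLinearMap_apply, h0, map_zero, sub_zero] at h4
  obtain ⟨y, hy, hyz⟩ := h4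
  exact ⟨y, hy, hyz.symm⟩

theorem map_mu (W : DblRing k C D) (s s' : Pc) (p q : ℤ) :
    (TT (C.pc s p) (C.pc s' q)).map W.mu.toLinearMap = W.pc s s' (p + q) := by
  have hmem : ∀ (i j : ℤ) (a b : Fin 3), s.idx p i a → s'.idx q j b →
      W.bas (i + j, a, b) ∈ (TT (C.pc s p) (C.pc s' q)).map W.mu.toLinearMap := by
    intro i j a b hi hj
    refine ⟨C.bas (i, a) ⊗ₜ[k] C.bas (j, b),
      tmul_mem_TT (bas_mem_pc C s p i a hi) (bas_mem_pc C s' q j b hj), ?_⟩
    exact mu_bas W i j a b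
  have hXX : ∀ (m : ℤ) (a b : Fin 3), 0 ≤ m → W.bas (m, a, b) ∈ W.X := by
    intro m a b hm
    refine Submodule.subset_span ⟨(m.toNat, a, b), ?_⟩
    simp only
    rw [Int.toNat_of_nonneg hm]
  have hYY : ∀ (n m : ℤ) (a b : Fin 3), m + ((a : ℕ) : ℤ) + ((b : ℕ) : ℤ) ≤ n →
      W.bas (m, a, b) ∈ W.Y n := by
    intro n m a b hm
    refine Submodule.subset_span
      ⟨((n - m - ((a : ℕ) : ℤ) - ((b : ℕ) : ℤ)).toNat, a, b), ?_⟩
    simp only
    rw [Int.toNat_of_nonneg (by omega)]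
    congr 2
    ring
  refine le_antisymm ?_ ?_
  · rw [Submodule.map_le_iff_le_comap]
    refine TT_le C s s' p q _ fun i a j b hi hj => ?_
    rw [Submodule.mem_comap, AlgHom.toLinearMap_apply, mu_bas]
    cases s <;> cases s' <;> first | exact Submodule.mem_top | skip
    · exact hXX _ _ _ (add_nonneg hi hj)
    · refine hYY _ _ _ _ ?_
      simp only [Pc.idx] at hi hj
      omega
  · have htop : (∀ (m : ℤ) (a b : Fin 3), ∃ i j : ℤ, i + j = m ∧ s.idx p i a ∧ s'.idx q j b) →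
        (⊤ : Submodule k D) ≤ (TT (C.pc s p) (C.pc s' q)).map W.mu.toLinearMap := by
      intro h
      rw [← W.bas.span_eq]
      refine Submodule.span_le.2 ?_
      rintro _ ⟨⟨m, a, b⟩, rfl⟩
      obtain ⟨i, j, rfl, hi, hj⟩ := h m a b
      exact hmem i j a b hi hj
    cases s <;> cases s'
    · refine Submodule.span_le.2 ?_
      rintro _ ⟨⟨m, a, b⟩, rfl⟩
      have := hmem (m : ℤ) 0 a b (by simp [Pc.idx]) (by simp [Pc.idx])
      rwa [add_zero] at this
    · refine htop fun m a b => ⟨max 0 (m - q + ((b : ℕ) : ℤ)), m - max 0 (m - q + ((b : ℕ) : ℤ)),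
        by omega, ?_, ?_⟩
      · simp only [Pc.idx]
        omega
      · simp only [Pc.idx]
        omega
    · refine htop fun m a b => ⟨0, m, by omega, ?_, trivial⟩
      simp [Pc.idx]
    · refine htop fun m a b => ⟨m - max 0 (m - p + ((a : ℕ) : ℤ)), max 0 (m - p + ((a : ℕ) : ℤ)),
        by omega, ?_, ?_⟩
      · simp only [Pc.idx]
        omega
      · simp only [Pc.idx]
        omega
    · refine Submodule.span_le.2 ?_
      rintro _ ⟨⟨m, a, b⟩, rfl⟩
      have := hmem (p - ((a : ℕ) : ℤ) - (m : ℤ)) (q - ((b : ℕ) : ℤ)) a b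
        (by simp only [Pc.idx]; omega) (by simp only [Pc.idx]; omega)
      simp only
      rwa [show p + q - ((a : ℕ) : ℤ) - ((b : ℕ) : ℤ) - (m : ℤ) =
        p - ((a : ℕ) : ℤ) - (m : ℤ) + (q - ((b : ℕ) : ℤ)) by ring]
    · refine htop fun m a b => ⟨p - ((a : ℕ) : ℤ), m - p + ((a : ℕ) : ℤ), by omega, ?_, ?_⟩
      · simp only [Pc.idx]
        omega
      · trivial
    · refine htop fun m a b => ⟨m, 0, by omega, trivial, ?_⟩
      simp [Pc.idx]
    · refine htop fun m a b => ⟨m - q + ((b : ℕ) : ℤ), q - ((b : ℕ) : ℤ), by omega, trivial, ?_⟩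
      simp only [Pc.idx]
      omega
    · exact htop fun m a b => ⟨m, 0, by omega, trivial, trivial⟩

end

end H36.NX
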