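import Pool.Agent.H36.NX.Dom
import Pool.Agent.H36.NX.Coh

/-!
# Chart : the charts `U` (where `x ≠ 0`) and `V` (where `s = 1 - w / u^2 ≠ 0` and `y ≠ 0`), inside a field `F`

`F` is a field containing `R`. `RX`, `RY`, `RR` are the images of `X`, `Y 0` and `R`, and `RV = RY[1/s]`,
`RUV = RR[1/s]`.
-/

set_option autoImplicit false

namespace H36.NX
namespace CubicRing

variable {k : Type} [Field k] {t : k} {R : Type} [CommRing R] [Algebra k R]
variable {K : Type} [Field K] [Algebra k K]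
variable {F : Type} [Field F] [Algebra k F]

/-- `s = 1 - w / u^2`, the derivative of the cubic equation with respect to `v = 1/u`, over `k[w']` -/
noncomputable def s (C : CubicRing k t R) : R := 1 - ((C.u ^ (-2 : ℤ) : Rˣ) : R) * C.w

/-- the subalgebra `X` of `R` -/
noncomputable def AX (C : CubicRing k t R) : Subalgebra k R where
  carrier := C.X
  mul_mem' := fun ha hb => C.mul_mem_X ha hb
  one_mem' := C.one_mem_X
  add_mem' := fun ha hb => C.X.add_mem ha hb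
  zero_mem' := C.X.zero_mem
  algebraMap_mem' := fun c => by
    rw [Algebra.algebraMap_eq_smul_one]
    exact C.X.smul_mem c C.one_mem_X

/-- the subalgebra `Y 0` of `R` -/
noncomputable def AY (C : CubicRing k t R) : Subalgebra k R where
  carrier := C.Y 0
  mul_mem' := fun ha hb => by simpa using C.mul_mem_Y ha hb
  one_mem' := C.one_mem_Y le_rfl
  add_mem' := fun ha hb => (C.Y 0).add_mem ha hb
  zero_mem' := (C.Y 0).zero_mem
  algebraMap_mem' := fun c => by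
    rw [Algebra.algebraMap_eq_smul_one]
    exact (C.Y 0).smul_mem c (C.one_mem_Y le_rfl)

/-- the functions on `U` -/
noncomputable def RX (C : CubicRing k t R) (j : R →ₐ[k] F) : Subalgebra k F := C.AX.map j

/-- the functions on `U ∩ V` -/
noncomputable def RUV (C : CubicRing k t R) (j : R →ₐ[k] F) : Subalgebra k F :=
  Algebra.adjoin k (Set.range j ∪ {(j C.s)⁻¹})

/-- the functions on `V` -/
noncomputable def RV (C : CubicRing k t R) (j : R →ₐ[k] F) : Subalgebra k F :=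
  Algebra.adjoin k ((C.AY.map j : Set F) ∪ {(j C.s)⁻¹})

theorem s_eq (C : CubicRing k t R) : C.s = C.bas (0, 0) - C.bas (-2, 1) := by
  rw [s, C.bas_eq, C.bas_eq]
  simp

theorem s_mem_Y (C : CubicRing k t R) : C.s ∈ C.Y 0 := by
  rw [s_eq]
  exact (C.Y 0).sub_mem (C.bas_mem_Y 0 0 0 (by simp)) (C.bas_mem_Y 0 (-2) 1 (by simp))

theorem pow_mem_Y_zero (C : CubicRing k t R) {r : R} (h : r ∈ C.Y 0) (n : ℕ) : r ^ n ∈ C.Y 0 :=
  C.AY.pow_mem (show r ∈ C.AY from h) n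

theorem mul_mem_Y_zero (C : CubicRing k t R) {r r' : R} (h : r ∈ C.Y 0) (h' : r' ∈ C.Y 0) :
    r * r' ∈ C.Y 0 :=
  C.AY.mul_mem (show r ∈ C.AY from h) (show r' ∈ C.AY from h')

variable (C : CubicRing k t R) (E : CubeRoot k t K) (j : R →ₐ[k] F) (hj : Function.Injective j)

theorem s_ne_zero_aux (hj : Function.Injective j) : j C.s ≠ 0 := by
  intro h
  have h1 : C.s = 0 := hj (by rw [h, map_zero])
  have h2 := congrArg (fun x => C.bas.repr x (0, 0)) h1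
  rw [s_eq] at h2
  simp at h2

theorem lead_s : C.lead E 0 C.s = 1 := by
  rw [s_eq, map_sub, lead_bas, lead_bas]
  simp

/-- a description of the subalgebra generated by a subalgebra and an inverse -/
theorem mem_adjoin_inv_aux (A : Subalgebra k R) (a : R) (ha : a ∈ A) (σ : F) (hσ : j a * σ = 1)
    (x : F) (hx : x ∈ Algebra.adjoin k ((A.map j : Set F) ∪ {σ})) :
    ∃ r ∈ A, ∃ n : ℕ, x = j r * σ ^ n := by
  induction hx using Algebra.adjoin_induction with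
  | mem y hy =>
    rcases hy with hy | hy
    · obtain ⟨r, hr, rfl⟩ := hy
      exact ⟨r, hr, 0, by simp⟩
    · rw [Set.mem_singleton_iff] at hy
      exact ⟨1, A.one_mem, 1, by simp [hy]⟩
  | algebraMap c =>
    exact ⟨algebraMap k R c, A.algebraMap_mem c, 0, by simp⟩
  | add y z _ _ hy hz =>
    obtain ⟨r, hr, n, rfl⟩ := hy
    obtain ⟨r', hr', m, rfl⟩ := hz
    refine ⟨r * a ^ m + r' * a ^ n, A.add_mem (A.mul_mem hr (A.pow_mem ha m))
      (A.mul_mem hr' (A.pow_mem ha n)), n + m, ?_⟩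
    have e1 : ∀ i : ℕ, j a ^ i * σ ^ i = 1 := fun i => by rw [← mul_pow, hσ, one_pow]
    rw [map_add, map_mul, map_mul, map_pow, map_pow, pow_add]
    calc j r * σ ^ n + j r' * σ ^ m
        = j r * σ ^ n * (j a ^ m * σ ^ m) + j r' * σ ^ m * (j a ^ n * σ ^ n) := by
          rw [e1, e1]; ring
      _ = _ := by ring
  | mul y z _ _ hy hz =>
    obtain ⟨r, hr, n, rfl⟩ := hy
    obtain ⟨r', hr', m, rfl⟩ := hz
    exact ⟨r * r', A.mul_mem hr hr', n + m, by rw [map_mul, pow_add]; ring⟩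

theorem s_mul_inv (hj : Function.Injective j) : j C.s * (j C.s)⁻¹ = 1 :=
  mul_inv_cancel₀ (C.s_ne_zero_aux j hj)

/-- `(s) + (v) = 1` in `Y 0`, hence `(s^n) + (v^m) = 1` -/
theorem coprime_aux (n m : ℕ) : ∃ a ∈ C.Y 0, ∃ b ∈ C.Y (-(m : ℤ)),
    (1 : R) = a * C.s ^ n + b := by
  have hv : ((C.u⁻¹ : Rˣ) : R) ∈ C.Y (-1) := by
    have := C.upow_mem_Y (m := -1) (n := -1) le_rfl
    simpa using this
  have hv0 : ((C.u⁻¹ : Rˣ) : R) ∈ C.Y 0 := C.Y_mono (by norm_num) hv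
  have hw : ((C.u⁻¹ : Rˣ) : R) * C.w ∈ C.Y 0 := by
    have := C.mul_mem_Y hv (C.w_mem_Y (n := 1) le_rfl)
    simpa using this
  let sv : C.AY := ⟨C.s, C.s_mem_Y⟩
  let vv : C.AY := ⟨((C.u⁻¹ : Rˣ) : R), hv0⟩
  let ww : C.AY := ⟨((C.u⁻¹ : Rˣ) : R) * C.w, hw⟩
  have hc : IsCoprime sv vv := by
    refine ⟨1, ww, ?_⟩
    apply Subtype.ext
    show (1 : R) * C.s + ((C.u⁻¹ : Rˣ) : R) * C.w * ((C.u⁻¹ : Rˣ) : R) = 1
    have : ((C.u ^ (-2 : ℤ) : Rˣ) : R) = ((C.u⁻¹ : Rˣ) : R) * ((C.u⁻¹ : Rˣ) : R) := by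
      rw [← Units.val_mul]
      congr 1
      rw [show (-2 : ℤ) = -1 + -1 by norm_num, zpow_add, zpow_neg_one]
    rw [s, this]
    ring
  obtain ⟨a, b, hab⟩ := hc.pow (m := n) (n := m)
  refine ⟨(a : R), a.2, (b : R) * ((C.u⁻¹ : Rˣ) : R) ^ m, ?_, ?_⟩
  · have h1 : ((C.u⁻¹ : Rˣ) : R) ^ m ∈ C.Y (-(m : ℤ)) := by
      have := C.upow_mem_Y (m := -(m : ℤ)) (n := -(m : ℤ)) le_rfl
      rw [zpow_neg, zpow_natCast, ← inv_pow, Units.val_pow_eq_pow_val] at this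
      exact this
    have := C.mul_mem_Y (m := 0) (show (b : R) ∈ C.Y 0 from b.2) h1
    simpa using this
  · have := congrArg (fun x : C.AY => (x : R)) hab
    simp only [Subalgebra.coe_add, Subalgebra.coe_mul, Subalgebra.coe_pow, Subalgebra.coe_one] at this
    exact this.symm

include E hj

theorem s_ne_zero : j C.s ≠ 0 := C.s_ne_zero_aux j hj

theorem mem_RUV_iff (x : F) : x ∈ C.RUV j ↔ ∃ (r : R) (n : ℕ), x = j r * ((j C.s)⁻¹) ^ n := by
  constructor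
  · intro hx
    have hx' : x ∈ Algebra.adjoin k (((⊤ : Subalgebra k R).map j : Set F) ∪ {(j C.s)⁻¹}) := by
      have e : ((⊤ : Subalgebra k R).map j : Set F) = Set.range j := by
        ext y; simp
      rw [e]; exact hx
    obtain ⟨r, -, n, h⟩ := mem_adjoin_inv_aux j ⊤ C.s Algebra.mem_top _ (C.s_mul_inv j hj) x hx'
    exact ⟨r, n, h⟩
  · rintro ⟨r, n, rfl⟩
    exact (C.RUV j).mul_mem (Algebra.subset_adjoin (Or.inl ⟨r, rfl⟩))
      ((C.RUV j).pow_mem (Algebra.subset_adjoin (Or.inr rfl)) n)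

theorem mem_RV_iff (x : F) : x ∈ C.RV j ↔ ∃ r ∈ C.Y 0, ∃ n : ℕ, x = j r * ((j C.s)⁻¹) ^ n := by
  constructor
  · intro hx
    exact mem_adjoin_inv_aux j C.AY C.s C.s_mem_Y _ (C.s_mul_inv j hj) x hx
  · rintro ⟨r, hr, n, rfl⟩
    exact (C.RV j).mul_mem (Algebra.subset_adjoin (Or.inl ⟨r, hr, rfl⟩))
      ((C.RV j).pow_mem (Algebra.subset_adjoin (Or.inr rfl)) n)

/-- `R ∩ RV = Y 0`: the value of `s` at the point `x = 0` is 1 -/
theorem mem_Y_of_mem_RV (r : R) (h : j r ∈ C.RV j) : r ∈ C.Y 0 := by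
  obtain ⟨y, hy, n, hxy⟩ := (C.mem_RV_iff E j hj _).1 h
  have h1 : r * C.s ^ n = y := by
    apply hj
    rw [map_mul, hxy, map_pow, mul_assoc, ← mul_pow, inv_mul_cancel₀ (C.s_ne_zero_aux j hj),
      one_pow, mul_one]
  by_contra hr
  have hr0 : r ≠ 0 := by
    rintro rfl
    exact hr (C.Y 0).zero_mem
  obtain ⟨N, hN, hN'⟩ := C.exists_degree r hr0
  have hpos : 0 < N := by
    by_contra hle
    exact hr (C.Y_mono (not_lt.1 hle) hN)
  have hsn : C.s ^ n ∈ C.Y 0 := C.pow_mem_Y_zero C.s_mem_Y n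
  have hleads : ∀ i : ℕ, C.lead E 0 (C.s ^ i) = 1 := by
    intro i
    induction i with
    | zero => simpa using C.lead_one E
    | succ i ih =>
      rw [pow_succ]
      have := C.lead_mul E (m := 0) (n := 0) (C.pow_mem_Y_zero C.s_mem_Y i) C.s_mem_Y
      rw [add_zero] at this
      rw [this, ih, C.lead_s E, one_mul]
  have hl := C.lead_mul E (m := N) (n := 0) hN hsn
  rw [add_zero, h1, hleads n, mul_one] at hl
  have hz : C.lead E N y = 0 :=
    (C.lead_eq_zero_iff E (C.Y_mono hpos.le hy)).2 (C.Y_mono (by omega) hy)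
  rw [hz] at hl
  exact hN' ((C.lead_eq_zero_iff E hN).1 hl.symm)

/-- `R + RV = RUV`: since `s + v w' = 1` -/
theorem exists_add (x : F) (h : x ∈ C.RUV j) : ∃ r : R, ∃ y ∈ C.RV j, x = j r + y := by
  obtain ⟨r, n, rfl⟩ := (C.mem_RUV_iff E j hj x).1 h
  obtain ⟨M, hM⟩ := C.exists_mem_Y r
  obtain ⟨a, -, b, hb, hab⟩ := C.coprime_aux n M.toNat
  refine ⟨r * a, j (r * b) * ((j C.s)⁻¹) ^ n, ?_, ?_⟩
  · refine (C.mem_RV_iff E j hj _).2 ⟨r * b, ?_, n, rfl⟩
    exact C.Y_mono (by omega) (C.mul_mem_Y hM hb)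
  · have e1 : j (C.s ^ n) * ((j C.s)⁻¹) ^ n = 1 := by
      rw [map_pow, ← mul_pow, C.s_mul_inv j hj, one_pow]
    calc j r * ((j C.s)⁻¹) ^ n = j (r * (a * C.s ^ n + b)) * ((j C.s)⁻¹) ^ n := by
          rw [← hab, mul_one]
      _ = j (r * a) * (j (C.s ^ n) * ((j C.s)⁻¹) ^ n) + j (r * b) * ((j C.s)⁻¹) ^ n := by
          rw [mul_add, map_add, ← mul_assoc, map_mul j (r * a)]; ring
      _ = _ := by rw [e1, mul_one]

/-- `RX ∩ RV = k` -/
theorem inf_eq_bot : C.RX j ⊓ C.RV j = ⊥ := by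
  rw [eq_bot_iff]
  intro x hx
  obtain ⟨⟨r, hr, rfl⟩, hV⟩ := hx
  have hY : r ∈ C.Y 0 := C.mem_Y_of_mem_RV E j hj r hV
  have hB : r ∈ C.B 0 := ⟨hr, hY⟩
  rw [C.B_zero, Submodule.mem_span_singleton] at hB
  obtain ⟨c, rfl⟩ := hB
  have : j (c • (1 : R)) = algebraMap k F c := by
    rw [map_smul, map_one, Algebra.algebraMap_eq_smul_one]
  show j (c • (1 : R)) ∈ (⊥ : Subalgebra k F)
  rw [this]
  exact Subalgebra.algebraMap_mem _ c

/-- `RUV = RX + RV + k u^(-1) w^2` -/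
theorem exists_sum (x : F) (h : x ∈ C.RUV j) :
    ∃ a ∈ C.RX j, ∃ b ∈ C.RV j, ∃ c : k, x = a + b + c • j (C.bas (-1, 2)) := by
  obtain ⟨r, y, hy, rfl⟩ := C.exists_add E j hj x h
  have hr : r ∈ C.X ⊔ C.Y 0 ⊔ Submodule.span k {C.bas (-1, 2)} := by
    rw [C.top_eq_zero]; exact Submodule.mem_top
  obtain ⟨r1, hr1, r2, hr2, rfl⟩ := Submodule.mem_sup.1 hr
  obtain ⟨r3, hr3, r4, hr4, rfl⟩ := Submodule.mem_sup.1 hr1
  obtain ⟨c, rfl⟩ := Submodule.mem_span_singleton.1 hr2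
  refine ⟨j r3, ⟨r3, hr3, rfl⟩, j r4 + y, (C.RV j).add_mem ?_ hy, c, ?_⟩
  · exact Algebra.subset_adjoin (Or.inl ⟨r4, hr4, rfl⟩)
  · rw [map_add, map_add, map_smul]
    ring

end CubicRing
end H36.NX
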