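import Pool.Agent.H36.NX.DD
import Pool.Agent.H15.NC.HCFree

/-!
# DDF : `D(A ⊗ A, Q) → Q`, natural quasi-isomorphism
-/

set_option autoImplicit false

open scoped TensorProduct

noncomputable section

namespace NC

variable {k : Type} [Field k] {A : DGA k}

/-- `HC(A; Bar(A ⊗ A, A, Q)) → HC(A; A ⊗ Q) → Q` -/
def ddFr (Q : BMod A A) : SD.Hom (DD (BMod.free A A) Q) Q.N :=
  (frAug Q.b.r).comp (hcN ((BMod.free A A).b.bar Q.b) (Bi.tensLR A.diag.l Q.b.r)
    (augVL A.toSD Q.b.l) (augVL_isHom A.diag.l Q.b))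

theorem ddFr_qi (Q : BMod A A) : (ddFr Q).QI :=
  (frAug_QI Q.b.r Q.r_one).comp (QI_hc _ _ _ _ (qi_augVL A.toSD Q.b.l Q.one_l))

/-- naturality of the augmentation of the Hochschild complex of `A ⊗ Y` -/
private theorem ddf_frAu_nat {Y Y' : SD k} (a : RA A Y) (a' : RA A Y') (g : SD.Hom Y Y')
    (h : a.IsHom a' g) (w : Wd k (A.V ⊗[k] Y.V) A.V) :
    frAu a' (Wd.mh A.V (TensorProduct.map LinearMap.id g.f) w) = g.f (frAu a w) := by
  refine fr_ind (f := frAu a' ∘ₗ Wd.mh A.V (TensorProduct.map LinearMap.id g.f))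
    (g := g.f ∘ₗ frAu a) (fun r y => ?_) (fun w _ r => ?_) w
  · have hE : g.f (Y.E y) = Y'.E (g.f y) := by
      rw [SD.E_apply, SD.E_apply, map_sub, map_add, g.P]
    have h1 : ∀ y r, g.f (a.act y r) = a'.act (g.f y) r := fun y r => h y r
    simp only [LinearMap.comp_apply, Wd.mh_nil, TensorProduct.map_tmul, LinearMap.id_apply,
      frAu_nil, map_add, h1, hE]
  · simp only [LinearMap.comp_apply, Wd.mh_snoc, frAu_snoc, map_zero]

/-- naturality of the augmentation of `Bar(V ⊗ A, A, Q)` -/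
private theorem ddf_augF_nat {Q Q' : BMod A A} (g : BMod.Hom Q Q')
    (z : Wd k (A.V ⊗[k] A.V) A.V ⊗[k] Q.N.V) :
    augF (actVL A.toSD Q'.b.l).f
        (TensorProduct.map (Wd.map LinearMap.id (LinearMap.id : A.V →ₗ[k] A.V)) g.f z)
      = TensorProduct.map LinearMap.id g.f (augF (actVL A.toSD Q.b.l).f z) := by
  refine tens_ext (f := augF (actVL A.toSD Q'.b.l).f ∘ₗ
      TensorProduct.map (Wd.map LinearMap.id (LinearMap.id : A.V →ₗ[k] A.V)) g.f)
    (g := TensorProduct.map LinearMap.id g.f ∘ₗ augF (actVL A.toSD Q.b.l).f) (fun w y => ?_) z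
  simp only [LinearMap.comp_apply, TensorProduct.map_tmul]
  induction w using Wd.induction with
  | hadd a b ha hb => simp only [map_add, TensorProduct.add_tmul, ha, hb]
  | hnil n =>
    rw [Wd.map_nil, augF_nil, augF_nil]
    refine tens_ext (f := (actVL A.toSD Q'.b.l).f ∘ₗ
        (TensorProduct.mk k (A.V ⊗[k] A.V) Q'.N.V).flip (g.f y) ∘ₗ LinearMap.id)
      (g := TensorProduct.map LinearMap.id g.f ∘ₗ (actVL A.toSD Q.b.l).f ∘ₗ
        (TensorProduct.mk k (A.V ⊗[k] A.V) Q.N.V).flip y) (fun v r => ?_) n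
    change v ⊗ₜ[k] Q'.b.l.act r (g.f y) = v ⊗ₜ[k] g.f (Q.b.l.act r y)
    rw [g.isHom.l r y]
  | hsnoc w _ r =>
    rw [Wd.map_snoc, augF_snoc, augF_snoc, map_zero]

/-- naturality: induction on words and `tens_ext`; both augmentations vanish on words of positive length -/
theorem ddFr_nat {Q Q' : BMod A A} (g : BMod.Hom Q Q') (v : (DD (BMod.free A A) Q).V) :
    (ddFr Q').f ((DDmap (BMod.Hom.id (BMod.free A A)) g).f v) = g.f ((ddFr Q).f v) := by
  have h1 : (ddFr Q').f ((DDmap (BMod.Hom.id (BMod.free A A)) g).f v)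
      = frAu Q'.b.r (Wd.mh A.V (augF (actVL A.toSD Q'.b.l).f)
        (Wd.mh A.V (TensorProduct.map (Wd.map LinearMap.id LinearMap.id) g.f) v)) := rfl
  have h2 : g.f ((ddFr Q).f v)
      = g.f (frAu Q.b.r (Wd.mh A.V (augF (actVL A.toSD Q.b.l).f) v)) := rfl
  rw [h1, h2, ← ddf_frAu_nat Q.b.r Q'.b.r g.toHom g.isHom.r, Wd.mh_comp, Wd.mh_comp]
  refine congrArg _ (Wd.mh_congr (fun z => ?_) v)
  exact ddf_augF_nat g z

end NC
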