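import Pool.Agent.H36.NX.DD

/-!
# DDSh : `D(N[1], Q) = D(N, Q)[1]`
-/

set_option autoImplicit false

open scoped TensorProduct

noncomputable section

namespace NC

variable {k : Type} [Field k] {A : DGA k}

theorem ddsh_PW (N : SD k) (R : SD k) (w : Wd k N.V R.V) :
    PW N.sh R w = w - PW N R w := by
  induction w using Wd.induction with
  | hadd a b ha hb =>
    refine (map_add (PW N.sh R) a b).trans ?_
    rw [ha, hb, map_add]; abel
  | hnil n =>
    refine (PW_nil N.sh R n).trans ?_
    rw [PW_nil]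
    exact map_sub Wd.nil n (N.P n)
  | hsnoc w hw r =>
    refine (PW_snoc N.sh R w r).trans ?_
    rw [hw, PW_snoc]
    simp only [map_sub, LinearMap.sub_apply]
    have : Wd.snoc w (R.E r) = Wd.snoc w (R.P r) + Wd.snoc w (R.P r) - Wd.snoc w r := by
      rw [← map_add, ← map_sub]; rfl
    rw [this]
    abel

theorem ddsh_EW (N : SD k) (R : SD k) (w : Wd k N.V R.V) :
    EW N.sh R w = - EW N R w := by
  refine (EW_apply N.sh R w).trans ?_
  rw [ddsh_PW, EW_apply]
  abel

theorem ddsh_hd {N : SD k} (l : LA A N) (s : A.V) (w : Wd k N.V A.V) :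
    hd A l.sh s w = hd A l (A.E s) w := by
  induction w using Wd.induction with
  | hadd a b ha hb =>
    refine (map_add (hd A l.sh s) a b).trans ?_
    rw [ha, hb, map_add]
  | hnil n =>
    refine (hd_nil l.sh s n).trans ?_
    rw [hd_nil]
    rfl
  | hsnoc w hw r =>
    refine (hd_snoc l.sh s w r).trans ?_
    rw [hw, hd_snoc]

theorem ddsh_Db {N : SD k} (ρ : RA A N) (w : Wd k N.V A.V) :
    Db ρ.sh w = - Db ρ w := by
  induction w using Wd.induction with
  | hadd a b ha hb =>
    refine (map_add (Db ρ.sh) a b).trans ?_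
    rw [ha, hb, map_add]; abel
  | hnil n =>
    refine (Db_nil ρ.sh n).trans ?_
    rw [Db_nil]
    exact map_neg Wd.nil (N.D n)
  | hsnoc w hw r =>
    refine (Db_snoc ρ.sh w r).trans ?_
    rw [hw, ddsh_EW, Db_snoc]
    change _ - _ + tl A ρ.act (-(EW N A.toSD w)) r = _
    simp only [map_neg, LinearMap.neg_apply]
    abel

theorem ddsh_om {N : SD k} (l : LA A N) (w : Wd k N.V A.V) :
    om l.sh w = - om l w := by
  induction w using Wd.induction with
  | hadd a b ha hb =>
    refine (map_add (om l.sh) a b).trans ?_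
    rw [ha, hb, map_add]; abel
  | hnil n =>
    refine (om_nil l.sh n).trans ?_
    rw [om_nil, neg_zero]
  | hsnoc w _ r =>
    refine (om_snoc l.sh w r).trans ?_
    rw [ddsh_EW, ddsh_hd, ddsh_hd, om_snoc, A.EP]
    have h : A.E (r - A.P r) = -(r - A.P r) := by
      simp only [SD.E_apply, map_sub, A.PP]; abel
    rw [h]
    simp only [map_neg, LinearMap.neg_apply]
    abel

/-- `HC(A; N[1]) = HC(A; N)[1]` (the identity on words: `EW`, `hd` change sign, so `Db` and `om` change sign) -/
def hcSh {N : SD k} (b : Bi A A N) : SD.Hom (HC b.sh) (HC b).sh where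
  f := LinearMap.id
  D v := by
    change hcD b.sh v = - hcD b v
    refine (hcD_apply b.sh v).trans ?_
    change Db b.r.sh v - om b.l.sh v = _
    rw [ddsh_Db, ddsh_om, hcD_apply]
    abel
  P v := ddsh_PW N A.toSD v

/-- `D(N[1], Q) = D(N, Q)[1]` -/
def DDsh (N Q : BMod A A) : SD.Hom (DD N.sh Q) (DD N Q).sh :=
  (hcSh (N.b.bar Q.b)).comp (hcN (N.sh.b.bar Q.b) (N.b.bar Q.b).sh (barShL N.b.r Q.b.l)
    (barShL_isHom N.b Q.b))

theorem DDsh_f (N Q : BMod A A) (v : (DD N Q).V) : (DDsh N Q).f v = v :=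
  Wd.mh_id v

theorem DDsh_qi (N Q : BMod A A) : (DDsh N Q).QI :=
  BM.qi_of_bij _ (fun x => x) (fun x => DDsh_f N Q x) (fun x => DDsh_f N Q x)

end NC
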