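import Pool.Agent.H36.NX.OpS

/-!
# OpSB : finite generation of the homology: quasi-isomorphisms, retracts, shift
-/

set_option autoImplicit false

open NC

namespace H36.NX

variable {k : Type} [Field k] {S : Type} [CommRing S] [Algebra k S]

namespace OpS

variable {X Y Z : SD k}

private theorem OpSB_map {o : OpS S X} {o' : OpS S Y} {f : SD.Hom X Y} (he : Eqv o o' f)
    {n : ℕ} (c : Fin n → S) (g : Fin n → X.V) :
    f.f (∑ i, o.op (c i) (g i)) = ∑ i, o'.op (c i) (f.f (g i)) := by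
  rw [map_sum]
  exact Finset.sum_congr rfl fun i _ => he (c i) (g i)

private theorem OpSB_D (o : OpS S X) {n : ℕ} (c : Fin n → S) (g : Fin n → X.V) :
    X.D (∑ i, o.op (c i) (g i)) = ∑ i, o.op (c i) (X.D (g i)) := by
  rw [map_sum]
  exact Finset.sum_congr rfl fun i _ => (o.D (c i) (g i)).symm

theorem FG.qi {o : OpS S X} {o' : OpS S Y} {f : SD.Hom X Y} (hf : f.QI) (he : Eqv o o' f)
    (h : o.FG) : o'.FG := by
  obtain ⟨n, g, hg, H⟩ := (fg_iff o).mp h
  refine (fg_iff o').mpr ⟨n, fun i => f.f (g i), fun i => ?_, fun y hy => ?_⟩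
  · rw [← f.D, hg, map_zero]
  · obtain ⟨x, z, hx, hyz⟩ := hf.surj y hy
    obtain ⟨c, hc⟩ := H x hx
    refine ⟨c, ?_⟩
    have h1 : Y.Hml y (f.f x) := ⟨z, by rw [hyz]; abel⟩
    have h2 := SD.Hml.map f hc
    rw [OpSB_map he] at h2
    exact h1.trans h2

theorem FG.qi' {o : OpS S X} {o' : OpS S Y} {f : SD.Hom X Y} (hf : f.QI) (he : Eqv o o' f)
    (h : o'.FG) : o.FG := by
  obtain ⟨n, g, hg, H⟩ := (fg_iff o').mp h
  choose x z hx hxz using fun i => hf.surj (g i) (hg i)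
  refine (fg_iff o).mpr ⟨n, x, hx, fun a ha => ?_⟩
  obtain ⟨c, w, hw⟩ := H (f.f a) (by rw [← f.D, ha, map_zero])
  refine ⟨c, ?_⟩
  have h1 : ∑ i, o'.op (c i) (g i) = f.f (∑ i, o.op (c i) (x i)) + Y.D (∑ i, o'.op (c i) (z i)) := by
    rw [OpSB_map he, OpSB_D, ← Finset.sum_add_distrib]
    refine Finset.sum_congr rfl fun i _ => ?_
    rw [← map_add, ← hxz i]
  have h2 : f.f (a - ∑ i, o.op (c i) (x i)) = Y.D (w + ∑ i, o'.op (c i) (z i)) := by
    rw [map_sub, map_add, hw, h1]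
    abel
  have h3 : X.D (a - ∑ i, o.op (c i) (x i)) = 0 := by
    rw [map_sub, ha, OpSB_D, zero_sub, neg_eq_zero]
    refine Finset.sum_eq_zero fun i _ => ?_
    rw [hx i, map_zero]
  obtain ⟨v, hv⟩ := hf.inj _ _ h3 h2
  exact ⟨v, hv⟩

/-- homotopy retracts -/
theorem FG.retr {o : OpS S X} {o' : OpS S Y} (s : SD.Hom X Y) (r : SD.Hom Y X)
    (hr : Eqv o' o r) (hh : ∀ x, X.D x = 0 → X.Hml (r.f (s.f x)) x) (h : o'.FG) : o.FG := by
  obtain ⟨n, g, hg, H⟩ := (fg_iff o').mp h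
  refine (fg_iff o).mpr ⟨n, fun i => r.f (g i), fun i => ?_, fun x hx => ?_⟩
  · rw [← r.D, hg, map_zero]
  · obtain ⟨c, hc⟩ := H (s.f x) (by rw [← s.D, hx, map_zero])
    refine ⟨c, ?_⟩
    have h2 := SD.Hml.map r hc
    rw [OpSB_map hr] at h2
    exact (hh x hx).symm.trans h2

/-- the shifted action -/
def sh (o : OpS S X) : OpS S X.sh where
  op := o.op
  D s v := by
    change o.op s (-(X.D v)) = -(X.D (o.op s v))
    rw [map_neg, o.D]
  P s v := by
    change o.op s (v - X.P v) = o.op s v - X.P (o.op s v)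
    rw [map_sub, o.P]

theorem FG.sh {o : OpS S X} (h : o.FG) : o.sh.FG := by
  obtain ⟨n, g, hg, H⟩ := (fg_iff o).mp h
  refine (fg_iff o.sh).mpr ⟨n, g, fun i => ?_, fun x hx => ?_⟩
  · change -(X.D (g i)) = 0
    rw [hg, neg_zero]
  · have hx' : X.D x = 0 := by
      have h0 : -(X.D x) = 0 := hx
      exact neg_eq_zero.mp h0
    obtain ⟨c, z, hz⟩ := H x hx'
    refine ⟨c, -z, ?_⟩
    change -(X.D (-z)) = x - ∑ i, o.op (c i) (g i)
    rw [map_neg, neg_neg, hz]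

end OpS

end H36.NX
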