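import Pool.Agent.H36.NX.OpS

/-!
# OpSC : finite generation of the homology and short exact sequences (`S` noetherian)
-/

set_option autoImplicit false

open NC

namespace H36.NX

variable {k : Type} [Field k] {S : Type} [CommRing S] [Algebra k S]

namespace OpS

variable {X Y Z : SD k}

section lin

variable {R : Type*} [CommRing R] [IsNoetherianRing R]
variable {L M N : Type*} [AddCommGroup L] [AddCommGroup M] [AddCommGroup N]
variable [Module R L] [Module R M] [Module R N]

/-- middle term of an exact sequence -/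
private theorem OpSC_mid (hL : Module.Finite R L) (hN : Module.Finite R N) (a : L →ₗ[R] M)
    (b : M →ₗ[R] N) (h : ∀ m, b m = 0 ↔ ∃ l, a l = m) : Module.Finite R M := by
  have h1 : IsNoetherian R L := isNoetherian_of_isNoetherianRing_of_finite R L
  have h2 : IsNoetherian R N := isNoetherian_of_isNoetherianRing_of_finite R N
  have h3 : IsNoetherian R M := isNoetherian_of_range_eq_ker a b (by
    ext m
    rw [LinearMap.mem_range, LinearMap.mem_ker, h])
  infer_instance

/-- the same for a linear relation -/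
private theorem OpSC_rel (hL : Module.Finite R L) (hN : Module.Finite R N) (a : L →ₗ[R] M)
    (T : Submodule R (M × N)) (ht : ∀ m, ∃ n, (m, n) ∈ T)
    (h : ∀ m, (m, (0 : N)) ∈ T ↔ ∃ l, a l = m) : Module.Finite R M := by
  have hT : Module.Finite R T := by
    refine OpSC_mid hL hN
      (LinearMap.codRestrict T ((LinearMap.inl R M N).comp a) (fun l => (h _).2 ⟨l, rfl⟩))
      ((LinearMap.snd R M N).comp T.subtype) ?_
    rintro ⟨⟨m, n⟩, hm⟩
    constructor
    · intro h0
      have h0' : n = 0 := h0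
      subst h0'
      obtain ⟨l, rfl⟩ := (h m).1 hm
      exact ⟨l, rfl⟩
    · rintro ⟨l, hl⟩
      have := congrArg (fun t : T => (t : M × N).2) hl
      exact this.symm
  exact Module.Finite.of_surjective ((LinearMap.fst R M N).comp T.subtype) (fun m => by
    obtain ⟨n, hn⟩ := ht m
    exact ⟨⟨(m, n), hn⟩, rfl⟩)

/-- a single valued relation -/
private theorem OpSC_single (hN : Module.Finite R N) (T : Submodule R (N × M))
    (h : ∀ m, ((0 : N), m) ∈ T → m = 0) : Module.Finite R T := by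
  have h2 : IsNoetherian R N := isNoetherian_of_isNoetherianRing_of_finite R N
  have h3 : IsNoetherian R T := isNoetherian_of_injective
    ((LinearMap.fst R N M).comp T.subtype) (by
      rw [injective_iff_map_eq_zero]
      rintro ⟨⟨n, m⟩, hm⟩ h0
      have h0' : n = 0 := h0
      subst h0'
      have := h m hm
      subst this
      rfl)
  infer_instance

end lin

private theorem OpSC_mk {x y : X.V} (hx : X.D x = 0) (hy : X.D y = 0) (h : x = y) :
    SD.Coh.mk x hx = SD.Coh.mk y hy := by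
  subst h
  rfl

/-- the induced map is linear over `S` -/
private noncomputable def OpSC_map {o' : OpS S X} {o : OpS S Y} {f : SD.Hom X Y}
    (hf : Eqv o' o f) : @LinearMap S S _ _ (RingHom.id S) X.Coh Y.Coh _ _ o'.mod o.mod :=
  let _ := o'.mod
  let _ := o.mod
  { toFun := SD.Coh.map f
    map_add' := map_add _
    map_smul' := fun s c => by
      obtain ⟨x, hx, rfl⟩ := SD.Coh.exists_mk c
      exact OpSC_mk (x := f.f (o'.op s x)) (y := o.op s (f.f x))
        (by rw [← f.D, ← o'.D, hx, map_zero, map_zero])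
        (by rw [← o.D, ← f.D, hx, map_zero, map_zero]) (hf s x) }

/-- the connecting relation -/
private noncomputable def OpSC_con {o' : OpS S X} {o : OpS S Y} {o'' : OpS S Z}
    {f : SD.Hom X Y} {g : SD.Hom Y Z} (hf : Eqv o' o f) (hg : Eqv o o'' g) :
    letI := o'.mod
    letI := o''.mod
    Submodule S (Z.Coh × X.Coh) :=
  let _ := o'.mod
  let _ := o''.mod
  { carrier := {p | ∃ (y : Y.V) (x : X.V) (hz : Z.D (g.f y) = 0) (hx : X.D x = 0),
      f.f x = Y.D y ∧ p = (SD.Coh.mk (g.f y) hz, SD.Coh.mk x hx)}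
    add_mem' := by
      rintro _ _ ⟨y, x, hz, hx, h, rfl⟩ ⟨y', x', hz', hx', h', rfl⟩
      refine ⟨y + y', x + x', by rw [map_add, map_add, hz, hz', add_zero],
        by rw [map_add, hx, hx', add_zero], by rw [map_add, map_add, h, h'], ?_⟩
      refine Prod.ext ?_ rfl
      exact OpSC_mk (X := Z) (x := g.f y + g.f y') (y := g.f (y + y'))
        (by rw [map_add, hz, hz', add_zero]) (by rw [map_add, map_add, hz, hz', add_zero])
        (map_add g.f y y').symm
    zero_mem' := by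
      refine ⟨0, 0, by rw [map_zero, map_zero], by rw [map_zero], by rw [map_zero, map_zero], ?_⟩
      refine Prod.ext ?_ rfl
      exact OpSC_mk (X := Z) (x := 0) (y := g.f 0) (map_zero _) (by rw [map_zero, map_zero])
        (map_zero g.f).symm
    smul_mem' := by
      rintro s _ ⟨y, x, hz, hx, h, rfl⟩
      refine ⟨o.op s y, o'.op s x, by rw [hg s y, ← o''.D, hz, map_zero],
        by rw [← o'.D, hx, map_zero], by rw [hf s x, h, o.D], ?_⟩
      refine Prod.ext ?_ rfl
      exact OpSC_mk (X := Z) (x := o''.op s (g.f y)) (y := g.f (o.op s y))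
        (by rw [← o''.D, hz, map_zero]) (by rw [hg s y, ← o''.D, hz, map_zero]) (hg s y).symm }

/-- long exact sequence, middle term -/
theorem FG.ses_mid [IsNoetherianRing S] {o' : OpS S X} {o : OpS S Y} {o'' : OpS S Z}
    {f : SD.Hom X Y} {g : SD.Hom Y Z} (hs : SD.SES f g) (hf : Eqv o' o f) (hg : Eqv o o'' g)
    (h' : o'.FG) (h'' : o''.FG) : o.FG := by
  let _ := o'.mod
  let _ := o.mod
  let _ := o''.mod
  refine OpSC_mid h' h'' (OpSC_map hf) (OpSC_map hg) (fun c => ?_)
  constructor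
  · intro h0
    obtain ⟨y, hy, rfl⟩ := SD.Coh.exists_mk c
    obtain ⟨z, hz⟩ := (SD.Coh.mk_eq_zero (N := Z) (x := g.f y)
      (by rw [← g.D, hy, map_zero])).1 h0
    obtain ⟨w, rfl⟩ := hs.surj z
    obtain ⟨x, hx, hDx⟩ := hs.exists_lift' (y := y - Y.D w)
      (by rw [map_sub, hy, Y.DD, sub_zero]) (by rw [map_sub, g.D, hz, sub_self])
    refine ⟨SD.Coh.mk x hDx, ?_⟩
    refine (SD.Coh.mk_eq_mk (N := Y) (x := f.f x) (y := y)
      (by rw [← f.D, hDx, map_zero]) hy).2 ⟨-w, ?_⟩
    rw [hx, map_neg]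
    abel
  · rintro ⟨a, rfl⟩
    obtain ⟨x, hx, rfl⟩ := SD.Coh.exists_mk a
    refine (SD.Coh.mk_eq_zero (N := Z) (x := g.f (f.f x)) (by rw [hs.zero, map_zero])).2
      ⟨0, by rw [hs.zero, map_zero]⟩

/-- long exact sequence, right term -/
theorem FG.ses_right [IsNoetherianRing S] {o' : OpS S X} {o : OpS S Y} {o'' : OpS S Z}
    {f : SD.Hom X Y} {g : SD.Hom Y Z} (hs : SD.SES f g) (hf : Eqv o' o f) (hg : Eqv o o'' g)
    (h' : o'.FG) (h : o.FG) : o''.FG := by
  let _ := o'.mod
  let _ := o.mod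
  let _ := o''.mod
  refine OpSC_rel h h' (OpSC_map hg) (OpSC_con hf hg) (fun c => ?_) (fun c => ?_)
  · obtain ⟨z, hz, rfl⟩ := SD.Coh.exists_mk c
    obtain ⟨y, rfl⟩ := hs.surj z
    obtain ⟨x, hx, hDx⟩ := hs.exists_lift hz
    exact ⟨SD.Coh.mk x hDx, y, x, hz, hDx, hx, rfl⟩
  · constructor
    · rintro ⟨y, x, hz, hx, h1, h2⟩
      have h3 : SD.Coh.mk x hx = 0 := (congrArg Prod.snd h2).symm
      have h4 : c = SD.Coh.mk (g.f y) hz := congrArg Prod.fst h2
      obtain ⟨t, ht⟩ := (SD.Coh.mk_eq_zero (N := X) hx).1 h3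
      have hy : Y.D (y - f.f t) = 0 := by rw [map_sub, ← f.D, ht, h1, sub_self]
      refine ⟨SD.Coh.mk (y - f.f t) hy, ?_⟩
      rw [h4]
      exact OpSC_mk (X := Z) (x := g.f (y - f.f t)) (y := g.f y) (by rw [← g.D, hy, map_zero]) hz
        (by rw [map_sub, hs.zero, sub_zero])
    · rintro ⟨a, rfl⟩
      obtain ⟨y, hy, rfl⟩ := SD.Coh.exists_mk a
      exact ⟨y, 0, by rw [← g.D, hy, map_zero], map_zero _, by rw [map_zero, hy], rfl⟩

/-- long exact sequence, left term -/
theorem FG.ses_left [IsNoetherianRing S] {o' : OpS S X} {o : OpS S Y} {o'' : OpS S Z}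
    {f : SD.Hom X Y} {g : SD.Hom Y Z} (hs : SD.SES f g) (hf : Eqv o' o f) (hg : Eqv o o'' g)
    (h : o.FG) (h'' : o''.FG) : o'.FG := by
  let _ := o'.mod
  let _ := o.mod
  let _ := o''.mod
  have hT := OpSC_single h'' (OpSC_con hf hg) (by
    rintro c ⟨y, x, hz, hx, h1, h2⟩
    have h3 : SD.Coh.mk (g.f y) hz = 0 := (congrArg Prod.fst h2).symm
    have h4 : c = SD.Coh.mk x hx := congrArg Prod.snd h2
    obtain ⟨t, ht⟩ := (SD.Coh.mk_eq_zero (N := Z) hz).1 h3
    obtain ⟨w, rfl⟩ := hs.surj t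
    obtain ⟨u, hu⟩ := hs.exact (y - Y.D w) (by rw [map_sub, g.D, ht, sub_self])
    rw [h4]
    refine (SD.Coh.mk_eq_zero (N := X) hx).2 ⟨u, hs.inj' ?_⟩
    rw [f.D, hu, map_sub, Y.DD, sub_zero, h1])
  refine OpSC_mid hT h ((LinearMap.snd S Z.Coh X.Coh).comp (OpSC_con hf hg).subtype)
    (OpSC_map hf) (fun c => ?_)
  constructor
  · intro h0
    obtain ⟨x, hx, rfl⟩ := SD.Coh.exists_mk c
    obtain ⟨y, hy⟩ := (SD.Coh.mk_eq_zero (N := Y) (x := f.f x)
      (by rw [← f.D, hx, map_zero])).1 h0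
    have hz : Z.D (g.f y) = 0 := by rw [← g.D, hy, hs.zero]
    exact ⟨⟨(SD.Coh.mk (g.f y) hz, SD.Coh.mk x hx), y, x, hz, hx, hy.symm, rfl⟩, rfl⟩
  · rintro ⟨⟨⟨a, b⟩, y, x, hz, hx, h1, h2⟩, rfl⟩
    have h4 : b = SD.Coh.mk x hx := congrArg Prod.snd h2
    change OpSC_map hf b = 0
    rw [h4]
    exact (SD.Coh.mk_eq_zero (N := Y) (x := f.f x) (by rw [h1, Y.DD])).2 ⟨y, h1.symm⟩

end OpS

end H36.NX
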