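import Pool.Agent.H36.NX.DDS
import Pool.Agent.H36.NX.DDF
import Pool.Agent.H36.NX.DDSh
import Pool.Agent.H36.NX.DDR
import Pool.Agent.H36.NX.OpSB
import Pool.Agent.H36.NX.OpSC

/-!
# DDG : if `S` is noetherian and acts on `Q` with finitely generated homology, then the homology of `D(N, Q)` is finitely
generated for every perfect `N`
-/

set_option autoImplicit false

open NC
open scoped TensorProduct

noncomputable section

namespace H36.NX

variable {k : Type} [Field k] {A : DGA k} {S : Type} [CommRing S] [Algebra k S]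

theorem fg_DD [IsNoetherianRing S] {Q : BMod A A} (o : BOp S Q) (hQ : o.opS.FG) {N : BMod A A}
    (hN : PF A N) : (o.dd N).FG := by
  induction hN with
  | free =>
    exact OpS.FG.qi' (o := o.dd (BMod.free A A)) (o' := o.opS) (ddFr_qi Q)
      (fun s v => ddFr_nat (o.hom s) v) hQ
  | @sh X _ ih =>
    exact OpS.FG.qi' (o := o.dd X.sh) (o' := (o.dd X).sh) (DDsh_qi X Q)
      (fun s v => (DDsh_f X Q _).trans
        (congrArg (ddR X (Q := Q) (Q' := Q) (o.op s)) (DDsh_f X Q v)).symm) ih.sh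
  | qi f hf _ ih => exact OpS.FG.qi (DD_qi_left f hf Q) (o.dd_eqv f) ih
  | qi' f hf _ ih => exact OpS.FG.qi' (DD_qi_left f hf Q) (o.dd_eqv f) ih
  | ses1 f g h _ _ ih' ih => exact OpS.FG.ses_right (DD_ses_left f g h Q) (o.dd_eqv f) (o.dd_eqv g) ih' ih
  | ses2 f g h _ _ ih' ih'' =>
    exact OpS.FG.ses_mid (DD_ses_left f g h Q) (o.dd_eqv f) (o.dd_eqv g) ih' ih''
  | ses3 f g h _ _ ih ih'' =>
    exact OpS.FG.ses_left (DD_ses_left f g h Q) (o.dd_eqv f) (o.dd_eqv g) ih ih''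
  | retr h _ ih =>
    exact OpS.FG.retr (DDmap h.s (BMod.Hom.id Q)) (DDmap h.r (BMod.Hom.id Q)) (o.dd_eqv h.r)
      (fun x hx => DD_retr h Q x hx) ih

/-- finite dimensional homology -/
theorem finH_DD {Q : BMod A A} (hQ : Q.N.FinH) {N : BMod A A} (hN : PF A N) : (DD N Q).FinH :=
  (OpS.fg_scal_iff ((BOp.scal Q).dd N)).1
    (fg_DD (BOp.scal Q) ((OpS.fg_scal_iff (BOp.scal Q).opS).2 hQ) hN)

end H36.NX
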