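import Pool.Agent.H36.NX.OpS

/-!
# ChiK : Euler characteristics in `k`
-/

set_option autoImplicit false

open NC

namespace H36.NX

variable {k : Type} [Field k] {S : Type} [CommRing S] [Algebra k S]

private theorem ChiK_stable {K : Type} [Field K] [Algebra k K] [FiniteDimensional k K] {M : Type}
    [AddCommGroup M] [Module k M] [Module K M] [IsScalarTower k K M] (W : Submodule k M)
    (hW : ∀ (s : K) (x : M), x ∈ W → s • x ∈ W) (h3 : ((Module.finrank k K : ℕ) : k) = 0) :
    ((Module.finrank k W : ℕ) : k) = 0 := by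
  let W' : Submodule K M :=
    { carrier := W
      add_mem' := fun ha hb => W.add_mem ha hb
      zero_mem' := W.zero_mem
      smul_mem' := fun s x hx => hW s x hx }
  have e : W ≃ₗ[k] W' :=
    { toFun := fun x => ⟨x.1, x.2⟩
      invFun := fun x => ⟨x.1, x.2⟩
      map_add' := fun _ _ => rfl
      map_smul' := fun _ _ => rfl
      left_inv := fun _ => rfl
      right_inv := fun _ => rfl }
  rw [e.finrank_eq, ← Module.finrank_mul_finrank k K W', Nat.cast_mul, h3, zero_mul]

/-- the Euler characteristic is the difference of the dimensions of the even and odd parts -/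
theorem chi_eq_sub {X : SD k} (hX : X.FinH) :
    SD.chi X = ((Module.finrank k (LinearMap.range (SD.cohP X)) : ℕ) : k)
      - ((Module.finrank k (LinearMap.ker (SD.cohP X)) : ℕ) : k) := by
  have i1 : FiniteDimensional k X.Coh := SD.coh_finite_iff.2 hX
  have hPP : ∀ c : X.Coh, SD.cohP X (SD.cohP X c) = SD.cohP X c := by
    intro c
    obtain ⟨x, hx, rfl⟩ := SD.Coh.exists_mk c
    rw [SD.cohP_mk, SD.cohP_mk]
    exact SD.Coh.mk_congr _ _ (X.PP x)
  have hproj : LinearMap.IsProj (LinearMap.range (SD.cohP X)) (SD.cohP X) :=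
    ⟨fun x => ⟨x, rfl⟩, by
      rintro _ ⟨y, rfl⟩
      exact hPP y⟩
  have h1 : LinearMap.trace k X.Coh (SD.cohP X) =
      ((Module.finrank k (LinearMap.range (SD.cohP X)) : ℕ) : k) := hproj.trace
  have h2 := LinearMap.finrank_range_add_finrank_ker (SD.cohP X)
  have h3 : LinearMap.trace k X.Coh (LinearMap.id) = ((Module.finrank k X.Coh : ℕ) : k) :=
    LinearMap.trace_id k X.Coh
  unfold SD.chi SD.cohE
  rw [map_sub, map_add, h1, h3, ← h2, Nat.cast_add]
  ring

/-- if a field `K` of degree divisible by the characteristic acts, the Euler characteristic is zero in `k` -/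
theorem chi_eq_zero_of_opS {K : Type} [Field K] [Algebra k K] [FiniteDimensional k K] {X : SD k}
    (o : OpS K X) (hX : X.FinH) (h3 : ((Module.finrank k K : ℕ) : k) = 0) : SD.chi X = 0 := by
  letI : Module K X.Coh := o.mod
  have hs : ∀ (s : K) (c : X.Coh), s • c = SD.Coh.map (o.hom s) c := fun s c => rfl
  haveI : IsScalarTower k K X.Coh := ⟨fun a s c => by
    have h : o.cohOp (a • s) = a • o.cohOp s := map_smul _ _ _
    exact congrArg (fun f : Module.End k X.Coh => f c) h⟩
  have hP : ∀ (s : K) (c : X.Coh), SD.cohP X (s • c) = s • SD.cohP X c := by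
    intro s c
    rw [hs, hs, SD.Coh.map_cohP]
  rw [chi_eq_sub hX, ChiK_stable (K := K) (LinearMap.range (SD.cohP X)) ?_ h3,
    ChiK_stable (K := K) (LinearMap.ker (SD.cohP X)) ?_ h3, sub_zero]
  · intro s x hx
    rw [LinearMap.mem_ker] at hx ⊢
    rw [hP, hx, smul_zero]
  · rintro s _ ⟨y, rfl⟩
    exact ⟨s • y, hP s y⟩

end H36.NX
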