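import Pool.Agent.H36.NX.Hilb

/-!
# HilbP : the Hilbert function theorem for the two summands of an idempotent
-/

set_option autoImplicit false

open MvPolynomial

namespace H36.NX

/-- `hilb` for the graded submodule `range P` -/
private theorem hilbR (k : Type) [Field k] (t : k) (hI : IndexThree k t) (M : Type)
    [AddCommGroup M] [Module k M] [Module (MvPolynomial (Fin 3) k) M]
    [IsScalarTower k (MvPolynomial (Fin 3) k) M] [Module.Finite (MvPolynomial (Fin 3) k) M]
    (gr : ℕ → Submodule k M) (hint : DirectSum.IsInternal gr)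
    (hdeg : ∀ i n m, m ∈ gr n → (X i : MvPolynomial (Fin 3) k) • m ∈ gr (n + 1))
    (hf : ∀ m : M, cub t • m = 0) (P : M →ₗ[k] M)
    (hPs : ∀ (s : MvPolynomial (Fin 3) k) (m : M), P (s • m) = s • P m)
    (hPg : ∀ n m, m ∈ gr n → P m ∈ gr n) :
    ∃ n0, ∀ n, n0 ≤ n → 3 ∣ Module.finrank k ↥(gr n ⊓ LinearMap.range P) := by
  let PS : M →ₗ[MvPolynomial (Fin 3) k] M :=
    { toFun := P, map_add' := P.map_add, map_smul' := hPs }
  let f : LinearMap.range PS →ₗ[k] M := (LinearMap.range PS).subtype.restrictScalars k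
  have hfinj : Function.Injective f := Subtype.val_injective
  let g : ℕ → Submodule k (LinearMap.range PS) := fun n => (gr n).comap f
  obtain ⟨hind, hsup⟩ := (DirectSum.isInternal_submodule_iff_iSupIndep_and_iSup_eq_top gr).1 hint
  have hgint : DirectSum.IsInternal g := by
    rw [DirectSum.isInternal_submodule_iff_iSupIndep_and_iSup_eq_top]
    refine ⟨?_, ?_⟩
    · intro i
      have h1 := hind i
      have h2 : (⨆ j, ⨆ (_ : j ≠ i), g j) ≤ (⨆ j, ⨆ (_ : j ≠ i), gr j).comap f := by
        refine iSup_le fun j => iSup_le fun hj => Submodule.comap_mono ?_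
        exact le_iSup_of_le j (le_iSup_of_le hj le_rfl)
      refine Disjoint.mono_right h2 ?_
      rw [disjoint_iff] at h1 ⊢
      change (gr i).comap f ⊓ _ = ⊥
      rw [← Submodule.comap_inf, h1]
      exact LinearMap.ker_eq_bot.2 hfinj
    · rw [eq_top_iff]
      rintro ⟨x, y, rfl⟩ -
      have hy : y ∈ ⨆ n, gr n := by rw [hsup]; exact Submodule.mem_top
      refine Submodule.iSup_induction gr
        (motive := fun y => (⟨PS y, y, rfl⟩ : LinearMap.range PS) ∈ ⨆ n, g n) hy ?_ ?_ ?_
      · intro n z hz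
        refine Submodule.mem_iSup_of_mem n ?_
        exact hPg n z hz
      · have : (⟨PS 0, 0, rfl⟩ : LinearMap.range PS) = 0 := Subtype.ext (map_zero PS)
        rw [this]; exact Submodule.zero_mem _
      · intro z w hz hw
        have : (⟨PS (z + w), z + w, rfl⟩ : LinearMap.range PS) = ⟨PS z, z, rfl⟩ + ⟨PS w, w, rfl⟩ :=
          Subtype.ext (map_add PS z w)
        rw [this]; exact Submodule.add_mem _ hz hw
  have hfin : Module.Finite (MvPolynomial (Fin 3) k) (LinearMap.range PS) := inferInstance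
  obtain ⟨-, n0, hn0⟩ := hilb k t hI (LinearMap.range PS) g hgint
    (fun i n m hm => hdeg i n m hm) (fun m => Subtype.ext (hf m))
  refine ⟨n0, fun n hn => ?_⟩
  have e1 : gr n ⊓ LinearMap.range P = (g n).map f := by
    change _ = ((gr n).comap f).map f
    rw [Submodule.map_comap_eq, inf_comm]
    congr 1
    ext x
    constructor
    · rintro ⟨y, rfl⟩
      exact ⟨⟨PS y, y, rfl⟩, rfl⟩
    · rintro ⟨⟨_, y, rfl⟩, rfl⟩
      exact ⟨y, rfl⟩
  rw [e1, ← (Submodule.equivMapOfInjective f hfinj (g n)).finrank_eq]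
  exact hn0 n hn

/-- apply `hilb` to `M` and to the graded submodules `range P`, `ker P` -/
theorem hilbP (k : Type) [Field k] (t : k) (hI : IndexThree k t) (M : Type)
    [AddCommGroup M] [Module k M] [Module (MvPolynomial (Fin 3) k) M]
    [IsScalarTower k (MvPolynomial (Fin 3) k) M] [Module.Finite (MvPolynomial (Fin 3) k) M]
    (gr : ℕ → Submodule k M) (hint : DirectSum.IsInternal gr)
    (hdeg : ∀ i n m, m ∈ gr n → (X i : MvPolynomial (Fin 3) k) • m ∈ gr (n + 1))
    (hf : ∀ m : M, cub t • m = 0) (P : M →ₗ[k] M) (hP : ∀ m, P (P m) = P m)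
    (hPs : ∀ (s : MvPolynomial (Fin 3) k) (m : M), P (s • m) = s • P m)
    (hPg : ∀ n m, m ∈ gr n → P m ∈ gr n) :
    (∀ n, FiniteDimensional k (gr n)) ∧
      ∃ n0, ∀ n, n0 ≤ n → 3 ∣ Module.finrank k ↥(gr n ⊓ LinearMap.range P) ∧
        3 ∣ Module.finrank k ↥(gr n ⊓ LinearMap.ker P) := by
  refine ⟨(hilb k t hI M gr hint hdeg hf).1, ?_⟩
  obtain ⟨n1, h1⟩ := hilbR k t hI M gr hint hdeg hf P hPs hPg
  obtain ⟨n2, h2⟩ := hilbR k t hI M gr hint hdeg hf (LinearMap.id - P)
    (fun s m => by simp [hPs, smul_sub])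
    (fun n m hm => Submodule.sub_mem _ hm (hPg n m hm))
  have e : LinearMap.range (LinearMap.id - P) = LinearMap.ker P := by
    ext x
    constructor
    · rintro ⟨y, rfl⟩
      simp [hP]
    · intro hx
      rw [LinearMap.mem_ker] at hx
      exact ⟨x, by simp [hx]⟩
  refine ⟨max n1 n2, fun n hn => ⟨h1 n (le_of_max_le_left hn), ?_⟩⟩
  rw [← e]
  exact h2 n (le_of_max_le_right hn)

end H36.NX
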