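import Pool.Agent.H36.NX.HomsA

/-!
# HomsS : the short exact sequences defined by the value at the point `x = 0`
-/

set_option autoImplicit false

open NC
open scoped TensorProduct

namespace H36.NX

variable {k : Type} [Field k] {t : k} {R : Type} [CommRing R] [Algebra k R]
  {K : Type} [Field K] [Algebra k K] {I J : Type}

theorem lc_le' (m : ℤ) (i : Fin 2) (_j : Unit) : m - wt i ≤ m + 1 - wt i := by linarith
theorem pr_le' (n : ℤ) (_i : Unit) (j : Fin 2) : wtn n j - 0 ≤ wtn (n + 1) j - 0 := by simp [wtn]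
theorem q_le' (n : ℤ) (i j : Fin 2) : wtn n j - wt i ≤ wtn (n + 1) j - wt i := by simp [wtn]
theorem lc_eq' (m : ℤ) (i : Fin 2) (_j : Unit) : m - wt i + 1 = m + 1 - wt i := by ring
theorem pr_eq' (n : ℤ) (_i : Unit) (j : Fin 2) : wtn n j - 0 + 1 = wtn (n + 1) j - 0 := by
  simp [wtn, add_assoc]
theorem q_eq' (n : ℤ) (i j : Fin 2) : wtn n j - wt i + 1 = wtn (n + 1) j - wt i := by
  simp only [wtn]; ring

/-- inclusion `Q n → Q (n+1)` -/
noncomputable def qx (C : CubicRing k t R) (n : ℤ) : BMod.Hom (Qb C n) (Qb C (n + 1)) where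
  toHom := qInH C (q_le' n)
  isHom := ⟨qInH_left C (q_le' n), qInH_right C (q_le' n)⟩

/-- multiplication by `u`, `Q n → Q (n+1)` -/
noncomputable def qy (C : CubicRing k t R) (n : ℤ) : BMod.Hom (Qb C n) (Qb C (n + 1)) where
  toHom := qUH C (q_eq' n)
  isHom := ⟨qUH_left C (q_eq' n), qUH_right C (q_eq' n)⟩

/-- multiplication by `w`, `Q n → Q (n+1)` -/
noncomputable def qz (C : CubicRing k t R) (n : ℤ) : BMod.Hom (Qb C n) (Qb C (n + 1)) where
  toHom := qWH C (q_eq' n)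
  isHom := ⟨qWH_left C (q_eq' n), qWH_right C (q_eq' n)⟩

/-- the value `Q n → kap` -/
noncomputable def qk (C : CubicRing k t R) (E : CubeRoot k t K) (n : ℤ) :
    BMod.Hom (Qb C n) (kap C E) where
  toHom := valH C E wt (wtn n)
  isHom := ⟨valH_left C E (wtn n), valH_right C E wt n⟩

private theorem HomsS_inj (C : CubicRing k t R) {α α' : I → ℤ} {β β' : J → ℤ}
    (h : ∀ i j, β j - α i ≤ β' j - α' i) (x : (qSD C α β).V) (hx : qIn C h x = 0) : x = 0 := by
  have e : qv C α' β' (qIn C h x) = 0 := by rw [hx, map_zero]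
  rw [qv_qIn] at e
  refine q_ext C ?_
  rw [e, map_zero]

private theorem HomsS_zero (C : CubicRing k t R) (E : CubeRoot k t K) {α α' : I → ℤ} {β β' : J → ℤ}
    (h : ∀ i j, β j - α i ≤ β' j - α' i) (h' : ∀ i j, β j - α i = β' j - α' i - 1)
    (x : (qSD C α β).V) : val C E α' β' (qv C α' β' (qIn C h x)) = 0 := by
  have h1 := qv_mem C (qIn C h x)
  have h2 := qv_mem C x
  rw [qv_qIn] at h1 ⊢
  exact (val_eq_zero C E h' h1).2 h2

private theorem HomsS_exact (C : CubicRing k t R) (E : CubeRoot k t K) {α α' : I → ℤ}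
    {β β' : J → ℤ} (h : ∀ i j, β j - α i ≤ β' j - α' i)
    (h' : ∀ i j, β j - α i = β' j - α' i - 1) (y : (qSD C α' β').V)
    (hy : val C E α' β' (qv C α' β' y) = 0) : ∃ x : (qSD C α β).V, qIn C h x = y := by
  have h1 : qv C α' β' y ∈ QQ C α β := (val_eq_zero C E h' (qv_mem C y)).1 hy
  refine ⟨qmk C α β (qv C α' β' y) h1, ?_⟩
  refine q_ext C ?_
  rw [qv_qIn, qv_qmk]

private theorem HomsS_ses (C : CubicRing k t R) (E : CubeRoot k t K) {α α' : I → ℤ} {β β' : J → ℤ}
    (h : ∀ i j, β j - α i ≤ β' j - α' i) (h' : ∀ i j, β j - α i = β' j - α' i - 1) :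
    SD.SES (qInH C h) (valH C E α' β') where
  inj := fun x hx => HomsS_inj C h x hx
  surj := fun M => by
    obtain ⟨f, hf, hM⟩ := val_surjective C E α' β' M
    exact ⟨qmk C α' β' f hf, hM⟩
  zero := fun x => HomsS_zero C E h h' x
  exact := fun y hy => HomsS_exact C E h h' y hy

private theorem HomsS_lc (m : ℤ) (i : Fin 2) (_j : Unit) : m - wt i = m + 1 - wt i - 1 := by ring

private theorem HomsS_pr (n : ℤ) (_i : Unit) (j : Fin 2) : wtn n j - 0 = wtn (n + 1) j - 0 - 1 := by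
  simp only [wtn]; ring

private theorem HomsS_q (n : ℤ) (i j : Fin 2) : wtn n j - wt i = wtn (n + 1) j - wt i - 1 := by
  simp only [wtn]; ring

/-- `0 → L m → L (m+1) → K^2 → 0` -/
theorem ses_L (C : CubicRing k t R) (E : CubeRoot k t K) (m : ℤ) :
    SD.SES (qInH C (lc_le' m)) (valH C E wt (fun _ : Unit => m + 1)) :=
  HomsS_ses C E (lc_le' m) (HomsS_lc m)

/-- `0 → P n → P (n+1) → K^2 → 0` -/
theorem ses_P (C : CubicRing k t R) (E : CubeRoot k t K) (n : ℤ) :
    SD.SES (qInH C (pr_le' n)) (valH C E (fun _ : Unit => (0 : ℤ)) (wtn (n + 1))) :=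
  HomsS_ses C E (pr_le' n) (HomsS_pr n)

/-- `0 → Q n → Q (n+1) → kap → 0` -/
theorem ses_Q (C : CubicRing k t R) (E : CubeRoot k t K) (n : ℤ) :
    SD.SES (qx C n).toHom (qk C E (n + 1)).toHom :=
  HomsS_ses C E (q_le' n) (HomsS_q n)

end H36.NX
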