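import Pool.Agent.H36.NX.SmQ

/-!
# Smooth : the diagonal bimodule `A = Q 0` is perfect (section 3)
-/

set_option autoImplicit false

open NC

namespace H36.NX

variable {k : Type} [Field k] {t : k} {R : Type} [CommRing R] [Algebra k R]
  {C : CubicRing k t R} {K : Type} [Field K] [Algebra k K] {D : Type} [CommRing D] [Algebra k D]

theorem q0_mem (C : CubicRing k t R) (f : (qSD C wt (wtn 0)).V) :
    qv C wt (wtn 0) f ∈ QQ C wt wt :=
  QQ_le C (fun i j => by simp [wt, wtn]) (qv_mem C f)

/-- the underlying map of `q0H` -/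
noncomputable def q0f (C : CubicRing k t R) : (qSD C wt (wtn 0)).V →ₗ[k] (AA C).V where
  toFun f := amk C (qv C wt (wtn 0) f) (q0_mem C f)
  map_add' f f' := a_ext C (by
    rw [av_amk, map_add (av C), av_amk, av_amk, map_add])
  map_smul' c f := a_ext C (by
    rw [av_amk, RingHom.id_apply, map_smul (av C), map_smul, av_amk])

theorem av_q0f (C : CubicRing k t R) (f : (qSD C wt (wtn 0)).V) :
    av C (q0f C f) = qv C wt (wtn 0) f := rfl

theorem q0f_D (C : CubicRing k t R) (v : (qSD C wt (wtn 0)).V) :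
    q0f C ((qSD C wt (wtn 0)).D v) = (AA C).D (q0f C v) := a_ext C (by
  rw [av_D, av_q0f, av_q0f, qv_D])

theorem q0f_P (C : CubicRing k t R) (v : (qSD C wt (wtn 0)).V) :
    q0f C ((qSD C wt (wtn 0)).P v) = (AA C).P (q0f C v) := a_ext C (by
  rw [av_P, av_q0f, av_q0f, qv_P])

theorem q0f_l (C : CubicRing k t R) (a : (AA C).V) (n : (qSD C wt (wtn 0)).V) :
    q0f C (qMulL C (wtn 0) a n) = a * q0f C n := a_ext C (by
  rw [av_mul, av_q0f, av_q0f, qv_qMulL])

theorem q0f_r (C : CubicRing k t R) (n : (qSD C wt (wtn 0)).V) (a : (AA C).V) :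
    q0f C (qMulR C wt 0 n a) = q0f C n * a := a_ext C (by
  rw [av_mul, av_q0f, av_q0f, qv_qMulR])

/-- `Q 0 → A`, the identity -/
noncomputable def q0H (C : CubicRing k t R) : BMod.Hom (Qb C 0) (BMod.diag (AA C)) where
  f := q0f C
  D v := q0f_D C v
  P v := q0f_P C v
  isHom :=
    { l := fun a n => q0f_l C a n
      r := fun n a => q0f_r C n a }

theorem q0H_bijective (C : CubicRing k t R) : Function.Bijective (q0H C).f := by
  constructor
  · intro f g h
    exact q_ext C (congrArg (av C) h)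
  · intro a
    exact ⟨qmk C wt (wtn 0) (av C a) (QQ_le C (fun i j => by simp [wt, wtn]) (av_mem C a)),
      a_ext C rfl⟩

/-- **smoothness** (super version) -/
theorem PF_diag (W : DblRing k C D) (E : CubeRoot k t K) [CharP k 3] (ht : t ≠ 0) :
    PF (AA C) (BMod.diag (AA C)) := by
  have h := PF_Q W E ht (-2)
  rw [show (-2 : ℤ) + 2 = 0 by ring] at h
  exact PF.qi (q0H C) (QI_of_bijective _ (q0H_bijective C)) h

end H36.NX
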