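import Pool.Agent.H36.NX.QsFG
import Pool.Agent.H36.NX.HomsS
import Pool.Agent.H36.NX.Smooth

/-!
# ChiZ : the Euler characteristic of `HC(A; N)` vanishes in `k` for every perfect bimodule `N`
-/

set_option autoImplicit false

open NC

namespace H36.NX

variable {k : Type} [Field k] {t : k} {R : Type} [CommRing R] [Algebra k R]
  {K : Type} [Field K] [Algebra k K]

/-- `K` acts on the bimodule of the point -/
noncomputable def kapOp (C : CubicRing k t R) (E : CubeRoot k t K) : BOp K (kap C E) where
  op := Algebra.lsmul k k (Matrix (Fin 2) (Fin 2) K)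
  D s v := by
    change s • (0 : Matrix (Fin 2) (Fin 2) K) = 0
    exact smul_zero s
  P _ _ := rfl
  l s a v := (Matrix.mul_smul (m := Fin 2) (n := Fin 2) (l := Fin 2) (α := K) (aVal C E a) s v).symm
  r s v a := (Matrix.smul_mul (m := Fin 2) (n := Fin 2) (l := Fin 2) (α := K) s v (aVal C E a)).symm

theorem finH_kap (C : CubicRing k t R) (E : CubeRoot k t K) : (kap C E).N.FinH := by
  have : FiniteDimensional k K := E.basK.finiteDimensional_of_finite
  exact SD.FinH.of_finite (inferInstanceAs (FiniteDimensional k (Matrix (Fin 2) (Fin 2) K)))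

theorem finrank_K (E : CubeRoot k t K) : Module.finrank k K = 3 := by
  rw [Module.finrank_eq_card_basis E.basK, Fintype.card_fin]

theorem chi_kap (C : CubicRing k t R) (E : CubeRoot k t K) [CharP k 3]
    {N : BMod (AA C) (AA C)} (hN : PF (AA C) N) : SD.chi (DD N (kap C E)) = 0 := by
  have : FiniteDimensional k K := E.basK.finiteDimensional_of_finite
  refine chi_eq_zero_of_opS ((kapOp C E).dd N) (finH_DD (finH_kap C E) hN) ?_
  rw [finrank_K E]
  exact CharP.cast_eq_zero k 3

theorem chi_succ (C : CubicRing k t R) (E : CubeRoot k t K) [CharP k 3]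
    {N : BMod (AA C) (AA C)} (hN : PF (AA C) N) (n : ℤ) :
    SD.chi (DD N (Qb C (n + 1))) = SD.chi (DD N (Qb C n)) := by
  have h := SD.chi_ses (DD_ses_right (qx C n) (qk C E (n + 1)) (ses_Q C E n) N)
    (finH_DD (finH_q C wt (wtn n)) hN) (finH_DD (finH_kap C E) hN)
  rw [chi_kap C E hN, add_zero] at h
  exact h

theorem chi_Q0 (C : CubicRing k t R) (E : CubeRoot k t K) (hI : IndexThree k t) [CharP k 3]
    {N : BMod (AA C) (AA C)} (hN : PF (AA C) N) : SD.chi (DD N (Qb C 0)) = 0 := by
  obtain ⟨n0, h0⟩ := chi_Qb_large C hI hN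
  have key : ∀ (j : ℕ) (m : ℤ), m = (n0 : ℤ) - j → SD.chi (DD N (Qb C m)) = 0 := by
    intro j
    induction j with
    | zero =>
      intro m hm
      have e : m = ((n0 : ℕ) : ℤ) := by rw [hm]; simp
      subst e
      exact h0 n0 le_rfl
    | succ j ih =>
      intro m hm
      rw [← chi_succ C E hN m]
      exact ih (m + 1) (by rw [hm]; push_cast; ring)
  exact key n0 0 (by ring)

/-- **the Euler characteristic of `HC(A; N)` is zero in `k`** -/
theorem chi_HC_zero (C : CubicRing k t R) (E : CubeRoot k t K) (hI : IndexThree k t) [CharP k 3]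
    {N : BMod (AA C) (AA C)} (hN : PF (AA C) N) : SD.chi (HC N.b) = 0 := by
  rw [← SD.chi_qi (DDdiag_qi N),
    ← SD.chi_qi (DD_qi_right (q0H C) (QI_of_bijective _ (q0H_bijective C)) N)]
  exact chi_Q0 C E hI hN

end H36.NX
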