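import Pool.Agent.H15.NC.Cone
import Pool.Agent.H28.NC.BarMap
import Pool.Agent.H16.NC.PF
import Pool.Agent.H9.NC.Lin

/-!
# DD : the functor `D(N, Q) = HC(A; Bar(N, A, Q))` of two bimodules
-/

set_option autoImplicit false

open scoped TensorProduct

noncomputable section

namespace NC

variable {k : Type} [Field k] {A : DGA k}

/-- identity morphism of a bimodule -/
def BMod.Hom.id {B : DGA k} (X : BMod A B) : BMod.Hom X X where
  toHom := SD.Hom.id X.N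
  isHom := Bi.isHom_id X.b

/-- composition of morphisms of bimodules -/
def BMod.Hom.comp {B : DGA k} {X Y Z : BMod A B} (g : BMod.Hom Y Z) (f : BMod.Hom X Y) :
    BMod.Hom X Z where
  toHom := g.toHom.comp f.toHom
  isHom := f.isHom.comp g.isHom

/-- `D(N, Q) = HC(A; Bar(N, A, Q))` -/
abbrev DD (N Q : BMod A A) : SD k := HC (N.b.bar Q.b)

/-- functoriality -/
def DDmap {N N' Q Q' : BMod A A} (f : BMod.Hom N N') (g : BMod.Hom Q Q') :
    SD.Hom (DD N Q) (DD N' Q') :=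
  hcN (N.b.bar Q.b) (N'.b.bar Q'.b) (barMap f.toHom g.toHom f.isHom.r g.isHom.l)
    (barMap_isHom f.isHom g.isHom)

/-- functoriality for linear maps -/
def ddL {N N' Q Q' : BMod A A} (f : N.N.V →ₗ[k] N'.N.V) (g : Q.N.V →ₗ[k] Q'.N.V) :
    (DD N Q).V →ₗ[k] (DD N' Q').V :=
  Wd.mh A.V (TensorProduct.map (Wd.map f LinearMap.id) g)

/-- functoriality in the second variable for linear maps -/
def ddR (N : BMod A A) {Q Q' : BMod A A} (g : Q.N.V →ₗ[k] Q'.N.V) :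
    (DD N Q).V →ₗ[k] (DD N Q').V :=
  ddL (N := N) (N' := N) (Q := Q) (Q' := Q') LinearMap.id g

theorem DDmap_f {N N' Q Q' : BMod A A} (f : BMod.Hom N N') (g : BMod.Hom Q Q') :
    (DDmap f g).f = ddL (N := N) (N' := N') (Q := Q) (Q' := Q') f.f g.f := rfl

theorem DDmap_id_f (N : BMod A A) {Q Q' : BMod A A} (g : BMod.Hom Q Q') :
    (DDmap (BMod.Hom.id N) g).f = ddR N (Q := Q) (Q' := Q') g.f := rfl

theorem ddL_comp {N N' N'' Q Q' Q'' : BMod A A} (f : N.N.V →ₗ[k] N'.N.V)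
    (f' : N'.N.V →ₗ[k] N''.N.V) (g : Q.N.V →ₗ[k] Q'.N.V) (g' : Q'.N.V →ₗ[k] Q''.N.V)
    (v : (DD N Q).V) :
    ddL (N := N') (N' := N'') (Q := Q') (Q' := Q'') f' g'
        (ddL (N := N) (N' := N') (Q := Q) (Q' := Q') f g v)
      = ddL (N := N) (N' := N'') (Q := Q) (Q' := Q'') (f' ∘ₗ f) (g' ∘ₗ g) v := by
  refine (Wd.mh_comp _ _ v).trans (Wd.mh_congr (fun n => ?_) v)
  refine tens_ext
    (f := TensorProduct.map (Wd.map f' LinearMap.id) g' ∘ₗ
      TensorProduct.map (Wd.map f (LinearMap.id : A.V →ₗ[k] A.V)) g)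
    (g := TensorProduct.map (Wd.map (f' ∘ₗ f) LinearMap.id) (g' ∘ₗ g)) (fun w y => ?_) n
  simp only [LinearMap.comp_apply, TensorProduct.map_tmul, BM.map_map]
  rfl

theorem ddL_id {N Q : BMod A A} (v : (DD N Q).V) :
    ddL (N := N) (N' := N) (Q := Q) (Q' := Q) LinearMap.id LinearMap.id v = v := by
  refine (Wd.mh_congr (g := LinearMap.id) (fun n => ?_) v).trans (Wd.mh_id v)
  refine tens_ext
    (f := TensorProduct.map (Wd.map LinearMap.id (LinearMap.id : A.V →ₗ[k] A.V)) LinearMap.id)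
    (g := LinearMap.id) (fun w y => ?_) n
  simp only [TensorProduct.map_tmul, BM.map_id, LinearMap.id_apply]

theorem ddR_add (N : BMod A A) {Q Q' : BMod A A} (g g' : Q.N.V →ₗ[k] Q'.N.V) :
    ddR N (Q := Q) (Q' := Q') (g + g')
      = ddR N (Q := Q) (Q' := Q') g + ddR N (Q := Q) (Q' := Q') g' := by
  refine LinearMap.ext fun v => ?_
  refine (Wd.mh_congr (fun n => ?_) v).trans (Wd.mh_add _ _ v)
  rw [TensorProduct.map_add_right]

theorem ddR_smul (N : BMod A A) {Q Q' : BMod A A} (c : k) (g : Q.N.V →ₗ[k] Q'.N.V) :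
    ddR N (Q := Q) (Q' := Q') (c • g) = c • ddR N (Q := Q) (Q' := Q') g := by
  refine LinearMap.ext fun v => ?_
  refine (Wd.mh_congr (fun n => ?_) v).trans (Wd.mh_smul c _ v)
  rw [TensorProduct.map_smul_right]

theorem ddR_zero (N : BMod A A) {Q Q' : BMod A A} :
    ddR N (Q := Q) (Q' := Q') 0 = 0 := by
  have h := ddR_smul N (Q := Q) (Q' := Q') 0 0
  rwa [zero_smul, zero_smul] at h

theorem ddR_id (N : BMod A A) {Q : BMod A A} :
    ddR N (Q := Q) (Q' := Q) LinearMap.id = LinearMap.id :=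
  LinearMap.ext fun v => ddL_id v

theorem ddR_comp (N : BMod A A) {Q Q' Q'' : BMod A A} (g : Q.N.V →ₗ[k] Q'.N.V)
    (g' : Q'.N.V →ₗ[k] Q''.N.V) :
    ddR N (Q := Q) (Q' := Q'') (g' ∘ₗ g)
      = ddR N (Q := Q') (Q' := Q'') g' ∘ₗ ddR N (Q := Q) (Q' := Q') g :=
  LinearMap.ext fun v => (ddL_comp (N := N) (N' := N) (N'' := N) LinearMap.id LinearMap.id g g' v).symm

theorem DDmap_comp {N N' N'' Q Q' Q'' : BMod A A} (f : BMod.Hom N N') (f' : BMod.Hom N' N'')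
    (g : BMod.Hom Q Q') (g' : BMod.Hom Q' Q'') (v : (DD N Q).V) :
    (DDmap (f'.comp f) (g'.comp g)).f v = (DDmap f' g').f ((DDmap f g).f v) :=
  (ddL_comp f.f f'.f g.f g'.f v).symm

/-- the two variables commute -/
theorem DDmap_swap {N N' Q Q' : BMod A A} (f : BMod.Hom N N') (g : Q.N.V →ₗ[k] Q'.N.V)
    (v : (DD N Q).V) :
    (DDmap f (BMod.Hom.id Q')).f (ddR N (Q := Q) (Q' := Q') g v)
      = ddR N' (Q := Q) (Q' := Q') g ((DDmap f (BMod.Hom.id Q)).f v) :=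
  (ddL_comp (N := N) (N' := N) (N'' := N') LinearMap.id f.f g LinearMap.id v).trans
    (ddL_comp (N := N) (N' := N') (N'' := N') f.f LinearMap.id LinearMap.id g v).symm

/-! ### exactness -/

theorem DD_ses_left {N' N N'' : BMod A A} (f : BMod.Hom N' N) (g : BMod.Hom N N'')
    (h : SD.SES f.toHom g.toHom) (Q : BMod A A) :
    SD.SES (DDmap f (BMod.Hom.id Q)) (DDmap g (BMod.Hom.id Q)) :=
  SES_hc _ _ _ _ _ _ _ (ses_bar_left h f.isHom.r g.isHom.r Q.b.l)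

theorem DD_ses_right {Q' Q Q'' : BMod A A} (f : BMod.Hom Q' Q) (g : BMod.Hom Q Q'')
    (h : SD.SES f.toHom g.toHom) (N : BMod A A) :
    SD.SES (DDmap (BMod.Hom.id N) f) (DDmap (BMod.Hom.id N) g) :=
  SES_hc _ _ _ _ _ _ _ (ses_bar_right h f.isHom.l g.isHom.l N.b.r)

/-! ### quasi-isomorphisms -/

theorem DD_qi {N N' Q Q' : BMod A A} (f : BMod.Hom N N') (hf : f.toHom.QI) (g : BMod.Hom Q Q')
    (hg : g.toHom.QI) : (DDmap f g).QI :=
  QI_hc _ _ _ _ (qi_bar f.isHom.r g.isHom.l hf hg)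

theorem DD_qi_left {N N' : BMod A A} (f : BMod.Hom N N') (h : f.toHom.QI) (Q : BMod A A) :
    (DDmap f (BMod.Hom.id Q)).QI := DD_qi f h (BMod.Hom.id Q) (SD.Hom.QI.id Q.N)

theorem DD_qi_right {Q Q' : BMod A A} (f : BMod.Hom Q Q') (h : f.toHom.QI) (N : BMod A A) :
    (DDmap (BMod.Hom.id N) f).QI := DD_qi (BMod.Hom.id N) (SD.Hom.QI.id N.N) f h

/-- `D(N, A) → HC(A; N)` -/
def DDdiag (N : BMod A A) : SD.Hom (DD N (BMod.diag A)) (HC N.b) :=
  hcN (N.b.bar A.diag) N.b (augR N.b.r) (augR_isHom N.b)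

theorem DDdiag_qi (N : BMod A A) : (DDdiag N).QI :=
  QI_hc _ _ _ _ (qi_augR N.b.r N.r_one)

end NC
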