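import Pool.Agent.H9.NC.Coh

/-!
# OpS : actions of a commutative `k`-algebra `S` on differential modules, the `S`-module structure of the homology,
finite generation and its closure properties
-/

set_option autoImplicit false

open NC

namespace H36.NX

variable {k : Type} [Field k] {S : Type} [CommRing S] [Algebra k S]

/-- an action of `S` on the differential module `X` by endomorphisms -/
structure OpS (S : Type) [CommRing S] [Algebra k S] (X : SD k) where
  op : S →ₐ[k] Module.End k X.V
  D : ∀ s v, op s (X.D v) = X.D (op s v)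
  P : ∀ s v, op s (X.P v) = X.P (op s v)

namespace OpS

variable {X Y Z : SD k}

/-- the endomorphism of an element of `S` -/
def hom (o : OpS S X) (s : S) : SD.Hom X X where
  f := o.op s
  D := o.D s
  P := o.P s

/-- the action on the homology -/
noncomputable def cohOp (o : OpS S X) : S →ₐ[k] Module.End k X.Coh where
  toFun s := SD.Coh.map (o.hom s)
  map_one' := by
    refine LinearMap.ext fun c => ?_
    obtain ⟨x, hx, rfl⟩ := SD.Coh.exists_mk c
    refine (SD.Coh.mk_eq_mk (x := (o.op 1) x) (y := x)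
      (by rw [← o.D, hx, map_zero]) hx).2 ⟨0, ?_⟩
    have h : (o.op 1) x = x := by rw [map_one]; rfl
    rw [h, map_zero, sub_self]
  map_mul' s t := by
    refine LinearMap.ext fun c => ?_
    obtain ⟨x, hx, rfl⟩ := SD.Coh.exists_mk c
    refine (SD.Coh.mk_eq_mk (x := (o.op (s * t)) x) (y := (o.op s) ((o.op t) x))
      (by rw [← o.D, hx, map_zero]) (by rw [← o.D, ← o.D, hx, map_zero, map_zero])).2 ⟨0, ?_⟩
    have h : (o.op (s * t)) x = (o.op s) ((o.op t) x) := by rw [map_mul]; rfl
    rw [h, map_zero, sub_self]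
  map_zero' := by
    refine LinearMap.ext fun c => ?_
    obtain ⟨x, hx, rfl⟩ := SD.Coh.exists_mk c
    refine (SD.Coh.mk_eq_zero (x := (o.op 0) x) (by rw [← o.D, hx, map_zero])).2 ⟨0, ?_⟩
    have h : (o.op 0) x = 0 := by rw [map_zero]; rfl
    rw [h, map_zero]
  map_add' s t := by
    refine LinearMap.ext fun c => ?_
    obtain ⟨x, hx, rfl⟩ := SD.Coh.exists_mk c
    refine (SD.Coh.mk_eq_mk (x := (o.op (s + t)) x) (y := (o.op s) x + (o.op t) x)
      (by rw [← o.D, hx, map_zero])
      (by rw [map_add, ← o.D, ← o.D, hx, map_zero, map_zero, add_zero])).2 ⟨0, ?_⟩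
    have h : (o.op (s + t)) x = (o.op s) x + (o.op t) x := by rw [map_add]; rfl
    rw [h, map_zero, sub_self]
  commutes' c := by
    refine LinearMap.ext fun d => ?_
    obtain ⟨x, hx, rfl⟩ := SD.Coh.exists_mk d
    refine (SD.Coh.mk_eq_mk (x := (o.op (algebraMap k S c)) x) (y := c • x)
      (by rw [← o.D, hx, map_zero]) (by rw [map_smul, hx, smul_zero])).2 ⟨0, ?_⟩
    have h : (o.op (algebraMap k S c)) x = c • x := by rw [AlgHom.commutes]; rfl
    rw [h, map_zero, sub_self]

/-- the homology is an `S`-module -/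
@[reducible] noncomputable def mod (o : OpS S X) : Module S X.Coh :=
  Module.compHom X.Coh (o.cohOp : S →+* Module.End k X.Coh)

/-- finitely generated homology -/
def FG (o : OpS S X) : Prop := @Module.Finite S X.Coh _ _ o.mod

/-- compatibility of a morphism with the actions -/
def Eqv (o : OpS S X) (o' : OpS S Y) (f : SD.Hom X Y) : Prop :=
  ∀ s v, f.f (o.op s v) = o'.op s (f.f v)

/-- elementwise form: finitely many cycles generate all cycles modulo boundaries -/
theorem fg_iff (o : OpS S X) : o.FG ↔ ∃ (n : ℕ) (g : Fin n → X.V), (∀ i, X.D (g i) = 0) ∧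
    ∀ x, X.D x = 0 → ∃ (c : Fin n → S), X.Hml x (∑ i, o.op (c i) (g i)) := by
  let _ := o.mod
  have hsm : ∀ (s : S) {x : X.V} (hx : X.D x = 0), s • SD.Coh.mk x hx =
      SD.Coh.mk (o.op s x) (by rw [← o.D, hx, map_zero]) := fun s x hx => rfl
  have hsum : ∀ (n : ℕ) (g : Fin n → X.V) (hg : ∀ i, X.D (g i) = 0) (c : Fin n → S),
      ∃ h : X.D (∑ i, o.op (c i) (g i)) = 0,
        ∑ i, c i • SD.Coh.mk (g i) (hg i) = SD.Coh.mk (∑ i, o.op (c i) (g i)) h := by
    intro n
    induction n with
    | zero =>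
      intro g hg c
      have h0 : X.D (∑ i : Fin 0, o.op (c i) (g i)) = 0 := by
        rw [Fin.sum_univ_zero, map_zero]
      refine ⟨h0, Eq.trans (Fin.sum_univ_zero _) ((SD.Coh.mk_eq_zero h0).2 ⟨0, ?_⟩).symm⟩
      rw [Fin.sum_univ_zero, map_zero]
    | succ n ih =>
      intro g hg c
      obtain ⟨h, h'⟩ := ih (fun i => g i.succ) (fun i => hg i.succ) (fun i => c i.succ)
      have h0 : X.D (o.op (c 0) (g 0)) = 0 := by rw [← o.D, hg 0, map_zero]
      refine ⟨by rw [Fin.sum_univ_succ, map_add, h0, h, add_zero], ?_⟩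
      rw [Fin.sum_univ_succ, h', hsm, SD.Coh.mk_add]
      refine (SD.Coh.mk_eq_mk _ _).2 ⟨0, ?_⟩
      rw [Fin.sum_univ_succ, map_zero, sub_self]
  constructor
  · intro hfg
    obtain ⟨n, s, hs⟩ := (Submodule.fg_iff_exists_fin_generating_family).1
      (Module.finite_def.1 (show Module.Finite S X.Coh from hfg))
    choose g hg hgs using fun i => SD.Coh.exists_mk (s i)
    refine ⟨n, g, hg, fun x hx => ?_⟩
    have hm : SD.Coh.mk x hx ∈ Submodule.span S (Set.range s) := by
      rw [hs]; exact Submodule.mem_top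
    obtain ⟨c, hc⟩ := (Submodule.mem_span_range_iff_exists_fun S).1 hm
    obtain ⟨h, h'⟩ := hsum n g hg c
    refine ⟨c, (SD.Coh.mk_eq_mk hx h).1 ?_⟩
    rw [← h', ← hc]
    exact Finset.sum_congr rfl fun i _ => by rw [hgs i]
  · rintro ⟨n, g, hg, H⟩
    have : Module.Finite S X.Coh := by
      refine Module.finite_def.2 ((Submodule.fg_iff_exists_fin_generating_family).2
        ⟨n, fun i => SD.Coh.mk (g i) (hg i), ?_⟩)
      rw [eq_top_iff]
      intro c _
      obtain ⟨x, hx, rfl⟩ := SD.Coh.exists_mk c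
      obtain ⟨c, hc⟩ := H x hx
      obtain ⟨h, h'⟩ := hsum n g hg c
      rw [(SD.Coh.mk_eq_mk hx h).2 hc, ← h']
      exact (Submodule.mem_span_range_iff_exists_fun S).2 ⟨c, rfl⟩
    exact this

end OpS

end H36.NX
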