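import Pool.Agent.H36.NX.DD
import Pool.Agent.H36.NX.OpS

/-!
# DDS : an algebra acting on a bimodule acts on `D(N, Q)`
-/

set_option autoImplicit false

open NC
open scoped TensorProduct

noncomputable section

namespace H36.NX

variable {k : Type} [Field k] {A : DGA k} {S : Type} [CommRing S] [Algebra k S]

/-- an action of the algebra `S` on the bimodule `Q` by bimodule maps -/
structure BOp (S : Type) [CommRing S] [Algebra k S] (Q : BMod A A) where
  op : S →ₐ[k] Module.End k Q.N.V
  D : ∀ s v, op s (Q.N.D v) = Q.N.D (op s v)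
  P : ∀ s v, op s (Q.N.P v) = Q.N.P (op s v)
  l : ∀ s a v, op s (Q.b.l.act a v) = Q.b.l.act a (op s v)
  r : ∀ s v a, op s (Q.b.r.act v a) = Q.b.r.act (op s v) a

namespace BOp

variable {Q : BMod A A}

/-- the bimodule map of an element -/
def hom (o : BOp S Q) (s : S) : BMod.Hom Q Q where
  f := o.op s
  D := o.D s
  P := o.P s
  isHom := ⟨fun a v => o.l s a v, fun v a => o.r s v a⟩

/-- the underlying action on the differential module -/
def opS (o : BOp S Q) : OpS S Q.N where
  op := o.op
  D := o.D
  P := o.P

/-- the induced action on `D(N, Q)` -/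
def dd (o : BOp S Q) (N : BMod A A) : OpS S (DD N Q) where
  op :=
    { toFun := fun s => ddR N (Q := Q) (Q' := Q) (o.op s)
      map_one' := by rw [map_one]; exact ddR_id N
      map_mul' := fun s t => by
        rw [map_mul]
        exact ddR_comp N (Q := Q) (Q' := Q) (Q'' := Q) (o.op t) (o.op s)
      map_zero' := by rw [map_zero]; exact ddR_zero N
      map_add' := fun s t => by rw [map_add]; exact ddR_add N (o.op s) (o.op t)
      commutes' := fun c => by
        rw [AlgHom.commutes, Algebra.algebraMap_eq_smul_one, Algebra.algebraMap_eq_smul_one]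
        refine (ddR_smul N (Q := Q) (Q' := Q) c 1).trans ?_
        exact congrArg (fun x => c • x) (ddR_id N (Q := Q)) }
  D s v := (DDmap (BMod.Hom.id N) (o.hom s)).D v
  P s v := (DDmap (BMod.Hom.id N) (o.hom s)).P v

theorem dd_op (o : BOp S Q) (N : BMod A A) (s : S) (v : (DD N Q).V) :
    (o.dd N).op s v = ddR N (Q := Q) (Q' := Q) (o.op s) v := rfl

/-- morphisms in the first variable are compatible with the action -/
theorem dd_eqv (o : BOp S Q) {N N' : BMod A A} (f : BMod.Hom N N') :
    OpS.Eqv (o.dd N) (o.dd N') (DDmap f (BMod.Hom.id Q)) :=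
  fun s v => DDmap_swap f (o.op s) v

end BOp

/-- scalars act on every bimodule -/
def BOp.scal (Q : BMod A A) : BOp k Q where
  op := Algebra.ofId k (Module.End k Q.N.V)
  D c v := (map_smul Q.N.D c v).symm
  P c v := (map_smul Q.N.P c v).symm
  l c a v := (map_smul (Q.b.l.act a) c v).symm
  r c v a := by
    change c • Q.b.r.act v a = Q.b.r.act (c • v) a
    rw [map_smul]
    rfl

/-- scalars act on every differential module -/
def OpS.scal (X : SD k) : OpS k X where
  op := Algebra.ofId k (Module.End k X.V)
  D c v := (map_smul X.D c v).symm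
  P c v := (map_smul X.P c v).symm

theorem OpS.fg_scal_iff {X : SD k} (o : OpS k X) : o.FG ↔ X.FinH := by
  have h : o.mod = (inferInstance : Module k X.Coh) := by
    refine Module.ext' _ _ fun c x => ?_
    change o.cohOp c x = c • x
    have h1 : o.cohOp c = algebraMap k (Module.End k X.Coh) c := by
      have := o.cohOp.commutes c
      rwa [Algebra.algebraMap_self, RingHom.id_apply] at this
    rw [h1]
    rfl
  unfold OpS.FG
  rw [h]
  exact SD.coh_finite_iff

end H36.NX
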