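import Pool.Agent.H36.NX.Mul

/-!
# Dbl : the ring `D = R ⊗ R` over `k[u, 1/u]` (step S5)
-/

set_option autoImplicit false

namespace H36.NX

/-- `D = R ⊗_{k[u,1/u]} R` with its two maps from `R`, its multiplication onto `R` and its basis
`u^m w^a w'^b`. -/
structure DblRing (k : Type) [Field k] {t : k} {R : Type} [CommRing R] [Algebra k R]
    (C : CubicRing k t R) (D : Type) [CommRing D] [Algebra k D] where
  l : R →ₐ[k] D
  r : R →ₐ[k] D
  lr : l (C.u : R) = r (C.u : R)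
  pr : D →ₐ[k] R
  pr_l : ∀ x : R, pr (l x) = x
  pr_r : ∀ x : R, pr (r x) = x
  bas : Module.Basis (ℤ × Fin 3 × Fin 3) k D
  bas_eq : ∀ (m : ℤ) (a b : Fin 3), bas (m, a, b) = l (C.bas (m, a)) * r (C.w ^ (b : ℕ))

namespace DblRing

variable {k : Type} [Field k] {t : k} {R : Type} [CommRing R] [Algebra k R]
  {C : CubicRing k t R} {D : Type} [CommRing D] [Algebra k D]

/-- the part regular for `x ≠ 0` -/
noncomputable def X (W : DblRing k C D) : Submodule k D :=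
  Submodule.span k (Set.range fun p : ℕ × Fin 3 × Fin 3 => W.bas ((p.1 : ℤ), p.2))

/-- the part of degree `≤ n` -/
noncomputable def Y (W : DblRing k C D) (n : ℤ) : Submodule k D :=
  Submodule.span k (Set.range fun p : ℕ × Fin 3 × Fin 3 =>
    W.bas (n - ((p.2.1 : ℕ) : ℤ) - ((p.2.2 : ℕ) : ℤ) - (p.1 : ℤ), p.2))

/-- `G = w'^2 + w w' + w^2 - t^2`, which kills `w' - w` -/
noncomputable def G (W : DblRing k C D) : D :=
  W.r C.w ^ 2 + W.l C.w * W.r C.w + W.l C.w ^ 2 - algebraMap k D (t ^ 2)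

private theorem Dbl_span_iff {ι ι' M : Type} [AddCommGroup M] [Module k M]
    (b : Module.Basis ι k M) (f : ι' → ι) (z : M) :
    z ∈ Submodule.span k (Set.range fun p => b (f p)) ↔ ∀ i, i ∉ Set.range f → b.repr z i = 0 := by
  have h1 : (Set.range fun p => b (f p)) = b '' (Set.range f) := by
    rw [← Set.range_comp]
    rfl
  rw [h1, b.mem_span_image]
  constructor
  · intro h i hi
    by_contra h2
    exact hi (h (Finsupp.mem_support_iff.2 h2))
  · intro h i hi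
    by_contra h2
    exact Finsupp.mem_support_iff.1 hi (h i h2)

theorem mem_X_iff (W : DblRing k C D) (z : D) :
    z ∈ W.X ↔ ∀ (m : ℤ) (p : Fin 3 × Fin 3), m < 0 → W.bas.repr z (m, p) = 0 := by
  unfold X
  rw [Dbl_span_iff W.bas (fun p : ℕ × Fin 3 × Fin 3 => (((p.1 : ℤ), p.2) : ℤ × Fin 3 × Fin 3)) z]
  constructor
  · intro h m p hm
    apply h
    rintro ⟨q, hq⟩
    have h1 : (q.1 : ℤ) = m := congrArg Prod.fst hq
    omega
  · rintro h ⟨m, p⟩ hi
    apply h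
    by_contra h1
    apply hi
    refine ⟨(m.toNat, p), ?_⟩
    show (((m.toNat : ℤ), p) : ℤ × Fin 3 × Fin 3) = (m, p)
    rw [Int.toNat_of_nonneg (by omega)]

theorem mem_Y_iff (W : DblRing k C D) (n : ℤ) (z : D) :
    z ∈ W.Y n ↔ ∀ (m : ℤ) (a b : Fin 3), n < m + ((a : ℕ) : ℤ) + ((b : ℕ) : ℤ) →
      W.bas.repr z (m, a, b) = 0 := by
  unfold Y
  rw [Dbl_span_iff W.bas (fun p : ℕ × Fin 3 × Fin 3 =>
    ((n - ((p.2.1 : ℕ) : ℤ) - ((p.2.2 : ℕ) : ℤ) - (p.1 : ℤ), p.2) : ℤ × Fin 3 × Fin 3)) z]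
  constructor
  · intro h m a b hm
    apply h
    rintro ⟨q, hq⟩
    have h1 : n - ((q.2.1 : ℕ) : ℤ) - ((q.2.2 : ℕ) : ℤ) - (q.1 : ℤ) = m := congrArg Prod.fst hq
    have h2 : q.2 = (a, b) := congrArg Prod.snd hq
    rw [h2] at h1
    simp only at h1
    omega
  · rintro h ⟨m, a, b⟩ hi
    apply h
    by_contra h1
    apply hi
    refine ⟨((n - ((a : ℕ) : ℤ) - ((b : ℕ) : ℤ) - m).toNat, (a, b)), ?_⟩
    show ((n - ((a : ℕ) : ℤ) - ((b : ℕ) : ℤ) -
      ((n - ((a : ℕ) : ℤ) - ((b : ℕ) : ℤ) - m).toNat : ℤ), (a, b)) : ℤ × Fin 3 × Fin 3) =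
      (m, a, b)
    rw [Int.toNat_of_nonneg (by omega)]
    congr 1
    ring

private theorem Dbl_bas_mem_X (W : DblRing k C D) (m : ℤ) (a b : Fin 3) (h : 0 ≤ m) :
    W.bas (m, a, b) ∈ W.X := by
  rw [mem_X_iff]
  intro m' p hm'
  rw [Module.Basis.repr_self, Finsupp.single_apply, if_neg]
  intro h1
  have h2 : m = m' := congrArg Prod.fst h1
  omega

private theorem Dbl_bas_mem_Y (W : DblRing k C D) (n m : ℤ) (a b : Fin 3)
    (h : m + ((a : ℕ) : ℤ) + ((b : ℕ) : ℤ) ≤ n) : W.bas (m, a, b) ∈ W.Y n := by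
  rw [mem_Y_iff]
  intro m' a' b' hm'
  rw [Module.Basis.repr_self, Finsupp.single_apply, if_neg]
  intro h1
  have h2 : m = m' := congrArg Prod.fst h1
  have h3 : a = a' := congrArg (fun q => q.2.1) h1
  have h4 : b = b' := congrArg (fun q => q.2.2) h1
  rw [h2, h3, h4] at h
  omega

private theorem Dbl_lr_pow (W : DblRing k C D) (m : ℤ) :
    W.r ((C.u ^ m : Rˣ) : R) = W.l ((C.u ^ m : Rˣ) : R) := by
  have h1 : Units.map (W.r : R →* D) C.u = Units.map (W.l : R →* D) C.u :=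
    Units.ext W.lr.symm
  have h2 : (Units.map (W.r : R →* D)) (C.u ^ m) = (Units.map (W.l : R →* D)) (C.u ^ m) := by
    rw [map_zpow, map_zpow, h1]
  exact congrArg Units.val h2

private theorem Dbl_lr_bas (W : DblRing k C D) (m n : ℤ) (a b : Fin 3) :
    W.l (C.bas (m, a)) * W.r (C.bas (n, b)) = W.bas (m + n, a, b) := by
  rw [W.bas_eq, C.bas_eq, C.bas_eq, C.bas_eq, map_mul W.r, Dbl_lr_pow, map_mul W.l, map_mul W.l,
    zpow_add, Units.val_mul, map_mul W.l]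
  ring

private theorem Dbl_pow_bas (C : CubicRing k t R) (b : Fin 3) : C.w ^ (b : ℕ) = C.bas (0, b) := by
  rw [C.bas_eq, zpow_zero, Units.val_one, one_mul]

private theorem Dbl_one_bas (C : CubicRing k t R) : (1 : R) = C.bas (0, 0) := by
  rw [C.bas_eq, zpow_zero, Units.val_one, one_mul]
  simp

private theorem Dbl_lr_mem_X (W : DblRing k C D) {x y : R} (hx : x ∈ C.X) (hy : y ∈ C.X) :
    W.l x * W.r y ∈ W.X := by
  unfold CubicRing.X at hx hy
  induction hx using Submodule.span_induction with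
  | mem x hx =>
    obtain ⟨p, rfl⟩ := hx
    induction hy using Submodule.span_induction with
    | mem y hy =>
      obtain ⟨q, rfl⟩ := hy
      show W.l (C.bas ((p.1 : ℤ), p.2)) * W.r (C.bas ((q.1 : ℤ), q.2)) ∈ W.X
      rw [Dbl_lr_bas]
      exact Dbl_bas_mem_X W _ _ _ (by omega)
    | zero => rw [map_zero, mul_zero]; exact zero_mem _
    | add a b _ _ ha hb => rw [map_add, mul_add]; exact add_mem ha hb
    | smul c a _ ha => rw [map_smul, mul_smul_comm]; exact Submodule.smul_mem _ c ha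
  | zero => rw [map_zero, zero_mul]; exact zero_mem _
  | add a b _ _ ha hb => rw [map_add, add_mul]; exact add_mem ha hb
  | smul c a _ ha => rw [map_smul, smul_mul_assoc]; exact Submodule.smul_mem _ c ha

private theorem Dbl_lr_mem_Y (W : DblRing k C D) {m n : ℤ} {x y : R} (hx : x ∈ C.Y m)
    (hy : y ∈ C.Y n) : W.l x * W.r y ∈ W.Y (m + n) := by
  unfold CubicRing.Y at hx hy
  induction hx using Submodule.span_induction with
  | mem x hx =>
    obtain ⟨p, rfl⟩ := hx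
    induction hy using Submodule.span_induction with
    | mem y hy =>
      obtain ⟨q, rfl⟩ := hy
      show W.l (C.bas (m - ((p.2 : ℕ) : ℤ) - (p.1 : ℤ), p.2)) *
        W.r (C.bas (n - ((q.2 : ℕ) : ℤ) - (q.1 : ℤ), q.2)) ∈ W.Y (m + n)
      rw [Dbl_lr_bas]
      exact Dbl_bas_mem_Y W _ _ _ _ (by omega)
    | zero => rw [map_zero, mul_zero]; exact zero_mem _
    | add a b _ _ ha hb => rw [map_add, mul_add]; exact add_mem ha hb
    | smul c a _ ha => rw [map_smul, mul_smul_comm]; exact Submodule.smul_mem _ c ha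
  | zero => rw [map_zero, zero_mul]; exact zero_mem _
  | add a b _ _ ha hb => rw [map_add, add_mul]; exact add_mem ha hb
  | smul c a _ ha => rw [map_smul, smul_mul_assoc]; exact Submodule.smul_mem _ c ha

theorem l_mem_X (W : DblRing k C D) {x : R} (h : x ∈ C.X) : W.l x ∈ W.X := by
  have h1 := Dbl_lr_mem_X W h C.one_mem_X
  rwa [map_one, mul_one] at h1

theorem r_mem_X (W : DblRing k C D) {x : R} (h : x ∈ C.X) : W.r x ∈ W.X := by
  have h1 := Dbl_lr_mem_X W C.one_mem_X h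
  rwa [map_one, one_mul] at h1

theorem l_mem_Y (W : DblRing k C D) {n : ℤ} {x : R} (h : x ∈ C.Y n) : W.l x ∈ W.Y n := by
  have h1 := Dbl_lr_mem_Y W h (C.one_mem_Y (le_refl 0))
  rwa [map_one, mul_one, add_zero] at h1

theorem r_mem_Y (W : DblRing k C D) {n : ℤ} {x : R} (h : x ∈ C.Y n) : W.r x ∈ W.Y n := by
  have h1 := Dbl_lr_mem_Y W (C.one_mem_Y (le_refl 0)) h
  rwa [map_one, one_mul, zero_add] at h1

theorem mul_mem_X (W : DblRing k C D) {y z : D} (hy : y ∈ W.X) (hz : z ∈ W.X) : y * z ∈ W.X := by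
  unfold X at hy hz
  induction hy using Submodule.span_induction with
  | mem y hy =>
    obtain ⟨p, rfl⟩ := hy
    induction hz using Submodule.span_induction with
    | mem z hz =>
      obtain ⟨q, rfl⟩ := hz
      show W.bas ((p.1 : ℤ), p.2.1, p.2.2) * W.bas ((q.1 : ℤ), q.2.1, q.2.2) ∈ W.X
      rw [W.bas_eq, W.bas_eq]
      have h1 : W.l (C.bas ((p.1 : ℤ), p.2.1)) * W.r (C.w ^ (p.2.2 : ℕ)) *
          (W.l (C.bas ((q.1 : ℤ), q.2.1)) * W.r (C.w ^ (q.2.2 : ℕ))) =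
          W.l (C.bas ((p.1 : ℤ), p.2.1) * C.bas ((q.1 : ℤ), q.2.1)) *
          W.r (C.w ^ (p.2.2 : ℕ) * C.w ^ (q.2.2 : ℕ)) := by
        rw [map_mul, map_mul]
        ring
      rw [h1]
      apply Dbl_lr_mem_X
      · exact C.mul_mem_X (C.bas_mem_X _ _ (by omega)) (C.bas_mem_X _ _ (by omega))
      · rw [Dbl_pow_bas, Dbl_pow_bas]
        exact C.mul_mem_X (C.bas_mem_X _ _ (le_refl 0)) (C.bas_mem_X _ _ (le_refl 0))
    | zero => rw [mul_zero]; exact zero_mem _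
    | add a b _ _ ha hb => rw [mul_add]; exact add_mem ha hb
    | smul c a _ ha => rw [mul_smul_comm]; exact Submodule.smul_mem _ c ha
  | zero => rw [zero_mul]; exact zero_mem _
  | add a b _ _ ha hb => rw [add_mul]; exact add_mem ha hb
  | smul c a _ ha => rw [smul_mul_assoc]; exact Submodule.smul_mem _ c ha

theorem mul_mem_Y (W : DblRing k C D) {m n : ℤ} {y z : D} (hy : y ∈ W.Y m) (hz : z ∈ W.Y n) :
    y * z ∈ W.Y (m + n) := by
  unfold Y at hy hz
  induction hy using Submodule.span_induction with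
  | mem y hy =>
    obtain ⟨p, rfl⟩ := hy
    induction hz using Submodule.span_induction with
    | mem z hz =>
      obtain ⟨q, rfl⟩ := hz
      show W.bas (m - ((p.2.1 : ℕ) : ℤ) - ((p.2.2 : ℕ) : ℤ) - (p.1 : ℤ), p.2.1, p.2.2) *
        W.bas (n - ((q.2.1 : ℕ) : ℤ) - ((q.2.2 : ℕ) : ℤ) - (q.1 : ℤ), q.2.1, q.2.2) ∈
        W.Y (m + n)
      rw [W.bas_eq, W.bas_eq]
      have h1 : W.l (C.bas (m - ((p.2.1 : ℕ) : ℤ) - ((p.2.2 : ℕ) : ℤ) - (p.1 : ℤ), p.2.1)) *
          W.r (C.w ^ (p.2.2 : ℕ)) *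
          (W.l (C.bas (n - ((q.2.1 : ℕ) : ℤ) - ((q.2.2 : ℕ) : ℤ) - (q.1 : ℤ), q.2.1)) *
          W.r (C.w ^ (q.2.2 : ℕ))) =
          W.l (C.bas (m - ((p.2.1 : ℕ) : ℤ) - ((p.2.2 : ℕ) : ℤ) - (p.1 : ℤ), p.2.1) *
          C.bas (n - ((q.2.1 : ℕ) : ℤ) - ((q.2.2 : ℕ) : ℤ) - (q.1 : ℤ), q.2.1)) *
          W.r (C.w ^ (p.2.2 : ℕ) * C.w ^ (q.2.2 : ℕ)) := by
        rw [map_mul, map_mul]
        ring
      rw [h1]
      have h2 : m + n = ((m - ((p.2.2 : ℕ) : ℤ)) + (n - ((q.2.2 : ℕ) : ℤ))) +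
          (((p.2.2 : ℕ) : ℤ) + ((q.2.2 : ℕ) : ℤ)) := by ring
      rw [h2]
      apply Dbl_lr_mem_Y
      · exact C.mul_mem_Y (C.bas_mem_Y _ _ _ (by omega)) (C.bas_mem_Y _ _ _ (by omega))
      · rw [Dbl_pow_bas, Dbl_pow_bas]
        exact C.mul_mem_Y (C.bas_mem_Y _ _ _ (by omega)) (C.bas_mem_Y _ _ _ (by omega))
    | zero => rw [mul_zero]; exact zero_mem _
    | add a b _ _ ha hb => rw [mul_add]; exact add_mem ha hb
    | smul c a _ ha => rw [mul_smul_comm]; exact Submodule.smul_mem _ c ha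
  | zero => rw [zero_mul]; exact zero_mem _
  | add a b _ _ ha hb => rw [add_mul]; exact add_mem ha hb
  | smul c a _ ha => rw [smul_mul_assoc]; exact Submodule.smul_mem _ c ha

theorem Y_mono (W : DblRing k C D) {m n : ℤ} (h : m ≤ n) : W.Y m ≤ W.Y n := by
  intro z hz
  rw [mem_Y_iff] at hz ⊢
  intro m' a b h1
  exact hz m' a b (by omega)

theorem pr_mem_X (W : DblRing k C D) {z : D} (h : z ∈ W.X) : W.pr z ∈ C.X := by
  unfold X at h
  induction h using Submodule.span_induction with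
  | mem y hy =>
    obtain ⟨p, rfl⟩ := hy
    show W.pr (W.bas ((p.1 : ℤ), p.2.1, p.2.2)) ∈ C.X
    rw [W.bas_eq, map_mul, W.pr_l, W.pr_r, Dbl_pow_bas]
    exact C.mul_mem_X (C.bas_mem_X _ _ (by omega)) (C.bas_mem_X _ _ (le_refl 0))
  | zero => rw [map_zero]; exact zero_mem _
  | add a b _ _ ha hb => rw [map_add]; exact add_mem ha hb
  | smul c a _ ha => rw [map_smul]; exact Submodule.smul_mem _ c ha

theorem pr_mem_Y (W : DblRing k C D) {n : ℤ} {z : D} (h : z ∈ W.Y n) : W.pr z ∈ C.Y n := by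
  unfold Y at h
  induction h using Submodule.span_induction with
  | mem y hy =>
    obtain ⟨p, rfl⟩ := hy
    show W.pr (W.bas (n - ((p.2.1 : ℕ) : ℤ) - ((p.2.2 : ℕ) : ℤ) - (p.1 : ℤ), p.2.1, p.2.2)) ∈
      C.Y n
    rw [W.bas_eq, map_mul, W.pr_l, W.pr_r, Dbl_pow_bas]
    have h2 : n = (n - ((p.2.2 : ℕ) : ℤ)) + ((p.2.2 : ℕ) : ℤ) := by ring
    have h3 : C.bas (n - ((p.2.1 : ℕ) : ℤ) - ((p.2.2 : ℕ) : ℤ) - (p.1 : ℤ), p.2.1) *
        C.bas (0, p.2.2) ∈ C.Y ((n - ((p.2.2 : ℕ) : ℤ)) + ((p.2.2 : ℕ) : ℤ)) :=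
      C.mul_mem_Y (C.bas_mem_Y _ _ _ (by omega)) (C.bas_mem_Y _ _ _ (by omega))
    rw [← h2] at h3
    exact h3
  | zero => rw [map_zero]; exact zero_mem _
  | add a b _ _ ha hb => rw [map_add]; exact add_mem ha hb
  | smul c a _ ha => rw [map_smul]; exact Submodule.smul_mem _ c ha

theorem G_mem_X (W : DblRing k C D) : W.G ∈ W.X := by
  unfold G
  have h1 : W.r C.w ∈ W.X := W.r_mem_X C.w_mem_X
  have h2 : W.l C.w ∈ W.X := W.l_mem_X C.w_mem_X
  have h3 : algebraMap k D (t ^ 2) ∈ W.X := by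
    have h4 := W.l_mem_X C.one_mem_X
    rw [map_one] at h4
    rw [Algebra.algebraMap_eq_smul_one]
    exact Submodule.smul_mem _ _ h4
  have m1 : W.r C.w ^ 2 ∈ W.X := by
    rw [pow_two]
    exact W.mul_mem_X h1 h1
  have m2 : W.l C.w * W.r C.w ∈ W.X := W.mul_mem_X h2 h1
  have m3 : W.l C.w ^ 2 ∈ W.X := by
    rw [pow_two]
    exact W.mul_mem_X h2 h2
  exact W.X.sub_mem (W.X.add_mem (W.X.add_mem m1 m2) m3) h3

theorem G_mem_Y (W : DblRing k C D) : W.G ∈ W.Y 2 := by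
  unfold G
  have h1 : W.r C.w ∈ W.Y 1 := W.r_mem_Y (C.w_mem_Y (le_refl 1))
  have h2 : W.l C.w ∈ W.Y 1 := W.l_mem_Y (C.w_mem_Y (le_refl 1))
  have h3 : algebraMap k D (t ^ 2) ∈ W.Y 2 := by
    have h4 := W.l_mem_Y (C.one_mem_Y (n := 2) (by norm_num))
    rw [map_one] at h4
    rw [Algebra.algebraMap_eq_smul_one]
    exact Submodule.smul_mem _ _ h4
  have e : (1 : ℤ) + 1 = 2 := by norm_num
  have m1 : W.r C.w ^ 2 ∈ W.Y 2 := by
    have m := W.mul_mem_Y h1 h1
    rw [e] at m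
    rw [pow_two]
    exact m
  have m2 : W.l C.w * W.r C.w ∈ W.Y 2 := by
    have m := W.mul_mem_Y h2 h1
    rw [e] at m
    exact m
  have m3 : W.l C.w ^ 2 ∈ W.Y 2 := by
    have m := W.mul_mem_Y h2 h2
    rw [e] at m
    rw [pow_two]
    exact m
  exact (W.Y 2).sub_mem ((W.Y 2).add_mem ((W.Y 2).add_mem m1 m2) m3) h3

private theorem Dbl_w_G (W : DblRing k C D) : W.r C.w * W.G = W.l C.w * W.G := by
  have h1 : W.r C.w ^ 3 = algebraMap k D (t ^ 2) * W.r C.w + algebraMap k D t *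
      W.l (C.u : R) ^ 3 + algebraMap k D (t ^ 2) * W.l (C.u : R) ^ 2 + algebraMap k D (t ^ 2) := by
    rw [← map_pow W.r, C.rel, map_add, map_add, map_add, map_mul, map_mul, map_mul, map_pow W.r,
      map_pow W.r, ← W.lr, AlgHom.commutes, AlgHom.commutes]
  have h2 : W.l C.w ^ 3 = algebraMap k D (t ^ 2) * W.l C.w + algebraMap k D t *
      W.l (C.u : R) ^ 3 + algebraMap k D (t ^ 2) * W.l (C.u : R) ^ 2 + algebraMap k D (t ^ 2) := by
    rw [← map_pow W.l, C.rel, map_add, map_add, map_add, map_mul, map_mul, map_mul, map_pow W.l,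
      map_pow W.l, AlgHom.commutes, AlgHom.commutes]
  have h3 : W.r C.w * W.G - W.l C.w * W.G = (W.r C.w ^ 3 - W.l C.w ^ 3) -
      algebraMap k D (t ^ 2) * (W.r C.w - W.l C.w) := by
    unfold G
    ring
  rw [← sub_eq_zero, h3, h1, h2]
  ring

/-- `(w' - w) G = 0`, and `R` is generated by `u`, `1/u`, `w` -/
theorem r_mul_G (W : DblRing k C D) (x : R) : W.r x * W.G = W.l x * W.G := by
  have hpow : ∀ n : ℕ, W.r (C.w ^ n) * W.G = W.l (C.w ^ n) * W.G := by
    intro n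
    induction n with
    | zero => rw [pow_zero, map_one, map_one]
    | succ n ih =>
      rw [pow_succ, map_mul, map_mul, mul_assoc, Dbl_w_G, mul_left_comm, ih]
      ring
  have hx : x ∈ Submodule.span k (Set.range C.bas) := by
    rw [C.bas.span_eq]
    exact Submodule.mem_top
  induction hx using Submodule.span_induction with
  | mem y hy =>
    obtain ⟨⟨m, a⟩, rfl⟩ := hy
    rw [C.bas_eq, map_mul, map_mul, mul_assoc, hpow, Dbl_lr_pow, mul_assoc]
  | zero => rw [map_zero, map_zero]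
  | add a b _ _ ha hb => rw [map_add, map_add, add_mul, add_mul, ha, hb]
  | smul c a _ ha => rw [map_smul, map_smul, smul_mul_assoc, smul_mul_assoc, ha]

theorem pr_G (W : DblRing k C D) [CharP k 3] : W.pr W.G = - algebraMap k R (t ^ 2) := by
  have h3 : (3 : R) = 0 := by
    have h4 : ((3 : ℕ) : k) = 0 := CharP.cast_eq_zero k 3
    have h5 := congrArg (algebraMap k R) h4
    rw [map_natCast, map_zero] at h5
    exact_mod_cast h5
  have h1 : W.pr W.G = 3 * C.w ^ 2 - algebraMap k R (t ^ 2) := by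
    unfold G
    rw [map_sub, map_add, map_add, map_pow, map_pow, map_mul, W.pr_l, W.pr_r, AlgHom.commutes]
    ring
  rw [h1, h3, zero_mul, zero_sub]

end DblRing
end H36.NX
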