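import Pool.Agent.H36.NX.Dbl

/-!
# DblEx : the ring `D` exists
-/

set_option autoImplicit false

namespace H36.NX

open Polynomial

/-- the linear map of the lift -/
private noncomputable def liftLin {k : Type} [Field k] {t : k} {R : Type} [CommRing R] [Algebra k R]
    (C : CubicRing k t R) {S : Type} [CommRing S] [Algebra k S] (u' : Sˣ) (w' : S) : R →ₗ[k] S :=
  C.bas.constr k fun p => ((u' ^ p.1 : Sˣ) : S) * w' ^ (p.2 : ℕ)

private theorem liftLin_bas {k : Type} [Field k] {t : k} {R : Type} [CommRing R] [Algebra k R]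
    (C : CubicRing k t R) {S : Type} [CommRing S] [Algebra k S] (u' : Sˣ) (w' : S) (m : ℤ)
    (a : Fin 3) : liftLin C u' w' (C.bas (m, a)) = ((u' ^ m : Sˣ) : S) * w' ^ (a : ℕ) := by
  rw [liftLin, Module.Basis.constr_basis]

private theorem liftLin_pow {k : Type} [Field k] {t : k} {R : Type} [CommRing R] [Algebra k R]
    (C : CubicRing k t R) {S : Type} [CommRing S] [Algebra k S] (u' : Sˣ) (w' : S)
    (h : w' ^ 3 = algebraMap k S (t ^ 2) * w' + algebraMap k S t * (u' : S) ^ 3
      + algebraMap k S (t ^ 2) * (u' : S) ^ 2 + algebraMap k S (t ^ 2)) (j : ℕ) :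
    ∀ m : ℤ, liftLin C u' w' (((C.u ^ m : Rˣ) : R) * C.w ^ j) = ((u' ^ m : Sˣ) : S) * w' ^ j := by
  induction j using Nat.strong_induction_on with
  | _ j ih =>
    intro m
    by_cases hj : j < 3
    · have h1 := liftLin_bas C u' w' m ⟨j, hj⟩
      rw [C.bas_eq] at h1
      exact h1
    · obtain ⟨i, rfl⟩ : ∃ i, j = i + 3 := ⟨j - 3, by omega⟩
      have e1 : ((C.u ^ m : Rˣ) : R) * C.w ^ (i + 3) =
          (t ^ 2) • (((C.u ^ m : Rˣ) : R) * C.w ^ (i + 1)) +
            t • (((C.u ^ (m + 3) : Rˣ) : R) * C.w ^ i) +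
            (t ^ 2) • (((C.u ^ (m + 2) : Rˣ) : R) * C.w ^ i) +
            (t ^ 2) • (((C.u ^ m : Rˣ) : R) * C.w ^ i) := by
        rw [pow_add C.w i 3, C.rel, zpow_add, zpow_add, Algebra.smul_def, Algebra.smul_def,
          Algebra.smul_def, Algebra.smul_def]
        push_cast
        have h3 : ((C.u ^ (3 : ℤ) : Rˣ) : R) = (C.u : R) ^ 3 := by
          rw [show (3 : ℤ) = ((3 : ℕ) : ℤ) from rfl, zpow_natCast, Units.val_pow_eq_pow_val]
        have h2 : ((C.u ^ (2 : ℤ) : Rˣ) : R) = (C.u : R) ^ 2 := by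
          rw [show (2 : ℤ) = ((2 : ℕ) : ℤ) from rfl, zpow_natCast, Units.val_pow_eq_pow_val]
        rw [h3, h2]
        ring
      have e2 : ((u' ^ m : Sˣ) : S) * w' ^ (i + 3) =
          (t ^ 2) • (((u' ^ m : Sˣ) : S) * w' ^ (i + 1)) +
            t • (((u' ^ (m + 3) : Sˣ) : S) * w' ^ i) +
            (t ^ 2) • (((u' ^ (m + 2) : Sˣ) : S) * w' ^ i) +
            (t ^ 2) • (((u' ^ m : Sˣ) : S) * w' ^ i) := by
        rw [pow_add w' i 3, h, zpow_add, zpow_add, Algebra.smul_def, Algebra.smul_def,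
          Algebra.smul_def, Algebra.smul_def]
        push_cast
        have h3 : ((u' ^ (3 : ℤ) : Sˣ) : S) = (u' : S) ^ 3 := by
          rw [show (3 : ℤ) = ((3 : ℕ) : ℤ) from rfl, zpow_natCast, Units.val_pow_eq_pow_val]
        have h2 : ((u' ^ (2 : ℤ) : Sˣ) : S) = (u' : S) ^ 2 := by
          rw [show (2 : ℤ) = ((2 : ℕ) : ℤ) from rfl, zpow_natCast, Units.val_pow_eq_pow_val]
        rw [h3, h2]
        ring
      rw [e1, e2, map_add, map_add, map_add, map_smul, map_smul, map_smul, map_smul,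
        ih (i + 1) (by omega), ih i (by omega), ih i (by omega), ih i (by omega)]

/-- the universal property of `R` -/
private theorem exists_lift {k : Type} [Field k] {t : k} {R : Type} [CommRing R] [Algebra k R]
    (C : CubicRing k t R) {S : Type} [CommRing S] [Algebra k S] (u' : Sˣ) (w' : S)
    (h : w' ^ 3 = algebraMap k S (t ^ 2) * w' + algebraMap k S t * (u' : S) ^ 3
      + algebraMap k S (t ^ 2) * (u' : S) ^ 2 + algebraMap k S (t ^ 2)) :
    ∃ f : R →ₐ[k] S, ∀ (m : ℤ) (j : ℕ),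
      f (((C.u ^ m : Rˣ) : R) * C.w ^ j) = ((u' ^ m : Sˣ) : S) * w' ^ j := by
  have hp := liftLin_pow C u' w' h
  have hone : liftLin C u' w' 1 = 1 := by
    have h1 := hp 0 0
    simpa using h1
  have hmul : ∀ x y : R, liftLin C u' w' (x * y) = liftLin C u' w' x * liftLin C u' w' y := by
    have h2 : (LinearMap.mul k R).compr₂ (liftLin C u' w') =
        (LinearMap.mul k S).compl₁₂ (liftLin C u' w') (liftLin C u' w') := by
      refine C.bas.ext fun p => C.bas.ext fun q => ?_
      obtain ⟨m, a⟩ := p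
      obtain ⟨n, b⟩ := q
      simp only [LinearMap.compr₂_apply, LinearMap.mul_apply', LinearMap.compl₁₂_apply]
      rw [C.bas_eq, C.bas_eq, hp, hp]
      have h3 : ((C.u ^ m : Rˣ) : R) * C.w ^ (a : ℕ) * (((C.u ^ n : Rˣ) : R) * C.w ^ (b : ℕ)) =
          ((C.u ^ (m + n) : Rˣ) : R) * C.w ^ ((a : ℕ) + (b : ℕ)) := by
        rw [zpow_add, pow_add]; push_cast; ring
      rw [h3, hp, zpow_add, pow_add]
      push_cast
      ring
    intro x y
    exact LinearMap.congr_fun (LinearMap.congr_fun h2 x) y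
  exact ⟨AlgHom.ofLinearMap (liftLin C u' w') hone hmul, fun m j => hp j m⟩

/-- Hint: `AdjoinRoot` of `W^3 - t^2 W - (t u^3 + t^2 u^2 + t^2)` over `R` -/
theorem exists_dblRing (k : Type) [Field k] {t : k} {R : Type} [CommRing R] [Algebra k R]
    (C : CubicRing k t R) :
    ∃ (D : Type) (_ : CommRing D) (_ : Algebra k D), Nonempty (DblRing k C D) := by
  classical
  have hnt : Nontrivial R := by
    refine ⟨⟨0, 1, fun h01 => ?_⟩⟩
    have h1 : C.bas (0, 0) = 0 := by
      have : C.bas (0, 0) * 1 = C.bas (0, 0) * 0 := by rw [h01]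
      simpa using this
    exact C.bas.ne_zero (0, 0) h1
  let c : R := algebraMap k R t * (C.u : R) ^ 3 + algebraMap k R (t ^ 2) * (C.u : R) ^ 2 +
    algebraMap k R (t ^ 2)
  let g : R[X] := Polynomial.C (algebraMap k R (t ^ 2)) * X + Polynomial.C c
  have hg : g.degree < 3 := by
    refine lt_of_le_of_lt (degree_linear_le (a := algebraMap k R (t ^ 2)) (b := c)) ?_
    norm_num
  let f : R[X] := X ^ 3 - g
  have hf : f.Monic := monic_X_pow_sub (n := 3) (p := g) (by exact_mod_cast hg)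
  have hfd : f.natDegree = 3 := by
    have h1 : f.degree = 3 := by
      have h2 := degree_sub_eq_left_of_degree_lt (p := (X : R[X]) ^ 3) (q := g) (by
        rw [degree_X_pow]; exact hg)
      change (X ^ 3 - g).degree = 3
      rw [h2, degree_X_pow]; rfl
    exact natDegree_eq_of_degree_eq_some h1
  let D := AdjoinRoot f
  have htow : IsScalarTower k R D := inferInstance
  let l : R →ₐ[k] D := IsScalarTower.toAlgHom k R D
  have hl : ∀ x, l x = AdjoinRoot.of f x := fun x => rfl
  have hrt : (AdjoinRoot.root f) ^ 3 = algebraMap k D (t ^ 2) * AdjoinRoot.root f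
      + algebraMap k D t * ((Units.map (l : R →* D) C.u : Dˣ) : D) ^ 3
      + algebraMap k D (t ^ 2) * ((Units.map (l : R →* D) C.u : Dˣ) : D) ^ 2
      + algebraMap k D (t ^ 2) := by
    have h1 := AdjoinRoot.eval₂_root f
    have h2 : (AdjoinRoot.root f) ^ 3 = AdjoinRoot.of f (algebraMap k R (t ^ 2)) * AdjoinRoot.root f
        + AdjoinRoot.of f c := by
      have h3 : f = X ^ 3 - (Polynomial.C (algebraMap k R (t ^ 2)) * X + Polynomial.C c) := rfl
      have h4 : (X ^ 3 - (Polynomial.C (algebraMap k R (t ^ 2)) * X + Polynomial.C c)).eval₂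
          (AdjoinRoot.of f) (AdjoinRoot.root f) = 0 := h1
      rw [eval₂_sub, eval₂_add, eval₂_mul, eval₂_C, eval₂_C, eval₂_X_pow, eval₂_X] at h4
      exact sub_eq_zero.1 h4
    rw [h2]
    have h5 : ∀ y : k, algebraMap k D y = AdjoinRoot.of f (algebraMap k R y) := fun y => rfl
    have h6 : ((Units.map (l : R →* D) C.u : Dˣ) : D) = AdjoinRoot.of f (C.u : R) := rfl
    rw [h5, h5, h6]
    simp only [c, map_add, map_mul, map_pow]
    ring
  obtain ⟨r, hr⟩ := exists_lift C (Units.map (l : R →* D) C.u) (AdjoinRoot.root f) hrt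
  have hru : ∀ m : ℤ, r ((C.u ^ m : Rˣ) : R) = l ((C.u ^ m : Rˣ) : R) := by
    intro m
    have h1 := hr m 0
    rw [pow_zero, mul_one, pow_zero, mul_one, ← map_zpow] at h1
    exact h1
  have hrw : ∀ j : ℕ, r (C.w ^ j) = AdjoinRoot.root f ^ j := by
    intro j
    have h1 := hr 0 j
    rw [zpow_zero, zpow_zero, Units.val_one, one_mul, Units.val_one, one_mul] at h1
    exact h1
  have hev : f.eval₂ ((AlgHom.id k R : R →ₐ[k] R) : R →+* R) C.w = 0 := by
    change (X ^ 3 - (Polynomial.C (algebraMap k R (t ^ 2)) * X + Polynomial.C c)).eval₂ _ C.w = 0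
    rw [eval₂_sub, eval₂_add, eval₂_mul, eval₂_C, eval₂_C, eval₂_X_pow, eval₂_X, C.rel]
    simp only [c, AlgHom.coe_toRingHom, AlgHom.coe_id, id_eq]
    ring
  let pr : D →ₐ[k] R := AdjoinRoot.liftAlgHom f (AlgHom.id k R) C.w hev
  have prl : ∀ x : R, pr (l x) = x := by
    intro x
    rw [hl]
    exact AdjoinRoot.liftAlgHom_of f (AlgHom.id k R) C.w hev x
  have prroot : pr (AdjoinRoot.root f) = C.w :=
    AdjoinRoot.liftAlgHom_root f (AlgHom.id k R) C.w hev
  have prr : ∀ x : R, pr (r x) = x := by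
    have h1 : (pr.comp r).toLinearMap = LinearMap.id := by
      refine C.bas.ext fun p => ?_
      obtain ⟨m, a⟩ := p
      rw [AlgHom.toLinearMap_apply, AlgHom.comp_apply, C.bas_eq, map_mul, hru, hrw, map_mul, prl,
        map_pow, prroot]
      rfl
    intro x
    exact LinearMap.congr_fun h1 x
  let B : Module.Basis (Fin 3) R D :=
    (AdjoinRoot.powerBasis' hf).basis.reindex (finCongr hfd)
  have hB : ∀ b : Fin 3, B b = AdjoinRoot.root f ^ (b : ℕ) := by
    intro b
    rw [Module.Basis.reindex_apply, PowerBasis.basis_eq_pow]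
    rfl
  let bas : Module.Basis (ℤ × Fin 3 × Fin 3) k D :=
    (C.bas.smulTower B).reindex (Equiv.prodAssoc ℤ (Fin 3) (Fin 3))
  refine ⟨D, inferInstance, inferInstance, ⟨{
    l := l
    r := r
    lr := ?_
    pr := pr
    pr_l := prl
    pr_r := prr
    bas := bas
    bas_eq := ?_ }⟩⟩
  · have h1 := hru 1
    rw [zpow_one] at h1
    exact h1.symm
  · intro m a b
    rw [hrw, Module.Basis.reindex_apply]
    change (C.bas.smulTower B) ((m, a), b) = _
    rw [Module.Basis.smulTower_apply, hB, Algebra.smul_def]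
    rfl

end H36.NX
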