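import Pool.Agent.H36.NX.Lead

/-!
# Dom : `R` is a domain

If `r` is in `Y m` and not in `Y (m - 1)`, and `s` in `Y n` and not in `Y (n - 1)`, then the value of `r * s` at the
point `x = 0` is the product of two nonzero elements of the field `K`.
-/

set_option autoImplicit false

namespace H36.NX
namespace CubicRing

variable {k : Type} [Field k] {t : k} {R : Type} [CommRing R] [Algebra k R]
variable {K : Type} [Field K] [Algebra k K]

theorem exists_degree (C : CubicRing k t R) (r : R) (h : r ≠ 0) :
    ∃ n : ℤ, r ∈ C.Y n ∧ r ∉ C.Y (n - 1) := by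
  classical
  have h0 : ∃ n0 : ℤ, r ∉ C.Y n0 := by
    by_contra hcon
    push Not at hcon
    exact h (C.eq_zero_of_mem_Y r hcon)
  obtain ⟨n0, hn0⟩ := h0
  obtain ⟨n, hn, hmin⟩ := Int.exists_least_of_bdd (P := fun n : ℤ => r ∈ C.Y n)
    ⟨n0, fun z hz => by
      by_contra hlt
      exact hn0 (C.Y_mono (le_of_lt (not_le.mp hlt)) hz)⟩ (C.exists_mem_Y r)
  refine ⟨n, hn, fun hc => ?_⟩
  have := hmin (n - 1) hc
  omega

theorem isDomain (C : CubicRing k t R) (_E : CubeRoot k t K) : IsDomain R := by
  have hnt : Nontrivial R := by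
    refine ⟨⟨1, 0, fun hc => ?_⟩⟩
    have h1 := C.lead_one _E
    rw [hc, map_zero] at h1
    exact zero_ne_one h1
  have hnz : NoZeroDivisors R := by
    refine ⟨fun {a b} hab => ?_⟩
    by_contra hcon
    push Not at hcon
    obtain ⟨ha, hb⟩ := hcon
    obtain ⟨m, hm, hm'⟩ := C.exists_degree a ha
    obtain ⟨n, hn, hn'⟩ := C.exists_degree b hb
    have h1 := C.lead_mul _E hm hn
    rw [hab, map_zero] at h1
    rcases mul_eq_zero.mp h1.symm with h2 | h2
    · exact hm' ((C.lead_eq_zero_iff _E hm).mp h2)
    · exact hn' ((C.lead_eq_zero_iff _E hn).mp h2)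
  exact NoZeroDivisors.to_isDomain R

/-- `k[u]` is a polynomial ring -/
theorem transcendental_u (C : CubicRing k t R) : Transcendental k (C.u : R) := by
  classical
  rw [transcendental_iff]
  intro p hp
  have hpow : ∀ i : ℕ, (C.u : R) ^ i = C.bas ((i : ℤ), 0) := by
    intro i
    rw [C.bas_eq]
    simp
  rw [Polynomial.aeval_eq_sum_range] at hp
  ext i
  rw [Polynomial.coeff_zero]
  by_cases hi : i ∈ Finset.range (p.natDegree + 1)
  · have h1 := congrArg (fun x => C.bas.repr x ((i : ℤ), (0 : Fin 3))) hp
    simp only [map_sum, map_smul, map_zero, Finsupp.coe_finsetSum, Finset.sum_apply, Finsupp.coe_zero,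
      Pi.zero_apply, hpow, Module.Basis.repr_self, Finsupp.coe_smul, Pi.smul_apply] at h1
    rw [Finset.sum_eq_single i] at h1
    · simpa using h1
    · intro j _ hj
      rw [Finsupp.single_eq_of_ne]
      · simp
      · intro hc
        apply hj
        have := (Prod.mk.inj hc).1
        omega
    · intro hc
      exact absurd hi hc
  · rw [Finset.mem_range, not_lt] at hi
    exact Polynomial.coeff_eq_zero_of_natDegree_lt (by omega)

/-- the function `w' = w / u` is transcendental: a relation `p(w') = 0` gives `p = 0`, since `R` is a domain,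
`u` is algebraic over `k(w')` by the cubic equation, and `u` is transcendental; or directly by coefficients -/
theorem transcendental_w' (C : CubicRing k t R) (_E : CubeRoot k t K) (ht : t ≠ 0) :
    Transcendental k (((C.u⁻¹ : Rˣ) : R) * C.w) := by
  intro halg
  have hint : IsIntegral k (((C.u⁻¹ : Rˣ) : R) * C.w) := isAlgebraic_iff_isIntegral.mp halg
  set v : R := ((C.u⁻¹ : Rˣ) : R) with hv
  have huv : v * (C.u : R) = 1 := by simp [hv]
  set w' : R := v * C.w with hw'
  have hw : C.w = (C.u : R) * w' := by
    rw [hw']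
    linear_combination (-C.w) * huv
  have htR : algebraMap k R t⁻¹ * algebraMap k R t = 1 := by
    rw [← map_mul, inv_mul_cancel₀ ht, map_one]
  -- the monic equation of v
  have hrel : v ^ 3 + w' * v ^ 2 + v + (algebraMap k R (t⁻¹) - algebraMap k R (t⁻¹ ^ 2) * w' ^ 3) = 0 := by
    have h0 := C.rel
    rw [hw] at h0
    simp only [map_pow] at h0 ⊢
    set T := algebraMap k R t
    set S := algebraMap k R t⁻¹
    set u : R := (C.u : R)
    have h1 : w' ^ 3 = T ^ 2 * w' * v ^ 2 + T + T ^ 2 * v + T ^ 2 * v ^ 3 := by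
      have h2 : (v * u) ^ 3 * w' ^ 3 = T ^ 2 * ((v * u)) * w' * v ^ 2 + T * (v * u) ^ 3
          + T ^ 2 * (v * u) ^ 2 * v + T ^ 2 * v ^ 3 := by
        linear_combination v ^ 3 * h0
      rw [huv] at h2
      linear_combination h2
    have h3 : S * T = 1 := htR
    have h4 : S ^ 2 * T ^ 2 = 1 := by rw [← mul_pow, h3, one_pow]
    have h5 : S ^ 2 * T = S := by
      calc S ^ 2 * T = S * (S * T) := by ring
        _ = S := by rw [h3, mul_one]
    linear_combination (-S ^ 2) * h1 + (-(v ^ 3) - w' * v ^ 2 - v) * h4 + (-1 : R) * h5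
  have hvint : IsIntegral k v := by
    -- integral over the integral closure
    have hw'mem : w' ∈ integralClosure k R := hint
    let A := integralClosure k R
    let w'' : A := ⟨w', hint⟩
    let q : Polynomial A := Polynomial.X ^ 3 + Polynomial.C w'' * Polynomial.X ^ 2 + Polynomial.X
      + Polynomial.C (algebraMap k A (t⁻¹) - algebraMap k A (t⁻¹ ^ 2) * w'' ^ 3)
    have hqm : q.Monic := by
      unfold q
      monicity!
    have hA : IsIntegral A v := by
      refine ⟨q, hqm, ?_⟩
      unfold q
      simp only [Polynomial.eval₂_add, Polynomial.eval₂_mul, Polynomial.eval₂_pow, Polynomial.eval₂_X,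
        Polynomial.eval₂_C]
      have e1 : algebraMap A R w'' = w' := rfl
      have e2 : ∀ c : k, algebraMap A R (algebraMap k A c) = algebraMap k R c := fun c => rfl
      have e3 : algebraMap A R (w'' ^ 3) = w' ^ 3 := by rw [map_pow, e1]
      rw [map_sub, map_mul, e2, e2, e3]
      exact hrel
    exact isIntegral_trans (R := k) (A := A) v hA
  have hvalg : IsAlgebraic k v := isAlgebraic_iff_isIntegral.mpr hvint
  have hualg : IsAlgebraic k (C.u : R) := by
    let _ : Invertible v := ⟨(C.u : R), by simp [hv], by simp [hv]⟩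
    have := hvalg.invOf
    exact this
  exact C.transcendental_u hualg

end CubicRing
end H36.NX
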