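import Pool.Agent.H94.NC.Final
import Pool.Agent.H9.NC.Coh

/-!
# HPd : two classes span the even Hochschild homology => `dim HP₀ ≤ 2`
-/

set_option autoImplicit false

noncomputable section

namespace NC

variable {k : Type} [Field k]

/-- a cycle homologous to `y` has the class of `y` -/
private theorem hpd_tcls_eq (A : ZDGA k) (x y : A.cyc.V) (hx : A.cyc.b x = 0)
    (hy : A.cyc.b y = 0) (h : (HC A.toDGA.diag).Hml x y) :
    A.cyc.tcls x hx = A.cyc.tcls y hy := by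
  obtain ⟨z, hz⟩ := h
  refine sub_eq_zero.1 ((A.cyc.tcls_eq_zero (x - y) ?_).2 ⟨z, ?_⟩)
  · rw [map_sub, hx, hy, sub_zero]
  · exact (A.cyc_b z).trans hz

/-- cycles homologous to a cycle -/
private theorem hpd_cyc (A : ZDGA k) (x y : A.cyc.V) (hx : A.cyc.b x = 0)
    (h : (HC A.toDGA.diag).Hml x y) : A.cyc.b y = 0 := by
  obtain ⟨z, hz⟩ := h
  have h1 : A.cyc.b z = x - y := (A.cyc_b z).trans hz
  have h2 : A.cyc.b (x - y) = 0 := by
    rw [← h1]
    exact A.cyc.bb z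
  rw [map_sub, hx, zero_sub, neg_eq_zero] at h2
  exact h2

/-- `A.cyc.b` is the differential of `HC A.diag` (`ZDGA.cyc_b`) -/
theorem fin_HT (A : ZDGA k) (h : (HC A.toDGA.diag).FinH) : FiniteDimensional k A.cyc.HT := by
  obtain ⟨F, hF, hh⟩ := h.exists_subspace
  let F' : Submodule k A.cyc.V := F
  have hF' : FiniteDimensional k F' := hF
  let G : Submodule k A.cyc.V := F' ⊓ LinearMap.ker A.cyc.b
  have hG : FiniteDimensional k G := Submodule.finiteDimensional_of_le (inf_le_left : G ≤ F')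
  let φ : G →ₗ[k] A.cyc.HT :=
    { toFun := fun g => A.cyc.tcls g.1 g.2.2
      map_add' := fun _ _ => rfl
      map_smul' := fun _ _ => rfl }
  refine FiniteDimensional.of_surjective φ (fun x => ?_)
  obtain ⟨v, hv, rfl⟩ := A.cyc.tcls_surj x
  obtain ⟨y, hy, hvy⟩ := hh v ((A.cyc_b v).symm.trans hv)
  have hy0 : A.cyc.b y = 0 := hpd_cyc A v y hv hvy
  exact ⟨⟨y, hy, hy0⟩, (hpd_tcls_eq A v y hv hy0 hvy).symm⟩

open Wd in
/-- elements of even degree are even -/
private theorem hpd_even (A : ZDGA k) {m : ℤ} (hm : Even m) (v : A.cyc.V)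
    (hv : v ∈ A.cyc.gr m) : (HC A.toDGA.diag).P v = v := by
  have h1 : ∀ w : Wd k A.V A.V, w ∈ wg A m → PW A.toSD A.toSD w = w := by
    intro w hw
    have h2 : Wd.wP A.toSD A.toSD w = if decide (Even m) then w else 0 := hs_wg hw
    rw [Wd.wP_eq_PW, decide_eq_true hm] at h2
    exact h2
  exact h1 v hv

/-- `HP_dim_le` with `Z` the span of the classes of `a`, `b`; elements of even degree are even (`EHT_hinc`, `ew`, `EW`) -/
theorem HP_zero_le_two (A : ZDGA k) (h : (HC A.toDGA.diag).FinH) (a b : (HC A.toDGA.diag).V)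
    (ha : (HC A.toDGA.diag).D a = 0) (hb : (HC A.toDGA.diag).D b = 0)
    (hab : ∀ x, (HC A.toDGA.diag).P x = x → (HC A.toDGA.diag).D x = 0 →
      ∃ c d : k, (HC A.toDGA.diag).Hml x (c • a + d • b)) :
    FiniteDimensional k (A.HP 0) ∧ Module.finrank k (A.HP 0) ≤ 2 := by
  classical
  have hfin : FiniteDimensional k A.cyc.HT := fin_HT A h
  obtain ⟨hfd, lo, N, hlo, hhi⟩ := CycMod.HH_fin (X := A.cyc) A.cyc_internal
  have ha' : A.cyc.b a = 0 := (A.cyc_b a).trans ha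
  have hb' : A.cyc.b b = 0 := (A.cyc_b b).trans hb
  let Z : Submodule k A.cyc.HT :=
    Submodule.span k (({A.cyc.tcls a ha', A.cyc.tcls b hb'} : Finset A.cyc.HT) : Set A.cyc.HT)
  have hZ : ∀ m, Even m → ∀ x : A.cyc.HH m, A.cyc.hinc m x ∈ Z := by
    intro m hm x
    obtain ⟨v, hv, rfl⟩ := A.cyc.hcls_surj x
    rw [A.cyc.hinc_hcls]
    have hv0 : A.cyc.b v = 0 := hv.1
    obtain ⟨c, d, hcd⟩ := hab v (hpd_even A hm v hv.2) ((A.cyc_b v).symm.trans hv0)
    have hcd0 : A.cyc.b (c • a + d • b : A.cyc.V) = 0 := hpd_cyc A v _ hv0 hcd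
    rw [hpd_tcls_eq A v _ hv0 hcd0 hcd]
    have e : A.cyc.tcls (c • a + d • b : A.cyc.V) hcd0
        = c • A.cyc.tcls a ha' + d • A.cyc.tcls b hb' := rfl
    rw [e]
    refine Z.add_mem (Z.smul_mem _ (Submodule.subset_span ?_))
      (Z.smul_mem _ (Submodule.subset_span ?_))
    · simp
    · simp
  obtain ⟨h1, h2⟩ := A.cyc.HP_dim_le A.cyc_Bex lo hlo hfd A.cyc_internal N hhi Z hZ
  refine ⟨h1, h2.trans ?_⟩
  refine (finrank_span_finset_le_card _).trans ?_
  exact Finset.card_le_two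

/-- in characteristic 3 a dimension 1 or 2 is not zero -/
theorem HP_zero_ne (A : ZDGA k) [CharP k 3] (h : (HC A.toDGA.diag).FinH) (a b : (HC A.toDGA.diag).V)
    (ha : (HC A.toDGA.diag).D a = 0) (hb : (HC A.toDGA.diag).D b = 0)
    (hab : ∀ x, (HC A.toDGA.diag).P x = x → (HC A.toDGA.diag).D x = 0 →
      ∃ c d : k, (HC A.toDGA.diag).Hml x (c • a + d • b)) (hne : ∃ x : A.HP 0, x ≠ 0) :
    ((Module.finrank k (A.HP 0) : ℕ) : k) ≠ 0 := by
  obtain ⟨h1, h2⟩ := HP_zero_le_two A h a b ha hb hab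
  obtain ⟨x, hx⟩ := hne
  have hnt : Nontrivial (A.HP 0) := ⟨x, 0, hx⟩
  have h3 : 0 < Module.finrank k (A.HP 0) := Module.finrank_pos
  intro h0
  have h4 := (CharP.cast_eq_zero_iff k 3 (Module.finrank k (A.HP 0))).1 h0
  omega

end NC
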