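import Pool.Agent.H36.NX.Mods
import Pool.Agent.H36.NX.Coh
import Pool.Agent.H9.NC.Coh
import Pool.Agent.H36.NX.AAz

/-!
# Proper : the homology of Čech matrices is finite dimensional

A cycle is `(a, a, c)` with `a` entrywise in `B = X ⊓ Y`; `(0, 0, c)` is a boundary when `c` is entrywise in `X ⊔ Y`.
-/

set_option autoImplicit false

open NC

namespace H36.NX

variable {k : Type} [Field k] {t : k} {R : Type} [CommRing R] [Algebra k R] {I J : Type}

/-- a finite dimensional complement of `X ⊔ Y n` -/
theorem Proper_exists_W (C : CubicRing k t R) (n : ℤ) :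
    ∃ W : Submodule k R, FiniteDimensional k W ∧
      ∀ c : R, ∃ p ∈ C.X, ∃ q ∈ C.Y n, ∃ w ∈ W, c = p + q + w := by
  have h1 := C.finite_quot n
  obtain ⟨W, hW⟩ := Submodule.exists_isCompl (C.X ⊔ C.Y n)
  refine ⟨W, Module.Finite.equiv (Submodule.quotientEquivOfIsCompl _ _ hW), fun c => ?_⟩
  have hc : c ∈ (C.X ⊔ C.Y n) ⊔ W := by rw [hW.sup_eq_top]; exact Submodule.mem_top
  obtain ⟨s, hs, w, hw, rfl⟩ := Submodule.mem_sup.1 hc
  obtain ⟨p, hp, q, hq, rfl⟩ := Submodule.mem_sup.1 hs
  exact ⟨p, hp, q, hq, w, hw, rfl⟩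

/-- the Čech matrix `(a, b, c)` -/
def Proper_f (a b c : Matrix I J R) : Pc → Matrix I J R := fun s => match s with
  | Pc.X => a
  | Pc.Y => b
  | Pc.R => c

/-- the cycles `(a, a, c)` -/
noncomputable def Proper_phi (C : CubicRing k t R) (α : I → ℤ) (β : J → ℤ)
    (W : ℤ → Submodule k R) :
    ((∀ (i : I) (j : J), C.B (β j - α i)) × (∀ (i : I) (j : J), W (β j - α i))) →ₗ[k]
      (qSD C α β).V where
  toFun x := qmk C α β (Proper_f (fun i j => (x.1 i j : R)) (fun i j => (x.1 i j : R))
      (fun i j => (x.2 i j : R))) (by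
    intro s i j
    cases s with
    | X => exact (x.1 i j).2.1
    | Y => exact (x.1 i j).2.2
    | R => exact Submodule.mem_top)
  map_add' x y := q_ext C (by
    rw [map_add, qv_qmk, qv_qmk, qv_qmk]
    funext s; cases s <;> rfl)
  map_smul' c x := q_ext C (by
    rw [RingHom.id_apply, map_smul, qv_qmk, qv_qmk]
    funext s; cases s <;> rfl)

theorem finH_q (C : CubicRing k t R) [Finite I] [Finite J] (α : I → ℤ) (β : J → ℤ) :
    (qSD C α β).FinH := by
  choose W hWf hW using Proper_exists_W C
  have hB := C.finite_B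
  have hF : FiniteDimensional k (LinearMap.range (Proper_phi C α β W)) := by
    have h1 : FiniteDimensional k
        ((∀ (i : I) (j : J), C.B (β j - α i)) × (∀ (i : I) (j : J), W (β j - α i))) := by
      have h2 : FiniteDimensional k (∀ (i : I) (j : J), C.B (β j - α i)) := inferInstance
      have h3 : FiniteDimensional k (∀ (i : I) (j : J), W (β j - α i)) := inferInstance
      exact inferInstance
    exact LinearMap.finiteDimensional_range _
  refine SD.FinH.of_subspace (LinearMap.range (Proper_phi C α β W)) hF fun x hx => ?_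
  have hx1 : cD k _ (qv C α β x) = 0 := by rw [← qv_D, hx, map_zero]
  have hxm := qv_mem C x
  have hxe : qv C α β x Pc.Y = qv C α β x Pc.X := by
    have h := congrFun hx1 Pc.R
    rw [cD_R] at h
    exact sub_eq_zero.1 h
  have hxX : ∀ i j, qv C α β x Pc.X i j ∈ C.B (β j - α i) := by
    intro i j
    refine Submodule.mem_inf.2 ⟨hxm Pc.X i j, ?_⟩
    rw [← hxe]
    exact hxm Pc.Y i j
  choose p hp q hq w hw hc using fun (i : I) (j : J) => hW (β j - α i) (qv C α β x Pc.R i j)
  refine ⟨Proper_phi C α β W (fun i j => ⟨_, hxX i j⟩, fun i j => ⟨w i j, hw i j⟩),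
    ⟨_, rfl⟩, ?_⟩
  refine ⟨qmk C α β (Proper_f (fun i j => - p i j) (fun i j => q i j) 0) ?_, ?_⟩
  · intro s i j
    cases s with
    | X => exact Submodule.neg_mem _ (hp i j)
    | Y => exact hq i j
    | R => exact Submodule.mem_top
  · refine q_ext C ?_
    rw [qv_D, qv_qmk, map_sub]
    funext s
    cases s with
    | X =>
      rw [cD_X]
      ext i j
      exact (sub_self _).symm
    | Y =>
      rw [cD_Y]
      ext i j
      change (0 : R) = qv C α β x Pc.Y i j - qv C α β x Pc.X i j
      rw [hxe, sub_self]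
    | R =>
      rw [cD_R]
      ext i j
      change q i j - - p i j = qv C α β x Pc.R i j - w i j
      rw [hc i j]
      abel

/-- **properness** -/
theorem proper_AA (C : CubicRing k t R) : FiniteDimensional k (AAz C).toSD.Coh :=
  SD.coh_finite_iff.2 (finH_q C wt wt)

end H36.NX
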