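import Pool.Agent.H36.NX.ChiZ
import Pool.Agent.H36.NX.RPB
import Pool.Agent.H36.NX.HPd
import Pool.Agent.H36.NX.HPz
import Pool.Agent.H36.NX.Proper
import Pool.Agent.H36.NX.Index
import Pool.Agent.H36.NX.DblEx
import Pool.Agent.H36.NX.Exist
import Pool.Agent.H36.NX.Dom
import Pool.Agent.H15.NX.HHb
import Pool.Agent.H94.NC.Conv
import Pool.Agent.H94.NC.FExt

/-!
# Ex : the example and all its properties
-/

set_option autoImplicit false

open NC

noncomputable section

namespace H36.NX

variable {k : Type} [Field k] {t : k} {R : Type} [CommRing R] [Algebra k R]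
  {C : CubicRing k t R} {K : Type} [Field K] [Algebra k K] {D : Type} [CommRing D] [Algebra k D]

/-- the Euler characteristic of `HC(A; M)` vanishes in `k` for every correspondence `M` -/
theorem chi_corr (W : DblRing k C D) (E : CubeRoot k t K) (hI : IndexThree k t) [CharP k 3]
    (ht : t ≠ 0) (M : ZBim (AAz C)) (hM : M.IsCorr) : SD.chi (HC M.bm.b) = 0 :=
  chi_HC_zero C E hI (PF_of_RPf (PF_diag W E ht) M.bm hM.rpf)

/-- the example over a field of characteristic 3 -/
theorem exists_example (k : Type) [Field k] [CharP k 3] (t : k) (ht : t ≠ 0)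
    (hI : IndexThree k t) : ∃ A : ZDGA k, PF A.toDGA (BMod.diag A.toDGA) ∧
      FiniteDimensional k A.toSD.Coh ∧ FiniteDimensional k A.cyc.HT ∧
      FiniteDimensional k (A.HP 0) ∧ ((Module.finrank k (A.HP 0) : ℕ) : k) ≠ 0 ∧
      ∀ M : ZBim A, M.IsCorr → SD.chi (HC M.bm.b) = 0 := by
  obtain ⟨R, _, _, ⟨C⟩⟩ := exists_cubicRing k t
  obtain ⟨K, _, _, ⟨E⟩⟩ := exists_cubeRoot k t hI
  obtain ⟨D, _, _, ⟨W⟩⟩ := exists_dblRing k C
  have hdom : IsDomain R := C.isDomain E
  let j : R →ₐ[k] FractionRing R := IsScalarTower.toAlgHom k R (FractionRing R)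
  have hj : Function.Injective j := IsFractionRing.injective R (FractionRing R)
  have hfin := finH_HC C j E hj ht
  obtain ⟨a, b, ha, hb, -, -, hab⟩ := hh_even C j E hj ht
  have h2 := HP_zero_le_two (AAz C) hfin a b ha hb hab
  exact ⟨AAz C, PF_diag W E ht, proper_AA C, fin_HT (AAz C) hfin, h2.1,
    HP_zero_ne (AAz C) hfin a b ha hb hab (AAz_HP_ne_zero C), fun M hM => chi_corr W E hI ht M hM⟩

end H36.NX
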