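import Pool.Agent.H36.NX.GrSD

/-!
# FgGr : finite generation from generation in bounded degree
-/

set_option autoImplicit false

open NC MvPolynomial

namespace H36.NX

variable {k : Type} [Field k]

/-- the homology of `X` is generated by the finite dimensional `⊕_{n ≤ N0} H(Y n)` (elementwise: `OpS.fg_iff`) -/
theorem fg_of_gr {X : SD k} {Y : ℕ → SD k} (G : GrSD X Y) (o : OpS (MvPolynomial (Fin 3) k) X)
    (hf : ∀ n, (Y n).FinH) (N0 : ℕ)
    (hgen : ∀ n, N0 ≤ n → ∀ v : (Y (n + 1)).V, (Y (n + 1)).D v = 0 →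
      ∃ a : Fin 3 → (Y n).V, (∀ i, (Y n).D (a i) = 0) ∧
        X.Hml ((G.i (n + 1)).f v) (∑ i, o.op (MvPolynomial.X i) ((G.i n).f (a i)))) :
    o.FG := by
  classical
  let _ := o.mod
  have hk : ∀ (c : k) (x : X.Coh), (algebraMap k (MvPolynomial (Fin 3) k) c) • x = c • x := by
    intro c x
    have h1 : (algebraMap k (MvPolynomial (Fin 3) k) c) • x =
        o.cohOp (algebraMap k (MvPolynomial (Fin 3) k) c) x := rfl
    rw [h1, AlgHom.commutes]
    rfl
  have hsm : ∀ (s : MvPolynomial (Fin 3) k) {x : X.V} (hx : X.D x = 0), s • SD.Coh.mk x hx =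
      SD.Coh.mk (o.op s x) (by rw [← o.D, hx, map_zero]) := fun s x hx => rfl
  -- each homogeneous part is in a finitely generated submodule
  have h1 : ∀ n, ∃ s : Finset X.Coh, ∀ c : (Y n).Coh, SD.Coh.map (G.i n) c ∈
      Submodule.span (MvPolynomial (Fin 3) k) (s : Set X.Coh) := by
    intro n
    have hfin : FiniteDimensional k (Y n).Coh := SD.coh_finite_iff.2 (hf n)
    obtain ⟨s, hs⟩ := Module.finite_def.1 hfin
    refine ⟨s.image (SD.Coh.map (G.i n)), fun c => ?_⟩
    have hc : c ∈ Submodule.span k (s : Set (Y n).Coh) := by rw [hs]; exact Submodule.mem_top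
    induction hc using Submodule.span_induction with
    | mem x hx =>
      exact Submodule.subset_span (Finset.mem_coe.2 (Finset.mem_image_of_mem _ hx))
    | zero =>
      rw [map_zero]
      exact Submodule.zero_mem _
    | add x y _ _ hx hy =>
      rw [map_add]
      exact Submodule.add_mem _ hx hy
    | smul a x _ hx =>
      rw [map_smul, ← hk]
      exact Submodule.smul_mem _ _ hx
  choose s hs using h1
  obtain ⟨T, hT⟩ : ∃ T, T = Submodule.span (MvPolynomial (Fin 3) k)
    (((Finset.range (N0 + 1)).biUnion s : Finset X.Coh) : Set X.Coh) := ⟨_, rfl⟩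
  -- all homogeneous parts are in it
  have h2 : ∀ n, ∀ c : (Y n).Coh, SD.Coh.map (G.i n) c ∈ T := by
    intro n
    induction n with
    | zero =>
      intro c
      rw [hT]
      refine Submodule.span_mono (Finset.coe_subset.2 ?_) (hs 0 c)
      exact Finset.subset_biUnion_of_mem s (Finset.mem_range.2 (Nat.succ_pos _))
    | succ n ih =>
      intro c
      rcases Nat.lt_or_ge n N0 with h | h
      · rw [hT]
        refine Submodule.span_mono (Finset.coe_subset.2 ?_) (hs (n + 1) c)
        exact Finset.subset_biUnion_of_mem s (Finset.mem_range.2 (by omega))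
      · obtain ⟨v, hv, rfl⟩ := SD.Coh.exists_mk c
        obtain ⟨a, ha, hh⟩ := hgen n h v hv
        have hcy : ∀ i, X.D ((G.i n).f (a i)) = 0 := fun i => by rw [← (G.i n).D, ha i, map_zero]
        have hcy' : ∀ i, X.D (o.op (MvPolynomial.X i) ((G.i n).f (a i))) = 0 := fun i => by
          rw [← o.D, hcy i, map_zero]
        have hcs : X.D (∑ i, o.op (MvPolynomial.X i) ((G.i n).f (a i))) = 0 := by
          rw [map_sum]
          exact Finset.sum_eq_zero fun i _ => hcy' i
        have h3 : SD.Coh.map (G.i (n + 1)) (SD.Coh.mk v hv) =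
            SD.Coh.mk (∑ i, o.op (MvPolynomial.X i) ((G.i n).f (a i))) hcs := by
          rw [SD.Coh.map_mk]
          exact (SD.Coh.mk_eq_mk _ _).2 hh
        have h4 : SD.Coh.mk (∑ i, o.op (MvPolynomial.X i) ((G.i n).f (a i))) hcs =
            (MvPolynomial.X 0 : MvPolynomial (Fin 3) k) • SD.Coh.map (G.i n) (SD.Coh.mk (a 0) (ha 0))
            + (MvPolynomial.X 1 : MvPolynomial (Fin 3) k) •
              SD.Coh.map (G.i n) (SD.Coh.mk (a 1) (ha 1))
            + (MvPolynomial.X 2 : MvPolynomial (Fin 3) k) •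
              SD.Coh.map (G.i n) (SD.Coh.mk (a 2) (ha 2)) := by
          rw [SD.Coh.map_mk, SD.Coh.map_mk, SD.Coh.map_mk, hsm, hsm, hsm, SD.Coh.mk_add,
            SD.Coh.mk_add]
          exact SD.Coh.mk_congr _ _ (Fin.sum_univ_three _)
        rw [h3, h4]
        exact Submodule.add_mem _ (Submodule.add_mem _ (Submodule.smul_mem _ _ (ih _))
          (Submodule.smul_mem _ _ (ih _))) (Submodule.smul_mem _ _ (ih _))
  -- and they generate
  have h5 : T = ⊤ := by
    rw [eq_top_iff]
    intro c _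
    obtain ⟨x, hx, rfl⟩ := SD.Coh.exists_mk c
    obtain ⟨n₀, hn₀⟩ := G.sum x
    have hpc : ∀ n, (Y n).D ((G.p n).f x) = 0 := fun n => by rw [← (G.p n).D, hx, map_zero]
    have hic : ∀ n, X.D ((G.i n).f ((G.p n).f x)) = 0 := fun n => by
      rw [← (G.i n).D, hpc n, map_zero]
    have h6 : ∀ m, ∀ h : X.D (∑ n ∈ Finset.range m, (G.i n).f ((G.p n).f x)) = 0,
        SD.Coh.mk (∑ n ∈ Finset.range m, (G.i n).f ((G.p n).f x)) h ∈ T := by
      intro m
      induction m with
      | zero =>
        intro h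
        have h7 : SD.Coh.mk (∑ n ∈ Finset.range 0, (G.i n).f ((G.p n).f x)) h = 0 :=
          (SD.Coh.mk_eq_zero h).2 ⟨0, by rw [Finset.sum_range_zero, map_zero]⟩
        rw [h7]
        exact Submodule.zero_mem _
      | succ m ih =>
        intro h
        have h8 : X.D (∑ n ∈ Finset.range m, (G.i n).f ((G.p n).f x)) = 0 := by
          rw [map_sum]
          exact Finset.sum_eq_zero fun n _ => hic n
        have h9 : SD.Coh.mk (∑ n ∈ Finset.range (m + 1), (G.i n).f ((G.p n).f x)) h =
            SD.Coh.mk (∑ n ∈ Finset.range m, (G.i n).f ((G.p n).f x)) h8 +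
              SD.Coh.map (G.i m) (SD.Coh.mk ((G.p m).f x) (hpc m)) := by
          rw [SD.Coh.map_mk, SD.Coh.mk_add]
          exact SD.Coh.mk_congr _ _ (Finset.sum_range_succ _ _)
        rw [h9]
        exact Submodule.add_mem _ (ih h8) (h2 m _)
    have h10 : X.D (∑ n ∈ Finset.range n₀, (G.i n).f ((G.p n).f x)) = 0 := by rw [← hn₀, hx]
    have h11 := h6 n₀ h10
    rwa [← SD.Coh.mk_congr hx h10 hn₀] at h11
  have hfin : Module.Finite (MvPolynomial (Fin 3) k) X.Coh :=
    Module.finite_def.2 ⟨(Finset.range (N0 + 1)).biUnion s, by rw [← hT, h5]⟩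
  exact hfin

end H36.NX
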