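import Pool.Agent.H36.NX.Bim

/-!
# GBim : the bimodule of Čech matrices with entries in a commutative ring `S` with two maps from `R`

`F s i j` are the allowed entries `(i, j)` on the piece `s` (all of `S` on the overlap).
-/

set_option autoImplicit false

open NC

namespace H36.NX

variable {k : Type} [Field k] {t : k} {R : Type} [CommRing R] [Algebra k R]

/-- data for a bimodule of Čech matrices -/
structure GData (C : CubicRing k t R) (S : Type) [CommRing S] [Algebra k S] where
  l : R →ₐ[k] S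
  r : R →ₐ[k] S
  F : Pc → Fin 2 → Fin 2 → Submodule k S
  top : ∀ i j, F Pc.R i j = ⊤
  lmem : ∀ s i j m, ∀ a ∈ C.pc s (wt j - wt i), ∀ x ∈ F s j m, l a * x ∈ F s i m
  rmem : ∀ s i j m, ∀ x ∈ F s i j, ∀ a ∈ C.pc s (wt m - wt j), x * r a ∈ F s i m

variable {C : CubicRing k t R} {S : Type} [CommRing S] [Algebra k S]

/-- the left product of matrices -/
noncomputable def gl (l : R →ₐ[k] S) :
    Matrix (Fin 2) (Fin 2) R →ₗ[k] Matrix (Fin 2) (Fin 2) S →ₗ[k] Matrix (Fin 2) (Fin 2) S :=
  LinearMap.mk₂ k (fun M N => M.map l * N)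
    (fun M M' N => by
      have : (M + M').map l = M.map l + M'.map l := by ext; simp
      rw [this, Matrix.add_mul])
    (fun c M N => by
      have : (c • M).map l = c • M.map l := by ext; simp
      rw [this, Matrix.smul_mul])
    (fun _ _ _ => Matrix.mul_add _ _ _) (fun _ _ _ => by simp)

/-- the right product of matrices -/
noncomputable def gr (r : R →ₐ[k] S) :
    Matrix (Fin 2) (Fin 2) S →ₗ[k] Matrix (Fin 2) (Fin 2) R →ₗ[k] Matrix (Fin 2) (Fin 2) S :=
  LinearMap.mk₂ k (fun M N => M * N.map r)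
    (fun _ _ _ => Matrix.add_mul _ _ _) (fun _ _ _ => by simp)
    (fun M N N' => by
      have : (N + N').map r = N.map r + N'.map r := by ext; simp
      rw [this, Matrix.mul_add])
    (fun c M N => by
      have : (c • N).map r = c • N.map r := by ext; simp
      rw [this, Matrix.mul_smul])

@[simp] theorem gl_apply (l : R →ₐ[k] S) (M : Matrix (Fin 2) (Fin 2) R)
    (N : Matrix (Fin 2) (Fin 2) S) : gl l M N = M.map l * N := rfl

@[simp] theorem gr_apply (r : R →ₐ[k] S) (M : Matrix (Fin 2) (Fin 2) S)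
    (N : Matrix (Fin 2) (Fin 2) R) : gr r M N = M * N.map r := rfl

theorem gl_assoc (l : R →ₐ[k] S) (a b : Matrix (Fin 2) (Fin 2) R) (c : Matrix (Fin 2) (Fin 2) S) :
    gl l (matMul k R (Fin 2) (Fin 2) (Fin 2) a b) c = gl l a (gl l b c) := by
  simp [Matrix.map_mul, Matrix.mul_assoc]

theorem gr_assoc (r : R →ₐ[k] S) (a : Matrix (Fin 2) (Fin 2) S) (b c : Matrix (Fin 2) (Fin 2) R) :
    gr r (gr r a b) c = gr r a (matMul k R (Fin 2) (Fin 2) (Fin 2) b c) := by
  simp [Matrix.map_mul, Matrix.mul_assoc]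

theorem gl_gr (l r : R →ₐ[k] S) (a : Matrix (Fin 2) (Fin 2) R) (b : Matrix (Fin 2) (Fin 2) S)
    (c : Matrix (Fin 2) (Fin 2) R) : gr r (gl l a b) c = gl l a (gr r b c) := by
  simp [Matrix.mul_assoc]

namespace GData

/-- the allowed Čech matrices -/
noncomputable def car (G : GData C S) : Submodule k (Pc → Matrix (Fin 2) (Fin 2) S) where
  carrier := {f | ∀ s i j, f s i j ∈ G.F s i j}
  add_mem' := fun ha hb s i j => (G.F s i j).add_mem (ha s i j) (hb s i j)
  zero_mem' := fun s i j => (G.F s i j).zero_mem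
  smul_mem' := fun c _ ha s i j => (G.F s i j).smul_mem c (ha s i j)

theorem mem_R (G : GData C S) (i j : Fin 2) (x : S) : x ∈ G.F Pc.R i j := by
  rw [G.top]; exact Submodule.mem_top

theorem cD_mem (G : GData C S) (f : Pc → Matrix (Fin 2) (Fin 2) S) (_hf : f ∈ G.car) :
    cD k _ f ∈ G.car := by
  intro s i j
  cases s with
  | X => exact Submodule.zero_mem _
  | Y => exact Submodule.zero_mem _
  | R => exact G.mem_R i j _

theorem cP_mem (G : GData C S) (f : Pc → Matrix (Fin 2) (Fin 2) S) (hf : f ∈ G.car) :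
    cP k _ f ∈ G.car := by
  intro s i j
  cases s with
  | X => exact hf Pc.X i j
  | Y => exact hf Pc.Y i j
  | R => exact G.mem_R i j _

theorem l_mem (G : GData C S) (a : Pc → Matrix (Fin 2) (Fin 2) R) (ha : a ∈ QQ C wt wt)
    (f : Pc → Matrix (Fin 2) (Fin 2) S) (hf : f ∈ G.car) : cMul k (gl G.l) a f ∈ G.car := by
  intro s i j
  cases s with
  | X =>
    change ((a Pc.X).map G.l * f Pc.X) i j ∈ _
    rw [Matrix.mul_apply]
    exact Submodule.sum_mem _ (fun m _ => G.lmem Pc.X i m j _ (ha Pc.X i m) _ (hf Pc.X m j))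
  | Y =>
    change ((a Pc.Y).map G.l * f Pc.Y) i j ∈ _
    rw [Matrix.mul_apply]
    exact Submodule.sum_mem _ (fun m _ => G.lmem Pc.Y i m j _ (ha Pc.Y i m) _ (hf Pc.Y m j))
  | R => exact G.mem_R i j _

theorem r_mem (G : GData C S) (f : Pc → Matrix (Fin 2) (Fin 2) S) (hf : f ∈ G.car)
    (a : Pc → Matrix (Fin 2) (Fin 2) R) (ha : a ∈ QQ C wt wt) : cMul k (gr G.r) f a ∈ G.car := by
  intro s i j
  cases s with
  | X =>
    change (f Pc.X * (a Pc.X).map G.r) i j ∈ _
    rw [Matrix.mul_apply]
    exact Submodule.sum_mem _ (fun m _ => G.rmem Pc.X i m j _ (hf Pc.X i m) _ (ha Pc.X m j))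
  | Y =>
    change (f Pc.Y * (a Pc.Y).map G.r) i j ∈ _
    rw [Matrix.mul_apply]
    exact Submodule.sum_mem _ (fun m _ => G.rmem Pc.Y i m j _ (hf Pc.Y i m) _ (ha Pc.Y m j))
  | R => exact G.mem_R i j _

/-- the complex -/
noncomputable def sd (G : GData C S) : SD k where
  V := G.car
  D := (cD k (Matrix (Fin 2) (Fin 2) S)).restrict (fun a ha => G.cD_mem a ha)
  P := (cP k (Matrix (Fin 2) (Fin 2) S)).restrict (fun a ha => G.cP_mem a ha)
  DD v := Subtype.ext ((cSD k (Matrix (Fin 2) (Fin 2) S)).DD v.1)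
  PP v := Subtype.ext ((cSD k (Matrix (Fin 2) (Fin 2) S)).PP v.1)
  DP v := Subtype.ext ((cSD k (Matrix (Fin 2) (Fin 2) S)).DP v.1)

/-- the underlying Čech matrix -/
noncomputable def v (G : GData C S) : G.sd.V →ₗ[k] (Pc → Matrix (Fin 2) (Fin 2) S) where
  toFun f := Subtype.val (p := fun x => x ∈ G.car) f
  map_add' _ _ := rfl
  map_smul' _ _ := rfl

/-- constructor -/
def cm (G : GData C S) (f : Pc → Matrix (Fin 2) (Fin 2) S) (hf : f ∈ G.car) : G.sd.V :=
  Subtype.mk (p := fun x => x ∈ G.car) f hf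

@[simp] theorem v_cm (G : GData C S) (f : Pc → Matrix (Fin 2) (Fin 2) S) (hf : f ∈ G.car) :
    G.v (G.cm f hf) = f := rfl

theorem v_mem (G : GData C S) (f : G.sd.V) : G.v f ∈ G.car :=
  Subtype.property (p := fun x => x ∈ G.car) f

theorem ext (G : GData C S) {f g : G.sd.V} (h : G.v f = G.v g) : f = g :=
  Subtype.ext (p := fun x => x ∈ G.car) h

@[simp] theorem v_D (G : GData C S) (f : G.sd.V) : G.v (G.sd.D f) = cD k _ (G.v f) := rfl
@[simp] theorem v_P (G : GData C S) (f : G.sd.V) : G.v (G.sd.P f) = cP k _ (G.v f) := rfl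
theorem v_E (G : GData C S) (f : G.sd.V) :
    G.v (G.sd.E f) = cP k _ (G.v f) + cP k _ (G.v f) - G.v f := rfl
theorem v_sub_P (G : GData C S) (f : G.sd.V) :
    G.v (f - G.sd.P f) = G.v f - cP k _ (G.v f) := by
  rw [map_sub, v_P]

/-- the left product by elements of `A` -/
noncomputable def mulL (G : GData C S) : (AA C).V →ₗ[k] G.sd.V →ₗ[k] G.sd.V :=
  LinearMap.mk₂ k (fun a g => G.cm (cMul k (gl G.l) (av C a) (G.v g))
      (G.l_mem _ (av_mem C a) _ (G.v_mem g)))
    (fun a a' g => G.ext (by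
      change cMul k (gl G.l) (av C (a + a')) (G.v g)
        = cMul k (gl G.l) (av C a) (G.v g) + cMul k (gl G.l) (av C a') (G.v g)
      rw [map_add, map_add, LinearMap.add_apply]))
    (fun c a g => G.ext (by
      change cMul k (gl G.l) (av C (c • a)) (G.v g) = c • cMul k (gl G.l) (av C a) (G.v g)
      rw [map_smul, map_smul, LinearMap.smul_apply]))
    (fun a g g' => G.ext (by
      change cMul k (gl G.l) (av C a) (G.v (g + g'))
        = cMul k (gl G.l) (av C a) (G.v g) + cMul k (gl G.l) (av C a) (G.v g')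
      rw [map_add, map_add]))
    (fun c a g => G.ext (by
      change cMul k (gl G.l) (av C a) (G.v (c • g)) = c • cMul k (gl G.l) (av C a) (G.v g)
      rw [map_smul, map_smul]))

/-- the right product by elements of `A` -/
noncomputable def mulR (G : GData C S) : G.sd.V →ₗ[k] (AA C).V →ₗ[k] G.sd.V :=
  LinearMap.mk₂ k (fun g a => G.cm (cMul k (gr G.r) (G.v g) (av C a))
      (G.r_mem _ (G.v_mem g) _ (av_mem C a)))
    (fun g g' a => G.ext (by
      change cMul k (gr G.r) (G.v (g + g')) (av C a)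
        = cMul k (gr G.r) (G.v g) (av C a) + cMul k (gr G.r) (G.v g') (av C a)
      rw [map_add, map_add, LinearMap.add_apply]))
    (fun c g a => G.ext (by
      change cMul k (gr G.r) (G.v (c • g)) (av C a) = c • cMul k (gr G.r) (G.v g) (av C a)
      rw [map_smul, map_smul, LinearMap.smul_apply]))
    (fun g a a' => G.ext (by
      change cMul k (gr G.r) (G.v g) (av C (a + a'))
        = cMul k (gr G.r) (G.v g) (av C a) + cMul k (gr G.r) (G.v g) (av C a')
      rw [map_add, map_add]))
    (fun c g a => G.ext (by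
      change cMul k (gr G.r) (G.v g) (av C (c • a)) = c • cMul k (gr G.r) (G.v g) (av C a)
      rw [map_smul, map_smul]))

@[simp] theorem v_mulL (G : GData C S) (a : (AA C).V) (g : G.sd.V) :
    G.v (G.mulL a g) = cMul k (gl G.l) (av C a) (G.v g) := rfl

@[simp] theorem v_mulR (G : GData C S) (g : G.sd.V) (a : (AA C).V) :
    G.v (G.mulR g a) = cMul k (gr G.r) (G.v g) (av C a) := rfl

/-- the bimodule -/
noncomputable def bim (G : GData C S) : BMod (AA C) (AA C) where
  N := G.sd
  b :=
    { l :=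
        { act := G.mulL
          mul_act := fun a b y => G.ext (by
            rw [v_mulL, v_mulL, v_mulL, av_mul]
            exact cMul_assoc k (matMul k R (Fin 2) (Fin 2) (Fin 2)) (gl G.l) (gl G.l) (gl G.l)
              (fun a b c => gl_assoc G.l a b c) _ _ _)
          P_act := fun a b => G.ext (by
            rw [v_P, v_mulL, map_add, v_mulL, v_mulL, av_sub_P, v_sub_P, av_P, v_P]
            exact cMul_P k (gl G.l) _ _)
          D_act := fun a b => G.ext (by
            rw [v_D, v_mulL, map_add, v_mulL, v_mulL, av_D, v_D, av_E]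
            exact cMul_D k (gl G.l) _ _) }
      r :=
        { act := G.mulR
          act_mul := fun y a b => G.ext (by
            rw [v_mulR, v_mulR, v_mulR, av_mul]
            exact cMul_assoc k (gr G.r) (gr G.r) (matMul k R (Fin 2) (Fin 2) (Fin 2)) (gr G.r)
              (fun a b c => gr_assoc G.r a b c) _ _ _)
          P_act := fun a b => G.ext (by
            rw [v_P, v_mulR, map_add, v_mulR, v_mulR, av_sub_P, v_sub_P, av_P, v_P]
            exact cMul_P k (gr G.r) _ _)
          D_act := fun a b => G.ext (by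
            rw [v_D, v_mulR, map_add, v_mulR, v_mulR, av_D, v_D, v_E]
            exact cMul_D k (gr G.r) _ _) }
      lr := fun a x b => G.ext (by
        change G.v (G.mulR (G.mulL a x) b) = G.v (G.mulL a (G.mulR x b))
        rw [v_mulR, v_mulL, v_mulL, v_mulR]
        exact cMul_assoc k (gl G.l) (gr G.r) (gr G.r) (gl G.l)
          (fun a b c => gl_gr G.l G.r a b c) _ _ _) }
  one_l := fun y => G.ext (by
    change G.v (G.mulL 1 y) = _
    rw [v_mulL, av_one]
    funext s; cases s <;> simp)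
  r_one := fun y => G.ext (by
    change G.v (G.mulR y 1) = _
    rw [v_mulR, av_one]
    funext s; cases s <;> simp)

end GData

end H36.NX
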