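import Pool.Agent.H36.NX.DDS

/-!
# GrSD : graded differential modules `X = ⊕ Y n`, with inclusions and projections; the functor `D(N, -)`; homology
-/

set_option autoImplicit false

open NC
open scoped TensorProduct

noncomputable section

namespace H36.NX

variable {k : Type} [Field k] {A : DGA k}

/-- `X` is the direct sum of the `Y n` -/
structure GrSD (X : SD k) (Y : ℕ → SD k) where
  i : ∀ n, SD.Hom (Y n) X
  p : ∀ n, SD.Hom X (Y n)
  pi : ∀ n v, (p n).f ((i n).f v) = v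
  pi' : ∀ m n v, m ≠ n → (p m).f ((i n).f v) = 0
  sum : ∀ v, ∃ n₀ : ℕ, v = ∑ n ∈ Finset.range n₀, (i n).f ((p n).f v)

/-- the bimodule `Q` is the direct sum of the `Y n` -/
structure GrB (Q : BMod A A) (Y : ℕ → BMod A A) where
  i : ∀ n, BMod.Hom (Y n) Q
  p : ∀ n, BMod.Hom Q (Y n)
  pi : ∀ n v, (p n).f ((i n).f v) = v
  pi' : ∀ m n v, m ≠ n → (p m).f ((i n).f v) = 0
  sum : ∀ v, ∃ n₀ : ℕ, v = ∑ n ∈ Finset.range n₀, (i n).f ((p n).f v)

/-- for all large `m` -/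
theorem GrSD.sum' {X : SD k} {Y : ℕ → SD k} (G : GrSD X Y) (v : X.V) :
    ∃ n₀ : ℕ, ∀ m, n₀ ≤ m → v = ∑ n ∈ Finset.range m, (G.i n).f ((G.p n).f v) := by
  obtain ⟨n₀, h⟩ := G.sum v
  have hp : ∀ n, n₀ ≤ n → (G.p n).f v = 0 := by
    intro n hn
    rw [h, map_sum]
    refine Finset.sum_eq_zero (fun j hj => ?_)
    exact G.pi' n j _ (by have := Finset.mem_range.1 hj; omega)
  refine ⟨n₀, fun m hm => ?_⟩
  rw [← Finset.sum_range_add_sum_Ico _ hm]
  have h0 : ∑ n ∈ Finset.Ico n₀ m, (G.i n).f ((G.p n).f v) = 0 :=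
    Finset.sum_eq_zero (fun n hn => by rw [hp n (Finset.mem_Ico.1 hn).1, map_zero])
  rw [h0, add_zero]
  exact h

/-- for all large `m` -/
theorem GrB.sum' {Q : BMod A A} {Y : ℕ → BMod A A} (G : GrB Q Y) (v : Q.N.V) :
    ∃ n₀ : ℕ, ∀ m, n₀ ≤ m → v = ∑ n ∈ Finset.range m, (G.i n).f ((G.p n).f v) :=
  GrSD.sum' (X := Q.N) (Y := fun n => (Y n).N)
    { i := fun n => (G.i n).toHom
      p := fun n => (G.p n).toHom
      pi := G.pi
      pi' := G.pi'
      sum := G.sum } v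

/-- the partial sums of the decomposition -/
def GrB.e {Q : BMod A A} {Y : ℕ → BMod A A} (G : GrB Q Y) (m : ℕ) : Q.N.V →ₗ[k] Q.N.V :=
  ∑ n ∈ Finset.range m, (G.i n).f ∘ₗ (G.p n).f

theorem GrB.e_apply {Q : BMod A A} {Y : ℕ → BMod A A} (G : GrB Q Y) (m : ℕ) (v : Q.N.V) :
    G.e m v = ∑ n ∈ Finset.range m, (G.i n).f ((G.p n).f v) := by
  unfold GrB.e
  rw [LinearMap.sum_apply]
  rfl

theorem GrB.ddR_e {Q : BMod A A} {Y : ℕ → BMod A A} (G : GrB Q Y) (N : BMod A A) (m : ℕ)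
    (v : (DD N Q).V) : ddR N (Q := Q) (Q' := Q) (G.e m) v
      = ∑ n ∈ Finset.range m, (DDmap (BMod.Hom.id N) (G.i n)).f
          ((DDmap (BMod.Hom.id N) (G.p n)).f v) := by
  induction m with
  | zero =>
    rw [Finset.range_zero, Finset.sum_empty]
    have h : G.e 0 = 0 := by
      unfold GrB.e
      rw [Finset.range_zero, Finset.sum_empty]
    rw [h, ddR_zero]
    rfl
  | succ m ih =>
    have h : G.e (m + 1) = G.e m + (G.i m).f ∘ₗ (G.p m).f := by
      unfold GrB.e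
      rw [Finset.sum_range_succ]
    rw [h, ddR_add, Finset.sum_range_succ, LinearMap.add_apply, ih, ddR_comp]
    rfl

theorem GrB.ddR_e_eq {Q : BMod A A} {Y : ℕ → BMod A A} (G : GrB Q Y) (N : BMod A A)
    (v : (DD N Q).V) : ∃ n₀ : ℕ, ∀ m, n₀ ≤ m → ddR N (Q := Q) (Q' := Q) (G.e m) v = v := by
  refine Wd.induction
    (p := fun v => ∃ n₀ : ℕ, ∀ m, n₀ ≤ m → ddR N (Q := Q) (Q' := Q) (G.e m) v = v)
    ?_ ?_ ?_ v
  · rintro a b ⟨m, hm⟩ ⟨n, hn⟩
    refine ⟨max m n, fun j hj => ?_⟩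
    rw [map_add, hm j (le_trans (le_max_left _ _) hj), hn j (le_trans (le_max_right _ _) hj)]
  · intro z
    induction z using TensorProduct.induction_on with
    | zero => exact ⟨0, fun m _ => by rw [map_zero, map_zero]⟩
    | tmul w q =>
      obtain ⟨n₀, h⟩ := G.sum' q
      refine ⟨n₀, fun m hm => ?_⟩
      refine (Wd.mh_nil _ _).trans ?_
      rw [TensorProduct.map_tmul, BM.map_id, G.e_apply, ← h m hm]
    | add a b ha hb =>
      obtain ⟨m, hm⟩ := ha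
      obtain ⟨n, hn⟩ := hb
      refine ⟨max m n, fun j hj => ?_⟩
      rw [map_add, map_add, hm j (le_trans (le_max_left _ _) hj),
        hn j (le_trans (le_max_right _ _) hj)]
  · rintro w ⟨m, hm⟩ r
    refine ⟨m, fun j hj => ?_⟩
    refine (Wd.mh_snoc _ _ _).trans ?_
    exact congrArg (fun x => Wd.snoc x r) (hm j hj)

/-- the functor `D(N, -)`; the last field: the set of `v` with `∃ n₀, ∀ m ≥ n₀, ...` is a submodule, check on
`nil (w ⊗ q)` and `snoc` -/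
def GrB.dd {Q : BMod A A} {Y : ℕ → BMod A A} (G : GrB Q Y) (N : BMod A A) :
    GrSD (DD N Q) (fun n => DD N (Y n)) where
  i n := DDmap (BMod.Hom.id N) (G.i n)
  p n := DDmap (BMod.Hom.id N) (G.p n)
  pi n v := by
    refine (LinearMap.congr_fun (ddR_comp N (Q := Y n) (Q' := Q) (Q'' := Y n) (G.i n).f
      (G.p n).f) v).symm.trans ?_
    have h : (G.p n).f ∘ₗ (G.i n).f = LinearMap.id := LinearMap.ext (G.pi n)
    rw [h, ddR_id]
    rfl
  pi' m n v h := by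
    refine (LinearMap.congr_fun (ddR_comp N (Q := Y n) (Q' := Q) (Q'' := Y m) (G.i n).f
      (G.p m).f) v).symm.trans ?_
    have h' : (G.p m).f ∘ₗ (G.i n).f = 0 := LinearMap.ext (fun w => G.pi' m n w h)
    rw [h', ddR_zero]
    rfl
  sum v := by
    obtain ⟨n₀, h⟩ := G.ddR_e_eq N v
    exact ⟨n₀, ((G.ddR_e N n₀ v).symm.trans (h n₀ le_rfl)).symm⟩

section

variable {X : SD k} {Y : ℕ → SD k} (G : GrSD X Y)

/-- the homogeneous part of the homology -/
def GrSD.gr (n : ℕ) : Submodule k X.Coh := LinearMap.range (SD.Coh.map (G.i n))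

theorem GrSD.map_pi (n : ℕ) (c : (Y n).Coh) :
    SD.Coh.map (G.p n) (SD.Coh.map (G.i n) c) = c := by
  obtain ⟨x, hx, rfl⟩ := SD.Coh.exists_mk c
  rw [SD.Coh.map_mk, SD.Coh.map_mk]
  exact SD.Coh.mk_congr _ _ (G.pi n x)

theorem GrSD.map_pi' (m n : ℕ) (h : m ≠ n) (c : (Y n).Coh) :
    SD.Coh.map (G.p m) (SD.Coh.map (G.i n) c) = 0 := by
  obtain ⟨x, hx, rfl⟩ := SD.Coh.exists_mk c
  rw [SD.Coh.map_mk, SD.Coh.map_mk, ← SD.Coh.mk_zero]
  exact SD.Coh.mk_congr _ _ (G.pi' m n x h)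

theorem GrSD.map_sum (c : X.Coh) : ∃ n₀ : ℕ, c = ∑ n ∈ Finset.range n₀,
    SD.Coh.map (G.i n) (SD.Coh.map (G.p n) c) := by
  obtain ⟨x, hx, rfl⟩ := SD.Coh.exists_mk c
  obtain ⟨n₀, h⟩ := G.sum x
  refine ⟨n₀, ?_⟩
  have key : ∀ m, ∑ n ∈ Finset.range m, SD.Coh.map (G.i n) (SD.Coh.map (G.p n) (SD.Coh.mk x hx))
      = SD.Coh.mk (∑ n ∈ Finset.range m, (G.i n).f ((G.p n).f x)) (by
          rw [_root_.map_sum]
          exact Finset.sum_eq_zero (fun n _ => by rw [← (G.i n).D, ← (G.p n).D, hx, map_zero,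
            map_zero])) := by
    intro m
    induction m with
    | zero => rfl
    | succ m ih =>
      rw [Finset.sum_range_succ, ih, SD.Coh.map_mk, SD.Coh.map_mk, SD.Coh.mk_add]
      exact SD.Coh.mk_congr _ _ (Finset.sum_range_succ _ _).symm
  rw [key]
  exact SD.Coh.mk_congr _ _ h

theorem GrSD.internal : DirectSum.IsInternal G.gr := by
  rw [DirectSum.isInternal_submodule_iff_iSupIndep_and_iSup_eq_top]
  constructor
  · intro n
    rw [Submodule.disjoint_def]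
    rintro _ ⟨y, rfl⟩ hy
    have hle : (⨆ j, ⨆ (_ : j ≠ n), G.gr j) ≤ LinearMap.ker (SD.Coh.map (G.p n)) := by
      refine iSup_le (fun j => iSup_le (fun hj => ?_))
      rintro _ ⟨z, rfl⟩
      exact G.map_pi' n j (Ne.symm hj) z
    have h := hle hy
    rw [LinearMap.mem_ker, G.map_pi] at h
    rw [h, map_zero]
  · rw [eq_top_iff]
    intro c _
    obtain ⟨n₀, h⟩ := G.map_sum c
    rw [h]
    exact Submodule.sum_mem _ (fun n _ => Submodule.mem_iSup_of_mem n ⟨_, rfl⟩)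

theorem GrSD.map_injective (n : ℕ) : Function.Injective (SD.Coh.map (G.i n)) :=
  Function.LeftInverse.injective (g := SD.Coh.map (G.p n)) (G.map_pi n)

theorem GrSD.finrank_range (n : ℕ) :
    Module.finrank k ↥(G.gr n ⊓ LinearMap.range (SD.cohP X))
      = Module.finrank k (LinearMap.range (SD.cohP (Y n))) := by
  have h : G.gr n ⊓ LinearMap.range (SD.cohP X)
      = (LinearMap.range (SD.cohP (Y n))).map (SD.Coh.map (G.i n)) := by
    apply le_antisymm
    · rintro _ ⟨⟨y, rfl⟩, ⟨z, hz⟩⟩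
      refine ⟨y, ⟨SD.Coh.map (G.p n) z, ?_⟩, rfl⟩
      rw [← SD.Coh.map_cohP, hz, G.map_pi]
    · rintro _ ⟨_, ⟨y, rfl⟩, rfl⟩
      exact ⟨⟨_, rfl⟩, ⟨SD.Coh.map (G.i n) y, (SD.Coh.map_cohP _ _).symm⟩⟩
  rw [h]
  exact (Submodule.equivMapOfInjective _ (G.map_injective n) _).finrank_eq.symm

theorem GrSD.finrank_ker (n : ℕ) :
    Module.finrank k ↥(G.gr n ⊓ LinearMap.ker (SD.cohP X))
      = Module.finrank k (LinearMap.ker (SD.cohP (Y n))) := by
  have h : G.gr n ⊓ LinearMap.ker (SD.cohP X)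
      = (LinearMap.ker (SD.cohP (Y n))).map (SD.Coh.map (G.i n)) := by
    apply le_antisymm
    · rintro _ ⟨⟨y, rfl⟩, hz⟩
      refine ⟨y, ?_, rfl⟩
      have hz' : SD.cohP X (SD.Coh.map (G.i n) y) = 0 := hz
      rw [← SD.Coh.map_cohP] at hz'
      exact (G.map_injective n) (hz'.trans (map_zero _).symm)
    · rintro _ ⟨y, hy, rfl⟩
      refine ⟨⟨_, rfl⟩, ?_⟩
      have hy' : SD.cohP (Y n) y = 0 := hy
      change SD.cohP X (SD.Coh.map (G.i n) y) = 0
      rw [← SD.Coh.map_cohP, hy', map_zero]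
  rw [h]
  exact (Submodule.equivMapOfInjective _ (G.map_injective n) _).finrank_eq.symm

end

end H36.NX
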