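import Mathlib
import Pool.Agent.H36.NX.Base

/-!
# HilbF : the algebra lemma behind the Hilbert function statement

MP_eadf0f_ag, example half. If every point of the cubic has degree divisible by 3, then so has every
finite dimensional space with commuting operators which satisfy the equation of the cubic, one of
them being the identity.
-/

set_option autoImplicit false

namespace H36.NX

/-- dimension of a finite dimensional module over a commutative algebra, from its residue fields -/
theorem hilb_algebra {k : Type} [Field k] {A : Type} [CommRing A] [Algebra k A]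
    (hA : ∀ I : Ideal A, I.IsMaximal → FiniteDimensional k (A ⧸ I) →
      3 ∣ Module.finrank k (A ⧸ I)) :
    ∀ (n : ℕ) (V : Type) [AddCommGroup V] [Module k V] [Module A V] [IsScalarTower k A V]
      [FiniteDimensional k V], Module.finrank k V ≤ n → 3 ∣ Module.finrank k V := by
  intro n
  induction n with
  | zero =>
    intro V _ _ _ _ _ h
    rw [Nat.le_zero.mp h]
    exact dvd_zero 3
  | succ n ih =>
    intro V _ _ _ _ _ h
    by_cases hV : Subsingleton V
    · rw [Module.finrank_zero_of_subsingleton]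
      exact dvd_zero 3
    rw [not_subsingleton_iff_nontrivial] at hV
    have : IsNoetherian A V := isNoetherian_of_tower k inferInstance
    obtain ⟨W, hW, -⟩ := (eq_top_or_exists_le_coatom (⊥ : Submodule A V)).resolve_left bot_ne_top
    have hs : IsSimpleModule A (V ⧸ W) := isSimpleModule_iff_isCoatom.mpr hW
    obtain ⟨I, hI, ⟨e⟩⟩ := isSimpleModule_iff_quot_maximal.mp hs
    have e' : (V ⧸ W) ≃ₗ[k] (A ⧸ I) := e.restrictScalars k
    have : FiniteDimensional k (V ⧸ W) :=
      inferInstanceAs (FiniteDimensional k (V ⧸ W.restrictScalars k))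
    have : FiniteDimensional k (A ⧸ I) := Module.Finite.equiv e'
    have h1 : 3 ∣ Module.finrank k (V ⧸ W) := by
      rw [e'.finrank_eq]
      exact hA I hI inferInstance
    have h2 : Module.finrank k (V ⧸ W) + Module.finrank k W = Module.finrank k V := by
      have := Submodule.finrank_quotient_add_finrank (W.restrictScalars k)
      exact this
    have : FiniteDimensional k W :=
      inferInstanceAs (FiniteDimensional k (W.restrictScalars k))
    have h3 : 0 < Module.finrank k (V ⧸ W) := by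
      have : Nontrivial (V ⧸ W) := IsSimpleModule.nontrivial A (V ⧸ W)
      exact Module.finrank_pos
    have h4 : 3 ∣ Module.finrank k W := ih W (by omega)
    rw [← h2]
    exact dvd_add h1 h4

open scoped IsMulCommutative in
/-- commuting operators on a curve all of whose points have degree divisible by 3 -/
theorem hilb_operators {k : Type} [Field k] {t : k} (hI : IndexThree k t)
    {V : Type} [AddCommGroup V] [Module k V] [FiniteDimensional k V]
    (ξ : Fin 3 → Module.End k V) (hc : ∀ i j, ξ i * ξ j = ξ j * ξ i)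
    (σ : Fin 3) (hσ : ξ σ = 1)
    (hrel : ξ 2 ^ 3 = t ^ 2 • (ξ 0 ^ 2 * ξ 2) + t • ξ 1 ^ 3 + t ^ 2 • (ξ 0 * ξ 1 ^ 2)
      + t ^ 2 • ξ 0 ^ 3) :
    3 ∣ Module.finrank k V := by
  have hcomm : ∀ a ∈ Set.range ξ, ∀ b ∈ Set.range ξ, a * b = b * a := by
    rintro _ ⟨i, rfl⟩ _ ⟨j, rfl⟩
    exact hc i j
  have hmc : IsMulCommutative (Algebra.adjoin k (Set.range ξ)) :=
    Algebra.isMulCommutative_adjoin k hcomm
  set A := Algebra.adjoin k (Set.range ξ) with hAdef
  have hmem : ∀ i, ξ i ∈ A := fun i => Algebra.subset_adjoin ⟨i, rfl⟩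
  let a : Fin 3 → A := fun i => ⟨ξ i, hmem i⟩
  have haσ : a σ = 1 := Subtype.ext hσ
  have harel : a 2 ^ 3 = t ^ 2 • (a 0 ^ 2 * a 2) + t • a 1 ^ 3 + t ^ 2 • (a 0 * a 1 ^ 2)
      + t ^ 2 • a 0 ^ 3 := Subtype.ext hrel
  refine hilb_algebra (k := k) (A := A) ?_ (Module.finrank k V) V le_rfl
  intro I hImax hfin
  let _ : Field (A ⧸ I) := Ideal.Quotient.field I
  let q : A →ₐ[k] (A ⧸ I) := Ideal.Quotient.mkₐ k I
  have hq : q (a 2) ^ 3 = algebraMap k (A ⧸ I) (t ^ 2) * q (a 0) ^ 2 * q (a 2)
      + algebraMap k (A ⧸ I) t * q (a 1) ^ 3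
      + algebraMap k (A ⧸ I) (t ^ 2) * q (a 0) * q (a 1) ^ 2
      + algebraMap k (A ⧸ I) (t ^ 2) * q (a 0) ^ 3 := by
    have := congrArg q harel
    simp only [map_add, map_mul, map_pow, Algebra.smul_def, AlgHom.commutes] at this
    rw [this]
    simp only [map_pow]
    ring
  have hne : q (a 0) ≠ 0 ∨ q (a 1) ≠ 0 ∨ q (a 2) ≠ 0 := by
    have h1 : q (a σ) ≠ 0 := by
      rw [haσ, map_one]
      exact one_ne_zero
    fin_cases σ
    · exact Or.inl h1
    · exact Or.inr (Or.inl h1)
    · exact Or.inr (Or.inr h1)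
  exact hI (A ⧸ I) (q (a 0)) (q (a 1)) (q (a 2)) hne hq

/-- division by one of the operators -/
theorem hilb_division {k : Type} [Field k] {t : k} (hI : IndexThree k t)
    {V0 V1 V2 V3 : Type} [AddCommGroup V0] [Module k V0] [FiniteDimensional k V0]
    [AddCommGroup V1] [Module k V1] [AddCommGroup V2] [Module k V2] [AddCommGroup V3] [Module k V3]
    (a0 : Fin 3 → V0 →ₗ[k] V1) (a1 : Fin 3 → V1 →ₗ[k] V2) (a2 : Fin 3 → V2 →ₗ[k] V3)
    (h01 : ∀ i j v, a1 i (a0 j v) = a1 j (a0 i v))
    (h12 : ∀ i j v, a2 i (a1 j v) = a2 j (a1 i v))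
    (hrel : ∀ v, a2 2 (a1 2 (a0 2 v)) = t ^ 2 • a2 0 (a1 0 (a0 2 v)) + t • a2 1 (a1 1 (a0 1 v))
      + t ^ 2 • a2 0 (a1 1 (a0 1 v)) + t ^ 2 • a2 0 (a1 0 (a0 0 v)))
    (σ : Fin 3) (hb : Function.Bijective (a0 σ)) (h1 : Function.Injective (a1 σ))
    (h2 : Function.Injective (a2 σ)) : 3 ∣ Module.finrank k V0 := by
  let e := LinearEquiv.ofBijective (a0 σ) hb
  let ξ : Fin 3 → Module.End k V0 := fun i => (e.symm : V1 →ₗ[k] V0) ∘ₗ a0 i
  have key : ∀ i v, a0 σ (ξ i v) = a0 i v := fun i v => e.apply_symm_apply (a0 i v)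
  have two : ∀ i j v, a1 σ (a0 σ (ξ i (ξ j v))) = a1 i (a0 j v) := by
    intro i j v
    rw [key, h01, key]
  have three : ∀ i j l v, a2 σ (a1 σ (a0 σ (ξ i (ξ j (ξ l v))))) = a2 i (a1 j (a0 l v)) := by
    intro i j l v
    rw [two, h12, h01, key]
  have inj2 : ∀ v w, a1 σ (a0 σ v) = a1 σ (a0 σ w) → v = w := fun v w h => hb.1 (h1 h)
  have inj3 : ∀ v w, a2 σ (a1 σ (a0 σ v)) = a2 σ (a1 σ (a0 σ w)) → v = w :=
    fun v w h => hb.1 (h1 (h2 h))
  refine hilb_operators hI ξ ?_ σ ?_ ?_
  · intro i j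
    refine LinearMap.ext fun v => inj2 _ _ ?_
    simp only [Module.End.mul_apply]
    rw [two, two, h01]
  · refine LinearMap.ext fun v => ?_
    exact e.symm_apply_apply v
  · refine LinearMap.ext fun v => inj3 _ _ ?_
    simp only [pow_succ, pow_zero, one_mul, Module.End.mul_apply, LinearMap.add_apply,
      LinearMap.smul_apply, map_add, map_smul]
    rw [three, three, three, three, three]
    simpa only [pow_succ, pow_zero, one_mul] using hrel v

end H36.NX
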