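import Mathlib
import Pool.Agent.H36.NX.Base
import Pool.Agent.H36.NX.HilbF

/-!
# HilbCyc : Hilbert functions of cyclic modules over the coordinate ring of the cubic

MP_eadf0f_ag, example half. `cyc a m j` is the space of the values at `m` of the forms of degree `j`
in three commuting operators which satisfy the equation of the cubic.
-/

set_option autoImplicit false

namespace H36.NX

section

variable {k : Type} [Field k] {Q : Type} [AddCommGroup Q] [Module k Q]

/-- the pieces of a cyclic module -/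
def cyc (a : Fin 3 → Module.End k Q) (m : Q) : ℕ → Submodule k Q
  | 0 => Submodule.span k {m}
  | j + 1 => (cyc a m j).map (a 0) ⊔ (cyc a m j).map (a 1) ⊔ (cyc a m j).map (a 2)

theorem cyc_zero (a : Fin 3 → Module.End k Q) (m : Q) : cyc a m 0 = Submodule.span k {m} := rfl

theorem cyc_succ (a : Fin 3 → Module.End k Q) (m : Q) (j : ℕ) :
    cyc a m (j + 1) = (cyc a m j).map (a 0) ⊔ (cyc a m j).map (a 1) ⊔ (cyc a m j).map (a 2) := rfl

instance cyc_finite (a : Fin 3 → Module.End k Q) (m : Q) (j : ℕ) :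
    FiniteDimensional k (cyc a m j) := by
  induction j with
  | zero =>
    rw [cyc_zero]
    infer_instance
  | succ j ih =>
    rw [cyc_succ]
    infer_instance

theorem cyc_map_le (a : Fin 3 → Module.End k Q) (m : Q) (j : ℕ) (i : Fin 3) :
    (cyc a m j).map (a i) ≤ cyc a m (j + 1) := by
  rw [cyc_succ]
  fin_cases i
  · exact le_sup_left.trans le_sup_left
  · exact le_sup_right.trans le_sup_left
  · exact le_sup_right

theorem map_comm' {a : Fin 3 → Module.End k Q} (hc : ∀ i j v, a i (a j v) = a j (a i v))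
    (i j : Fin 3) (F : Submodule k Q) : (F.map (a j)).map (a i) = (F.map (a i)).map (a j) := by
  rw [← Submodule.map_comp, ← Submodule.map_comp]
  congr 1
  exact LinearMap.ext fun v => hc i j v

/-- an inequality of dimensions -/
theorem finrank_step (f : Module.End k Q) (A V W : Submodule k Q) [FiniteDimensional k V]
    [FiniteDimensional k W] (hAV : A ≤ V) (hAW : A.map f ≤ W) :
    Module.finrank k (W ⊔ V.map f : Submodule k Q) + Module.finrank k A
      ≤ Module.finrank k W + Module.finrank k V := by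
  let g : (W × V) →ₗ[k] Q := W.subtype.coprod (f ∘ₗ V.subtype)
  have hr : LinearMap.range g = W ⊔ V.map f := by
    rw [LinearMap.range_coprod, Submodule.range_subtype, LinearMap.range_comp,
      Submodule.range_subtype]
  let h : A →ₗ[k] (W × V) :=
    LinearMap.prod (-(f.restrict (p := A) (q := W) fun x hx => hAW ⟨x, hx, rfl⟩))
      (Submodule.inclusion hAV)
  have hh : ∀ x, h x ∈ LinearMap.ker g := by
    intro x
    rw [LinearMap.mem_ker]
    simp [g, h]
  have hinj : Function.Injective (h.codRestrict (LinearMap.ker g) hh) := by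
    intro x y hxy
    have h1 : h x = h y := congrArg Subtype.val hxy
    have h2 : (Submodule.inclusion hAV x) = (Submodule.inclusion hAV y) := congrArg Prod.snd h1
    exact Submodule.inclusion_injective hAV h2
  have h3 := LinearMap.finrank_le_finrank_of_injective hinj
  have h4 := LinearMap.finrank_range_add_finrank_ker g
  rw [hr, Module.finrank_prod] at h4
  omega

/-- a sequence of natural numbers which does not increase is eventually constant -/
theorem eventually_const (d : ℕ → ℕ) (hd : ∀ j, d (j + 1) ≤ d j) :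
    ∃ J, ∀ j, J ≤ j → d j = d J := by
  have hanti : ∀ i j, i ≤ j → d j ≤ d i := by
    intro i j hij
    induction j, hij using Nat.le_induction with
    | base => exact le_rfl
    | succ j _ ih => exact (hd j).trans ih
  obtain ⟨_, ⟨J, rfl⟩, hJ⟩ : ∃ x ∈ Set.range d, ∀ y ∈ Set.range d, x ≤ y := by
    refine ⟨sInf (Set.range d), Nat.sInf_mem ⟨d 0, 0, rfl⟩, fun y hy => Nat.sInf_le hy⟩
  exact ⟨J, fun j hj => le_antisymm (hanti J j hj) (hJ _ ⟨j, rfl⟩)⟩

/-- subquotients on which one of the operators is bijective -/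
theorem sub_div {t : k} (hI : IndexThree k t) {a : Fin 3 → Module.End k Q}
    (hc : ∀ i j v, a i (a j v) = a j (a i v))
    (hrel : ∀ v, a 2 (a 2 (a 2 v)) = t ^ 2 • a 0 (a 0 (a 2 v)) + t • a 1 (a 1 (a 1 v))
      + t ^ 2 • a 0 (a 1 (a 1 v)) + t ^ 2 • a 0 (a 0 (a 0 v)))
    (F G : ℕ → Submodule k Q) [hfin : ∀ j, FiniteDimensional k (F j)] (hGF : ∀ j, G j ≤ F j)
    (hF : ∀ i j, (F j).map (a i) ≤ F (j + 1)) (hG : ∀ i j, (G j).map (a i) ≤ G (j + 1))
    (σ : Fin 3) (hs : ∀ j, F (j + 1) ≤ (F j).map (a σ) ⊔ G (j + 1)) (r : ℕ)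
    (hr : ∀ j, Module.finrank k (F j) = Module.finrank k (G j) + r) : 3 ∣ r := by
  let V : ℕ → Type := fun j => F j ⧸ (G j).submoduleOf (F j)
  let A : ∀ j, Fin 3 → ((F j ⧸ (G j).submoduleOf (F j)) →ₗ[k]
      (F (j + 1) ⧸ (G (j + 1)).submoduleOf (F (j + 1)))) := fun j i =>
    Submodule.mapQ _ _ ((a i).restrict (p := F j) (q := F (j + 1))
      fun x hx => hF i j ⟨x, hx, rfl⟩) (fun x hx => hG i j ⟨x, hx, rfl⟩)
  have hAmk : ∀ j i (x : F j), A j i (Submodule.Quotient.mk x) = Submodule.Quotient.mk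
      (⟨a i x, hF i j ⟨x, x.2, rfl⟩⟩ : F (j + 1)) := fun j i x => rfl
  have hrank : ∀ j, Module.finrank k (F j ⧸ (G j).submoduleOf (F j)) = r := by
    intro j
    have h1 := Submodule.finrank_quotient_add_finrank ((G j).submoduleOf (F j))
    have h2 : Module.finrank k ((G j).submoduleOf (F j)) = Module.finrank k (G j) :=
      (Submodule.submoduleOfEquivOfLe (hGF j)).finrank_eq
    have h3 := hr j
    omega
  have hsurj : ∀ j, Function.Surjective (A j σ) := by
    intro j y
    obtain ⟨y, rfl⟩ := Submodule.Quotient.mk_surjective _ y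
    obtain ⟨_, ⟨x, hx, rfl⟩, g, hg, hxy⟩ := Submodule.mem_sup.mp (hs j y.2)
    refine ⟨Submodule.Quotient.mk ⟨x, hx⟩, ?_⟩
    rw [hAmk, Submodule.Quotient.eq]
    change (a σ x - (y : Q)) ∈ G (j + 1)
    rw [← hxy, sub_add_cancel_left]
    exact (G (j + 1)).neg_mem hg
  have hinj : ∀ j, Function.Injective (A j σ) := fun j =>
    (LinearMap.injective_iff_surjective_of_finrank_eq_finrank
      ((hrank j).trans (hrank (j + 1)).symm)).mpr (hsurj j)
  have hcA : ∀ j i l v, A (j + 1) i (A j l v) = A (j + 1) l (A j i v) := by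
    intro j i l v
    obtain ⟨v, rfl⟩ := Submodule.Quotient.mk_surjective _ v
    rw [hAmk, hAmk, hAmk, hAmk]
    exact congrArg _ (Subtype.ext (hc i l v))
  rw [← hrank 0]
  refine hilb_division hI (A 0) (A 1) (A 2) (hcA 0) (hcA 1) ?_ σ ⟨hinj 0, hsurj 0⟩ (hinj 1) (hinj 2)
  intro v
  obtain ⟨v, rfl⟩ := Submodule.Quotient.mk_surjective _ v
  simp only [hAmk]
  rw [← Submodule.Quotient.mk_smul, ← Submodule.Quotient.mk_smul, ← Submodule.Quotient.mk_smul,
    ← Submodule.Quotient.mk_smul, ← Submodule.Quotient.mk_add, ← Submodule.Quotient.mk_add,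
    ← Submodule.Quotient.mk_add]
  exact congrArg _ (Subtype.ext (hrel v))

/-- in degree at least 2 the third operator is not needed -/
theorem cyc_z {t : k} {a : Fin 3 → Module.End k Q}
    (hc : ∀ i j v, a i (a j v) = a j (a i v))
    (hrel : ∀ v, a 2 (a 2 (a 2 v)) = t ^ 2 • a 0 (a 0 (a 2 v)) + t • a 1 (a 1 (a 1 v))
      + t ^ 2 • a 0 (a 1 (a 1 v)) + t ^ 2 • a 0 (a 0 (a 0 v))) (m : Q) (j : ℕ) :
    (cyc a m (j + 2)).map (a 2) ≤ (cyc a m (j + 2)).map (a 0) ⊔ (cyc a m (j + 2)).map (a 1) := by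
  have hx : ∀ j i, ((cyc a m j).map (a i)).map (a 0) ≤ (cyc a m (j + 1)).map (a 0) := fun j i =>
    Submodule.map_mono (cyc_map_le a m j i)
  have hy : ∀ j i, ((cyc a m j).map (a i)).map (a 1) ≤ (cyc a m (j + 1)).map (a 1) := fun j i =>
    Submodule.map_mono (cyc_map_le a m j i)
  induction j with
  | zero =>
    rw [show (0 + 2) = 1 + 1 from rfl]
    nth_rewrite 1 [cyc_succ a m 1]
    rw [Submodule.map_sup, Submodule.map_sup]
    refine sup_le (sup_le ?_ ?_) ?_
    · rw [map_comm' hc 2 0]
      exact (hx 1 2).trans le_sup_left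
    · rw [map_comm' hc 2 1]
      exact (hy 1 2).trans le_sup_right
    · rw [show (1 : ℕ) = 0 + 1 from rfl]
      nth_rewrite 1 [cyc_succ a m 0]
      rw [Submodule.map_sup, Submodule.map_sup, Submodule.map_sup, Submodule.map_sup]
      refine sup_le (sup_le ?_ ?_) ?_
      · rw [map_comm' hc 2 0, map_comm' hc 2 0]
        refine le_trans ?_ le_sup_left
        exact Submodule.map_mono ((Submodule.map_mono (cyc_map_le a m 0 2)).trans
          (cyc_map_le a m (0 + 1) 2))
      · rw [map_comm' hc 2 1, map_comm' hc 2 1]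
        refine le_trans ?_ le_sup_right
        exact Submodule.map_mono ((Submodule.map_mono (cyc_map_le a m 0 2)).trans
          (cyc_map_le a m (0 + 1) 2))
      · rintro _ ⟨_, ⟨_, ⟨v, hv, rfl⟩, rfl⟩, rfl⟩
        have h2 : ∀ i l, a i (a l v) ∈ cyc a m (0 + 1 + 1) := fun i l =>
          cyc_map_le a m (0 + 1) i ⟨_, cyc_map_le a m 0 l ⟨v, hv, rfl⟩, rfl⟩
        rw [hrel v]
        refine Submodule.add_mem _ (Submodule.add_mem _ (Submodule.add_mem _ ?_ ?_) ?_) ?_
        · exact Submodule.mem_sup_left (Submodule.smul_mem _ _ ⟨_, h2 0 2, rfl⟩)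
        · exact Submodule.mem_sup_right (Submodule.smul_mem _ _ ⟨_, h2 1 1, rfl⟩)
        · exact Submodule.mem_sup_left (Submodule.smul_mem _ _ ⟨_, h2 1 1, rfl⟩)
        · exact Submodule.mem_sup_left (Submodule.smul_mem _ _ ⟨_, h2 0 0, rfl⟩)
  | succ j ih =>
    rw [show j + 1 + 2 = (j + 2) + 1 from rfl]
    nth_rewrite 1 [cyc_succ a m (j + 2)]
    rw [Submodule.map_sup, Submodule.map_sup]
    refine sup_le (sup_le ?_ ?_) ?_
    · rw [map_comm' hc 2 0]
      exact (hx (j + 2) 2).trans le_sup_left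
    · rw [map_comm' hc 2 1]
      exact (hy (j + 2) 2).trans le_sup_right
    · refine (Submodule.map_mono ih).trans ?_
      rw [Submodule.map_sup, map_comm' hc 2 0, map_comm' hc 2 1]
      exact sup_le_sup (hx (j + 2) 2) (hy (j + 2) 2)

theorem cyc_top {t : k} {a : Fin 3 → Module.End k Q}
    (hc : ∀ i j v, a i (a j v) = a j (a i v))
    (hrel : ∀ v, a 2 (a 2 (a 2 v)) = t ^ 2 • a 0 (a 0 (a 2 v)) + t • a 1 (a 1 (a 1 v))
      + t ^ 2 • a 0 (a 1 (a 1 v)) + t ^ 2 • a 0 (a 0 (a 0 v))) (m : Q) (j : ℕ) :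
    cyc a m (j + 3) = (cyc a m (j + 2)).map (a 0) ⊔ (cyc a m (j + 2)).map (a 1) := by
  rw [show j + 3 = (j + 2) + 1 from rfl, cyc_succ a m (j + 2)]
  exact le_antisymm (sup_le le_rfl (cyc_z hc hrel m j)) le_sup_left

/-- the first operator kills the generator -/
theorem cyc_A {t : k} (hI : IndexThree k t) {a : Fin 3 → Module.End k Q}
    (hc : ∀ i j v, a i (a j v) = a j (a i v))
    (hrel : ∀ v, a 2 (a 2 (a 2 v)) = t ^ 2 • a 0 (a 0 (a 2 v)) + t • a 1 (a 1 (a 1 v))
      + t ^ 2 • a 0 (a 1 (a 1 v)) + t ^ 2 • a 0 (a 0 (a 0 v))) (m : Q) (h0 : a 0 m = 0) :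
    ∃ J, ∀ j, J ≤ j → 3 ∣ Module.finrank k (cyc a m j) := by
  have hz : ∀ j, (cyc a m j).map (a 0) = ⊥ := by
    intro j
    induction j with
    | zero =>
      rw [cyc_zero, Submodule.map_span, Set.image_singleton, h0, Submodule.span_singleton_eq_bot]
    | succ j ih =>
      rw [cyc_succ, Submodule.map_sup, Submodule.map_sup, map_comm' hc 0 1, map_comm' hc 0 2, ih,
        Submodule.map_bot, Submodule.map_bot, Submodule.map_bot]
      simp
  have hy : ∀ j, cyc a m (j + 3) = (cyc a m (j + 2)).map (a 1) := by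
    intro j
    rw [cyc_top hc hrel, hz, bot_sup_eq]
  obtain ⟨J, hJ⟩ := eventually_const (fun j => Module.finrank k (cyc a m (j + 2))) (by
    intro j
    change Module.finrank k (cyc a m (j + 3)) ≤ _
    rw [hy j]
    exact Submodule.finrank_map_le _ _)
  refine ⟨J + 2, fun j hj => ?_⟩
  obtain ⟨i, rfl⟩ : ∃ i, j = J + i + 2 := ⟨j - J - 2, by omega⟩
  refine sub_div hI hc hrel (fun l => cyc a m (J + i + l + 2)) (fun _ => ⊥) (fun _ => bot_le)
    (fun b l => cyc_map_le a m (J + i + l + 2) b) (fun b l => by rw [Submodule.map_bot]) 1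
    (fun l => ?_) _ (fun l => ?_)
  · change cyc a m (J + i + l + 3) ≤ _
    rw [hy]
    exact le_sup_left
  · rw [finrank_bot, zero_add]
    exact (hJ (J + i + l) (by omega)).trans (hJ (J + i) (by omega)).symm

/-- the first operator is injective on the cyclic module -/
theorem cyc_B {t : k} (hI : IndexThree k t) {a : Fin 3 → Module.End k Q}
    (hc : ∀ i j v, a i (a j v) = a j (a i v))
    (hrel : ∀ v, a 2 (a 2 (a 2 v)) = t ^ 2 • a 0 (a 0 (a 2 v)) + t • a 1 (a 1 (a 1 v))
      + t ^ 2 • a 0 (a 1 (a 1 v)) + t ^ 2 • a 0 (a 0 (a 0 v))) (m : Q)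
    (hx : ∀ j, ∀ v ∈ cyc a m j, a 0 v = 0 → v = 0) :
    ∃ J, ∀ j, J ≤ j → 3 ∣ Module.finrank k (cyc a m j) := by
  by_cases hm : m = 0
  · have hz : ∀ j, cyc a m j = ⊥ := by
      intro j
      induction j with
      | zero => rw [cyc_zero, hm, Submodule.span_singleton_eq_bot]
      | succ j ih => rw [cyc_succ, ih]; simp
    refine ⟨0, fun j _ => ?_⟩
    rw [hz, finrank_bot]
    exact dvd_zero 3
  set e : ℕ → ℕ := fun j => Module.finrank k (cyc a m j) with he
  have hxr : ∀ j, Module.finrank k ((cyc a m j).map (a 0)) = e j := by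
    intro j
    rw [← LinearMap.range_domRestrict]
    refine LinearMap.finrank_range_of_inj ?_
    rw [injective_iff_map_eq_zero]
    intro v hv
    exact Subtype.ext (hx j v v.2 hv)
  have hmono : ∀ j, e j ≤ e (j + 1) := by
    intro j
    rw [← hxr j]
    exact Submodule.finrank_mono (cyc_map_le a m j 0)
  have hconc : ∀ j, e (j + 3) + e (j + 1) ≤ e (j + 2) + e (j + 2) := by
    intro j
    have h1 := finrank_step (a 1) ((cyc a m (j + 1)).map (a 0)) (cyc a m (j + 2))
      ((cyc a m (j + 2)).map (a 0)) (cyc_map_le a m (j + 1) 0)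
      (by rw [map_comm' hc 1 0]; exact Submodule.map_mono (cyc_map_le a m (j + 1) 1))
    rw [← cyc_top hc hrel m j, hxr, hxr] at h1
    exact h1
  have he0 : e 0 = 1 := by
    change Module.finrank k (cyc a m 0) = 1
    rw [cyc_zero]
    exact finrank_span_singleton hm
  -- degree one and two
  obtain ⟨p, hp⟩ : ∃ p, p = Module.finrank k
    ((cyc a m 0).map (a 0) ⊔ (cyc a m 0).map (a 1) : Submodule k Q) := ⟨_, rfl⟩
  have hp1 : 1 ≤ p := by
    rw [hp, ← he0, ← hxr 0]
    exact Submodule.finrank_mono le_sup_left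
  have hp2 : p ≤ 2 := by
    have h1 := Submodule.finrank_add_le_finrank_add_finrank ((cyc a m 0).map (a 0))
      ((cyc a m 0).map (a 1))
    have h2 := Submodule.finrank_map_le (a 1) (cyc a m 0)
    rw [hxr 0] at h1
    have h3 : Module.finrank k (cyc a m 0) = 1 := he0
    omega
  have he1 : e 1 ≤ p + 1 := by
    have h1 := Submodule.finrank_add_le_finrank_add_finrank
      ((cyc a m 0).map (a 0) ⊔ (cyc a m 0).map (a 1)) ((cyc a m 0).map (a 2))
    have h2 := Submodule.finrank_map_le (a 2) (cyc a m 0)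
    have h3 : Module.finrank k (cyc a m 0) = 1 := he0
    rw [← cyc_succ a m 0, ← hp] at h1
    change Module.finrank k (cyc a m (0 + 1)) ≤ p + 1
    omega
  have he2 : e 2 + 1 + p ≤ e 1 + e 1 + e 1 := by
    have h1 := finrank_step (a 1) ((cyc a m 0).map (a 0)) (cyc a m 1)
      ((cyc a m 1).map (a 0)) (cyc_map_le a m 0 0)
      (by rw [map_comm' hc 1 0]; exact Submodule.map_mono (cyc_map_le a m 0 1))
    have h2 := finrank_step (a 2) ((cyc a m 0).map (a 0) ⊔ (cyc a m 0).map (a 1)) (cyc a m 1)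
      ((cyc a m 1).map (a 0) ⊔ (cyc a m 1).map (a 1))
      (sup_le (cyc_map_le a m 0 0) (cyc_map_le a m 0 1))
      (by
        rw [Submodule.map_sup, map_comm' hc 2 0, map_comm' hc 2 1]
        exact sup_le_sup (Submodule.map_mono (cyc_map_le a m 0 2))
          (Submodule.map_mono (cyc_map_le a m 0 2)))
    rw [← cyc_succ a m 1, ← hp] at h2
    rw [hxr, hxr, he0] at h1
    change Module.finrank k (cyc a m (1 + 1)) + 1 + p ≤ _
    have h3 : e 1 = Module.finrank k (cyc a m 1) := rfl
    omega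
  obtain ⟨J, hJ⟩ := eventually_const (fun j => e (j + 2) - e (j + 1)) (by
    intro j
    have h1 := hconc j
    have h2 := hmono (j + 1)
    change e (j + 3) - e (j + 2) ≤ e (j + 2) - e (j + 1)
    change e (j + 1) ≤ e (j + 2) at h2
    omega)
  obtain ⟨r, hr⟩ : ∃ r, r = e (J + 2) - e (J + 1) := ⟨_, rfl⟩
  have hrj : ∀ j, J ≤ j → e (j + 2) = e (j + 1) + r := by
    intro j hj
    have h1 := hJ j hj
    have h2 := hmono (j + 1)
    change e (j + 2) - e (j + 1) = e (J + 2) - e (J + 1) at h1
    change e (j + 1) ≤ e (j + 2) at h2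
    omega
  have h3r : 3 ∣ r := by
    refine sub_div hI hc hrel (fun l => cyc a m (J + l + 2))
      (fun l => (cyc a m (J + l + 1)).map (a 0)) (fun l => cyc_map_le a m (J + l + 1) 0)
      (fun b l => cyc_map_le a m (J + l + 2) b)
      (fun b l => by
        rw [map_comm' hc b 0]
        exact Submodule.map_mono (cyc_map_le a m (J + l + 1) b)) 1 (fun l => ?_) _ (fun l => ?_)
    · change cyc a m (J + l + 3) ≤ (cyc a m (J + l + 2)).map (a 1)
        ⊔ (cyc a m (J + l + 2)).map (a 0)
      rw [cyc_top hc hrel, sup_comm]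
    · rw [hxr]
      exact hrj (J + l) (by omega)
  have hle : ∀ j, e (j + 2) ≤ e (j + 1) + (e 2 - e 1) := by
    intro j
    induction j with
    | zero =>
      have := hmono 1
      change e 2 ≤ e 1 + (e 2 - e 1)
      omega
    | succ j ih =>
      have h1 := hconc j
      change e (j + 3) ≤ e (j + 2) + (e 2 - e 1)
      omega
  have hr3 : r ≤ 3 := by
    have h1 := hle J
    have h2 := hrj J le_rfl
    omega
  have hr03 : r = 0 ∨ r = 3 := by omega
  rcases hr03 with hr0 | hr0
  · refine ⟨J + 1, fun j hj => ?_⟩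
    have hej : ∀ l, e (j + l) = e j := by
      intro l
      induction l with
      | zero => rfl
      | succ l ih =>
        have h1 := hrj (j + l - 1) (by omega)
        rw [show j + l - 1 + 2 = j + (l + 1) by omega, show j + l - 1 + 1 = j + l by omega] at h1
        omega
    refine sub_div hI hc hrel (fun l => cyc a m (j + l)) (fun _ => ⊥) (fun _ => bot_le)
      (fun b l => cyc_map_le a m (j + l) b) (fun b l => by rw [Submodule.map_bot]) 0
      (fun l => ?_) _ (fun l => ?_)
    · rw [sup_bot_eq]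
      refine le_of_eq (Submodule.eq_of_le_of_finrank_eq (cyc_map_le a m (j + l) 0) ?_).symm
      rw [hxr]
      exact (hej l).trans (hej (l + 1)).symm
    · rw [finrank_bot, zero_add]
      exact hej l
  · refine ⟨1, fun j hj => ?_⟩
    have hanti : ∀ l i, e (l + i + 2) + e (l + 1) ≤ e (l + i + 1) + e (l + 2) := by
      intro l i
      induction i with
      | zero => exact (add_comm _ _).le
      | succ i ih =>
        have h1 := hconc (l + i)
        change e (l + i + 3) + e (l + 1) ≤ e (l + i + 2) + e (l + 2)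
        omega
    have hstep : ∀ l, e (l + 2) = e (l + 1) + 3 := by
      intro l
      have h1 := hanti l J
      have h2 := hrj (l + J) (by omega)
      have h3 := hle l
      omega
    have hall : ∀ l, e (l + 1) = 3 * (l + 1) := by
      intro l
      induction l with
      | zero =>
        have h1 := hstep 0
        simp only [zero_add] at h1 ⊢
        omega
      | succ l ih =>
        have h1 := hstep l
        change e (l + 2) = _
        omega
    obtain ⟨l, rfl⟩ : ∃ l, j = l + 1 := ⟨j - 1, by omega⟩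
    exact ⟨l + 1, hall l⟩

end

end H36.NX
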