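import Pool.Agent.H36.NX.HomsS
import Pool.Agent.H36.NX.TensHom
import Pool.Agent.H36.NX.Coker

/-!
# Homs : the bimodule maps between `K m n`, `V n`, `U m`, and their short exact sequences
-/

set_option autoImplicit false

open NC
open scoped TensorProduct

namespace H36.NX

variable {k : Type} [Field k] {t : k} {R : Type} [CommRing R] [Algebra k R]
  {K : Type} [Field K] [Algebra k K] {I J : Type}

/-- `x ⊗ 1 : K m n → K (m+1) n` -/
noncomputable def kxL (C : CubicRing k t R) (m n : ℤ) : BMod.Hom (Kb C m n) (Kb C (m + 1) n) where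
  toHom := (qInH C (lc_le' m)).tens (SD.Hom.id (Pr C n))
  isHom := isHom_tens _ _ (qInH_left C (lc_le' m)) (fun _ _ => rfl)

/-- `1 ⊗ x : K m n → K m (n+1)` -/
noncomputable def kxR (C : CubicRing k t R) (m n : ℤ) : BMod.Hom (Kb C m n) (Kb C m (n + 1)) where
  toHom := (SD.Hom.id (Lc C m)).tens (qInH C (pr_le' n))
  isHom := isHom_tens _ _ (fun _ _ => rfl) (qInH_right C (pr_le' n))

/-- value on the left factor, `K m n → V n` -/
noncomputable def kvL (C : CubicRing k t R) (E : CubeRoot k t K) (m n : ℤ) :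
    BMod.Hom (Kb C m n) (Vb C E n) where
  toHom := (valH C E wt (fun _ : Unit => m)).tens (SD.Hom.id (Pr C n))
  isHom := isHom_tens _ _ (valH_left C E _) (fun _ _ => rfl)

/-- the bimodule `U m = L m ⊗ K^2` -/
noncomputable def Ub (C : CubicRing k t R) (E : CubeRoot k t K) (m : ℤ) : BMod (AA C) (AA C) where
  N := (Lc C m).tens (kSD k K Unit (Fin 2))
  b := Bi.tensLR (qLA C (fun _ : Unit => m)) (kRA C E Unit)
  one_l := fun v => by
    refine tens_ext (f := ((qLA C (fun _ : Unit => m)).tensL (kSD k K Unit (Fin 2))).act 1)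
      (g := LinearMap.id) (fun x y => ?_) v
    rw [LA.tensL_act, qLA_one]
    rfl
  r_one := fun v => by
    refine tens_ext (f := ((kRA C E Unit).tensR (Lc C m)).act.flip 1)
      (g := LinearMap.id) (fun x y => ?_) v
    change ((kRA C E Unit).tensR (Lc C m)).act (x ⊗ₜ[k] y) 1 = _
    rw [RA.tensR_act]
    change x ⊗ₜ[k] kMul k K Unit (Fin 2) (Fin 2) y (aVal C E 1) = x ⊗ₜ[k] y
    rw [kMul_one_aVal]

/-- value on the right factor, `K m n → U m` -/
noncomputable def kvR (C : CubicRing k t R) (E : CubeRoot k t K) (m n : ℤ) :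
    BMod.Hom (Kb C m n) (Ub C E m) where
  toHom := (SD.Hom.id (Lc C m)).tens (valH C E (fun _ : Unit => (0 : ℤ)) (wtn n))
  isHom := isHom_tens _ _ (fun _ _ => rfl) (valH_right C E _ n)

theorem ses_kL (C : CubicRing k t R) (E : CubeRoot k t K) (m n : ℤ) :
    SD.SES (kxL C m n).toHom (kvL C E (m + 1) n).toHom :=
  ses_tensR (ses_L C E m) (Pr C n)

theorem ses_kR (C : CubicRing k t R) (E : CubeRoot k t K) (m n : ℤ) :
    SD.SES (kxR C m n).toHom (kvR C E m (n + 1)).toHom :=
  ses_tensL (ses_P C E n) (Lc C m)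

end H36.NX
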