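import Pool.Agent.H36.NX.PtSplit

/-!
# PtSplitB : the section `sK` of `pK`, modulo the image of `ellMap` (step S3)
-/

set_option autoImplicit false

open NC
open scoped TensorProduct

namespace H36.NX

variable {k : Type} [Field k] {t : k} {R : Type} [CommRing R] [Algebra k R]
  {K : Type} [Field K] [Algebra k K]

/-- the Čech row with the only nonzero entry `r`, at `(Y, j)` -/
def rowM (R : Type) [CommRing R] (j : Fin 2) (r : R) : Pc → Matrix Unit (Fin 2) R
  | Pc.X => 0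
  | Pc.Y => Matrix.single () j r
  | Pc.R => 0

theorem rowM_mem (C : CubicRing k t R) (n : ℤ) (j : Fin 2) (r : R) (hr : r ∈ C.Y (wtn n j)) :
    rowM R j r ∈ QQ C (fun _ : Unit => (0 : ℤ)) (wtn n) := by
  intro s i j'
  rw [sub_zero]
  cases s with
  | X => exact C.X.zero_mem
  | Y =>
    change Matrix.single () j r i j' ∈ C.Y (wtn n j')
    rw [Matrix.single_apply]
    split
    · next h => rw [← h.2]; exact hr
    · exact Submodule.zero_mem _
  | R => exact Submodule.mem_top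

/-- the row with the only nonzero entry `u^(j + n - e)`, at `(Y, j)` -/
noncomputable def rowU (C : CubicRing k t R) (n : ℤ) (e : ℕ) (j : Fin 2) : (Pr C n).V :=
  qmk C (fun _ : Unit => (0 : ℤ)) (wtn n) (rowM R j ((C.u ^ (wtn n j - (e : ℤ)) : Rˣ) : R))
    (rowM_mem C n j _ (C.upow_mem_Y (by omega)))

/-- the column `j` of a matrix -/
def colK (k K : Type) [Field k] [Field K] [Algebra k K] (j : Fin 2) :
    Matrix (Fin 2) (Fin 2) K →ₗ[k] Matrix (Fin 2) Unit K where
  toFun c := fun i _ => c i j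
  map_add' _ _ := rfl
  map_smul' _ _ := rfl

/-- the section: `c ↦ ∑ j, c_j ⊗ u^(j+n) + α c_j ⊗ u^(j+n-1) + c_j ⊗ u^(j+n-2)`, that is `(c ⊗ u^(j+n)) eps` -/
noncomputable def sK (C : CubicRing k t R) (E : CubeRoot k t K) (n : ℤ) :
    Matrix (Fin 2) (Fin 2) K →ₗ[k] VV C K n :=
  ∑ j : Fin 2,
    (((TensorProduct.mk k (Matrix (Fin 2) Unit K) (Pr C n).V).flip (rowU C n 0 j)).comp (colK k K j)
    + ((TensorProduct.mk k (Matrix (Fin 2) Unit K) (Pr C n).V).flip (rowU C n 1 j)).comp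
        ((alMap E).comp (colK k K j))
    + ((TensorProduct.mk k (Matrix (Fin 2) Unit K) (Pr C n).V).flip (rowU C n 2 j)).comp (colK k K j))

private theorem PB_tmul (C : CubicRing k t R) (n : ℤ) (c : Matrix (Fin 2) Unit K)
    (f : (Pr C n).V) (i : Fin 2) (s : Pc) (j : Fin 2) :
    vcomp C K n i s j (c ⊗ₜ[k] f) = c i () ⊗ₜ[k] rEnt C n s j f := rfl

private theorem PB_rEnt (C : CubicRing k t R) (n : ℤ) (e : ℕ) (j : Fin 2) (s : Pc) (j' : Fin 2) :
    rEnt C n s j' (rowU C n e j)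
      = rowM R j ((C.u ^ (wtn n j - (e : ℤ)) : Rˣ) : R) s () j' := rfl

private theorem PB_rowM_Y (j : Fin 2) (r : R) (j' : Fin 2) :
    rowM R j r Pc.Y () j' = if j = j' then r else 0 := by
  change Matrix.single () j r () j' = _
  rw [Matrix.single_apply]
  simp

private theorem PB_sK (C : CubicRing k t R) (E : CubeRoot k t K) (n : ℤ)
    (c : Matrix (Fin 2) (Fin 2) K) :
    sK C E n c = ∑ j : Fin 2, (colK k K j c ⊗ₜ[k] rowU C n 0 j
      + (E.α • colK k K j c) ⊗ₜ[k] rowU C n 1 j + colK k K j c ⊗ₜ[k] rowU C n 2 j) := by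
  unfold sK
  rw [LinearMap.sum_apply]
  rfl

private theorem PB_eps (C : CubicRing k t R) (E : CubeRoot k t K) :
    C.eps E = (1 : K) ⊗ₜ[k] (1 : R) + E.α ⊗ₜ[k] ((C.u ^ (-1 : ℤ) : Rˣ) : R)
      + (1 : K) ⊗ₜ[k] ((C.u ^ (-2 : ℤ) : Rˣ) : R) := by
  unfold CubicRing.eps CubicRing.quad
  have e1 : ((C.u ^ (-2 : ℤ) : Rˣ) : R) * (C.u : R) ^ 2 = 1 := by
    rw [← Units.val_pow_eq_pow_val, ← Units.val_mul, ← zpow_natCast, ← zpow_add]
    norm_num
  have e2 : ((C.u ^ (-2 : ℤ) : Rˣ) : R) * (C.u : R) = ((C.u ^ (-1 : ℤ) : Rˣ) : R) := by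
    rw [← Units.val_mul]
    congr 1
    rw [← zpow_add_one]
    norm_num
  have e3 : (1 : K) ⊗ₜ[k] (C.u : R) ^ 2 = (1 : K) ⊗ₜ[k] ((C.u : R) ^ 2) := by
    rw [Algebra.TensorProduct.tmul_pow, one_pow]
  rw [e3, mul_add, mul_add, Algebra.TensorProduct.tmul_mul_tmul, Algebra.TensorProduct.tmul_mul_tmul,
    Algebra.TensorProduct.tmul_mul_tmul, one_mul, one_mul, mul_one, e1, e2]

private theorem PB_VY (C : CubicRing k t R) {n : ℤ} (c : K) {r : R} (hr : r ∈ C.Y n) :
    c ⊗ₜ[k] r ∈ C.VY K n := ⟨c ⊗ₜ[k] (⟨r, hr⟩ : C.Y n), rfl⟩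

private theorem PB_vlead (C : CubicRing k t R) (E : CubeRoot k t K) (n : ℤ) (c : K) (r : R) :
    C.vlead E n (c ⊗ₜ[k] r) = c * C.lead E n r := rfl

theorem vcomp_sK (C : CubicRing k t R) (E : CubeRoot k t K) (n : ℤ)
    (c : Matrix (Fin 2) (Fin 2) K) (i j : Fin 2) :
    vcomp C K n i Pc.Y j (sK C E n c) = (c i j ⊗ₜ[k] ((C.u ^ wtn n j : Rˣ) : R)) * C.eps E := by
  rw [PB_sK, map_sum, Finset.sum_eq_single j]
  · rw [map_add, map_add, PB_tmul, PB_tmul, PB_tmul, PB_rEnt, PB_rEnt, PB_rEnt, PB_rowM_Y,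
      PB_rowM_Y, PB_rowM_Y, if_pos rfl, if_pos rfl, if_pos rfl, PB_eps, mul_add, mul_add,
      Algebra.TensorProduct.tmul_mul_tmul, Algebra.TensorProduct.tmul_mul_tmul,
      Algebra.TensorProduct.tmul_mul_tmul, mul_one, mul_one, ← Units.val_mul, ← Units.val_mul,
      ← zpow_add, ← zpow_add]
    have h0 : wtn n j - ((0 : ℕ) : ℤ) = wtn n j := by simp
    have h1 : wtn n j - ((1 : ℕ) : ℤ) = wtn n j + -1 := by push_cast; ring
    have h2 : wtn n j - ((2 : ℕ) : ℤ) = wtn n j + -2 := by push_cast; ring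
    have h3 : (E.α • colK k K j c) i () = c i j * E.α := mul_comm _ _
    rw [h0, h1, h2, h3]
    rfl
  · intro l _ hl
    rw [map_add, map_add, PB_tmul, PB_tmul, PB_tmul, PB_rEnt, PB_rEnt, PB_rEnt, PB_rowM_Y,
      PB_rowM_Y, PB_rowM_Y, if_neg hl, if_neg hl, if_neg hl]
    simp only [TensorProduct.tmul_zero, add_zero]
  · intro h
    exact absurd (Finset.mem_univ j) h

theorem vcomp_sK_zero (C : CubicRing k t R) (E : CubeRoot k t K) (n : ℤ)
    (c : Matrix (Fin 2) (Fin 2) K) (i j : Fin 2) :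
    vcomp C K n i Pc.X j (sK C E n c) = 0 ∧ vcomp C K n i Pc.R j (sK C E n c) = 0 := by
  have hX : ∀ (l : Fin 2) (r : R), rowM R l r Pc.X () j = 0 := fun _ _ => rfl
  have hR : ∀ (l : Fin 2) (r : R), rowM R l r Pc.R () j = 0 := fun _ _ => rfl
  constructor
  · rw [PB_sK, map_sum]
    refine Finset.sum_eq_zero fun l _ => ?_
    rw [map_add, map_add, PB_tmul, PB_tmul, PB_tmul, PB_rEnt, PB_rEnt, PB_rEnt, hX, hX, hX]
    simp only [TensorProduct.tmul_zero, add_zero]
  · rw [PB_sK, map_sum]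
    refine Finset.sum_eq_zero fun l _ => ?_
    rw [map_add, map_add, PB_tmul, PB_tmul, PB_tmul, PB_rEnt, PB_rEnt, PB_rEnt, hR, hR, hR]
    simp only [TensorProduct.tmul_zero, add_zero]

theorem pK_sK (C : CubicRing k t R) (E : CubeRoot k t K) (n : ℤ) (c : Matrix (Fin 2) (Fin 2) K) :
    pK C E n (sK C E n c) = c := by
  ext i j
  rw [pK_apply, vcomp_sK, C.vlead_eps]

private theorem PB_rowU_P (C : CubicRing k t R) (n : ℤ) (e : ℕ) (j : Fin 2) :
    (Pr C n).P (rowU C n e j) = rowU C n e j := by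
  apply q_ext C
  rw [qv_P]
  funext s
  cases s with
  | X => rfl
  | Y => rfl
  | R => rfl

theorem sK_P (C : CubicRing k t R) (E : CubeRoot k t K) (n : ℤ) (c : Matrix (Fin 2) (Fin 2) K) :
    TensorProduct.map LinearMap.id (Pr C n).P (sK C E n c) = sK C E n c := by
  rw [PB_sK, map_sum]
  refine Finset.sum_congr rfl fun j _ => ?_
  rw [map_add, map_add, TensorProduct.map_tmul, TensorProduct.map_tmul, TensorProduct.map_tmul,
    PB_rowU_P, PB_rowU_P, PB_rowU_P]
  rfl

private theorem PB_vcomp_D (C : CubicRing k t R) (n : ℤ) (z : VV C K n) (i j : Fin 2) :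
    vcomp C K n i Pc.X j (TensorProduct.map LinearMap.id (Pr C n).D z) = 0 ∧
    vcomp C K n i Pc.Y j (TensorProduct.map LinearMap.id (Pr C n).D z) = 0 ∧
    vcomp C K n i Pc.R j (TensorProduct.map LinearMap.id (Pr C n).D z)
      = vcomp C K n i Pc.Y j z - vcomp C K n i Pc.X j z := by
  have hX : ∀ f : (Pr C n).V, rEnt C n Pc.X j ((Pr C n).D f) = 0 := fun _ => rfl
  have hY : ∀ f : (Pr C n).V, rEnt C n Pc.Y j ((Pr C n).D f) = 0 := fun _ => rfl
  have hR : ∀ f : (Pr C n).V, rEnt C n Pc.R j ((Pr C n).D f)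
      = rEnt C n Pc.Y j f - rEnt C n Pc.X j f := fun _ => rfl
  induction z using TensorProduct.induction_on with
  | zero =>
    refine ⟨?_, ?_, ?_⟩
    · rw [map_zero, map_zero]
    · rw [map_zero, map_zero]
    · rw [map_zero, map_zero, map_zero, map_zero, sub_zero]
  | tmul c f =>
    refine ⟨?_, ?_, ?_⟩
    · rw [TensorProduct.map_tmul, PB_tmul, hX, TensorProduct.tmul_zero]
    · rw [TensorProduct.map_tmul, PB_tmul, hY, TensorProduct.tmul_zero]
    · rw [TensorProduct.map_tmul, PB_tmul, hR, PB_tmul, PB_tmul, TensorProduct.tmul_sub]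
      rfl
  | add x y hx hy =>
    refine ⟨?_, ?_, ?_⟩
    · rw [map_add, map_add, hx.1, hy.1, add_zero]
    · rw [map_add, map_add, hx.2.1, hy.2.1, add_zero]
    · rw [map_add, map_add, hx.2.2, hy.2.2, map_add, map_add]
      abel

private theorem PB_ext (C : CubicRing k t R) (n : ℤ) (x y : VV C K n)
    (h : ∀ i s j, vcomp C K n i s j x = vcomp C K n i s j y) : x = y := by
  rw [← sub_eq_zero]
  apply vcomp_injective C n
  intro i s j
  rw [map_sub, h, sub_self]

/-- `(0, b, 0)` has the boundary `(0, 0, b)`, and `eps` is divisible by `ell` on the overlap -/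
theorem sK_D (C : CubicRing k t R) (E : CubeRoot k t K) [CharP k 3] (ht : t ≠ 0) (n : ℤ)
    (c : Matrix (Fin 2) (Fin 2) K) :
    ∃ z : VV C K n,
      TensorProduct.map LinearMap.id (Pr C (n + 1)).D (sK C E (n + 1) c) = ellMap C E n z := by
  obtain ⟨z0, hz0⟩ := C.eps_eq E ht
  obtain ⟨z, hz⟩ := vcomp_surjective (K := K) C n (fun i s j => match s with
    | Pc.X => 0
    | Pc.Y => 0
    | Pc.R => (c i j ⊗ₜ[k] ((C.u ^ wtn (n + 1) j : Rˣ) : R)) * z0)
    (fun _ _ => zero_mem _) (fun _ _ => zero_mem _)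
  refine ⟨z, PB_ext C (n + 1) _ _ ?_⟩
  intro i s j
  rw [vcomp_ellMap, hz]
  cases s with
  | X =>
    rw [(PB_vcomp_D C (n + 1) _ i j).1]
    exact (mul_zero _).symm
  | Y =>
    rw [(PB_vcomp_D C (n + 1) _ i j).2.1]
    exact (mul_zero _).symm
  | R =>
    rw [(PB_vcomp_D C (n + 1) _ i j).2.2, vcomp_sK, (vcomp_sK_zero C E (n + 1) c i j).1, sub_zero,
      hz0]
    exact mul_left_comm _ _ _

/-- left multiplication by a matrix over `K` -/
theorem sK_left (C : CubicRing k t R) (E : CubeRoot k t K) (n : ℤ)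
    (m c : Matrix (Fin 2) (Fin 2) K) :
    TensorProduct.map (matMul k K (Fin 2) (Fin 2) Unit m) LinearMap.id (sK C E n c)
      = sK C E n (m * c) := by
  rw [PB_sK, PB_sK, map_sum]
  refine Finset.sum_congr rfl fun j _ => ?_
  have h1 : colK k K j (m * c) = m * colK k K j c := by
    ext a b
    rfl
  have h2 : m * (E.α • colK k K j c) = E.α • (m * colK k K j c) := Matrix.mul_smul _ _ _
  rw [map_add, map_add, TensorProduct.map_tmul, TensorProduct.map_tmul, TensorProduct.map_tmul,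
    matMul_apply, matMul_apply, h1, h2]
  rfl

private theorem PB_vcomp_ra (C : CubicRing k t R) (n : ℤ) (g : Pc → Matrix (Fin 2) (Fin 2) R)
    (ra : (Pr C n).V →ₗ[k] (Pr C n).V)
    (hra : ∀ f : (Pr C n).V, qv C (fun _ : Unit => (0 : ℤ)) (wtn n) (ra f)
      = cMul k (matMul k R Unit (Fin 2) (Fin 2)) (qv C (fun _ : Unit => (0 : ℤ)) (wtn n) f) g)
    (z : VV C K n) (i j : Fin 2) :
    vcomp C K n i Pc.X j (TensorProduct.map LinearMap.id ra z)
      = ∑ l, vcomp C K n i Pc.X l z * ((1 : K) ⊗ₜ[k] g Pc.X l j) ∧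
    vcomp C K n i Pc.Y j (TensorProduct.map LinearMap.id ra z)
      = ∑ l, vcomp C K n i Pc.Y l z * ((1 : K) ⊗ₜ[k] g Pc.Y l j) ∧
    vcomp C K n i Pc.R j (TensorProduct.map LinearMap.id ra z)
      = ∑ l, (vcomp C K n i Pc.X l z * ((1 : K) ⊗ₜ[k] g Pc.R l j)
        + vcomp C K n i Pc.R l z * ((1 : K) ⊗ₜ[k] g Pc.Y l j)) := by
  have hX : ∀ f : (Pr C n).V, rEnt C n Pc.X j (ra f) = ∑ l, rEnt C n Pc.X l f * g Pc.X l j := by
    intro f
    exact congrFun (congrFun (congrFun (hra f) Pc.X) ()) j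
  have hY : ∀ f : (Pr C n).V, rEnt C n Pc.Y j (ra f) = ∑ l, rEnt C n Pc.Y l f * g Pc.Y l j := by
    intro f
    exact congrFun (congrFun (congrFun (hra f) Pc.Y) ()) j
  have hR : ∀ f : (Pr C n).V, rEnt C n Pc.R j (ra f)
      = ∑ l, rEnt C n Pc.X l f * g Pc.R l j + ∑ l, rEnt C n Pc.R l f * g Pc.Y l j := by
    intro f
    exact congrFun (congrFun (congrFun (hra f) Pc.R) ()) j
  induction z using TensorProduct.induction_on with
  | zero =>
    refine ⟨?_, ?_, ?_⟩
    · rw [map_zero, map_zero]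
      exact (Finset.sum_eq_zero fun l _ => by rw [map_zero, zero_mul]).symm
    · rw [map_zero, map_zero]
      exact (Finset.sum_eq_zero fun l _ => by rw [map_zero, zero_mul]).symm
    · rw [map_zero, map_zero]
      exact (Finset.sum_eq_zero fun l _ => by
        rw [map_zero, map_zero, zero_mul, zero_mul, add_zero]).symm
  | tmul c f =>
    refine ⟨?_, ?_, ?_⟩
    · rw [TensorProduct.map_tmul, PB_tmul, hX, TensorProduct.tmul_sum]
      refine Finset.sum_congr rfl fun l _ => ?_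
      rw [PB_tmul, Algebra.TensorProduct.tmul_mul_tmul, mul_one]
      rfl
    · rw [TensorProduct.map_tmul, PB_tmul, hY, TensorProduct.tmul_sum]
      refine Finset.sum_congr rfl fun l _ => ?_
      rw [PB_tmul, Algebra.TensorProduct.tmul_mul_tmul, mul_one]
      rfl
    · rw [TensorProduct.map_tmul, PB_tmul, hR, ← Finset.sum_add_distrib, TensorProduct.tmul_sum]
      refine Finset.sum_congr rfl fun l _ => ?_
      rw [PB_tmul, PB_tmul, Algebra.TensorProduct.tmul_mul_tmul,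
        Algebra.TensorProduct.tmul_mul_tmul, mul_one, TensorProduct.tmul_add]
      rfl
  | add x y hx hy =>
    refine ⟨?_, ?_, ?_⟩
    · rw [map_add, map_add, hx.1, hy.1, ← Finset.sum_add_distrib]
      refine Finset.sum_congr rfl fun l _ => ?_
      rw [map_add, add_mul]
    · rw [map_add, map_add, hx.2.1, hy.2.1, ← Finset.sum_add_distrib]
      refine Finset.sum_congr rfl fun l _ => ?_
      rw [map_add, add_mul]
    · rw [map_add, map_add, hx.2.2, hy.2.2, ← Finset.sum_add_distrib]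
      refine Finset.sum_congr rfl fun l _ => ?_
      rw [map_add, map_add, add_mul, add_mul]
      abel

/-- right multiplication by `a ∈ A`, given by `ra : P (n+1) → P (n+1)`: the difference has its components on `Y`
in the kernel of the value, times `eps` -/
theorem sK_right (C : CubicRing k t R) (E : CubeRoot k t K) [CharP k 3] (ht : t ≠ 0) (n : ℤ)
    (c : Matrix (Fin 2) (Fin 2) K) (a : (qSD C wt wt).V)
    (ra : (Pr C (n + 1)).V →ₗ[k] (Pr C (n + 1)).V)
    (hra : ∀ f : (Pr C (n + 1)).V, qv C (fun _ : Unit => (0 : ℤ)) (wtn (n + 1)) (ra f)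
      = cMul k (matMul k R Unit (Fin 2) (Fin 2)) (qv C (fun _ : Unit => (0 : ℤ)) (wtn (n + 1)) f)
          (qv C wt wt a)) :
    ∃ z : VV C K n,
      TensorProduct.map LinearMap.id ra (sK C E (n + 1) c)
        - sK C E (n + 1) (c * qVal C E wt wt a) = ellMap C E n z := by
  set g : Pc → Matrix (Fin 2) (Fin 2) R := qv C wt wt a with hg
  have hgm : g ∈ QQ C wt wt := qv_mem C a
  have key : ∀ i j : Fin 2, ∃ y ∈ C.VY K (wtn n j),
      (∑ l, vcomp C K (n + 1) i Pc.Y l (sK C E (n + 1) c) * ((1 : K) ⊗ₜ[k] g Pc.Y l j))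
        - vcomp C K (n + 1) i Pc.Y j (sK C E (n + 1) (c * qVal C E wt wt a)) = C.ell E * y := by
    intro i j
    have hw : ∀ l : Fin 2, wtn (n + 1) j = (wt j - wt l) + wtn (n + 1) l := by
      intro l
      unfold wtn wt
      ring
    have hmem : ∀ l : Fin 2, ((C.u ^ wtn (n + 1) l : Rˣ) : R) * g Pc.Y l j ∈
        C.Y (wtn (n + 1) j) := by
      intro l
      rw [hw l, add_comm]
      exact C.mul_mem_Y (C.upow_mem_Y le_rfl) (hgm Pc.Y l j)
    have h1 : (∑ l, vcomp C K (n + 1) i Pc.Y l (sK C E (n + 1) c) * ((1 : K) ⊗ₜ[k] g Pc.Y l j))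
        = (∑ l, c i l ⊗ₜ[k] (((C.u ^ wtn (n + 1) l : Rˣ) : R) * g Pc.Y l j)) * C.eps E := by
      rw [Finset.sum_mul]
      refine Finset.sum_congr rfl fun l _ => ?_
      rw [vcomp_sK, mul_right_comm, Algebra.TensorProduct.tmul_mul_tmul, mul_one]
    rw [h1, vcomp_sK, ← sub_mul]
    have hn : wtn n j = wtn (n + 1) j - 1 := by
      unfold wtn
      ring
    rw [hn]
    apply C.mul_eps_mem E ht
    · refine sub_mem (sum_mem fun l _ => PB_VY C _ (hmem l)) (PB_VY C _ (C.upow_mem_Y le_rfl))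
    · rw [map_sub, map_sum, PB_vlead]
      have h2 : C.lead E (wtn (n + 1) j) ((C.u ^ wtn (n + 1) j : Rˣ) : R) = 1 := by
        have h := C.lead_upow_wpow E (wtn (n + 1) j) (wtn (n + 1) j) 0 (by norm_num)
        rw [pow_zero, mul_one, pow_zero, Nat.cast_zero, add_zero, if_pos rfl] at h
        exact h
      rw [h2, mul_one, Matrix.mul_apply, ← Finset.sum_sub_distrib]
      refine Finset.sum_eq_zero fun l _ => ?_
      have h3 : C.lead E (wtn (n + 1) j) (((C.u ^ wtn (n + 1) l : Rˣ) : R) * g Pc.Y l j)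
          = C.lead E (wt j - wt l) (g Pc.Y l j) := by
        rw [hw l]
        exact C.lead_upow_mul E _ _ _
      rw [PB_vlead, h3]
      exact sub_self _
  choose y hy hy' using key
  obtain ⟨z, hz⟩ := vcomp_surjective (K := K) C n (fun i s j => match s with
    | Pc.X => 0
    | Pc.Y => y i j
    | Pc.R => 0)
    (fun _ _ => zero_mem _) (fun i j => hy i j)
  refine ⟨z, PB_ext C (n + 1) _ _ ?_⟩
  intro i s j
  have hra' := PB_vcomp_ra C (n + 1) g ra hra (sK C E (n + 1) c) i j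
  rw [vcomp_ellMap, hz, map_sub]
  cases s with
  | X =>
    rw [hra'.1, (vcomp_sK_zero C E (n + 1) _ i j).1, sub_zero]
    refine Eq.trans (Finset.sum_eq_zero fun l _ => ?_) (mul_zero _).symm
    rw [(vcomp_sK_zero C E (n + 1) c i l).1, zero_mul]
  | Y =>
    rw [hra'.2.1]
    exact hy' i j
  | R =>
    rw [hra'.2.2, (vcomp_sK_zero C E (n + 1) _ i j).2, sub_zero]
    refine Eq.trans (Finset.sum_eq_zero fun l _ => ?_) (mul_zero _).symm
    rw [(vcomp_sK_zero C E (n + 1) c i l).1, (vcomp_sK_zero C E (n + 1) c i l).2, zero_mul,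
      zero_mul, add_zero]

end H36.NX
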