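import Pool.Agent.H36.NX.Homs
import Pool.Agent.H36.NX.PtSplitB

/-!
# HomsK : `kap` is a direct factor of the cokernel of `ell : V n → V (n+1)` (step S3)
-/

set_option autoImplicit false

open NC
open scoped TensorProduct

namespace H36.NX

variable {k : Type} [Field k] {t : k} {R : Type} [CommRing R] [Algebra k R]
  {K : Type} [Field K] [Algebra k K]

private theorem hk_al (E : CubeRoot k t K) (M : Matrix (Fin 2) (Fin 2) K)
    (c : Matrix (Fin 2) Unit K) : alMap E (M * c) = M * alMap E c :=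
  (Matrix.mul_smul M E.α c).symm

/-- multiplication by `α` on `K^2` -/
noncomputable def alH (E : CubeRoot k t K) : SD.Hom (kSD k K (Fin 2) Unit) (kSD k K (Fin 2) Unit) where
  f := alMap E
  D v := by
    rw [kSD_D, kSD_D]
    exact map_zero (alMap E)
  P v := by
    rw [kSD_P, kSD_P]

private theorem hkAl_left (C : CubicRing k t R) (E : CubeRoot k t K) :
    (kLA C E Unit).IsHom (kLA C E Unit) (alH E) := fun a c => hk_al E (aVal C E a) c

/-- difference of two maps of complexes -/
private noncomputable def hkSub {X Y : SD k} (f g : SD.Hom X Y) : SD.Hom X Y where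
  f := f.f - g.f
  D v := by
    rw [LinearMap.sub_apply, LinearMap.sub_apply, map_sub, f.D, g.D]
  P v := by
    rw [LinearMap.sub_apply, LinearMap.sub_apply, map_sub, f.P, g.P]

private theorem hkSub_isHom {A B : DGA k} {X Y : SD k} {b : Bi A B X} {b' : Bi A B Y}
    {f g : SD.Hom X Y} (hf : b.IsHom b' f) (hg : b.IsHom b' g) : b.IsHom b' (hkSub f g) := by
  constructor
  · intro a v
    change f.f (b.l.act a v) - g.f (b.l.act a v) = b'.l.act a (f.f v - g.f v)
    rw [map_sub, hf.l a v, hg.l a v]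
  · intro v a
    change f.f (b.r.act v a) - g.f (b.r.act v a) = b'.r.act (f.f v - g.f v) a
    rw [map_sub, LinearMap.sub_apply, hf.r v a, hg.r v a]

private noncomputable def hkEll (C : CubicRing k t R) (E : CubeRoot k t K) (n : ℤ) :
    SD.Hom ((kSD k K (Fin 2) Unit).tens (Pr C n)) ((kSD k K (Fin 2) Unit).tens (Pr C (n + 1))) :=
  hkSub ((SD.Hom.id (kSD k K (Fin 2) Unit)).tens (qWH C (pr_eq' n)))
    ((alH E).tens (qUH C (pr_eq' n)))

private theorem hkEll_isHom (C : CubicRing k t R) (E : CubeRoot k t K) (n : ℤ) :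
    (Vb C E n).b.IsHom (Vb C E (n + 1)).b (hkEll C E n) :=
  hkSub_isHom
    (isHom_tens _ _ (fun _ _ => rfl) (qWH_right C (pr_eq' n)))
    (isHom_tens _ _ (hkAl_left C E) (qUH_right C (pr_eq' n)))

/-- `1 ⊗ w - α ⊗ u : V n → V (n+1)` -/
noncomputable def ellH (C : CubicRing k t R) (E : CubeRoot k t K) (n : ℤ) :
    BMod.Hom (Vb C E n) (Vb C E (n + 1)) where
  f := ellMap C E n
  D v := (hkEll C E n).D v
  P v := (hkEll C E n).P v
  isHom := ⟨(hkEll_isHom C E n).l, (hkEll_isHom C E n).r⟩

theorem ellH_injective (C : CubicRing k t R) (E : CubeRoot k t K) [CharP k 3] (ht : t ≠ 0)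
    (n : ℤ) : Function.Injective (ellH C E n).f :=
  ellMap_injective C E ht n

private theorem hkpK_tmul (C : CubicRing k t R) (E : CubeRoot k t K) (n : ℤ)
    (c : Matrix (Fin 2) Unit K) (f : (Pr C n).V) :
    pK C E n (c ⊗ₜ[k] f) = c * val C E (fun _ : Unit => (0 : ℤ)) (wtn n)
      (qv C (fun _ : Unit => (0 : ℤ)) (wtn n) f) := rfl

private theorem hk_tD (C : CubicRing k t R) (n : ℤ) (v : VV C K n) :
    SD.tD (kSD k K (Fin 2) Unit) (Pr C n) v = TensorProduct.map LinearMap.id (Pr C n).D v := by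
  refine tens_ext (f := SD.tD (kSD k K (Fin 2) Unit) (Pr C n))
    (g := TensorProduct.map LinearMap.id (Pr C n).D) (fun x y => ?_) v
  rw [SD.tD_tmul, kSD_D, kSD_E, TensorProduct.zero_tmul, zero_add, TensorProduct.map_tmul]
  rfl

private theorem hk_tP (C : CubicRing k t R) (n : ℤ) (v : VV C K n) :
    SD.tP (kSD k K (Fin 2) Unit) (Pr C n) v = TensorProduct.map LinearMap.id (Pr C n).P v := by
  refine tens_ext (f := SD.tP (kSD k K (Fin 2) Unit) (Pr C n))
    (g := TensorProduct.map LinearMap.id (Pr C n).P) (fun x y => ?_) v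
  rw [SD.tP_tmul, kSD_P, sub_self, TensorProduct.zero_tmul, add_zero, TensorProduct.map_tmul]
  rfl

private theorem hkpK_D0 (C : CubicRing k t R) (E : CubeRoot k t K) (n : ℤ) (v : VV C K n) :
    pK C E n (TensorProduct.map LinearMap.id (Pr C n).D v) = 0 := by
  induction v using TensorProduct.induction_on with
  | zero => rw [map_zero, map_zero]
  | tmul c f =>
    rw [TensorProduct.map_tmul, hkpK_tmul, qv_D, val_D]
    exact Matrix.mul_zero _
  | add x y hx hy => rw [map_add, map_add, hx, hy, add_zero]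

private theorem hkpK_P0 (C : CubicRing k t R) (E : CubeRoot k t K) (n : ℤ) (v : VV C K n) :
    pK C E n (TensorProduct.map LinearMap.id (Pr C n).P v) = pK C E n v := by
  induction v using TensorProduct.induction_on with
  | zero => rw [map_zero, map_zero]
  | tmul c f =>
    rw [TensorProduct.map_tmul, hkpK_tmul, hkpK_tmul, qv_P, val_P]
    rfl
  | add x y hx hy => rw [map_add, map_add, map_add, hx, hy]

private theorem hkpK_D (C : CubicRing k t R) (E : CubeRoot k t K) (n : ℤ) (v : VV C K n) :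
    pK C E n (SD.tD (kSD k K (Fin 2) Unit) (Pr C n) v) = 0 :=
  (congrArg (pK C E n) (hk_tD C n v)).trans (hkpK_D0 C E n v)

private theorem hkpK_P (C : CubicRing k t R) (E : CubeRoot k t K) (n : ℤ) (v : VV C K n) :
    pK C E n (SD.tP (kSD k K (Fin 2) Unit) (Pr C n) v) = pK C E n v :=
  (congrArg (pK C E n) (hk_tP C n v)).trans (hkpK_P0 C E n v)

private theorem hkpK_l (C : CubicRing k t R) (E : CubeRoot k t K) (n : ℤ)
    (M : Matrix (Fin 2) (Fin 2) K) (v : VV C K n) :
    pK C E n (TensorProduct.map (matMul k K (Fin 2) (Fin 2) Unit M) LinearMap.id v)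
      = M * pK C E n v := by
  induction v using TensorProduct.induction_on with
  | zero => rw [map_zero, map_zero, Matrix.mul_zero]
  | tmul c f =>
    rw [TensorProduct.map_tmul, hkpK_tmul, hkpK_tmul, matMul_apply]
    exact Matrix.mul_assoc _ _ _
  | add x y hx hy => rw [map_add, map_add, map_add, hx, hy, Matrix.mul_add]

private theorem hkpK_r (C : CubicRing k t R) (E : CubeRoot k t K) (n : ℤ) (a : (AA C).V)
    (v : VV C K n) :
    pK C E n (TensorProduct.map LinearMap.id
      ((qMulR C (fun _ : Unit => (0 : ℤ)) n).flip a) v)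
      = pK C E n v * val C E wt wt (av C a) := by
  induction v using TensorProduct.induction_on with
  | zero => rw [map_zero, map_zero, Matrix.zero_mul]
  | tmul c f =>
    rw [TensorProduct.map_tmul, hkpK_tmul, hkpK_tmul]
    have h : val C E (fun _ : Unit => (0 : ℤ)) (wtn n)
        (qv C (fun _ : Unit => (0 : ℤ)) (wtn n)
          ((qMulR C (fun _ : Unit => (0 : ℤ)) n).flip a f))
        = (val C E (fun _ : Unit => (0 : ℤ)) (wtn n)
          (qv C (fun _ : Unit => (0 : ℤ)) (wtn n) f)) * val C E wt wt (av C a) :=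
      valH_right C E (fun _ : Unit => (0 : ℤ)) n f a
    rw [h]
    exact (Matrix.mul_assoc _ _ _).symm
  | add x y hx hy => rw [map_add, map_add, map_add, hx, hy, Matrix.add_mul]

/-- `V n → kap`, `c ⊗ f ↦ c * (value of f)` -/
noncomputable def pKH (C : CubicRing k t R) (E : CubeRoot k t K) (n : ℤ) :
    BMod.Hom (Vb C E n) (kap C E) where
  f := pK C E n
  D v := hkpK_D C E n v
  P v := hkpK_P C E n v
  isHom := ⟨fun a v => hkpK_l C E n (aVal C E a) v, fun v a => hkpK_r C E n a v⟩

/-- `coker ell → kap` -/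
noncomputable def pKbar (C : CubicRing k t R) (E : CubeRoot k t K) (n : ℤ) :
    BMod.Hom (BMod.coker (ellH C E n)) (kap C E) :=
  BMod.cokerDesc (ellH C E n) (pKH C E (n + 1)) (fun x => pK_ellMap C E n x)

/-- the projection of `V (n+1)` on the cokernel of `ell` -/
private noncomputable def hkQ (C : CubicRing k t R) (E : CubeRoot k t K) (n : ℤ) :
    VV C K (n + 1) →ₗ[k] (BMod.coker (ellH C E n)).N.V :=
  (BMod.cokerπ (ellH C E n)).f

private theorem hkQ_zero (C : CubicRing k t R) (E : CubeRoot k t K) (n : ℤ)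
    {z : VV C K (n + 1)} (h : ∃ x, z = ellMap C E n x) : hkQ C E n z = 0 := by
  obtain ⟨x, hx⟩ := h
  exact (BMod.cokerπ_eq_zero (ellH C E n) _).2 ⟨x, hx.symm⟩

private theorem hks_D (C : CubicRing k t R) (E : CubeRoot k t K) [CharP k 3] (ht : t ≠ 0)
    (n : ℤ) (c : Matrix (Fin 2) (Fin 2) K) :
    hkQ C E n (SD.tD (kSD k K (Fin 2) Unit) (Pr C (n + 1)) (sK C E (n + 1) c)) = 0 := by
  have h := hkQ_zero C E n (sK_D C E ht n c)
  exact (congrArg (hkQ C E n) (hk_tD C (n + 1) _)).trans h

private theorem hks_r (C : CubicRing k t R) (E : CubeRoot k t K) [CharP k 3] (ht : t ≠ 0)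
    (n : ℤ) (c : Matrix (Fin 2) (Fin 2) K) (a : (AA C).V) :
    hkQ C E n (sK C E (n + 1) (c * val C E wt wt (av C a)))
      = hkQ C E n (TensorProduct.map LinearMap.id
        ((qMulR C (fun _ : Unit => (0 : ℤ)) (n + 1)).flip a) (sK C E (n + 1) c)) := by
  have h := hkQ_zero C E n (sK_right C E ht n c a
    ((qMulR C (fun _ : Unit => (0 : ℤ)) (n + 1)).flip a)
    (fun f => qv_qMulR C (fun _ : Unit => (0 : ℤ)) (n + 1) f a))
  rw [map_sub] at h
  exact (sub_eq_zero.1 h).symm

/-- `kap → coker ell` -/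
noncomputable def sKbar (C : CubicRing k t R) (E : CubeRoot k t K) [CharP k 3] (ht : t ≠ 0)
    (n : ℤ) : BMod.Hom (kap C E) (BMod.coker (ellH C E n)) where
  f := (BMod.cokerπ (ellH C E n)).f.comp (sK C E (n + 1))
  D v := by
    have h1 : hkQ C E n (sK C E (n + 1) 0) = 0 := by
      rw [map_zero, map_zero]
    exact h1.trans (hks_D C E ht n v).symm
  P v := by
    have h1 : SD.tP (kSD k K (Fin 2) Unit) (Pr C (n + 1)) (sK C E (n + 1) v)
        = sK C E (n + 1) v := (hk_tP C (n + 1) _).trans (sK_P C E (n + 1) v)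
    exact (congrArg (hkQ C E n) h1).symm
  isHom :=
    { l := fun a v => congrArg (hkQ C E n) (sK_left C E (n + 1) (aVal C E a) v).symm
      r := fun v a => hks_r C E ht n v a }

theorem pKbar_sKbar (C : CubicRing k t R) (E : CubeRoot k t K) [CharP k 3] (ht : t ≠ 0) (n : ℤ)
    (v : (kap C E).N.V) : (pKbar C E n).f ((sKbar C E ht n).f v) = v :=
  pK_sK C E (n + 1) v

end H36.NX
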