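import Pool.Agent.H36.NX.Mul
import Pool.Agent.H36.NX.LeadK

/-!
# Lead : the value at the point `x = 0`

`K` is the residue field `k(α)`, `α^3 = t`, of the only point `P` of the cubic with `x = 0`. The value at `P` of a
section `r` of `O(n)` over the chart `y ≠ 0` (divided by `x^n`) is `∑ a, (coefficient of u^(n-a) w^a) α^a`.
-/

set_option autoImplicit false

namespace H36.NX

namespace CubicRing

variable {k : Type} [Field k] {t : k} {R : Type} [CommRing R] [Algebra k R]
variable {K : Type} [Field K] [Algebra k K]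

/-- the leading coefficient of degree `n`, the value at the point `x = 0` -/
noncomputable def lead (C : CubicRing k t R) (E : CubeRoot k t K) (n : ℤ) : R →ₗ[k] K :=
  ∑ a : Fin 3, (LinearMap.toSpanSingleton k K (E.α ^ (a : ℕ))).comp
    ((Finsupp.lapply (n - ((a : ℕ) : ℤ), a) : (ℤ × Fin 3 →₀ k) →ₗ[k] k).comp
      (C.bas.repr : R →ₗ[k] (ℤ × Fin 3 →₀ k)))

theorem lead_apply (C : CubicRing k t R) (E : CubeRoot k t K) (n : ℤ) (r : R) :
    C.lead E n r = ∑ a : Fin 3, C.bas.repr r (n - ((a : ℕ) : ℤ), a) • E.α ^ (a : ℕ) := by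
  simp only [lead, LinearMap.sum_apply, LinearMap.comp_apply, LinearMap.toSpanSingleton_apply,
    Finsupp.lapply_apply, LinearEquiv.coe_coe]

theorem lead_bas (C : CubicRing k t R) (E : CubeRoot k t K) (n m : ℤ) (a : Fin 3) :
    C.lead E n (C.bas (m, a)) = if m + ((a : ℕ) : ℤ) = n then E.α ^ (a : ℕ) else 0 := by
  rw [lead_apply, Finset.sum_eq_single a]
  · rw [Module.Basis.repr_self, Finsupp.single_apply]
    by_cases h : m + ((a : ℕ) : ℤ) = n
    · rw [if_pos (by rw [← h, add_sub_cancel_right]), if_pos h, one_smul]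
    · rw [if_neg (by
        intro he
        apply h
        have := congrArg Prod.fst he
        simp only at this
        omega), if_neg h, zero_smul]
  · intro b _ hb
    rw [Module.Basis.repr_self, Finsupp.single_apply, if_neg (by
      intro he
      exact hb (congrArg Prod.snd he).symm), zero_smul]
  · intro h
    exact absurd (Finset.mem_univ a) h

/-- the products of powers: `u^i w^j`, `j ≤ 2` -/
theorem upow_mul_wpow (C : CubicRing k t R) (i : ℤ) (a : Fin 3) :
    ((C.u ^ i : Rˣ) : R) * C.w ^ (a : ℕ) = C.bas (i, a) := (C.bas_eq i a).symm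

theorem lead_upow_wpow (C : CubicRing k t R) (E : CubeRoot k t K) (n i : ℤ) (j : ℕ) (hj : j < 3) :
    C.lead E n (((C.u ^ i : Rˣ) : R) * C.w ^ j) = if i + (j : ℤ) = n then E.α ^ j else 0 := by
  have := C.lead_bas E n i ⟨j, hj⟩
  rw [C.bas_eq] at this
  exact this

theorem lead_upow_w3 (C : CubicRing k t R) (E : CubeRoot k t K) (n i : ℤ) (h : i + 3 ≤ n) :
    C.lead E n (((C.u ^ i : Rˣ) : R) * C.w ^ 3) = if i + 3 = n then E.α ^ 3 else 0 := by
  have e : ((C.u ^ i : Rˣ) : R) * C.w ^ 3 =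
      (t ^ 2) • (((C.u ^ i : Rˣ) : R) * C.w ^ 1) + t • (((C.u ^ (i + 3) : Rˣ) : R) * C.w ^ 0)
        + (t ^ 2) • (((C.u ^ (i + 2) : Rˣ) : R) * C.w ^ 0)
        + (t ^ 2) • (((C.u ^ i : Rˣ) : R) * C.w ^ 0) := by
    have h3 : ((C.u ^ (i + 3) : Rˣ) : R) = ((C.u ^ i : Rˣ) : R) * (C.u : R) ^ 3 := by
      rw [zpow_add, Units.val_mul]
      norm_cast
    have h2 : ((C.u ^ (i + 2) : Rˣ) : R) = ((C.u ^ i : Rˣ) : R) * (C.u : R) ^ 2 := by
      rw [zpow_add, Units.val_mul]
      norm_cast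
    rw [C.rel, h3, h2]
    simp only [Algebra.smul_def]
    ring
  rw [e]
  simp only [map_add, map_smul]
  rw [lead_upow_wpow C E n i 1 (by norm_num), lead_upow_wpow C E n (i + 3) 0 (by norm_num),
    lead_upow_wpow C E n (i + 2) 0 (by norm_num), lead_upow_wpow C E n i 0 (by norm_num)]
  rw [if_neg (by push_cast; omega), if_neg (show ¬ (i + 2 + ((0 : ℕ) : ℤ) = n) by push_cast; omega),
    if_neg (show ¬ (i + ((0 : ℕ) : ℤ) = n) by push_cast; omega)]
  simp only [smul_zero, zero_add, add_zero, Nat.cast_zero]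
  by_cases hh : i + 3 = n
  · rw [if_pos hh, if_pos hh, E.cube, pow_zero, Algebra.smul_def, mul_one]
  · rw [if_neg hh, if_neg hh, smul_zero]

theorem lead_upow_w4 (C : CubicRing k t R) (E : CubeRoot k t K) (n i : ℤ) (h : i + 4 ≤ n) :
    C.lead E n (((C.u ^ i : Rˣ) : R) * C.w ^ 4) = if i + 4 = n then E.α ^ 4 else 0 := by
  have e : ((C.u ^ i : Rˣ) : R) * C.w ^ 4 =
      (t ^ 2) • (((C.u ^ i : Rˣ) : R) * C.w ^ 2) + t • (((C.u ^ (i + 3) : Rˣ) : R) * C.w ^ 1)
        + (t ^ 2) • (((C.u ^ (i + 2) : Rˣ) : R) * C.w ^ 1)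
        + (t ^ 2) • (((C.u ^ i : Rˣ) : R) * C.w ^ 1) := by
    have h3 : ((C.u ^ (i + 3) : Rˣ) : R) = ((C.u ^ i : Rˣ) : R) * (C.u : R) ^ 3 := by
      rw [zpow_add, Units.val_mul]
      norm_cast
    have h2 : ((C.u ^ (i + 2) : Rˣ) : R) = ((C.u ^ i : Rˣ) : R) * (C.u : R) ^ 2 := by
      rw [zpow_add, Units.val_mul]
      norm_cast
    rw [show C.w ^ 4 = C.w ^ 3 * C.w by ring, C.rel, h3, h2]
    simp only [Algebra.smul_def]
    ring
  rw [e]
  simp only [map_add, map_smul]
  rw [lead_upow_wpow C E n i 2 (by norm_num), lead_upow_wpow C E n (i + 3) 1 (by norm_num),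
    lead_upow_wpow C E n (i + 2) 1 (by norm_num), lead_upow_wpow C E n i 1 (by norm_num)]
  rw [if_neg (show ¬ (i + ((2 : ℕ) : ℤ) = n) by push_cast; omega),
    if_neg (show ¬ (i + 2 + ((1 : ℕ) : ℤ) = n) by push_cast; omega),
    if_neg (show ¬ (i + ((1 : ℕ) : ℤ) = n) by push_cast; omega)]
  simp only [smul_zero, zero_add, add_zero, Nat.cast_one, pow_one]
  by_cases hh : i + 4 = n
  · rw [if_pos (show i + 3 + 1 = n by omega), if_pos hh, show E.α ^ 4 = E.α ^ 3 * E.α by ring,
      E.cube, Algebra.smul_def]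
  · rw [if_neg (show ¬ (i + 3 + 1 = n) by omega), if_neg hh, smul_zero]

theorem lead_upow_wpow' (C : CubicRing k t R) (E : CubeRoot k t K) (n i : ℤ) (j : ℕ) (hj : j < 5)
    (h : i + (j : ℤ) ≤ n) :
    C.lead E n (((C.u ^ i : Rˣ) : R) * C.w ^ j) = if i + (j : ℤ) = n then E.α ^ j else 0 := by
  rcases lt_or_ge j 3 with hj3 | hj3
  · exact lead_upow_wpow C E n i j hj3
  · have : j = 3 ∨ j = 4 := by omega
    rcases this with rfl | rfl
    · exact_mod_cast lead_upow_w3 C E n i (by exact_mod_cast h)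
    · exact_mod_cast lead_upow_w4 C E n i (by exact_mod_cast h)

theorem lead_one (C : CubicRing k t R) (E : CubeRoot k t K) : C.lead E 0 1 = 1 := by
  have h := lead_upow_wpow C E 0 0 0 (by norm_num)
  simpa using h

theorem lead_u (C : CubicRing k t R) (E : CubeRoot k t K) : C.lead E 1 (C.u : R) = 1 := by
  have h := lead_upow_wpow C E 1 1 0 (by norm_num)
  simpa using h

theorem lead_w (C : CubicRing k t R) (E : CubeRoot k t K) : C.lead E 1 C.w = E.α := by
  have h := lead_upow_wpow C E 1 0 1 (by norm_num)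
  simpa using h

/-- multiplicative: `w^3 = t u^3 + ` terms of degree `< 3`, and `α^3 = t` -/
theorem lead_mul (C : CubicRing k t R) (E : CubeRoot k t K) {m n : ℤ} {r s : R}
    (hr : r ∈ C.Y m) (hs : s ∈ C.Y n) :
    C.lead E (m + n) (r * s) = C.lead E m r * C.lead E n s := by
  refine Submodule.span_induction (p := fun r _ =>
    C.lead E (m + n) (r * s) = C.lead E m r * C.lead E n s) ?_ ?_ ?_ ?_ hr
  · rintro _ ⟨⟨p, a⟩, rfl⟩
    refine Submodule.span_induction (p := fun s _ =>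
      C.lead E (m + n) (C.bas (m - ((a : ℕ) : ℤ) - (p : ℤ), a) * s) =
        C.lead E m (C.bas (m - ((a : ℕ) : ℤ) - (p : ℤ), a)) * C.lead E n s) ?_ ?_ ?_ ?_ hs
    · rintro _ ⟨⟨q, b⟩, rfl⟩
      simp only
      rw [lead_bas, lead_bas, C.bas_eq, C.bas_eq]
      have e : ((C.u ^ (m - ((a : ℕ) : ℤ) - (p : ℤ)) : Rˣ) : R) * C.w ^ (a : ℕ) *
          (((C.u ^ (n - ((b : ℕ) : ℤ) - (q : ℤ)) : Rˣ) : R) * C.w ^ (b : ℕ)) =
          ((C.u ^ ((m - ((a : ℕ) : ℤ) - (p : ℤ)) + (n - ((b : ℕ) : ℤ) - (q : ℤ))) : Rˣ) : R) *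
            C.w ^ ((a : ℕ) + (b : ℕ)) := by
        rw [zpow_add, Units.val_mul, pow_add]
        ring
      rw [e]
      have ha := a.2
      have hb := b.2
      rw [lead_upow_wpow' C E (m + n) _ ((a : ℕ) + (b : ℕ)) (by omega) (by push_cast; omega)]
      by_cases h1 : p = 0
      · by_cases h2 : q = 0
        · rw [if_pos (by push_cast; omega), if_pos (by omega), if_pos (by omega), pow_add]
        · rw [if_neg (by push_cast; omega), if_pos (by omega), if_neg (by omega), mul_zero]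
      · rw [if_neg (by push_cast; omega), if_neg (show ¬ (m - ((a : ℕ) : ℤ) - (p : ℤ) +
          ((a : ℕ) : ℤ) = m) by omega), zero_mul]
    · simp
    · intro x y _ _ hx hy
      rw [mul_add, map_add, map_add, hx, hy, mul_add]
    · intro c x _ hx
      rw [mul_smul_comm, map_smul, map_smul, hx, mul_smul_comm]
  · simp
  · intro x y _ _ hx hy
    rw [add_mul, map_add, map_add, hx, hy, add_mul]
  · intro c x _ hx
    rw [smul_mul_assoc, map_smul, map_smul, hx, smul_mul_assoc]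

theorem lead_eq_zero_iff (C : CubicRing k t R) (E : CubeRoot k t K) {n : ℤ} {r : R}
    (hr : r ∈ C.Y n) : C.lead E n r = 0 ↔ r ∈ C.Y (n - 1) := by
  rw [mem_Y_iff, lead_apply]
  have hr' := (C.mem_Y_iff n r).1 hr
  constructor
  · intro h m a hma
    have hli := E.basK.linearIndependent
    rw [Fintype.linearIndependent_iff] at hli
    have h2 : ∀ i : Fin 3, C.bas.repr r (n - ((i : ℕ) : ℤ), i) = 0 :=
      hli (fun a => C.bas.repr r (n - ((a : ℕ) : ℤ), a)) (by
        rw [← h]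
        refine Finset.sum_congr rfl fun i _ => ?_
        rw [E.basK_eq])
    rcases lt_or_ge n (m + ((a : ℕ) : ℤ)) with h3 | h3
    · exact hr' m a h3
    · have : m = n - ((a : ℕ) : ℤ) := by omega
      rw [this]
      exact h2 a
  · intro h
    refine Finset.sum_eq_zero fun a _ => ?_
    rw [h (n - ((a : ℕ) : ℤ)) a (by omega), zero_smul]

theorem exists_lead (C : CubicRing k t R) (E : CubeRoot k t K) (n : ℤ) (z : K) :
    ∃ r ∈ C.Y n, C.lead E n r = z := by
  refine ⟨∑ a : Fin 3, E.basK.repr z a • C.bas (n - ((a : ℕ) : ℤ), a), ?_, ?_⟩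
  · refine Submodule.sum_mem _ fun a _ => Submodule.smul_mem _ _ (C.bas_mem_Y n _ a (by omega))
  · rw [map_sum]
    refine Eq.trans ?_ (E.basK.sum_repr z)
    refine Finset.sum_congr rfl fun a _ => ?_
    rw [map_smul, lead_bas, if_pos (by omega), E.basK_eq]

theorem lead_upow_mul (C : CubicRing k t R) (E : CubeRoot k t K) (j n : ℤ) (r : R) :
    C.lead E (n + j) (((C.u ^ j : Rˣ) : R) * r) = C.lead E n r := by
  have h : (C.lead E (n + j)).comp (LinearMap.mulLeft k ((C.u ^ j : Rˣ) : R)) = C.lead E n := by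
    refine C.bas.ext fun p => ?_
    obtain ⟨m, a⟩ := p
    rw [LinearMap.comp_apply, LinearMap.mulLeft_apply, lead_bas]
    have e : ((C.u ^ j : Rˣ) : R) * C.bas (m, a) = C.bas (j + m, a) := by
      rw [C.bas_eq, C.bas_eq, zpow_add, Units.val_mul, mul_assoc]
    rw [e, lead_bas]
    by_cases h : m + ((a : ℕ) : ℤ) = n
    · rw [if_pos h, if_pos (by omega)]
    · rw [if_neg h, if_neg (by omega)]
  have h2 := congrArg (fun f => f r) h
  simpa using h2

end CubicRing
end H36.NX
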