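import Pool.Agent.H36.NX.Val

/-!
# Mods : the complexes of Čech matrices as bundled objects `qSD C α β : SD k`, products, inclusion (`x`),
multiplication by `u` (`y`) and by `w` (`z`), value at the point `x = 0`, the dg algebra `AA`

`qv f : Pc → Matrix I J R` is the underlying matrix of `f : (qSD C α β).V`, and `qmk` the inverse construction.
-/

set_option autoImplicit false

open NC

namespace H36.NX

variable {k : Type} [Field k] {t : k} {R : Type} [CommRing R] [Algebra k R]
  {K : Type} [Field K] [Algebra k K] {I J L M : Type}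

/-- the complex `QQ α β` -/
noncomputable def qSD (C : CubicRing k t R) (α : I → ℤ) (β : J → ℤ) : SD k where
  V := QQ C α β
  D := (cD k (Matrix I J R)).restrict (fun a ha => cD_mem_QQ C α β a ha)
  P := (cP k (Matrix I J R)).restrict (fun a ha => cP_mem_QQ C α β a ha)
  DD v := Subtype.ext ((cSD k (Matrix I J R)).DD v.1)
  PP v := Subtype.ext ((cSD k (Matrix I J R)).PP v.1)
  DP v := Subtype.ext ((cSD k (Matrix I J R)).DP v.1)

/-- the underlying Čech matrix -/
noncomputable def qv (C : CubicRing k t R) (α : I → ℤ) (β : J → ℤ) :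
    (qSD C α β).V →ₗ[k] (Pc → Matrix I J R) where
  toFun f := Subtype.val (p := fun x => x ∈ QQ C α β) f
  map_add' _ _ := rfl
  map_smul' _ _ := rfl

/-- constructor -/
def qmk (C : CubicRing k t R) (α : I → ℤ) (β : J → ℤ) (f : Pc → Matrix I J R)
    (hf : f ∈ QQ C α β) : (qSD C α β).V :=
  Subtype.mk (p := fun x => x ∈ QQ C α β) f hf

section

variable (C : CubicRing k t R) {α : I → ℤ} {β : J → ℤ}

@[simp] theorem qv_qmk (f : Pc → Matrix I J R) (hf : f ∈ QQ C α β) :
    qv C α β (qmk C α β f hf) = f := rfl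

theorem qv_mem (f : (qSD C α β).V) : qv C α β f ∈ QQ C α β :=
  Subtype.property (p := fun x => x ∈ QQ C α β) f

theorem qv_injective : Function.Injective (qv C α β) :=
  fun _ _ h => Subtype.ext (p := fun x => x ∈ QQ C α β) h

theorem q_ext {f g : (qSD C α β).V} (h : qv C α β f = qv C α β g) : f = g :=
  qv_injective C h

@[simp] theorem qv_D (f : (qSD C α β).V) :
    qv C α β ((qSD C α β).D f) = cD k _ (qv C α β f) := rfl

@[simp] theorem qv_P (f : (qSD C α β).V) :
    qv C α β ((qSD C α β).P f) = cP k _ (qv C α β f) := rfl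

theorem qv_sub_P (f : (qSD C α β).V) :
    qv C α β (f - (qSD C α β).P f) = qv C α β f - cP k _ (qv C α β f) := by
  rw [map_sub, qv_P]

theorem qv_E (f : (qSD C α β).V) :
    qv C α β ((qSD C α β).E f) = cP k _ (qv C α β f) + cP k _ (qv C α β f) - qv C α β f := rfl

end

/-- a linear map between complexes of Čech matrices, from a linear map of matrices -/
noncomputable def qLin (C : CubicRing k t R) (α : I → ℤ) (β : J → ℤ) (α' : L → ℤ) (β' : M → ℤ)
    (g : (Pc → Matrix I J R) →ₗ[k] (Pc → Matrix L M R)) (hg : ∀ f ∈ QQ C α β, g f ∈ QQ C α' β') :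
    (qSD C α β).V →ₗ[k] (qSD C α' β').V where
  toFun f := qmk C α' β' (g (qv C α β f)) (hg _ (qv_mem C f))
  map_add' f f' := q_ext C (by
    change g (qv C α β (f + f')) = g (qv C α β f) + g (qv C α β f')
    rw [map_add, map_add])
  map_smul' c f := q_ext C (by
    change g (qv C α β (c • f)) = c • g (qv C α β f)
    rw [map_smul, map_smul])

@[simp] theorem qv_qLin (C : CubicRing k t R) (α : I → ℤ) (β : J → ℤ) (α' : L → ℤ) (β' : M → ℤ)
    (g : (Pc → Matrix I J R) →ₗ[k] (Pc → Matrix L M R)) (hg : ∀ f ∈ QQ C α β, g f ∈ QQ C α' β')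
    (f : (qSD C α β).V) : qv C α' β' (qLin C α β α' β' g hg f) = g (qv C α β f) := rfl

/-- the product of Čech matrices of sections -/
noncomputable def qMul (C : CubicRing k t R) [Fintype J] (α : I → ℤ) (β : J → ℤ) (γ : L → ℤ) :
    (qSD C α β).V →ₗ[k] (qSD C β γ).V →ₗ[k] (qSD C α γ).V :=
  LinearMap.mk₂ k (fun f g => qmk C α γ (cMul k (matMul k R I J L) (qv C α β f) (qv C β γ g))
      (mul_mem_QQ C α β γ _ (qv_mem C f) _ (qv_mem C g)))
    (fun f f' g => q_ext C (by
      change cMul k (matMul k R I J L) (qv C α β (f + f')) (qv C β γ g)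
        = cMul k (matMul k R I J L) (qv C α β f) (qv C β γ g)
          + cMul k (matMul k R I J L) (qv C α β f') (qv C β γ g)
      rw [map_add, map_add, LinearMap.add_apply]))
    (fun c f g => q_ext C (by
      change cMul k (matMul k R I J L) (qv C α β (c • f)) (qv C β γ g)
        = c • cMul k (matMul k R I J L) (qv C α β f) (qv C β γ g)
      rw [map_smul, map_smul, LinearMap.smul_apply]))
    (fun f g g' => q_ext C (by
      change cMul k (matMul k R I J L) (qv C α β f) (qv C β γ (g + g'))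
        = cMul k (matMul k R I J L) (qv C α β f) (qv C β γ g)
          + cMul k (matMul k R I J L) (qv C α β f) (qv C β γ g')
      rw [map_add, map_add]))
    (fun c f g => q_ext C (by
      change cMul k (matMul k R I J L) (qv C α β f) (qv C β γ (c • g))
        = c • cMul k (matMul k R I J L) (qv C α β f) (qv C β γ g)
      rw [map_smul, map_smul]))

@[simp] theorem qv_qMul (C : CubicRing k t R) [Fintype J] (α : I → ℤ) (β : J → ℤ) (γ : L → ℤ)
    (f : (qSD C α β).V) (g : (qSD C β γ).V) :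
    qv C α γ (qMul C α β γ f g) = cMul k (matMul k R I J L) (qv C α β f) (qv C β γ g) := rfl

/-- inclusion, the multiplication by `x` -/
noncomputable def qIn (C : CubicRing k t R) {α α' : I → ℤ} {β β' : J → ℤ}
    (h : ∀ i j, β j - α i ≤ β' j - α' i) : (qSD C α β).V →ₗ[k] (qSD C α' β').V :=
  qLin C α β α' β' LinearMap.id (fun _ hf => QQ_le C h hf)

@[simp] theorem qv_qIn (C : CubicRing k t R) {α α' : I → ℤ} {β β' : J → ℤ}
    (h : ∀ i j, β j - α i ≤ β' j - α' i) (f : (qSD C α β).V) :
    qv C α' β' (qIn C h f) = qv C α β f := by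
  unfold qIn
  rw [qv_qLin, LinearMap.id_apply]

/-- multiplication by `u`, that is by `y` -/
noncomputable def qU (C : CubicRing k t R) {α α' : I → ℤ} {β β' : J → ℤ}
    (h : ∀ i j, β j - α i + 1 = β' j - α' i) : (qSD C α β).V →ₗ[k] (qSD C α' β').V :=
  qLin C α β α' β' (smulR k I J (C.u : R)) (fun _ hf => u_smul_mem_QQ C h hf)

@[simp] theorem qv_qU (C : CubicRing k t R) {α α' : I → ℤ} {β β' : J → ℤ}
    (h : ∀ i j, β j - α i + 1 = β' j - α' i) (f : (qSD C α β).V) :
    qv C α' β' (qU C h f) = smulR k I J (C.u : R) (qv C α β f) := by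
  unfold qU
  rw [qv_qLin]

/-- multiplication by `w`, that is by `z` -/
noncomputable def qW (C : CubicRing k t R) {α α' : I → ℤ} {β β' : J → ℤ}
    (h : ∀ i j, β j - α i + 1 = β' j - α' i) : (qSD C α β).V →ₗ[k] (qSD C α' β').V :=
  qLin C α β α' β' (smulR k I J C.w) (fun _ hf => w_smul_mem_QQ C h hf)

@[simp] theorem qv_qW (C : CubicRing k t R) {α α' : I → ℤ} {β β' : J → ℤ}
    (h : ∀ i j, β j - α i + 1 = β' j - α' i) (f : (qSD C α β).V) :
    qv C α' β' (qW C h f) = smulR k I J C.w (qv C α β f) := by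
  unfold qW
  rw [qv_qLin]

/-- the value at the point `x = 0` -/
noncomputable def qVal (C : CubicRing k t R) (E : CubeRoot k t K) (α : I → ℤ) (β : J → ℤ) :
    (qSD C α β).V →ₗ[k] Matrix I J K :=
  (val C E α β).comp (qv C α β)

theorem qVal_apply (C : CubicRing k t R) (E : CubeRoot k t K) (α : I → ℤ) (β : J → ℤ)
    (f : (qSD C α β).V) : qVal C E α β f = val C E α β (qv C α β f) := rfl

theorem qVal_mul (C : CubicRing k t R) (E : CubeRoot k t K) [Fintype J] (α : I → ℤ) (β : J → ℤ)
    (γ : L → ℤ) (f : (qSD C α β).V) (g : (qSD C β γ).V) :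
    qVal C E α γ (qMul C α β γ f g) = qVal C E α β f * qVal C E β γ g :=
  val_mul C E α β γ (qv_mem C f) (qv_mem C g)

/-- the weights `n`, `n + 1` -/
def wtn (n : ℤ) (i : Fin 2) : ℤ := ((i : ℕ) : ℤ) + n

/-- the column module `L m` (entry `i` in `O(m - i)`) -/
noncomputable abbrev Lc (C : CubicRing k t R) (m : ℤ) : SD k := qSD C wt (fun _ : Unit => m)

/-- the row module `P n` (entry `j` in `O(j + n)`) -/
noncomputable abbrev Pr (C : CubicRing k t R) (n : ℤ) : SD k :=
  qSD C (fun _ : Unit => (0 : ℤ)) (wtn n)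

/-- `x : L m → L (m+1)` -/
noncomputable def lIn (C : CubicRing k t R) (m : ℤ) : (Lc C m).V →ₗ[k] (Lc C (m + 1)).V :=
  qIn C (fun i _ => by linarith)

/-- `y : L m → L (m+1)` -/
noncomputable def lU (C : CubicRing k t R) (m : ℤ) : (Lc C m).V →ₗ[k] (Lc C (m + 1)).V :=
  qU C (fun i _ => by ring)

/-- `x : P n → P (n+1)` -/
noncomputable def rIn (C : CubicRing k t R) (n : ℤ) : (Pr C n).V →ₗ[k] (Pr C (n + 1)).V :=
  qIn C (fun _ j => by simp [wtn])

/-- `y : P n → P (n+1)` -/
noncomputable def rU (C : CubicRing k t R) (n : ℤ) : (Pr C n).V →ₗ[k] (Pr C (n + 1)).V :=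
  qU C (fun _ j => by simp [wtn, add_assoc])

/-- `z : P n → P (n+1)` -/
noncomputable def rW (C : CubicRing k t R) (n : ℤ) : (Pr C n).V →ₗ[k] (Pr C (n + 1)).V :=
  qW C (fun _ j => by simp [wtn, add_assoc])

end H36.NX
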