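import Pool.Agent.H36.NX.Split

/-!
# SplitB : the value at `P` on `K ⊗ Y n`, and divisibility by `ell` (step S3)

In the chart `y ≠ 0` (`v = 1/u`, `w' = w/u`): `w'^3 = t^2 v^2 w' + t + t^2 v + t^2 v^3`, hence
`t^2 v (v^2 + α v + 1) = (w' - α) (α^2 + α w' + w'^2 - t^2 v^2)` in `K ⊗ R`.
-/

set_option autoImplicit false

open scoped TensorProduct

namespace H36.NX
namespace CubicRing

variable {k : Type} [Field k] {t : k} {R : Type} [CommRing R] [Algebra k R]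
variable {K : Type} [Field K] [Algebra k K]

private theorem tmul_mem_VY (C : CubicRing k t R) {n : ℤ} (c : K) {r : R} (hr : r ∈ C.Y n) :
    c ⊗ₜ[k] r ∈ C.VY K n := by
  refine ⟨c ⊗ₜ[k] (⟨r, hr⟩ : C.Y n), ?_⟩
  rw [TensorProduct.map_tmul]
  rfl

private theorem VY_ind (C : CubicRing k t R) {n : ℤ} {Q : K ⊗[k] R → Prop} (h0 : Q 0)
    (ht : ∀ (c : K) (r : R), r ∈ C.Y n → Q (c ⊗ₜ[k] r)) (ha : ∀ x y, Q x → Q y → Q (x + y))
    {z : K ⊗[k] R} (h : z ∈ C.VY K n) : Q z := by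
  obtain ⟨x, rfl⟩ := h
  induction x using TensorProduct.induction_on with
  | zero => rw [map_zero]; exact h0
  | tmul c y =>
    rw [TensorProduct.map_tmul]
    exact ht c y.1 y.2
  | add x y hx hy =>
    rw [map_add]
    exact ha _ _ hx hy

private theorem VY_mul (C : CubicRing k t R) {m n : ℤ} {x y : K ⊗[k] R}
    (hx : x ∈ C.VY K m) (hy : y ∈ C.VY K n) : x * y ∈ C.VY K (m + n) := by
  refine C.VY_ind (Q := fun x => x * y ∈ C.VY K (m + n)) ?_ ?_ ?_ hx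
  · rw [zero_mul]
    exact zero_mem _
  · intro c r hr
    refine C.VY_ind (Q := fun y => c ⊗ₜ[k] r * y ∈ C.VY K (m + n)) ?_ ?_ ?_ hy
    · rw [mul_zero]
      exact zero_mem _
    · intro d s hs
      rw [Algebra.TensorProduct.tmul_mul_tmul]
      exact C.tmul_mem_VY _ (C.mul_mem_Y hr hs)
    · intro a b ha hb
      rw [mul_add]
      exact add_mem ha hb
  · intro a b ha hb
    rw [add_mul]
    exact add_mem ha hb

private theorem VY_mono (C : CubicRing k t R) {m n : ℤ} (h : m ≤ n) {x : K ⊗[k] R}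
    (hx : x ∈ C.VY K m) : x ∈ C.VY K n := by
  refine C.VY_ind (Q := fun x => x ∈ C.VY K n) (zero_mem _) ?_ (fun a b ha hb => add_mem ha hb) hx
  intro c r hr
  exact C.tmul_mem_VY c (C.Y_mono h hr)

private theorem vlead_tmul (C : CubicRing k t R) (E : CubeRoot k t K) (n : ℤ) (c : K) (r : R) :
    C.vlead E n (c ⊗ₜ[k] r) = c * C.lead E n r := by
  unfold vlead
  rw [LinearMap.comp_apply, TensorProduct.map_tmul, LinearMap.mul'_apply]
  rfl

private theorem lead_upow (C : CubicRing k t R) (E : CubeRoot k t K) (n m : ℤ) :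
    C.lead E n ((C.u ^ m : Rˣ) : R) = if m = n then 1 else 0 := by
  have h := C.lead_bas E n m 0
  rw [C.bas_eq] at h
  have e : (((0 : Fin 3) : ℕ)) = 0 := rfl
  rw [e, pow_zero, mul_one, Nat.cast_zero, add_zero, pow_zero] at h
  exact h

private theorem quad_expand (C : CubicRing k t R) (E : CubeRoot k t K) :
    C.quad E = (1 : K) ⊗ₜ[k] ((C.u : R) ^ 2) + E.α ⊗ₜ[k] (C.u : R) + (1 : K) ⊗ₜ[k] (1 : R) := by
  unfold quad
  rw [Algebra.TensorProduct.tmul_pow, one_pow]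

/-- the cofactor of `ell` -/
private noncomputable def cof (C : CubicRing k t R) (E : CubeRoot k t K) : K ⊗[k] R :=
  (E.α ^ 2) ⊗ₜ[k] ((C.u : R) ^ 2) + E.α ⊗ₜ[k] ((C.u : R) * C.w)
      + (1 : K) ⊗ₜ[k] (C.w ^ 2 - algebraMap k R (t ^ 2))

private theorem ell_cof (C : CubicRing k t R) (E : CubeRoot k t K) :
    C.ell E * C.cof E = t ^ 2 • C.quad E := by
  rw [quad_expand]
  unfold ell cof
  obtain ⟨A, hA⟩ : ∃ A : K ⊗[k] R, A = E.α ⊗ₜ[k] (1 : R) := ⟨_, rfl⟩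
  obtain ⟨U, hU⟩ : ∃ U : K ⊗[k] R, U = (1 : K) ⊗ₜ[k] (C.u : R) := ⟨_, rfl⟩
  obtain ⟨W, hW⟩ : ∃ W : K ⊗[k] R, W = (1 : K) ⊗ₜ[k] C.w := ⟨_, rfl⟩
  obtain ⟨T, hT⟩ : ∃ T : K ⊗[k] R, T = algebraMap k (K ⊗[k] R) t := ⟨_, rfl⟩
  have e1 : E.α ⊗ₜ[k] (C.u : R) = A * U := by
    rw [hA, hU, Algebra.TensorProduct.tmul_mul_tmul, mul_one, one_mul]
  have e2 : (E.α ^ 2) ⊗ₜ[k] ((C.u : R) ^ 2) = A ^ 2 * U ^ 2 := by
    rw [hA, hU, Algebra.TensorProduct.tmul_pow, Algebra.TensorProduct.tmul_pow,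
      Algebra.TensorProduct.tmul_mul_tmul, one_pow, one_pow, mul_one, one_mul]
  have e3 : E.α ⊗ₜ[k] ((C.u : R) * C.w) = A * U * W := by
    rw [hA, hU, hW, Algebra.TensorProduct.tmul_mul_tmul, Algebra.TensorProduct.tmul_mul_tmul,
      mul_one, mul_one, one_mul]
  have e4 : (1 : K) ⊗ₜ[k] ((C.u : R) ^ 2) = U ^ 2 := by
    rw [hU, Algebra.TensorProduct.tmul_pow, one_pow]
  have e5 : (1 : K) ⊗ₜ[k] (C.w ^ 2 - algebraMap k R (t ^ 2)) = W ^ 2 - T ^ 2 := by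
    rw [TensorProduct.tmul_sub, hW, Algebra.TensorProduct.tmul_pow, one_pow, hT, ← map_pow,
      Algebra.TensorProduct.algebraMap_apply, Algebra.algebraMap_eq_smul_one (t ^ 2),
      Algebra.algebraMap_eq_smul_one (t ^ 2), TensorProduct.tmul_smul, TensorProduct.smul_tmul']
  have e6 : (1 : K) ⊗ₜ[k] (1 : R) = 1 := rfl
  have e7 : t ^ 2 • (U ^ 2 + A * U + 1) = T ^ 2 * (U ^ 2 + A * U + 1) := by
    rw [hT, ← map_pow, ← Algebra.smul_def]
  have h3 : A ^ 3 = T := by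
    rw [hA, Algebra.TensorProduct.tmul_pow, one_pow, E.cube, hT,
      Algebra.TensorProduct.algebraMap_apply]
  have hc : ∀ c : k, ∀ r : R, (1 : K) ⊗ₜ[k] (algebraMap k R c * r)
      = algebraMap k (K ⊗[k] R) c * ((1 : K) ⊗ₜ[k] r) := by
    intro c r
    rw [← Algebra.smul_def, ← Algebra.smul_def, TensorProduct.tmul_smul]
  have hc1 : ∀ c : k, (1 : K) ⊗ₜ[k] (algebraMap k R c)
      = algebraMap k (K ⊗[k] R) c := by
    intro c
    have := hc c 1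
    rw [mul_one, e6, mul_one] at this
    exact this
  have h4 : W ^ 3 = T ^ 2 * W + T * U ^ 3 + T ^ 2 * U ^ 2 + T ^ 2 := by
    rw [hW, Algebra.TensorProduct.tmul_pow, one_pow, C.rel, TensorProduct.tmul_add,
      TensorProduct.tmul_add, TensorProduct.tmul_add, hc, hc, hc, hc1, hT, hU,
      Algebra.TensorProduct.tmul_pow, Algebra.TensorProduct.tmul_pow, one_pow, one_pow, map_pow]
  rw [e1, e2, e3, e4, e5, e6, e7, ← hW]
  linear_combination h4 - U ^ 3 * h3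

private theorem eps_expand (C : CubicRing k t R) (E : CubeRoot k t K) :
    C.eps E = (1 : K) ⊗ₜ[k] (1 : R) + E.α ⊗ₜ[k] ((C.u ^ (-1 : ℤ) : Rˣ) : R)
      + (1 : K) ⊗ₜ[k] ((C.u ^ (-2 : ℤ) : Rˣ) : R) := by
  unfold eps
  rw [quad_expand, mul_add, mul_add, Algebra.TensorProduct.tmul_mul_tmul, Algebra.TensorProduct.tmul_mul_tmul,
    Algebra.TensorProduct.tmul_mul_tmul, one_mul, one_mul, mul_one]
  have e1 : ((C.u ^ (-2 : ℤ) : Rˣ) : R) * (C.u : R) ^ 2 = 1 := by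
    rw [← Units.val_pow_eq_pow_val, ← Units.val_mul, ← zpow_natCast, ← zpow_add]
    norm_num
  have e2 : ((C.u ^ (-2 : ℤ) : Rˣ) : R) * (C.u : R) = ((C.u ^ (-1 : ℤ) : Rˣ) : R) := by
    rw [← Units.val_mul]
    congr 1
    rw [← zpow_add_one]
    norm_num
  rw [e1, e2]

theorem vlead_ell (C : CubicRing k t R) (E : CubeRoot k t K) {n : ℤ} {z : K ⊗[k] R}
    (h : z ∈ C.VY K n) : C.vlead E (n + 1) (C.ell E * z) = 0 := by
  refine C.VY_ind (Q := fun z => C.vlead E (n + 1) (C.ell E * z) = 0) ?_ ?_ ?_ h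
  · rw [mul_zero, map_zero]
  · intro c r hr
    unfold ell
    rw [sub_mul, Algebra.TensorProduct.tmul_mul_tmul, Algebra.TensorProduct.tmul_mul_tmul, map_sub,
      vlead_tmul, vlead_tmul, mul_comm C.w r, mul_comm (C.u : R) r,
      C.lead_mul E hr (C.w_mem_Y le_rfl), C.lead_w]
    have hu : (C.u : R) ∈ C.Y 1 := by
      have := C.upow_mem_Y (le_refl (1 : ℤ))
      rwa [zpow_one] at this
    rw [C.lead_mul E hr hu, C.lead_u]
    ring
  · intro x y hx hy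
    rw [mul_add, map_add, hx, hy, add_zero]

theorem vlead_eps (C : CubicRing k t R) (E : CubeRoot k t K) (c : K) (n : ℤ) :
    C.vlead E n ((c ⊗ₜ[k] ((C.u ^ n : Rˣ) : R)) * C.eps E) = c := by
  rw [eps_expand, mul_add, mul_add, Algebra.TensorProduct.tmul_mul_tmul,
    Algebra.TensorProduct.tmul_mul_tmul, Algebra.TensorProduct.tmul_mul_tmul, mul_one, mul_one,
    ← Units.val_mul, ← Units.val_mul, ← zpow_add, ← zpow_add, map_add, map_add, vlead_tmul,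
    vlead_tmul, vlead_tmul, lead_upow, lead_upow, lead_upow, if_pos rfl, if_neg (by omega),
    if_neg (by omega), mul_one, mul_zero, mul_zero, add_zero, add_zero]

/-- `eps` is divisible by `ell` in `K ⊗ R` -/
theorem eps_eq (C : CubicRing k t R) (E : CubeRoot k t K) [CharP k 3] (ht : t ≠ 0) :
    ∃ z : K ⊗[k] R, C.eps E = C.ell E * z := by
  have h := C.ell_cof E
  have ht2 : t ^ 2 ≠ 0 := pow_ne_zero 2 ht
  refine ⟨(t ^ 2)⁻¹ • (((1 : K) ⊗ₜ[k] ((C.u ^ (-2 : ℤ) : Rˣ) : R)) * C.cof E), ?_⟩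
  rw [mul_smul_comm, mul_left_comm, h, mul_smul_comm, smul_smul, inv_mul_cancel₀ ht2, one_smul]
  rfl

private theorem v_eps (C : CubicRing k t R) (E : CubeRoot k t K) [CharP k 3] (ht : t ≠ 0) :
    ∃ q ∈ C.VY K (-1), ((1 : K) ⊗ₜ[k] ((C.u ^ (-1 : ℤ) : Rˣ) : R)) * C.eps E = C.ell E * q := by
  have h := C.ell_cof E
  have ht2 : t ^ 2 ≠ 0 := pow_ne_zero 2 ht
  have hu : (C.u : R) ∈ C.Y 1 := by
    have := C.upow_mem_Y (le_refl (1 : ℤ))
    rwa [zpow_one] at this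
  have hw : C.w ∈ C.Y 1 := C.w_mem_Y le_rfl
  have e11 : (1 : ℤ) + 1 = 2 := by norm_num
  have hS : C.cof E ∈ C.VY K 2 := by
    unfold cof
    refine add_mem (add_mem (C.tmul_mem_VY _ ?_) (C.tmul_mem_VY _ ?_)) (C.tmul_mem_VY _ ?_)
    · have h2 := C.mul_mem_Y hu hu
      rw [e11, ← pow_two] at h2
      exact h2
    · have h2 := C.mul_mem_Y hu hw
      rw [e11] at h2
      exact h2
    · refine sub_mem ?_ ?_
      · have h2 := C.mul_mem_Y hw hw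
        rw [e11, ← pow_two] at h2
        exact h2
      · rw [Algebra.algebraMap_eq_smul_one]
        exact Submodule.smul_mem _ _ (C.one_mem_Y (by norm_num))
  refine ⟨(t ^ 2)⁻¹ • (((1 : K) ⊗ₜ[k] ((C.u ^ (-3 : ℤ) : Rˣ) : R)) * C.cof E), ?_, ?_⟩
  · refine Submodule.smul_mem _ _ ?_
    have := C.VY_mul (C.tmul_mem_VY (1 : K) (C.upow_mem_Y (le_refl (-3 : ℤ)))) hS
    have e : (-3 : ℤ) + 2 = -1 := by norm_num
    rwa [e] at this
  · rw [mul_smul_comm, mul_left_comm, h, mul_smul_comm, smul_smul, inv_mul_cancel₀ ht2, one_smul]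
    unfold eps
    rw [← mul_assoc, Algebra.TensorProduct.tmul_mul_tmul, one_mul, ← Units.val_mul, ← zpow_add]
    norm_num

private theorem decomp (C : CubicRing k t R) (E : CubeRoot k t K) (n : ℤ) {z : K ⊗[k] R}
    (h : z ∈ C.VY K n) : ∃ z1 ∈ C.VY K n, ∃ z2 ∈ C.VY K (n - 1),
      z = (C.vlead E n z) ⊗ₜ[k] ((C.u ^ n : Rˣ) : R)
        + ((1 : K) ⊗ₜ[k] ((C.u ^ (-1 : ℤ) : Rˣ) : R)) * (C.ell E * z1) + z2 := by
  have hadd : ∀ x y : K ⊗[k] R,
      (∃ z1 ∈ C.VY K n, ∃ z2 ∈ C.VY K (n - 1),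
      x = (C.vlead E n x) ⊗ₜ[k] ((C.u ^ n : Rˣ) : R)
        + ((1 : K) ⊗ₜ[k] ((C.u ^ (-1 : ℤ) : Rˣ) : R)) * (C.ell E * z1) + z2) →
      (∃ z1 ∈ C.VY K n, ∃ z2 ∈ C.VY K (n - 1),
      y = (C.vlead E n y) ⊗ₜ[k] ((C.u ^ n : Rˣ) : R)
        + ((1 : K) ⊗ₜ[k] ((C.u ^ (-1 : ℤ) : Rˣ) : R)) * (C.ell E * z1) + z2) →
      ∃ z1 ∈ C.VY K n, ∃ z2 ∈ C.VY K (n - 1),
      x + y = (C.vlead E n (x + y)) ⊗ₜ[k] ((C.u ^ n : Rˣ) : R)
        + ((1 : K) ⊗ₜ[k] ((C.u ^ (-1 : ℤ) : Rˣ) : R)) * (C.ell E * z1) + z2 := by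
    rintro x y ⟨x1, hx1, x2, hx2, hx⟩ ⟨y1, hy1, y2, hy2, hy⟩
    refine ⟨x1 + y1, add_mem hx1 hy1, x2 + y2, add_mem hx2 hy2, ?_⟩
    rw [map_add, TensorProduct.add_tmul, mul_add, mul_add]
    calc x + y = ((C.vlead E n x) ⊗ₜ[k] ((C.u ^ n : Rˣ) : R)
        + ((1 : K) ⊗ₜ[k] ((C.u ^ (-1 : ℤ) : Rˣ) : R)) * (C.ell E * x1) + x2)
        + ((C.vlead E n y) ⊗ₜ[k] ((C.u ^ n : Rˣ) : R)
        + ((1 : K) ⊗ₜ[k] ((C.u ^ (-1 : ℤ) : Rˣ) : R)) * (C.ell E * y1) + y2) := by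
          rw [← hx, ← hy]
      _ = _ := by abel
  have hzero : ∃ z1 ∈ C.VY K n, ∃ z2 ∈ C.VY K (n - 1),
      (0 : K ⊗[k] R) = (C.vlead E n 0) ⊗ₜ[k] ((C.u ^ n : Rˣ) : R)
        + ((1 : K) ⊗ₜ[k] ((C.u ^ (-1 : ℤ) : Rˣ) : R)) * (C.ell E * z1) + z2 := by
    refine ⟨0, zero_mem _, 0, zero_mem _, ?_⟩
    rw [map_zero, TensorProduct.zero_tmul, mul_zero, mul_zero, add_zero, add_zero]
  refine C.VY_ind (Q := fun z => ∃ z1 ∈ C.VY K n, ∃ z2 ∈ C.VY K (n - 1),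
      z = (C.vlead E n z) ⊗ₜ[k] ((C.u ^ n : Rˣ) : R)
        + ((1 : K) ⊗ₜ[k] ((C.u ^ (-1 : ℤ) : Rˣ) : R)) * (C.ell E * z1) + z2) hzero ?_ hadd h
  intro c r hr
  have hgen : ∀ (p : ℕ) (a : Fin 3) (c : K), ∃ z1 ∈ C.VY K n, ∃ z2 ∈ C.VY K (n - 1),
      c ⊗ₜ[k] C.bas (n - ((a : ℕ) : ℤ) - (p : ℤ), a)
        = (C.vlead E n (c ⊗ₜ[k] C.bas (n - ((a : ℕ) : ℤ) - (p : ℤ), a)))
          ⊗ₜ[k] ((C.u ^ n : Rˣ) : R)
        + ((1 : K) ⊗ₜ[k] ((C.u ^ (-1 : ℤ) : Rˣ) : R)) * (C.ell E * z1) + z2 := by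
    intro p a c
    rcases Nat.eq_zero_or_pos p with hp | hp
    · subst hp
      rw [vlead_tmul, lead_bas, Nat.cast_zero, sub_zero, if_pos (by ring), C.bas_eq]
      have hY : ∀ b : Fin 3, ((C.u ^ (n - ((b : ℕ) : ℤ)) : Rˣ) : R) * C.w ^ (b : ℕ) ∈ C.Y n := by
        intro b
        rw [← C.bas_eq]
        exact C.bas_mem_Y n _ b (by ring_nf; exact le_rfl)
      have key : ∀ (d : K) (j : ℤ) (i : ℕ),
          ((1 : K) ⊗ₜ[k] ((C.u ^ (-1 : ℤ) : Rˣ) : R)) *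
            (C.ell E * (d ⊗ₜ[k] (((C.u ^ j : Rˣ) : R) * C.w ^ i)))
          = d ⊗ₜ[k] (((C.u ^ (j - 1) : Rˣ) : R) * C.w ^ (i + 1))
            - (d * E.α) ⊗ₜ[k] (((C.u ^ j : Rˣ) : R) * C.w ^ i) := by
        intro d j i
        unfold ell
        rw [sub_mul, mul_sub, Algebra.TensorProduct.tmul_mul_tmul,
          Algebra.TensorProduct.tmul_mul_tmul, Algebra.TensorProduct.tmul_mul_tmul,
          Algebra.TensorProduct.tmul_mul_tmul, one_mul, one_mul, one_mul, mul_comm E.α d]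
        congr 2
        · have e : ((C.u ^ (j - 1) : Rˣ) : R) = ((C.u ^ (-1 : ℤ) : Rˣ) : R) * ((C.u ^ j : Rˣ) : R) := by
            rw [← Units.val_mul, ← zpow_add]
            congr 2
            ring
          rw [e, pow_succ]
          ring
        · have e : ((C.u ^ (-1 : ℤ) : Rˣ) : R) * (C.u : R) = 1 := by
            rw [← Units.val_mul, ← zpow_add_one]
            norm_num
          rw [← mul_assoc, e, one_mul]
      fin_cases a
      · refine ⟨0, zero_mem _, 0, zero_mem _, ?_⟩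
        simp
      · refine ⟨c ⊗ₜ[k] (((C.u ^ n : Rˣ) : R) * C.w ^ 0), ?_, 0, zero_mem _, ?_⟩
        · have := hY 0
          simp only [Fin.val_zero, Nat.cast_zero, sub_zero] at this
          exact C.tmul_mem_VY c this
        · rw [key]
          simp
      · refine ⟨c ⊗ₜ[k] (((C.u ^ (n - 1) : Rˣ) : R) * C.w ^ 1)
          + (c * E.α) ⊗ₜ[k] (((C.u ^ n : Rˣ) : R) * C.w ^ 0), ?_, 0, zero_mem _, ?_⟩
        · refine add_mem ?_ ?_
          · have := hY 1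
            simp only [Fin.val_one, Nat.cast_one] at this
            exact C.tmul_mem_VY c this
          · have := hY 0
            simp only [Fin.val_zero, Nat.cast_zero, sub_zero] at this
            exact C.tmul_mem_VY _ this
        · rw [mul_add, mul_add, key, key]
          have e2 : (((⟨2, by norm_num⟩ : Fin 3) : ℕ) : ℤ) = 2 := rfl
          simp only [e2]
          have e1 : n - 1 - 1 = n - 2 := by ring
          rw [e1, zero_add, pow_one, pow_zero, mul_one, mul_assoc c E.α E.α, ← pow_two]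
          abel
    · refine ⟨0, zero_mem _, c ⊗ₜ[k] C.bas (n - ((a : ℕ) : ℤ) - (p : ℤ), a), ?_, ?_⟩
      · exact C.tmul_mem_VY c (C.bas_mem_Y _ _ a (by omega))
      · rw [vlead_tmul, lead_bas, if_neg (by omega), mul_zero, TensorProduct.zero_tmul, mul_zero,
          mul_zero, zero_add, zero_add]
  unfold Y at hr
  induction hr using Submodule.span_induction generalizing c with
  | mem x hx =>
    obtain ⟨p, rfl⟩ := hx
    exact hgen p.1 p.2 c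
  | zero =>
    rw [TensorProduct.tmul_zero]
    exact hzero
  | add x y hx hy ihx ihy =>
    rw [TensorProduct.tmul_add]
    exact hadd _ _ (ihx c) (ihy c)
  | smul b x hx ih =>
    rw [← TensorProduct.smul_tmul]
    exact ih (b • c)

/-- the kernel of the value at `P` is generated by `v = u^(-1)` and `w/u - α`; `v * eps` is a multiple of `w/u - α` -/
theorem mul_eps_mem (C : CubicRing k t R) (E : CubeRoot k t K) [CharP k 3] (ht : t ≠ 0)
    {n : ℤ} {z : K ⊗[k] R} (h : z ∈ C.VY K n) (h0 : C.vlead E n z = 0) :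
    ∃ y ∈ C.VY K (n - 1), z * C.eps E = C.ell E * y := by
  obtain ⟨z1, hz1, z2, hz2, hz⟩ := C.decomp E n h
  rw [h0, TensorProduct.zero_tmul, zero_add] at hz
  obtain ⟨q, hq, hv⟩ := C.v_eps E ht
  have hu : (1 : K) ⊗ₜ[k] (C.u : R) ∈ C.VY K 1 := by
    have := C.upow_mem_Y (le_refl (1 : ℤ))
    rw [zpow_one] at this
    exact C.tmul_mem_VY _ this
  have huv : ((1 : K) ⊗ₜ[k] (C.u : R)) * ((1 : K) ⊗ₜ[k] ((C.u ^ (-1 : ℤ) : Rˣ) : R)) = 1 := by
    rw [Algebra.TensorProduct.tmul_mul_tmul, one_mul, ← Units.val_mul, zpow_neg_one,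
      mul_inv_cancel, Units.val_one]
    rfl
  refine ⟨((1 : K) ⊗ₜ[k] ((C.u ^ (-1 : ℤ) : Rˣ) : R)) * z1 * C.eps E
    + ((1 : K) ⊗ₜ[k] (C.u : R)) * z2 * q, add_mem ?_ ?_, ?_⟩
  · have h1 := C.VY_mul (C.VY_mul (C.tmul_mem_VY (1 : K) (C.upow_mem_Y (le_refl (-1 : ℤ)))) hz1)
      (C.eps_mem_VY E)
    have e : (-1 : ℤ) + n + 0 = n - 1 := by ring
    rwa [e] at h1
  · have h1 := C.VY_mul (C.VY_mul hu hz2) hq
    have e : (1 : ℤ) + (n - 1) + -1 = n - 1 := by ring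
    rwa [e] at h1
  · have h2 : z2 * C.eps E = C.ell E * (((1 : K) ⊗ₜ[k] (C.u : R)) * z2 * q) := by
      calc z2 * C.eps E = (((1 : K) ⊗ₜ[k] (C.u : R)) *
            ((1 : K) ⊗ₜ[k] ((C.u ^ (-1 : ℤ) : Rˣ) : R))) * (z2 * C.eps E) := by
              rw [huv, one_mul]
        _ = ((1 : K) ⊗ₜ[k] (C.u : R)) * z2 *
            (((1 : K) ⊗ₜ[k] ((C.u ^ (-1 : ℤ) : Rˣ) : R)) * C.eps E) := by ring
        _ = _ := by rw [hv]; ring
    rw [hz, add_mul, h2]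
    ring

end CubicRing
end H36.NX
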