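import Pool.Agent.H36.NX.Mods
import Pool.Agent.H36.NX.SplitB
import Pool.Agent.H36.NX.TensPi

/-!
# PtSplit : the bimodule of the point `x = 0` is a direct factor of the cokernel of `ell` on `K^2 ⊗ P n` (step S3)

`VV n = K^2 ⊗ P n` (`K^2` = columns, `A` acts on the left through the value at the point, on the right on
`P n` = rows of weights `j + n`), `ellMap = 1 ⊗ w - α ⊗ u : VV n → VV (n+1)`.
All facts are componentwise: `vcomp i s j : VV n → K ⊗ R`, use `tcomp_injective`, `tcomp_surjective` and the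
files Split, SplitB (`range (map ⊤.subtype (Y n).subtype) = VY K n`).
WARNING: never let Lean unify `(qSD C α β).V` with different weights (it may run forever); use `q_ext`, `qv_*`.
-/

set_option autoImplicit false

open NC
open scoped TensorProduct

namespace H36.NX

variable {k : Type} [Field k] {t : k} {R : Type} [CommRing R] [Algebra k R]
  {K : Type} [Field K] [Algebra k K]

/-- `K^2 ⊗ P n` -/
abbrev VV (C : CubicRing k t R) (K : Type) [Field K] [Algebra k K] (n : ℤ) : Type :=
  Matrix (Fin 2) Unit K ⊗[k] (Pr C n).V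

/-- multiplication by `α` -/
noncomputable def alMap (E : CubeRoot k t K) : Matrix (Fin 2) Unit K →ₗ[k] Matrix (Fin 2) Unit K where
  toFun c := E.α • c
  map_add' x y := smul_add _ _ _
  map_smul' c x := by ext i j; simp

/-- `1 ⊗ w - α ⊗ u` -/
noncomputable def ellMap (C : CubicRing k t R) (E : CubeRoot k t K) (n : ℤ) :
    VV C K n →ₗ[k] VV C K (n + 1) :=
  TensorProduct.map LinearMap.id (rW C n) - TensorProduct.map (alMap E) (rU C n)

/-- entry of a column -/
def cEnt (k K : Type) [Field k] [Field K] [Algebra k K] (i : Fin 2) :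
    Matrix (Fin 2) Unit K →ₗ[k] K where
  toFun c := c i ()
  map_add' _ _ := rfl
  map_smul' _ _ := rfl

/-- entry of a row -/
noncomputable def rEnt (C : CubicRing k t R) (n : ℤ) (s : Pc) (j : Fin 2) :
    (Pr C n).V →ₗ[k] R where
  toFun f := qv C (fun _ : Unit => (0 : ℤ)) (wtn n) f s () j
  map_add' _ _ := rfl
  map_smul' _ _ := rfl

/-- the component `(i, s, j)` of an element of `K^2 ⊗ P n` -/
noncomputable def vcomp (C : CubicRing k t R) (K : Type) [Field K] [Algebra k K] (n : ℤ)
    (i : Fin 2) (s : Pc) (j : Fin 2) : VV C K n →ₗ[k] K ⊗[k] R :=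
  TensorProduct.map (cEnt k K i) (rEnt C n s j)

/-- the entries of a column -/
private def colE (k K : Type) [Field k] [Field K] [Algebra k K] :
    Matrix (Fin 2) Unit K →ₗ[k] (Fin 2 → K) where
  toFun c := fun i => c i ()
  map_add' _ _ := rfl
  map_smul' _ _ := rfl

/-- the entries of a row -/
private noncomputable def rowE (C : CubicRing k t R) (n : ℤ) :
    (Pr C n).V →ₗ[k] (Pc × Fin 2 → R) where
  toFun f := fun p => rEnt C n p.1 p.2 f
  map_add' f g := by
    funext p
    exact map_add (rEnt C n p.1 p.2) f g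
  map_smul' c f := by
    funext p
    exact map_smul (rEnt C n p.1 p.2) c f

private theorem colE_injective : Function.Injective (colE k K) := by
  intro c c' h
  ext i u
  exact congrFun h i

private theorem rowE_injective (C : CubicRing k t R) (n : ℤ) :
    Function.Injective (rowE C n) := by
  intro f g h
  apply q_ext C
  funext s
  ext u j
  exact congrFun h (s, j)

private theorem vcomp_eq_tcomp (C : CubicRing k t R) (n : ℤ) (i : Fin 2) (s : Pc) (j : Fin 2) :
    vcomp C K n i s j = tcomp (colE k K) (rowE C n) i (s, j) := by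
  unfold vcomp tcomp
  congr 1

private theorem rEnt_mem (C : CubicRing k t R) (n : ℤ) (s : Pc) (j : Fin 2) (f : (Pr C n).V) :
    rEnt C n s j f ∈ C.pc s (wtn n j) := by
  have h := qv_mem C f s () j
  rw [sub_zero] at h
  exact h

theorem vcomp_injective (C : CubicRing k t R) (n : ℤ) (z : VV C K n)
    (h : ∀ i s j, vcomp C K n i s j z = 0) : z = 0 := by
  refine tcomp_injective (colE k K) (rowE C n) colE_injective (rowE_injective C n) z ?_
  rintro a ⟨s, j⟩
  rw [← vcomp_eq_tcomp]
  exact h a s j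

private theorem vcomp_mem_gen (C : CubicRing k t R) (n : ℤ) (z : VV C K n) (i : Fin 2) (s : Pc)
    (j : Fin 2) : vcomp C K n i s j z ∈
      LinearMap.range (TensorProduct.map (LinearMap.id : K →ₗ[k] K) (C.pc s (wtn n j)).subtype) := by
  induction z using TensorProduct.induction_on with
  | zero => rw [map_zero]; exact zero_mem _
  | tmul c f =>
    exact ⟨c i () ⊗ₜ[k] (⟨rEnt C n s j f, rEnt_mem C n s j f⟩ : C.pc s (wtn n j)), rfl⟩
  | add x y hx hy => rw [map_add]; exact add_mem hx hy

theorem vcomp_mem (C : CubicRing k t R) (n : ℤ) (z : VV C K n) (i j : Fin 2) :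
    vcomp C K n i Pc.X j z ∈ C.VX K ∧ vcomp C K n i Pc.Y j z ∈ C.VY K (wtn n j) :=
  ⟨vcomp_mem_gen C n z i Pc.X j, vcomp_mem_gen C n z i Pc.Y j⟩

private theorem range_top (S : Submodule k R) :
    LinearMap.range (TensorProduct.map (LinearMap.id : K →ₗ[k] K) S.subtype) ≤
      LinearMap.range (TensorProduct.map (⊤ : Submodule k K).subtype S.subtype) := by
  rintro _ ⟨w, rfl⟩
  induction w using TensorProduct.induction_on with
  | zero => rw [map_zero]; exact zero_mem _
  | tmul c s => exact ⟨(⟨c, trivial⟩ : (⊤ : Submodule k K)) ⊗ₜ[k] s, rfl⟩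
  | add x y hx hy => rw [map_add]; exact add_mem hx hy

private theorem mem_range_top (z : K ⊗[k] R) :
    z ∈ LinearMap.range (TensorProduct.map (LinearMap.id : K →ₗ[k] K)
      (⊤ : Submodule k R).subtype) := by
  induction z using TensorProduct.induction_on with
  | zero => exact zero_mem _
  | tmul c s => exact ⟨c ⊗ₜ[k] (⟨s, trivial⟩ : (⊤ : Submodule k R)), rfl⟩
  | add x y hx hy => exact add_mem hx hy

theorem vcomp_surjective (C : CubicRing k t R) (n : ℤ) (F : Fin 2 → Pc → Fin 2 → K ⊗[k] R)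
    (hX : ∀ i j, F i Pc.X j ∈ C.VX K) (hY : ∀ i j, F i Pc.Y j ∈ C.VY K (wtn n j)) :
    ∃ z : VV C K n, ∀ i s j, vcomp C K n i s j z = F i s j := by
  obtain ⟨z, hz⟩ := tcomp_surjective (colE k K) (rowE C n) (fun _ => (⊤ : Submodule k K))
    (fun p : Pc × Fin 2 => C.pc p.1 (wtn n p.2))
    (fun f _ => ⟨fun i _ => f i, rfl⟩)
    (fun f hf => ⟨qmk C (fun _ : Unit => (0 : ℤ)) (wtn n) (fun s _ j => f (s, j)) (by
      intro s u j
      rw [sub_zero]
      exact hf (s, j)), rfl⟩)
    (fun a p => F a p.1 p.2) (by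
      rintro a ⟨s, j⟩
      apply range_top
      cases s with
      | X => exact hX a j
      | Y => exact hY a j
      | R => exact mem_range_top _)
  refine ⟨z, fun i s j => ?_⟩
  rw [vcomp_eq_tcomp]
  exact hz i (s, j)

private theorem rEnt_rW (C : CubicRing k t R) (n : ℤ) (s : Pc) (j : Fin 2) (f : (Pr C n).V) :
    rEnt C (n + 1) s j (rW C n f) = C.w * rEnt C n s j f := rfl

private theorem rEnt_rU (C : CubicRing k t R) (n : ℤ) (s : Pc) (j : Fin 2) (f : (Pr C n).V) :
    rEnt C (n + 1) s j (rU C n f) = (C.u : R) * rEnt C n s j f := rfl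

private theorem vcomp_tmul (C : CubicRing k t R) (n : ℤ) (c : Matrix (Fin 2) Unit K)
    (f : (Pr C n).V) (i : Fin 2) (s : Pc) (j : Fin 2) :
    vcomp C K n i s j (c ⊗ₜ[k] f) = c i () ⊗ₜ[k] rEnt C n s j f := rfl

private theorem ellMap_tmul (C : CubicRing k t R) (E : CubeRoot k t K) (n : ℤ)
    (c : Matrix (Fin 2) Unit K) (f : (Pr C n).V) :
    ellMap C E n (c ⊗ₜ[k] f) = c ⊗ₜ[k] rW C n f - (E.α • c) ⊗ₜ[k] rU C n f := rfl

theorem vcomp_ellMap (C : CubicRing k t R) (E : CubeRoot k t K) (n : ℤ) (z : VV C K n)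
    (i : Fin 2) (s : Pc) (j : Fin 2) :
    vcomp C K (n + 1) i s j (ellMap C E n z) = C.ell E * vcomp C K n i s j z := by
  induction z using TensorProduct.induction_on with
  | zero => rw [map_zero, map_zero, map_zero, mul_zero]
  | tmul c f =>
    rw [ellMap_tmul, map_sub, vcomp_tmul, vcomp_tmul, vcomp_tmul, rEnt_rW, rEnt_rU]
    unfold CubicRing.ell
    rw [sub_mul, Algebra.TensorProduct.tmul_mul_tmul, Algebra.TensorProduct.tmul_mul_tmul,
      one_mul]
    rfl
  | add x y hx hy => rw [map_add, map_add, map_add, mul_add, hx, hy]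

theorem ellMap_injective (C : CubicRing k t R) (E : CubeRoot k t K) [CharP k 3] (ht : t ≠ 0)
    (n : ℤ) : Function.Injective (ellMap C E n) := by
  rw [injective_iff_map_eq_zero]
  intro z hz
  apply vcomp_injective C n z
  intro i s j
  apply C.ell_mul_injective E ht
  rw [← vcomp_ellMap, hz, map_zero]

/-- `c ⊗ f ↦ c * (value of f)` -/
noncomputable def pK (C : CubicRing k t R) (E : CubeRoot k t K) (n : ℤ) :
    VV C K n →ₗ[k] Matrix (Fin 2) (Fin 2) K :=
  TensorProduct.lift ((matMul k K (Fin 2) Unit (Fin 2)).compl₂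
    (qVal C E (fun _ : Unit => (0 : ℤ)) (wtn n)))

theorem pK_apply (C : CubicRing k t R) (E : CubeRoot k t K) (n : ℤ) (z : VV C K n) (i j : Fin 2) :
    pK C E n z i j = C.vlead E (wtn n j) (vcomp C K n i Pc.Y j z) := by
  induction z using TensorProduct.induction_on with
  | zero => rw [map_zero, map_zero, map_zero]; rfl
  | tmul c f =>
    rw [vcomp_tmul]
    have h1 : pK C E n (c ⊗ₜ[k] f) = c * qVal C E (fun _ : Unit => (0 : ℤ)) (wtn n) f := rfl
    have h2 : C.vlead E (wtn n j) (c i () ⊗ₜ[k] rEnt C n Pc.Y j f) =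
        c i () * C.lead E (wtn n j) (rEnt C n Pc.Y j f) := rfl
    rw [h1, h2, Matrix.mul_apply, Fintype.sum_unique, qVal_apply, val_apply, sub_zero]
    rfl
  | add x y hx hy => rw [map_add, map_add, map_add, Matrix.add_apply, hx, hy]

theorem pK_ellMap (C : CubicRing k t R) (E : CubeRoot k t K) (n : ℤ) (z : VV C K n) :
    pK C E (n + 1) (ellMap C E n z) = 0 := by
  ext i j
  rw [pK_apply, vcomp_ellMap]
  have h1 : wtn (n + 1) j = wtn n j + 1 := by
    simp [wtn, add_assoc]
  rw [h1, C.vlead_ell E (vcomp_mem C n z i j).2]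
  rfl

end H36.NX
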