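import Pool.Agent.H36.NX.Qs

/-!
# QsB : the homogeneous components of `Qs`
-/

set_option autoImplicit false

open NC Polynomial

namespace H36.NX

variable {k : Type} [Field k] {t : k} {R : Type} [CommRing R] [Algebra k R]

/-- entrywise application of a linear map -/
private def eP {S S' : Type} [CommRing S] [Algebra k S] [CommRing S'] [Algebra k S']
    (φ : S →ₗ[k] S') (f : Pc → Matrix (Fin 2) (Fin 2) S) : Pc → Matrix (Fin 2) (Fin 2) S' :=
  fun s i j => φ (f s i j)

private theorem eP_D {S S' : Type} [CommRing S] [Algebra k S] [CommRing S'] [Algebra k S']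
    (φ : S →ₗ[k] S') (f : Pc → Matrix (Fin 2) (Fin 2) S) :
    eP φ (cD k _ f) = cD k _ (eP φ f) := by
  funext s; cases s <;> ext i j <;> simp [eP]

private theorem eP_P {S S' : Type} [CommRing S] [Algebra k S] [CommRing S'] [Algebra k S']
    (φ : S →ₗ[k] S') (f : Pc → Matrix (Fin 2) (Fin 2) S) :
    eP φ (cP k _ f) = cP k _ (eP φ f) := by
  funext s; cases s <;> ext i j <;> simp [eP]

private theorem eP_l (φ : R →ₗ[k] R[X]) (h : ∀ a x, φ (a * x) = Polynomial.C a * φ x)
    (a : Pc → Matrix (Fin 2) (Fin 2) R) (f : Pc → Matrix (Fin 2) (Fin 2) R) :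
    eP φ (cMul k (matMul k R (Fin 2) (Fin 2) (Fin 2)) a f) =
      cMul k (gl (CAlgHom : R →ₐ[k] R[X])) a (eP φ f) := by
  funext s; cases s <;> refine Matrix.ext fun i j => ?_ <;>
    simp [eP, Matrix.mul_apply, h]

private theorem eP_r (φ : R →ₗ[k] R[X]) (h : ∀ x a, φ (x * a) = φ x * Polynomial.C a)
    (f : Pc → Matrix (Fin 2) (Fin 2) R) (a : Pc → Matrix (Fin 2) (Fin 2) R) :
    eP φ (cMul k (matMul k R (Fin 2) (Fin 2) (Fin 2)) f a) =
      cMul k (gr (CAlgHom : R →ₐ[k] R[X])) (eP φ f) a := by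
  funext s; cases s <;> refine Matrix.ext fun i j => ?_ <;>
    simp [eP, Matrix.mul_apply, h]

private theorem eP_l' (φ : R[X] →ₗ[k] R) (h : ∀ a x, φ (Polynomial.C a * x) = a * φ x)
    (a : Pc → Matrix (Fin 2) (Fin 2) R) (f : Pc → Matrix (Fin 2) (Fin 2) R[X]) :
    eP φ (cMul k (gl (CAlgHom : R →ₐ[k] R[X])) a f) =
      cMul k (matMul k R (Fin 2) (Fin 2) (Fin 2)) a (eP φ f) := by
  funext s; cases s <;> refine Matrix.ext fun i j => ?_ <;>
    simp [eP, Matrix.mul_apply, h]

private theorem eP_r' (φ : R[X] →ₗ[k] R) (h : ∀ x a, φ (x * Polynomial.C a) = φ x * a)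
    (f : Pc → Matrix (Fin 2) (Fin 2) R[X]) (a : Pc → Matrix (Fin 2) (Fin 2) R) :
    eP φ (cMul k (gr (CAlgHom : R →ₐ[k] R[X])) f a) =
      cMul k (matMul k R (Fin 2) (Fin 2) (Fin 2)) (eP φ f) a := by
  funext s; cases s <;> refine Matrix.ext fun i j => ?_ <;>
    simp [eP, Matrix.mul_apply, h]

/-- the monomial map over `k` -/
private noncomputable def mk' (k : Type) [Field k] (R : Type) [CommRing R] [Algebra k R] (n : ℕ) :
    R →ₗ[k] R[X] := (monomial n).restrictScalars k

/-- the coefficient map over `k` -/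
private noncomputable def ck' (k : Type) [Field k] (R : Type) [CommRing R] [Algebra k R] (n : ℕ) :
    R[X] →ₗ[k] R := (lcoeff R n).restrictScalars k

private theorem mk'_apply (n : ℕ) (r : R) : mk' k R n r = monomial n r := rfl

private theorem ck'_apply (n : ℕ) (p : R[X]) : ck' k R n p = p.coeff n := rfl

private theorem mono_mem (C : CubicRing k t R) (n : ℕ) {s : Pc} {i j : Fin 2} {r : R}
    (h : r ∈ C.pc s (wtn (n : ℤ) j - wt i)) : (monomial n r : R[X]) ∈ qsF C s i j := by
  intro m
  rw [coeff_monomial]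
  split_ifs with hm
  · rw [← hm]; exact h
  · exact Submodule.zero_mem _

/-- `Q n → Qs`, in degree `n` -/
noncomputable def qsIn (C : CubicRing k t R) (n : ℕ) : BMod.Hom (Qb C n) (Qs C) where
  f :=
    { toFun := fun f => (qsG C).cm (fun s i j => monomial n (qv C wt (wtn n) f s i j))
        (fun s i j => mono_mem C n (qv_mem C f s i j))
      map_add' := fun f g => (qsG C).ext (funext fun s => by
        refine Matrix.ext fun i j => ?_
        exact (mk' k R n).map_add (qv C wt (wtn n) f s i j) (qv C wt (wtn n) g s i j))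
      map_smul' := fun c f => (qsG C).ext (funext fun s => by
        refine Matrix.ext fun i j => ?_
        exact (mk' k R n).map_smul c (qv C wt (wtn n) f s i j)) }
  D v := (qsG C).ext (eP_D (mk' k R n) (qv C wt (wtn n) v))
  P v := (qsG C).ext (eP_P (mk' k R n) (qv C wt (wtn n) v))
  isHom :=
    { l := fun a v => (qsG C).ext (eP_l (mk' k R n)
        (fun a x => (C_mul_monomial (n := n) (a := a) (b := x)).symm) (av C a) (qv C wt (wtn n) v))
      r := fun v a => (qsG C).ext (eP_r (mk' k R n)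
        (fun x a => (monomial_mul_C (n := n) (a := x) (b := a)).symm) (qv C wt (wtn n) v) (av C a)) }

/-- `Qs → Q n`, the coefficient of `T^n` -/
noncomputable def qsOut (C : CubicRing k t R) (n : ℕ) : BMod.Hom (Qs C) (Qb C n) where
  f :=
    { toFun := fun f => qmk C wt (wtn n) (fun s i j => ((qsG C).v f s i j).coeff n)
        (fun s i j => (qsG C).v_mem f s i j n)
      map_add' := fun f g => q_ext C (funext fun s => by
        refine Matrix.ext fun i j => ?_
        exact (ck' k R n).map_add ((qsG C).v f s i j) ((qsG C).v g s i j))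
      map_smul' := fun c f => q_ext C (funext fun s => by
        refine Matrix.ext fun i j => ?_
        exact (ck' k R n).map_smul c ((qsG C).v f s i j)) }
  D v := q_ext C (eP_D (ck' k R n) ((qsG C).v v))
  P v := q_ext C (eP_P (ck' k R n) ((qsG C).v v))
  isHom :=
    { l := fun a v => q_ext C (eP_l' (ck' k R n)
        (fun a x => coeff_C_mul x) (av C a) ((qsG C).v v))
      r := fun v a => q_ext C (eP_r' (ck' k R n)
        (fun x a => coeff_mul_C x n a) ((qsG C).v v) (av C a)) }

theorem qsOut_qsIn (C : CubicRing k t R) (n : ℕ) (v : (Qb C n).N.V) :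
    (qsOut C n).f ((qsIn C n).f v) = v := by
  refine q_ext C (funext fun s => ?_)
  refine Matrix.ext fun i j => ?_
  exact coeff_monomial_same n (qv C wt (wtn n) v s i j)

theorem qsOut_qsIn_ne (C : CubicRing k t R) {m n : ℕ} (h : m ≠ n) (v : (Qb C n).N.V) :
    (qsOut C m).f ((qsIn C n).f v) = 0 := by
  refine q_ext C (funext fun s => ?_)
  refine Matrix.ext fun i j => ?_
  exact coeff_monomial_of_ne (qv C wt (wtn n) v s i j) h

/-- every element is the finite sum of its homogeneous components -/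
theorem qs_sum (C : CubicRing k t R) (v : (Qs C).N.V) :
    ∃ n₀ : ℕ, v = ∑ n ∈ Finset.range n₀, (qsIn C n).f ((qsOut C n).f v) := by
  classical
  let d : ℕ := Finset.univ.sup (fun x : Pc × Fin 2 × Fin 2 => ((qsG C).v v x.1 x.2.1 x.2.2).natDegree)
  refine ⟨d + 1, (qsG C).ext ?_⟩
  have hv : (qsG C).v (∑ n ∈ Finset.range (d + 1), (qsIn C n).f ((qsOut C n).f v)) =
      ∑ n ∈ Finset.range (d + 1), (qsG C).v ((qsIn C n).f ((qsOut C n).f v)) := map_sum _ _ _
  refine Eq.trans ?_ hv.symm
  funext s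
  refine Matrix.ext fun i j => ?_
  rw [Finset.sum_apply, Matrix.sum_apply]
  have hd : ((qsG C).v v s i j).natDegree < d + 1 :=
    Nat.lt_succ_of_le (Finset.le_sup (f := fun x : Pc × Fin 2 × Fin 2 =>
      ((qsG C).v v x.1 x.2.1 x.2.2).natDegree) (Finset.mem_univ (s, i, j)))
  exact as_sum_range' ((qsG C).v v s i j) (d + 1) hd

/-- an element of degree `d` of the Rees algebra raises the degree by `d` -/
theorem bhMul_qsIn (C : CubicRing k t R) (p : Bh C) (d : ℕ) (r : R) (hp : (p : R[X]) = monomial d r)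
    (n : ℕ) (v : (Qb C n).N.V) :
    bhMul C p ((qsIn C n).f v) = (qsIn C (n + d)).f ((qsOut C (n + d)).f (bhMul C p ((qsIn C n).f v))) := by
  refine (qsG C).ext (funext fun s => ?_)
  refine Matrix.ext fun i j => ?_
  have h1 : (qsG C).v (bhMul C p ((qsIn C n).f v)) s i j =
      monomial (n + d) (r * qv C wt (wtn n) v s i j) := by
    rw [v_bhMul, hp, add_comm n d]
    exact monomial_mul_monomial d n r (qv C wt (wtn n) v s i j)
  have h2 : (qsG C).v ((qsIn C (n + d)).f ((qsOut C (n + d)).f (bhMul C p ((qsIn C n).f v)))) s i j =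
      monomial (n + d) (((qsG C).v (bhMul C p ((qsIn C n).f v)) s i j).coeff (n + d)) := rfl
  rw [h2, h1, coeff_monomial_same]

end H36.NX
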