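import Pool.Agent.H36.NX.QsG
import Pool.Agent.H36.NX.GenS
import Pool.Agent.H36.NX.FgGr
import Pool.Agent.H36.NX.Proper

/-!
# QsFG : the homology of `Qs` is finitely generated over `k[x, y, z]`
-/

set_option autoImplicit false

open NC

namespace H36.NX

variable {k : Type} [Field k] {t : k} {R : Type} [CommRing R] [Algebra k R]

/-- the underlying grading of the differential module -/
noncomputable def GrB.toSD {A : DGA k} {Q : BMod A A} {Y : ℕ → BMod A A} (G : GrB Q Y) :
    GrSD Q.N (fun n => (Y n).N) where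
  i n := (G.i n).toHom
  p n := (G.p n).toHom
  pi := G.pi
  pi' := G.pi'
  sum := G.sum

/-- `fg_of_gr` with `N0 = 1` and `gen_succ`; entries of `qsIn`, `bhMul`: `v_bhMul`, `monomial_mul_monomial` -/
theorem qs_fg (C : CubicRing k t R) : (qsOp C).opS.FG := by
  refine fg_of_gr (Y := fun n : ℕ => (Qb C (n : ℤ)).N) (qsGr C).toSD (qsOp C).opS
    (fun n => finH_q C wt (wtn (n : ℤ))) 1 ?_
  intro n hn v hv
  obtain ⟨a, b, c, z, ha, hb, hc, h⟩ := gen_succ C (n := (n : ℤ)) (m := ((n + 1 : ℕ) : ℤ))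
    (by exact_mod_cast hn) (by push_cast; rfl) v hv
  refine ⟨![a, b, c], ?_, (qsIn C (n + 1)).f z, ?_⟩
  · intro i
    fin_cases i
    · exact ha
    · exact hb
    · exact hc
  · change (Qs C).N.D ((qsIn C (n + 1)).f z) = (qsIn C (n + 1)).f v
      - ∑ i, (qsOp C).op (MvPolynomial.X i) ((qsIn C n).f ((![a, b, c] : Fin 3 → (Qb C n).N.V) i))
    rw [Fin.sum_univ_three, qsOp_X, qsOp_X, qsOp_X]
    refine (qsG C).ext ?_
    have h1 : (qsG C).v ((Qs C).N.D ((qsIn C (n + 1)).f z)) =
        (qsG C).v ((qsIn C (n + 1)).f ((qSD C wt (wtn ((n + 1 : ℕ) : ℤ))).D z)) := by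
      first
        | exact congrArg (qsG C).v ((qsIn C (n + 1)).D z)
        | exact congrArg (qsG C).v ((qsIn C (n + 1)).D z).symm
    refine h1.trans ?_
    funext s
    refine Matrix.ext fun i j => ?_
    have h2 := congrFun (congrFun (congrFun h s) i) j
    have h3 : qv C wt (wtn ((n + 1 : ℕ) : ℤ)) v s i j = qv C wt (wtn (n : ℤ)) a s i j
        + (C.u : R) * qv C wt (wtn (n : ℤ)) b s i j + C.w * qv C wt (wtn (n : ℤ)) c s i j
        + qv C wt (wtn ((n + 1 : ℕ) : ℤ)) ((qSD C wt (wtn ((n + 1 : ℕ) : ℤ))).D z) s i j := h2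
    change (Polynomial.monomial (n + 1))
        (qv C wt (wtn ((n + 1 : ℕ) : ℤ)) ((qSD C wt (wtn ((n + 1 : ℕ) : ℤ))).D z) s i j)
      = (Polynomial.monomial (n + 1)) (qv C wt (wtn ((n + 1 : ℕ) : ℤ)) v s i j)
        - (Polynomial.monomial 1 (1 : R)
              * Polynomial.monomial n (qv C wt (wtn (n : ℤ)) a s i j)
            + Polynomial.monomial 1 (C.u : R)
              * Polynomial.monomial n (qv C wt (wtn (n : ℤ)) b s i j)
            + Polynomial.monomial 1 C.w
              * Polynomial.monomial n (qv C wt (wtn (n : ℤ)) c s i j))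
    rw [Polynomial.monomial_mul_monomial, Polynomial.monomial_mul_monomial,
      Polynomial.monomial_mul_monomial, h3, add_comm 1 n, ← map_add, ← map_add, ← map_sub]
    congr 1
    ring

/-- **large degree**: the Euler characteristic of `D(N, Q n)` vanishes in `k` -/
theorem chi_Qb_large (C : CubicRing k t R) (hI : IndexThree k t) [CharP k 3]
    {N : BMod (AA C) (AA C)} (hN : PF (AA C) N) :
    ∃ n0, ∀ n : ℕ, n0 ≤ n → SD.chi (DD N (Qb C n)) = 0 :=
  chi_DD_eventually (t := t) hI (qsGr C) (qsOp C) (qs_fg C) (qsOp_deg C) (qsOp_cub C) hN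

end H36.NX
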