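import Pool.Agent.H16.NC.HSt
import Pool.Agent.H16.NC.PF
import Pool.Agent.H9.NC.Lin

/-!
# RCa : the contravariant functor `HomR(-, Z)` on right modules: maps, exactness, evaluation at 1
-/

set_option autoImplicit false

open scoped TensorProduct

noncomputable section

namespace NC

variable {k : Type} [Field k] {B : DGA k} {M M' M'' Z : SD k}

/-! ### precomposition -/

section pre

variable {rM : RA B M} {rM' : RA B M'} (u : SD.Hom M' M) (hu : rM'.IsHom rM u) (rZ : RA B Z)

/-- precomposition with a module map -/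
def homPre : SD.Hom (HomR rM rZ) (HomR rM' rZ) where
  f := ((LinearMap.lcomp k Z.V u.f) ∘ₗ (rLin rM rZ).subtype).codRestrict (rLin rM' rZ)
    (fun φ x b => by
      change φ.1 (u.f (rM'.act x b)) = rZ.act (φ.1 (u.f x)) b
      rw [hu x b]
      exact φ.2 (u.f x) b)
  D φ := by
    refine Subtype.ext (LinearMap.ext fun x => ?_)
    change SD.hD M Z φ.1 (u.f x) = SD.hD M' Z (φ.1 ∘ₗ u.f) x
    rw [SD.hD_apply, SD.hD_apply, ← u.D, ← u.E]
    rfl
  P φ := by
    refine Subtype.ext (LinearMap.ext fun x => ?_)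
    change SD.hP M Z φ.1 (u.f x) = SD.hP M' Z (φ.1 ∘ₗ u.f) x
    rw [SD.hP_apply, SD.hP_apply, ← u.P, ← map_sub u.f]
    rfl

theorem homPre_apply (φ : (HomR rM rZ).V) (x : M'.V) : ((homPre u hu rZ).f φ).1 x = φ.1 (u.f x) := rfl

theorem homPre_left {S : DGA k} (l : LA S Z) (h : LR l rZ) :
    (l.postR rM h).IsHom (l.postR rM' h) (homPre u hu rZ) :=
  fun _ _ => Subtype.ext (LinearMap.ext fun _ => rfl)

end pre

/-- sequences of right modules which are split by a right linear map (not necessarily compatible with the differential or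
the parity) stay exact -/
theorem homPre_ses {rM' : RA B M'} {rM : RA B M} {rM'' : RA B M''} {f : SD.Hom M' M}
    (hf : rM'.IsHom rM f) {g : SD.Hom M M''} (hg : rM.IsHom rM'' g) (hs : SD.SES f g)
    (s : M''.V →ₗ[k] M.V) (hs1 : ∀ x, g.f (s x) = x) (hsb : ∀ x b, s (rM''.act x b) = rM.act (s x) b)
    (rZ : RA B Z) : SD.SES (homPre g hg rZ) (homPre f hf rZ) := by
  have hinj : ∀ {x y : M'.V}, f.f x = f.f y → x = y := fun h => SD.SES.inj' hs h
  refine ⟨?_, ?_, ?_, ?_⟩
  · intro φ hφ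
    refine Subtype.ext (LinearMap.ext fun y => ?_)
    obtain ⟨x, rfl⟩ := hs.surj y
    have h1 : ((homPre g hg rZ).f φ).1 x = 0 := by rw [hφ]; rfl
    exact h1
  · intro ψ
    have hex : ∀ y : M.V, ∃ x, f.f x = y - s (g.f y) := fun y =>
      hs.exact _ (by rw [map_sub, hs1, sub_self])
    let r : M.V →ₗ[k] M'.V :=
      { toFun := fun y => (hex y).choose
        map_add' := fun y y' => hinj (by
          rw [(hex (y + y')).choose_spec, map_add f.f, (hex y).choose_spec, (hex y').choose_spec,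
            map_add, map_add]
          abel)
        map_smul' := fun c y => hinj (by
          rw [(hex (c • y)).choose_spec, RingHom.id_apply, map_smul f.f, (hex y).choose_spec,
            map_smul, map_smul, smul_sub]) }
    have hr : ∀ y, f.f (r y) = y - s (g.f y) := fun y => (hex y).choose_spec
    have hrb : ∀ y b, r (rM.act y b) = rM'.act (r y) b := fun y b => hinj (by
      rw [hr, hf (r y) b, hr, hg y b, hsb, map_sub, LinearMap.sub_apply])
    refine ⟨⟨ψ.1 ∘ₗ r, fun y b => ?_⟩, Subtype.ext (LinearMap.ext fun x => ?_)⟩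
    · change ψ.1 (r (rM.act y b)) = rZ.act (ψ.1 (r y)) b
      rw [hrb]
      exact ψ.2 (r y) b
    · change ψ.1 (r (f.f x)) = ψ.1 x
      have h1 : r (f.f x) = x := hinj (by rw [hr, hs.zero, map_zero, sub_zero])
      rw [h1]
  · intro φ
    refine Subtype.ext (LinearMap.ext fun x => ?_)
    change φ.1 (g.f (f.f x)) = 0
    rw [hs.zero, map_zero]
  · intro φ hφ
    have h0 : ∀ x, φ.1 (f.f x) = 0 := fun x => by
      have h1 : ((homPre f hf rZ).f φ).1 x = 0 := by rw [hφ]; rfl
      exact h1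
    refine ⟨⟨φ.1 ∘ₗ s, fun y b => ?_⟩, Subtype.ext (LinearMap.ext fun y => ?_)⟩
    · change φ.1 (s (rM''.act y b)) = rZ.act (φ.1 (s y)) b
      rw [hsb]
      exact φ.2 (s y) b
    · change φ.1 (s (g.f y)) = φ.1 y
      obtain ⟨x, hx⟩ := hs.exact (y - s (g.f y)) (by rw [map_sub, hs1, sub_self])
      have h2 := h0 x
      rw [hx, map_sub, sub_eq_zero] at h2
      exact h2.symm

/-- a surjection on the free module `B` splits -/
theorem split_free {rM : RA B M} {g : SD.Hom M B.toSD} (hg : rM.IsHom B.diag.r g)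
    (hs : Function.Surjective g.f) : ∃ s : B.V →ₗ[k] M.V, (∀ x, g.f (s x) = x) ∧
      ∀ x b, s (x * b) = rM.act (s x) b := by
  obtain ⟨e, he⟩ := hs 1
  refine ⟨rM.act e, fun x => ?_, fun x b => (rM.act_mul e x b).symm⟩
  rw [hg e x, he]
  exact one_mul x

/-- a surjection on the shifted free module `B[1]` splits -/
theorem split_freeSh {rM : RA B M} {g : SD.Hom M B.toSD.sh} (hg : rM.IsHom B.diag.r.sh g)
    (hs : Function.Surjective g.f) : ∃ s : B.V →ₗ[k] M.V, (∀ x, g.f (s x) = x) ∧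
      ∀ x b, s (x * b) = rM.act (s x) b := by
  obtain ⟨e, he⟩ := hs (1 : B.V)
  refine ⟨rM.act e, fun x => ?_, fun x b => (rM.act_mul e x b).symm⟩
  rw [hg e x, he]
  exact one_mul (M := B.V) x

/-! ### evaluation at 1 -/

/-- `HomR(B, Z) → Z` -/
def ev1 (rZ : RA B Z) : SD.Hom (HomR B.diag.r rZ) Z where
  f := (LinearMap.applyₗ (1 : B.V)) ∘ₗ (rLin B.diag.r rZ).subtype
  D φ := by
    change SD.hD B.toSD Z φ.1 (1 : B.V) = Z.D (φ.1 (1 : B.V))
    rw [SD.hD_apply, B.D_one]
    simp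
  P φ := by
    change SD.hP B.toSD Z φ.1 (1 : B.V) = Z.P (φ.1 (1 : B.V))
    have h1 : B.P (1 : B.V) = 1 := B.P_one
    rw [SD.hP_apply, h1]
    simp

theorem ev1_apply (rZ : RA B Z) (φ : (HomR B.diag.r rZ).V) : (ev1 rZ).f φ = φ.1 (1 : B.V) := rfl

theorem ev1_bijective (rZ : RA B Z) (h1 : ∀ z, rZ.act z 1 = z) : Function.Bijective (ev1 rZ).f := by
  constructor
  · intro φ ψ h
    have h' : φ.1 (1 : B.V) = ψ.1 (1 : B.V) := h
    refine Subtype.ext (LinearMap.ext fun b => ?_)
    have e : ∀ χ : (HomR B.diag.r rZ).V, χ.1 b = rZ.act (χ.1 (1 : B.V)) b := fun χ => by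
      have e1 : χ.1 ((1 : B.V) * b) = rZ.act (χ.1 (1 : B.V)) b := χ.2 (1 : B.V) b
      rw [one_mul] at e1
      exact e1
    rw [e φ, e ψ, h']
  · intro z
    exact ⟨⟨rZ.act z, fun x b => (rZ.act_mul z x b).symm⟩, h1 z⟩

theorem ev1_left (rZ : RA B Z) {S : DGA k} (l : LA S Z) (h : LR l rZ) :
    (l.postR B.diag.r h).IsHom l (ev1 rZ) := fun _ _ => rfl

end NC
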