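import Pool.Agent.H36.NX.RCs
import Pool.Agent.H16.NC.Tens

/-!
# RCd : the maps `hom(V, Z) ⊗ Y → hom(V, Z ⊗ Y)` and `HomR(M, Z) ⊗ Y → HomR(M, Z ⊗ Y)`
-/

set_option autoImplicit false

open scoped TensorProduct

noncomputable section

namespace NC

variable {k : Type} [Field k] {B : DGA k} {M M' M'' Z Y V V' : SD k}

/-- `f ⊗ y ↦ (v ↦ (-1)^(|v||y|) f(v) ⊗ y)`, the linear map -/
def homK0 (V Z Y : SD k) : (V.V →ₗ[k] Z.V) →ₗ[k] Y.V →ₗ[k] (V.V →ₗ[k] Z.V ⊗[k] Y.V) :=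
  LinearMap.mk₂ k (fun f y => (TensorProduct.mk k Z.V Y.V).flip y ∘ₗ f ∘ₗ V.P
      + (TensorProduct.mk k Z.V Y.V).flip (Y.E y) ∘ₗ f ∘ₗ (LinearMap.id - V.P))
    (fun f f' y => by ext v; simp [TensorProduct.add_tmul]; abel)
    (fun c f y => by ext v; simp [TensorProduct.smul_tmul', smul_add, smul_sub])
    (fun f y y' => by ext v; simp [TensorProduct.tmul_add]; abel)
    (fun c f y => by ext v; simp [TensorProduct.tmul_smul, smul_add, smul_sub])

theorem homK0_apply (V Z Y : SD k) (f : V.V →ₗ[k] Z.V) (y : Y.V) (v : V.V) :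
    homK0 V Z Y f y v = f (V.P v) ⊗ₜ y + f (v - V.P v) ⊗ₜ Y.E y := rfl

private theorem RCd_even (V Z Y : SD k) (f : V.V →ₗ[k] Z.V) (y : Y.V) (w : V.V)
    (hw : V.P w = w) : homK0 V Z Y f y w = f w ⊗ₜ y := by
  rw [homK0_apply, hw, sub_self, map_zero, TensorProduct.zero_tmul, add_zero]

private theorem RCd_odd (V Z Y : SD k) (f : V.V →ₗ[k] Z.V) (y : Y.V) (w : V.V)
    (hw : V.P w = 0) : homK0 V Z Y f y w = f w ⊗ₜ Y.E y := by
  rw [homK0_apply, hw, map_zero, TensorProduct.zero_tmul, zero_add, sub_zero]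

private theorem RCd_split (V : SD k) {W : Type} [AddCommGroup W] [Module k W]
    {g h : V.V →ₗ[k] W} (h0 : ∀ w, V.P w = w → g w = h w) (h1 : ∀ w, V.P w = 0 → g w = h w) :
    g = h := by
  refine LinearMap.ext fun v => ?_
  have e : v = V.P v + (v - V.P v) := by abel
  rw [e, map_add g, map_add h, h0 _ (V.PP v), h1 (v - V.P v) (by rw [map_sub, V.PP, sub_self])]

private theorem RCd_Ee (V : SD k) (w : V.V) (hw : V.P w = w) : V.E w = w := by
  rw [SD.E_apply, hw, add_sub_cancel_right]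

private theorem RCd_Eo (V : SD k) (w : V.V) (hw : V.P w = 0) : V.E w = - w := by
  rw [SD.E_apply, hw, add_zero, zero_sub]

private theorem RCd_De (V : SD k) (w : V.V) (hw : V.P w = w) : V.P (V.D w) = 0 := by
  have h := V.DP w
  rw [hw] at h
  have h2 : V.D w - V.P (V.D w) = V.D w := h.symm
  rwa [sub_eq_self] at h2

private theorem RCd_Do (V : SD k) (w : V.V) (hw : V.P w = 0) : V.P (V.D w) = V.D w := by
  have h := V.DP w
  rw [hw, map_zero] at h
  exact (sub_eq_zero.1 h.symm).symm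

theorem homK0_D (V Z Y : SD k) (f : V.V →ₗ[k] Z.V) (y : Y.V) :
    (SD.hom V (Z.tens Y)).D (homK0 V Z Y f y)
      = homK0 V Z Y ((SD.hom V Z).D f) y + homK0 V Z Y ((SD.hom V Z).E f) (Y.D y) := by
  refine RCd_split V (fun w hw => ?_) (fun w hw => ?_)
  · have hDw := RCd_De V w hw
    rw [LinearMap.add_apply, RCd_even V Z Y _ y w hw, RCd_even V Z Y _ (Y.D y) w hw,
      SD.hom_D, SD.hom_D, SD.hom_E, RCd_Ee V w hw, RCd_Eo V _ hDw, map_neg,
      RCd_even V Z Y f y w hw, RCd_odd V Z Y f y _ hDw, map_neg (Z.tens Y).E, SD.tens_E, Y.EE,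
      map_neg f, map_neg Z.E]
    change Z.D (f w) ⊗ₜ[k] y + Z.E (f w) ⊗ₜ[k] Y.D y - -(Z.E (f (V.D w)) ⊗ₜ[k] y) = _
    rw [sub_neg_eq_add, sub_neg_eq_add, TensorProduct.add_tmul]
    abel
  · have hDw := RCd_Do V w hw
    rw [LinearMap.add_apply, RCd_odd V Z Y _ y w hw, RCd_odd V Z Y _ (Y.D y) w hw,
      SD.hom_D, SD.hom_D, SD.hom_E, RCd_Eo V w hw, RCd_Ee V _ hDw,
      RCd_odd V Z Y f y w hw, RCd_even V Z Y f y _ hDw, SD.tens_E,
      map_neg f, map_neg Z.E]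
    change Z.D (f w) ⊗ₜ[k] Y.E y + Z.E (f w) ⊗ₜ[k] Y.D (Y.E y) - Z.E (f (V.D w)) ⊗ₜ[k] Y.E y = _
    rw [Y.DE, TensorProduct.sub_tmul, TensorProduct.neg_tmul, TensorProduct.tmul_neg]
    abel

theorem homK0_P (V Z Y : SD k) (f : V.V →ₗ[k] Z.V) (y : Y.V) :
    (SD.hom V (Z.tens Y)).P (homK0 V Z Y f y)
      = homK0 V Z Y ((SD.hom V Z).P f) (Y.P y)
        + homK0 V Z Y (f - (SD.hom V Z).P f) (y - Y.P y) := by
  refine RCd_split V (fun w hw => ?_) (fun w hw => ?_)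
  · have e1 : ∀ {X : SD k} (g : V.V →ₗ[k] X.V), (SD.hom V X).P g w = X.P (g w) := by
      intro X g
      have h := SD.hP_apply V X g w
      rw [hw, sub_self, map_zero, map_zero, sub_zero, add_zero] at h
      exact h
    rw [LinearMap.add_apply, RCd_even V Z Y _ _ w hw, RCd_even V Z Y _ _ w hw,
      LinearMap.sub_apply, e1, e1, RCd_even V Z Y f y w hw]
    rfl
  · have e1 : ∀ {X : SD k} (g : V.V →ₗ[k] X.V),
        (SD.hom V X).P g w = g w - X.P (g w) := by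
      intro X g
      have h := SD.hP_apply V X g w
      rw [hw, map_zero, map_zero, sub_zero, zero_add] at h
      exact h
    rw [LinearMap.add_apply, RCd_odd V Z Y _ _ w hw, RCd_odd V Z Y _ _ w hw,
      LinearMap.sub_apply, e1, e1, RCd_odd V Z Y f y w hw, sub_sub_cancel, Y.EP]
    have h3 : (Z.tens Y).P (f w ⊗ₜ[k] Y.E y) = Z.P (f w) ⊗ₜ[k] Y.P (Y.E y) +
        (f w - Z.P (f w)) ⊗ₜ[k] (Y.E y - Y.P (Y.E y)) := rfl
    rw [h3, Y.PE, map_sub Y.E, Y.EP, SD.E_apply]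
    simp only [TensorProduct.sub_tmul, TensorProduct.tmul_sub, TensorProduct.tmul_add]
    abel

/-- `hom(V, Z) ⊗ Y → hom(V, Z ⊗ Y)` -/
def homK (V Z Y : SD k) : SD.Hom ((SD.hom V Z).tens Y) (SD.hom V (Z.tens Y)) where
  f := TensorProduct.lift (homK0 V Z Y)
  D u := by
    refine tens_ext (f := TensorProduct.lift (homK0 V Z Y) ∘ₗ SD.tD (SD.hom V Z) Y)
      (g := (SD.hom V (Z.tens Y)).D ∘ₗ TensorProduct.lift (homK0 V Z Y)) (fun f y => ?_) u
    rw [LinearMap.comp_apply, LinearMap.comp_apply, SD.tD_tmul, map_add]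
    exact (homK0_D V Z Y f y).symm
  P u := by
    refine tens_ext (f := TensorProduct.lift (homK0 V Z Y) ∘ₗ SD.tP (SD.hom V Z) Y)
      (g := (SD.hom V (Z.tens Y)).P ∘ₗ TensorProduct.lift (homK0 V Z Y)) (fun f y => ?_) u
    rw [LinearMap.comp_apply, LinearMap.comp_apply, SD.tP_tmul, map_add]
    exact (homK0_P V Z Y f y).symm

theorem homK_tmul (V Z Y : SD k) (f : V.V →ₗ[k] Z.V) (y : Y.V) (v : V.V) :
    (homK V Z Y).f (f ⊗ₜ y) v = f (V.P v) ⊗ₜ y + f (v - V.P v) ⊗ₜ Y.E y := rfl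

private theorem RCd_actE {X : SD k} (r : RA B X) (x : X.V) (b : B.V) (hx : X.P x = x)
    (hb : B.P b = b) : X.P (r.act x b) = r.act x b := by
  rw [r.P_act, hx, hb, sub_self, map_zero, LinearMap.zero_apply, add_zero]

private theorem RCd_actO {X : SD k} (r : RA B X) (x : X.V) (b : B.V) (hx : X.P x = x)
    (hb : B.P b = 0) : X.P (r.act x b) = 0 := by
  rw [r.P_act, hx, hb, sub_self, map_zero, map_zero, LinearMap.zero_apply, add_zero]

private theorem RCd_actO' {X : SD k} (r : RA B X) (x : X.V) (b : B.V) (hx : X.P x = 0)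
    (hb : B.P b = b) : X.P (r.act x b) = 0 := by
  rw [r.P_act, hx, hb, sub_self, map_zero, map_zero, LinearMap.zero_apply, add_zero]

private theorem RCd_actE' {X : SD k} (r : RA B X) (x : X.V) (b : B.V) (hx : X.P x = 0)
    (hb : B.P b = 0) : X.P (r.act x b) = r.act x b := by
  rw [r.P_act, hx, hb, map_zero, sub_zero, sub_zero, zero_add]

theorem homK0_mem (rM : RA B M) (rZ : RA B Z) (Y : SD k) (f : M.V →ₗ[k] Z.V) (hf : f ∈ rLin rM rZ)
    (y : Y.V) : homK0 M Z Y f y ∈ rLin rM (rZ.tensL Y) := by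
  intro x b
  have hf' : ∀ x b, f (rM.act x b) = rZ.act (f x) b := hf
  have hb0 : B.P (B.P b) = B.P b := B.PP b
  have hb1 : B.P (b - B.P b) = 0 := by rw [map_sub, B.PP, sub_self]
  have key : (homK0 M Z Y f y) ∘ₗ rM.act.flip b =
      (rZ.tensL Y).act.flip b ∘ₗ (homK0 M Z Y f y) := by
    refine RCd_split M (fun w hw => ?_) (fun w hw => ?_)
    · rw [LinearMap.comp_apply, LinearMap.comp_apply, LinearMap.flip_apply,
        LinearMap.flip_apply, RCd_even M Z Y f y w hw, RA.tensL_act]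
      have e : rM.act w b = rM.act w (B.P b) + rM.act w (b - B.P b) := by
        rw [← map_add, add_sub_cancel]
      rw [e, map_add (homK0 M Z Y f y), RCd_even M Z Y f y _ (RCd_actE rM w _ hw hb0),
        RCd_odd M Z Y f y _ (RCd_actO rM w _ hw hb1), hf', hf']
    · rw [LinearMap.comp_apply, LinearMap.comp_apply, LinearMap.flip_apply,
        LinearMap.flip_apply, RCd_odd M Z Y f y w hw, RA.tensL_act]
      have e : rM.act w b = rM.act w (B.P b) + rM.act w (b - B.P b) := by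
        rw [← map_add, add_sub_cancel]
      rw [e, map_add (homK0 M Z Y f y), RCd_odd M Z Y f y _ (RCd_actO' rM w _ hw hb0),
        RCd_even M Z Y f y _ (RCd_actE' rM w _ hw hb1), hf', hf', Y.EE]
  exact LinearMap.congr_fun key x

private def RCd_T0 (rM : RA B M) (rZ : RA B Z) (Y : SD k) :
    (rLin rM rZ) →ₗ[k] Y.V →ₗ[k] (rLin rM (rZ.tensL Y)) :=
  LinearMap.mk₂ k
    (fun f y => (⟨homK0 M Z Y f.1 y, homK0_mem rM rZ Y f.1 f.2 y⟩ : rLin rM (rZ.tensL Y)))
    (fun f f' y => Subtype.ext (by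
      change homK0 M Z Y (f.1 + f'.1) y = homK0 M Z Y f.1 y + homK0 M Z Y f'.1 y
      rw [map_add, LinearMap.add_apply]))
    (fun c f y => Subtype.ext (by
      change homK0 M Z Y (c • f.1) y = c • homK0 M Z Y f.1 y
      rw [map_smul, LinearMap.smul_apply]))
    (fun f y y' => Subtype.ext (map_add (homK0 M Z Y f.1) y y'))
    (fun c f y => Subtype.ext (map_smul (homK0 M Z Y f.1) c y))

private theorem RCd_val (rM : RA B M) (rZ : RA B Z) (Y : SD k)
    (u : (rLin rM rZ) ⊗[k] Y.V) :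
    (TensorProduct.lift (RCd_T0 rM rZ Y) u).1 =
      TensorProduct.lift (homK0 M Z Y) (TensorProduct.map (rLin rM rZ).subtype LinearMap.id u) :=
  tens_ext (f := (rLin rM (rZ.tensL Y)).subtype ∘ₗ TensorProduct.lift (RCd_T0 rM rZ Y))
    (g := TensorProduct.lift (homK0 M Z Y) ∘ₗ
      TensorProduct.map (rLin rM rZ).subtype LinearMap.id) (fun _ _ => rfl) u

private theorem RCd_incD (rM : RA B M) (rZ : RA B Z) (Y : SD k)
    (u : (rLin rM rZ) ⊗[k] Y.V) :
    TensorProduct.map (rLin rM rZ).subtype LinearMap.id (SD.tD (HomR rM rZ) Y u) =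
      SD.tD (SD.hom M Z) Y (TensorProduct.map (rLin rM rZ).subtype LinearMap.id u) :=
  tens_ext (f := TensorProduct.map (rLin rM rZ).subtype LinearMap.id ∘ₗ SD.tD (HomR rM rZ) Y)
    (g := SD.tD (SD.hom M Z) Y ∘ₗ TensorProduct.map (rLin rM rZ).subtype LinearMap.id)
    (fun _ _ => rfl) u

private theorem RCd_incP (rM : RA B M) (rZ : RA B Z) (Y : SD k)
    (u : (rLin rM rZ) ⊗[k] Y.V) :
    TensorProduct.map (rLin rM rZ).subtype LinearMap.id (SD.tP (HomR rM rZ) Y u) =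
      SD.tP (SD.hom M Z) Y (TensorProduct.map (rLin rM rZ).subtype LinearMap.id u) :=
  tens_ext (f := TensorProduct.map (rLin rM rZ).subtype LinearMap.id ∘ₗ SD.tP (HomR rM rZ) Y)
    (g := SD.tP (SD.hom M Z) Y ∘ₗ TensorProduct.map (rLin rM rZ).subtype LinearMap.id)
    (fun _ _ => rfl) u

/-- `HomR(M, Z) ⊗ Y → HomR(M, Z ⊗ Y)` -/
def homTens (rM : RA B M) (rZ : RA B Z) (Y : SD k) :
    SD.Hom ((HomR rM rZ).tens Y) (HomR rM (rZ.tensL Y)) where
  f := TensorProduct.lift (RCd_T0 rM rZ Y)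
  D u := Subtype.ext ((RCd_val rM rZ Y (SD.tD (HomR rM rZ) Y u)).trans
    ((congrArg (TensorProduct.lift (homK0 M Z Y)) (RCd_incD rM rZ Y u)).trans
      (((homK M Z Y).D _).trans
        (congrArg (SD.hom M (Z.tens Y)).D (RCd_val rM rZ Y u).symm))))
  P u := Subtype.ext ((RCd_val rM rZ Y (SD.tP (HomR rM rZ) Y u)).trans
    ((congrArg (TensorProduct.lift (homK0 M Z Y)) (RCd_incP rM rZ Y u)).trans
      (((homK M Z Y).P _).trans
        (congrArg (SD.hom M (Z.tens Y)).P (RCd_val rM rZ Y u).symm))))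

theorem homTens_tmul (rM : RA B M) (rZ : RA B Z) (Y : SD k) (f : (HomR rM rZ).V) (y : Y.V) (v : M.V) :
    ((homTens rM rZ Y).f (f ⊗ₜ y)).1 v = f.1 (M.P v) ⊗ₜ y + f.1 (v - M.P v) ⊗ₜ Y.E y := rfl

end NC
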