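import Pool.Agent.H36.NX.RCa

/-!
# RCs : the contravariant functor `HomR(-, Z)` on right modules: shift and homotopies
-/

set_option autoImplicit false

open scoped TensorProduct

noncomputable section

namespace NC

variable {k : Type} [Field k] {B : DGA k} {M M' M'' Z : SD k}

/-! ### shift -/

/-- `HomR(M[1], Z) = HomR(M, Z)[1]`, the map `φ ↦ E φ E` -/
def homSh (rM : RA B M) (rZ : RA B Z) : SD.Hom (HomR rM.sh rZ) (HomR rM rZ).sh where
  f := (SD.hE M Z ∘ₗ (rLin rM.sh rZ).subtype).codRestrict (rLin rM rZ) (fun φ => by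
    intro x b
    change SD.hE M Z φ.1 (rM.act x b) = rZ.act (SD.hE M Z φ.1 x) b
    rw [SD.hE_apply, SD.hE_apply, rM.E_act]
    have h1 : φ.1 (rM.act (M.E x) (B.E b)) = rZ.act (φ.1 (M.E x)) (B.E b) := φ.2 (M.E x) (B.E b)
    rw [h1, rZ.E_act, B.EE])
  D φ := by
    refine Subtype.ext (LinearMap.ext fun x => ?_)
    change SD.hE M Z (SD.hD M.sh Z φ.1) x = -(SD.hD M Z (SD.hE M Z φ.1) x)
    rw [SD.hE_apply, SD.hD_apply, SD.hD_apply, SD.hE_apply, SD.hE_apply, SD.E_sh]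
    change Z.E (Z.D (φ.1 (M.E x)) - Z.E (φ.1 (-M.E (-(M.D (M.E x)))))) = _
    simp only [map_neg, neg_neg, map_sub, M.EE, Z.EE, M.DE, Z.DE]
    abel
  P φ := by
    refine Subtype.ext (LinearMap.ext fun x => ?_)
    change SD.hE M Z (SD.hP M.sh Z φ.1) x = SD.hE M Z φ.1 x - SD.hP M Z (SD.hE M Z φ.1) x
    rw [SD.hE_apply, SD.hP_apply, SD.hP_apply, SD.hE_apply, SD.hE_apply, SD.hE_apply]
    change Z.E (Z.P (φ.1 (M.E x - M.P (M.E x))) + (φ.1 (M.E x - (M.E x - M.P (M.E x))) -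
      Z.P (φ.1 (M.E x - (M.E x - M.P (M.E x)))))) = _
    simp only [SD.E_apply, map_sub, map_add, M.PP, Z.PP]
    abel

theorem homSh_apply (rM : RA B M) (rZ : RA B Z) (φ : (HomR rM.sh rZ).V) (x : M.V) :
    ((homSh rM rZ).f φ).1 x = Z.E (φ.1 (M.E x)) := SD.hE_apply M Z φ.1 x

theorem homSh_bijective (rM : RA B M) (rZ : RA B Z) : Function.Bijective (homSh rM rZ).f := by
  constructor
  · intro φ ψ h
    refine Subtype.ext (LinearMap.ext fun x => ?_)
    have h1 : ((homSh rM rZ).f φ).1 (M.E x) = ((homSh rM rZ).f ψ).1 (M.E x) := by rw [h]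
    rw [homSh_apply, homSh_apply, M.EE] at h1
    have h2 := congrArg Z.E h1
    rwa [Z.EE, Z.EE] at h2
  · intro ψ
    refine ⟨⟨SD.hE M Z ψ.1, fun x b => ?_⟩, Subtype.ext (LinearMap.ext fun x => ?_)⟩
    · change SD.hE M Z ψ.1 (rM.act x b) = rZ.act (SD.hE M Z ψ.1 x) b
      rw [SD.hE_apply, SD.hE_apply, rM.E_act]
      have h1 : ψ.1 (rM.act (M.E x) (B.E b)) = rZ.act (ψ.1 (M.E x)) (B.E b) :=
        ψ.2 (M.E x) (B.E b)
      rw [h1, rZ.E_act, B.EE]
    · rw [homSh_apply]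
      change Z.E (SD.hE M Z ψ.1 (M.E x)) = _
      rw [SD.hE_apply, M.EE, Z.EE]

theorem homSh_left (rM : RA B M) (rZ : RA B Z) {S : DGA k} (l : LA S Z) (h : LR l rZ) :
    (l.postR rM.sh h).IsHom (l.postR rM h).sh (homSh rM rZ) := by
  intro a φ
  refine Subtype.ext (LinearMap.ext fun x => ?_)
  rw [homSh_apply]
  change Z.E (l.act a (φ.1 (M.E x))) = l.act (S.E a) (((homSh rM rZ).f φ).1 x)
  rw [homSh_apply, l.E_act]

/-! ### homotopies -/

/-- `φ ↦ (E φ E) h`, for an odd right linear map `h` -/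
def homH (rM : RA B M) (rZ : RA B Z) (h : M.V →ₗ[k] M.V) (hr : ∀ x b, h (rM.act x b) = rM.act (h x) b) :
    (HomR rM rZ).V →ₗ[k] (HomR rM rZ).V :=
  ((LinearMap.lcomp k Z.V h) ∘ₗ SD.hE M Z ∘ₗ (rLin rM rZ).subtype).codRestrict (rLin rM rZ)
    (fun φ => by
      intro x b
      change SD.hE M Z φ.1 (h (rM.act x b)) = rZ.act (SD.hE M Z φ.1 (h x)) b
      rw [SD.hE_apply, SD.hE_apply, hr, rM.E_act]
      have h1 : φ.1 (rM.act (M.E (h x)) (B.E b)) = rZ.act (φ.1 (M.E (h x))) (B.E b) :=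
        φ.2 (M.E (h x)) (B.E b)
      rw [h1, rZ.E_act, B.EE])

theorem homH_apply (rM : RA B M) (rZ : RA B Z) (h : M.V →ₗ[k] M.V)
    (hr : ∀ x b, h (rM.act x b) = rM.act (h x) b) (φ : (HomR rM rZ).V) (x : M.V) :
    (homH rM rZ h hr φ).1 x = Z.E (φ.1 (M.E (h x))) := SD.hE_apply M Z φ.1 (h x)

/-- `(f + homotopy)`: if `ρ s = 1 + D h + h D` with `h` odd then `(ρ s)^* = 1 + D H + H D` -/
theorem homH_htp {F : SD k} {rM : RA B M} {rF : RA B F} (rZ : RA B Z) (s : SD.Hom M F)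
    (hs : rM.IsHom rF s) (ρ : SD.Hom F M) (hρ : rF.IsHom rM ρ) (h : M.V →ₗ[k] M.V)
    (hr : ∀ x b, h (rM.act x b) = rM.act (h x) b) (hE : ∀ x, M.E (h x) = - h (M.E x))
    (heq : ∀ x, ρ.f (s.f x) = x + M.D (h x) + h (M.D x)) (φ : (HomR rM rZ).V) :
    (homPre s hs rZ).f ((homPre ρ hρ rZ).f φ) = φ + (HomR rM rZ).D (homH rM rZ h hr φ)
      + homH rM rZ h hr ((HomR rM rZ).D φ) := by
  refine Subtype.ext (LinearMap.ext fun x => ?_)
  change φ.1 (ρ.f (s.f x)) = φ.1 x + SD.hD M Z (homH rM rZ h hr φ).1 x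
    + (homH rM rZ h hr ((HomR rM rZ).D φ)).1 x
  rw [heq, homH_apply, SD.hD_apply, homH_apply, homH_apply]
  change _ = _ + Z.E (SD.hD M Z φ.1 (M.E (h x)))
  rw [SD.hD_apply]
  have h' : ∀ y, h (M.E y) = - M.E (h y) := fun y => by rw [hE, neg_neg]
  simp only [map_add, map_sub, map_neg, h', Z.EE, M.EE, M.DE, Z.DE]
  abel

theorem homH_left (rM : RA B M) (rZ : RA B Z) (h : M.V →ₗ[k] M.V)
    (hr : ∀ x b, h (rM.act x b) = rM.act (h x) b) {S : DGA k} (l : LA S Z) (hl : LR l rZ)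
    (a : S.V) (φ : (HomR rM rZ).V) :
    homH rM rZ h hr ((l.postR rM hl).act a φ) = (l.postR rM hl).act (S.E a) (homH rM rZ h hr φ) := by
  refine Subtype.ext (LinearMap.ext fun x => ?_)
  rw [homH_apply, LA.postR_act, LA.postR_act, homH_apply, l.E_act]

theorem homH_odd (rM : RA B M) (rZ : RA B Z) (h : M.V →ₗ[k] M.V)
    (hr : ∀ x b, h (rM.act x b) = rM.act (h x) b) (hE : ∀ x, M.E (h x) = - h (M.E x))
    (φ : (HomR rM rZ).V) :
    (HomR rM rZ).E (homH rM rZ h hr φ) = - homH rM rZ h hr ((HomR rM rZ).E φ) := by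
  refine Subtype.ext (LinearMap.ext fun x => ?_)
  change SD.hE M Z (homH rM rZ h hr φ).1 x = -((homH rM rZ h hr ((HomR rM rZ).E φ)).1 x)
  rw [SD.hE_apply, homH_apply, homH_apply]
  change _ = -(Z.E (SD.hE M Z φ.1 (M.E (h x))))
  rw [SD.hE_apply, hE]
  simp only [map_neg, M.EE, Z.EE]

/-- the homotopy in a homotopy retract of right modules can be chosen odd -/
theorem RPf.odd {rM : RA B M} (hM : RPf rM) : ∃ (F : SD k) (rF : RA B F) (s : SD.Hom M F)
    (r : SD.Hom F M) (h : M.V →ₗ[k] M.V), FinSF B F rF ∧ rM.IsHom rF s ∧ rF.IsHom rM r ∧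
      (∀ x a, h (rM.act x a) = rM.act (h x) a) ∧ (∀ x, M.E (h x) = - h (M.E x)) ∧
      ∀ x, r.f (s.f x) = x + M.D (h x) + h (M.D x) := by
  obtain ⟨F, rF, s, r, h, hF, hs, hr, hh, heq⟩ := hM.out
  -- odd part of `h`: `h x - P h P x - (1-P) h (1-P) x`
  refine ⟨F, rF, s, r, h - SD.hP M M h, hF, hs, hr, fun x a => ?_, fun x => ?_, fun x => ?_⟩
  · have h1 : SD.hP M M h (rM.act x a) = rM.act (SD.hP M M h x) a :=
      rLin_P rM rM h (fun x b => hh x b) x a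
    rw [LinearMap.sub_apply, LinearMap.sub_apply, hh, h1, map_sub, LinearMap.sub_apply]
  · simp only [LinearMap.sub_apply, SD.hP_apply, SD.E_apply, map_sub, map_add, M.PP]
    abel
  · have h1 := heq x
    have h2 := heq (M.P x)
    have h3 := congrArg M.P h1
    rw [← r.P, ← s.P, h2] at h3
    have h4 := congrArg M.P h3
    simp only [LinearMap.sub_apply, SD.hP_apply, map_sub, map_add, M.DP, M.PP] at h3 h4 ⊢
    rw [h1]
    rw [← sub_eq_zero] at h3 h4 ⊢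
    have h5 := congrArg₂ (fun a b => a - b - b) h3 h4
    simp only [sub_zero] at h5
    refine Eq.trans ?_ h5
    abel

end NC
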