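import Pool.Agent.H36.NX.TensHom
import Pool.Agent.H36.NX.DDR

/-!
# RP : `A ⊗ V` is a perfect bimodule for every perfect right module `V`
-/

set_option autoImplicit false

open scoped TensorProduct

noncomputable section

namespace NC

variable {k : Type} [Field k] {A : DGA k}

/-- the bimodule `A ⊗ V` of a unital right module -/
def BMod.tR {V : SD k} (r : RA A V) (h1 : ∀ x, r.act x 1 = x) : BMod A A where
  N := A.toSD.tens V
  b := Bi.tensLR A.diag.l r
  one_l := fun v => by
    refine tens_ext (f := (A.diag.l.tensL V).act 1) (g := LinearMap.id) (fun x y => ?_) v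
    rw [LA.tensL_act]; exact congrArg (· ⊗ₜ y) (one_mul x)
  r_one := fun v => by
    refine tens_ext (f := (r.tensR A.toSD).act.flip 1) (g := LinearMap.id)
      (fun x y => ?_) v
    change (r.tensR A.toSD).act (x ⊗ₜ[k] y) 1 = _
    rw [RA.tensR_act, h1]
    rfl

/-- maps of right modules give maps of bimodules -/
def BMod.tRmap {V V' : SD k} {r : RA A V} {r' : RA A V'} (h1 : ∀ x, r.act x 1 = x)
    (h1' : ∀ x, r'.act x 1 = x) (f : SD.Hom V V') (hf : r.IsHom r' f) :
    BMod.Hom (BMod.tR r h1) (BMod.tR r' h1') where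
  toHom := (SD.Hom.id A.toSD).tens f
  isHom := H36.NX.isHom_tens (SD.Hom.id A.toSD) f (LA.isHom_id _) hf

/-- finite semi-free right modules are unital: `x 1 - x` maps to `0` in the quotient, and lies in the unital `N'`
where it is killed by `· 1` -/
theorem FinSF.unital {B : DGA k} {N : SD k} {r : RA B N} (h : FinSF B N r) :
    ∀ x, r.act x 1 = x := by
  induction h with
  | zero h => exact fun x => (h _).trans (h _).symm
  | @ext N' N r' r f hf g hg h h' ih =>
    intro x
    have h1 : g.f (r.act x 1 - x) = 0 := by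
      rw [map_sub, hg x 1, sub_eq_zero]
      exact mul_one (M := B.V) (g.f x)
    obtain ⟨y, hy⟩ := h.exact _ h1
    have h2 : r.act (r.act x 1 - x) 1 = r.act x 1 - x := by
      rw [← hy, ← hf y 1, ih y]
    rw [map_sub, LinearMap.sub_apply, r.act_mul, mul_one, sub_self] at h2
    exact (sub_eq_zero.mp h2.symm)
  | @exts N' N r' r f hf g hg h h' ih =>
    intro x
    have h1 : g.f (r.act x 1 - x) = 0 := by
      rw [map_sub, hg x 1, sub_eq_zero]
      exact mul_one (M := B.V) (g.f x)
    obtain ⟨y, hy⟩ := h.exact _ h1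
    have h2 : r.act (r.act x 1 - x) 1 = r.act x 1 - x := by
      rw [← hy, ← hf y 1, ih y]
    rw [map_sub, LinearMap.sub_apply, r.act_mul, mul_one, sub_self] at h2
    exact (sub_eq_zero.mp h2.symm)

/-- `A ⊗ A[1] = (A ⊗ A)[1]`, by `x ⊗ y ↦ E x ⊗ y` -/
def freeSh (A : DGA k) : BMod.Hom (BMod.free A A).sh
    (BMod.tR (A := A) A.diag.r.sh (fun x => mul_one (M := A.V) x)) where
  f := TensorProduct.map A.E LinearMap.id
  D := fun v => by
    refine tens_ext (f := TensorProduct.map A.E LinearMap.id ∘ₗ (-(SD.tD A.toSD A.toSD)))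
      (g := SD.tD A.toSD A.toSD.sh ∘ₗ TensorProduct.map A.E LinearMap.id) (fun x y => ?_) v
    simp only [LinearMap.comp_apply, LinearMap.neg_apply, SD.tD_tmul, map_neg, map_add,
      TensorProduct.map_tmul, LinearMap.id_apply, A.EE, A.DE, TensorProduct.neg_tmul,
      TensorProduct.tmul_neg]
    abel
  P := fun v => by
    have h := tens_ext (f := TensorProduct.map A.E (LinearMap.id : A.V →ₗ[k] A.V) -
        TensorProduct.map A.E (LinearMap.id : A.V →ₗ[k] A.V) ∘ₗ SD.tP A.toSD A.toSD)
      (g := SD.tP A.toSD A.toSD.sh ∘ₗ TensorProduct.map A.E LinearMap.id) (fun x y => by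
        simp only [LinearMap.comp_apply, LinearMap.sub_apply, LinearMap.id_apply, SD.tP_tmul,
          map_sub, map_add, TensorProduct.map_tmul, SD.E_apply,
          TensorProduct.sub_tmul, TensorProduct.tmul_sub, TensorProduct.add_tmul, A.PP]
        abel) v
    exact (map_sub (TensorProduct.map A.E (LinearMap.id : A.V →ₗ[k] A.V)) v
      (SD.tP A.toSD A.toSD v)).trans h
  isHom := by
    constructor
    · intro a v
      refine tens_ext (f := TensorProduct.map A.E LinearMap.id ∘ₗ
        (A.diag.l.tensL A.toSD).act (A.E a))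
        (g := (A.diag.l.tensL A.toSD.sh).act a ∘ₗ TensorProduct.map A.E LinearMap.id)
        (fun x y => ?_) v
      change A.E (A.E a * x) ⊗ₜ[k] y = (a * A.E x) ⊗ₜ[k] y
      rw [A.E_mul, A.EE]
    · intro v a
      refine tens_ext (f := TensorProduct.map A.E LinearMap.id ∘ₗ
        (A.diag.r.tensR A.toSD).act.flip a)
        (g := (A.diag.r.sh.tensR A.toSD).act.flip a ∘ₗ TensorProduct.map A.E LinearMap.id)
        (fun x y => ?_) v
      rfl

theorem freeSh_bij (A : DGA k) : Function.Bijective (freeSh A).f := by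
  have h : ∀ v : A.V ⊗[k] A.V, TensorProduct.map A.E LinearMap.id
      (TensorProduct.map A.E (LinearMap.id : A.V →ₗ[k] A.V) v) = v := by
    intro v
    refine tens_ext (f := TensorProduct.map A.E (LinearMap.id : A.V →ₗ[k] A.V) ∘ₗ
      TensorProduct.map A.E (LinearMap.id : A.V →ₗ[k] A.V)) (g := LinearMap.id)
      (fun x y => ?_) v
    simp only [LinearMap.comp_apply, TensorProduct.map_tmul, LinearMap.id_apply, A.EE]
  exact (show Function.Involutive
    (TensorProduct.map A.E (LinearMap.id : A.V →ₗ[k] A.V)) from h).bijective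

/-- homotopy retracts of right modules give homotopy retracts of bimodules, with homotopy `E ⊗ h` -/
def BMod.tRret {V V' : SD k} {r : RA A V} {r' : RA A V'} (h1 : ∀ x, r.act x 1 = x)
    (h1' : ∀ x, r'.act x 1 = x) (s : SD.Hom V V') (hs : r.IsHom r' s) (ρ : SD.Hom V' V)
    (hρ : r'.IsHom r ρ) (h : V.V →ₗ[k] V.V) (hr : ∀ x a, h (r.act x a) = r.act (h x) a)
    (heq : ∀ x, ρ.f (s.f x) = x + V.D (h x) + h (V.D x)) :
    HRet (BMod.tR r h1) (BMod.tR r' h1') where
  s := BMod.tRmap h1 h1' s hs
  r := BMod.tRmap h1' h1 ρ hρ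
  h := TensorProduct.map A.E h
  hl := fun a v => by
    refine tens_ext (f := TensorProduct.map A.E h ∘ₗ (A.diag.l.tensL V).act a)
      (g := (A.diag.l.tensL V).act (A.E a) ∘ₗ TensorProduct.map A.E h) (fun x y => ?_) v
    change A.E (a * x) ⊗ₜ[k] h y = (A.E a * A.E x) ⊗ₜ[k] h y
    rw [A.E_mul]
  hr := fun v a => by
    refine tens_ext (f := TensorProduct.map A.E h ∘ₗ (r.tensR A.toSD).act.flip a)
      (g := (r.tensR A.toSD).act.flip a ∘ₗ TensorProduct.map A.E h) (fun x y => ?_) v
    change A.E x ⊗ₜ[k] h (r.act y a) = A.E x ⊗ₜ[k] r.act (h y) a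
    rw [hr]
  eq := fun v => by
    refine tens_ext (f := TensorProduct.map LinearMap.id ρ.f ∘ₗ
        TensorProduct.map LinearMap.id s.f)
      (g := LinearMap.id + SD.tD A.toSD V ∘ₗ TensorProduct.map A.E h +
        TensorProduct.map A.E h ∘ₗ SD.tD A.toSD V) (fun x y => ?_) v
    simp only [LinearMap.comp_apply, LinearMap.add_apply, LinearMap.id_apply,
      TensorProduct.map_tmul, SD.tD_tmul, map_add, heq, A.EE, A.DE, TensorProduct.tmul_add,
      TensorProduct.neg_tmul]
    abel

/-- the zero bimodule is perfect -/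
theorem PF_zero {X : BMod A A} (h : X.N.IsZero) : PF A X := by
  let z : BMod.Hom (BMod.free A A) X :=
    { f := 0
      D := fun v => by simp
      P := fun v => by simp
      isHom := ⟨fun a v => by simp, fun v a => by simp⟩ }
  exact PF.ses1 (BMod.Hom.id (BMod.free A A)) z ⟨fun x hx => hx, fun y => ⟨0, (h y).symm⟩,
    fun x => rfl, fun y _ => ⟨y, rfl⟩⟩ PF.free PF.free

theorem PF_tR_fin {V : SD k} {r : RA A V} (h : FinSF A V r) : PF A (BMod.tR r h.unital) := by
  induction h with
  | zero h =>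
    refine PF_zero (fun v => ?_)
    exact tens_ext (f := LinearMap.id) (g := 0) (fun x y => by
      rw [h y, TensorProduct.tmul_zero]
      rfl) v
  | @ext N' N r' r f hf g hg h h' ih =>
    have hN : FinSF A N r := FinSF.ext f hf g hg h h'
    exact PF.ses2 (X' := BMod.tR r' h'.unital) (X'' := BMod.free A A)
      (BMod.tRmap h'.unital hN.unital f hf)
      { toHom := (SD.Hom.id A.toSD).tens g
        isHom := H36.NX.isHom_tens (SD.Hom.id A.toSD) g (LA.isHom_id _) hg }
      (H36.NX.ses_tensL h A.toSD) ih PF.free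
  | @exts N' N r' r f hf g hg h h' ih =>
    have hN : FinSF A N r := FinSF.exts f hf g hg h h'
    exact PF.ses2 (X' := BMod.tR r' h'.unital)
      (X'' := BMod.tR (A := A) A.diag.r.sh (fun x => mul_one (M := A.V) x))
      (BMod.tRmap h'.unital hN.unital f hf)
      (BMod.tRmap (r' := A.diag.r.sh) hN.unital (fun x => mul_one (M := A.V) x) g hg)
      (H36.NX.ses_tensL h A.toSD) ih
      (PF.qi (freeSh A) (SD.Hom.QI.of_bijective (freeSh_bij A)) PF.free.sh)

theorem PF_tR {M : SD k} {rM : RA A M} (h1 : ∀ x, rM.act x 1 = x) (h : RPf rM) :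
    PF A (BMod.tR rM h1) := by
  obtain ⟨F, rF, s, ρ, hh, hF, hs, hρ, hr, heq⟩ := h.out
  exact PF.retr (BMod.tRret h1 hF.unital s hs ρ hρ hh hr heq) (PF_tR_fin hF)

end NC
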