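import Pool.Agent.H36.NX.Push
import Pool.Agent.H36.NX.HomsF

/-!
# SmK : the bimodules `K m n`, `V n`, `U m` are perfect (section 3)
-/

set_option autoImplicit false

open NC

namespace H36.NX

variable {k : Type} [Field k] {t : k} {R : Type} [CommRing R] [Algebra k R]
  {C : CubicRing k t R} {K : Type} [Field K] [Algebra k K]

/-- `K m (-n)`, `m, n ∈ {0, 1}` -/
theorem PF_K_base (C : CubicRing k t R) (m n : Fin 2) : PF (AA C) (Kb C (wt m) (-wt n)) :=
  PF.ret (kPut C m n) (kGet C m n) (kGet_kPut C m n) PF.free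

private theorem SmK_base (C : CubicRing k t R) (m : Fin 2) {n : ℤ} (hn : n = 0 ∨ n = -1) :
    PF (AA C) (Kb C (wt m) n) := by
  rcases hn with hn | hn
  · have h := PF_K_base C m 0
    have e : -wt (0 : Fin 2) = n := by rw [hn]; simp [wt]
    rw [e] at h
    exact h
  · have h := PF_K_base C m 1
    have e : -wt (1 : Fin 2) = n := by rw [hn]; simp [wt]
    rw [e] at h
    exact h

/-- `U 0`, `U 1` from `K m (-1) → K m 0 → U m` -/
theorem PF_U_base (C : CubicRing k t R) (E : CubeRoot k t K) (m : Fin 2) :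
    PF (AA C) (Ub C E (wt m)) :=
  PF.ses1 (kxR C (wt m) (-1)) (kvR C E (wt m) (-1 + 1)) (ses_kR C E (wt m) (-1))
    (SmK_base C m (Or.inr rfl)) (SmK_base C m (Or.inl (by norm_num)))

/-- `K m n`, `m ∈ {0, 1}`, all `n`: induction with `K m n → K m (n+1) → U m` -/
theorem PF_K_row (C : CubicRing k t R) (E : CubeRoot k t K) (m : Fin 2) (n : ℤ) :
    PF (AA C) (Kb C (wt m) n) := by
  have hU := PF_U_base C E m
  have up : ∀ i : ℤ, PF (AA C) (Kb C (wt m) i) → PF (AA C) (Kb C (wt m) (i + 1)) := fun i hi =>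
    PF.ses2 (kxR C (wt m) i) (kvR C E (wt m) (i + 1)) (ses_kR C E (wt m) i) hi hU
  have dn : ∀ i : ℤ, PF (AA C) (Kb C (wt m) (i + 1)) → PF (AA C) (Kb C (wt m) i) := fun i hi =>
    PF.ses3 (kxR C (wt m) i) (kvR C E (wt m) (i + 1)) (ses_kR C E (wt m) i) hi hU
  induction n using Int.induction_on with
  | zero => exact SmK_base C m (Or.inl rfl)
  | succ i ih => exact up _ ih
  | pred i ih =>
    refine dn _ ?_
    have e : -(i : ℤ) - 1 + 1 = -(i : ℤ) := by ring
    rw [e]
    exact ih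

private theorem SmK_row (C : CubicRing k t R) (E : CubeRoot k t K) {m : ℤ} (n : ℤ)
    (hm : m = 0 ∨ m = 1) : PF (AA C) (Kb C m n) := by
  rcases hm with hm | hm
  · have h := PF_K_row C E 0 n
    have e : wt (0 : Fin 2) = m := by rw [hm]; simp [wt]
    rw [e] at h
    exact h
  · have h := PF_K_row C E 1 n
    have e : wt (1 : Fin 2) = m := by rw [hm]; simp [wt]
    rw [e] at h
    exact h

/-- `V n` from `K 0 n → K 1 n → V n` -/
theorem PF_V (C : CubicRing k t R) (E : CubeRoot k t K) (n : ℤ) : PF (AA C) (Vb C E n) :=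
  PF.ses1 (kxL C 0 n) (kvL C E (0 + 1) n) (ses_kL C E 0 n)
    (SmK_row C E n (Or.inl rfl)) (SmK_row C E n (Or.inr (by norm_num)))

/-- all `K m n`: induction with `K m n → K (m+1) n → V n` -/
theorem PF_K (C : CubicRing k t R) (E : CubeRoot k t K) (m n : ℤ) : PF (AA C) (Kb C m n) := by
  have hV := PF_V C E n
  have up : ∀ i : ℤ, PF (AA C) (Kb C i n) → PF (AA C) (Kb C (i + 1) n) := fun i hi =>
    PF.ses2 (kxL C i n) (kvL C E (i + 1) n) (ses_kL C E i n) hi hV
  have dn : ∀ i : ℤ, PF (AA C) (Kb C (i + 1) n) → PF (AA C) (Kb C i n) := fun i hi =>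
    PF.ses3 (kxL C i n) (kvL C E (i + 1) n) (ses_kL C E i n) hi hV
  induction m using Int.induction_on with
  | zero => exact SmK_row C E n (Or.inl rfl)
  | succ i ih => exact up _ ih
  | pred i ih =>
    refine dn _ ?_
    have e : -(i : ℤ) - 1 + 1 = -(i : ℤ) := by ring
    rw [e]
    exact ih

end H36.NX
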