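import Pool.Agent.H36.NX.SmK
import Pool.Agent.H36.NX.HomsW
import Pool.Agent.H36.NX.HomsK

/-!
# SmQ : the bimodules `kap`, `W n`, `Q n` are perfect (section 3)
-/

set_option autoImplicit false

open NC

namespace H36.NX

variable {k : Type} [Field k] {t : k} {R : Type} [CommRing R] [Algebra k R]
  {C : CubicRing k t R} {K : Type} [Field K] [Algebra k K] {D : Type} [CommRing D] [Algebra k D]

theorem PF_coker_ell (C : CubicRing k t R) (E : CubeRoot k t K) [CharP k 3] (ht : t ≠ 0) (n : ℤ) :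
    PF (AA C) (BMod.coker (ellH C E n)) :=
  PF.ses1 (ellH C E n) (BMod.cokerπ (ellH C E n)) (BMod.coker_ses _ (ellH_injective C E ht n))
    (PF_V C E n) (PF_V C E (n + 1))

theorem PF_kap (C : CubicRing k t R) (E : CubeRoot k t K) [CharP k 3] (ht : t ≠ 0) :
    PF (AA C) (kap C E) :=
  PF.ret (sKbar C E ht 0) (pKbar C E 0) (pKbar_sKbar C E ht 0) (PF_coker_ell C E ht 0)

theorem PF_coker_phi (C : CubicRing k t R) (E : CubeRoot k t K) (m n : ℤ) :
    PF (AA C) (BMod.coker (phiH C m n)) :=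
  PF.ses1 (phiH C m n) (BMod.cokerπ (phiH C m n)) (BMod.coker_ses _ (phi_injective C m n))
    (PF_K C E m n) (PF_K C E (m + 1) (n + 1))

theorem PF_W (W : DblRing k C D) (E : CubeRoot k t K) (n : ℤ) : PF (AA C) (Wb W n) := by
  have h := PF.qi (psiBar W (-1) (n - 1)) (psiBar_qi W (-1) (n - 1)) (PF_coker_phi C E (-1) (n - 1))
  have e : (-1 : ℤ) + 1 + (n - 1 + 1) = n := by ring
  rwa [e] at h

/-- inclusion `Q n → Q m` -/
private noncomputable def smqIn (C : CubicRing k t R) (n m : ℤ)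
    (h : ∀ i j : Fin 2, wtn n j - wt i ≤ wtn m j - wt i) : BMod.Hom (Qb C n) (Qb C m) where
  toHom := qInH C h
  isHom := ⟨qInH_left C h, qInH_right C h⟩

private theorem smq_qv (C : CubicRing k t R) (n m : ℤ)
    (h : ∀ i j : Fin 2, wtn n j - wt i ≤ wtn m j - wt i) (x : (qSD C wt (wtn n)).V) :
    qv C wt (wtn m) ((smqIn C n m h).f x) = qv C wt (wtn n) x := by
  change qv C wt (wtn m) (qIn C h x) = qv C wt (wtn n) x
  rw [qv_qIn]

private theorem smq_inj (C : CubicRing k t R) (n m : ℤ)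
    (h : ∀ i j : Fin 2, wtn n j - wt i ≤ wtn m j - wt i) :
    Function.Injective (smqIn C n m h).f := by
  intro x y hxy
  have h1 := smq_qv C n m h x
  have h2 := smq_qv C n m h y
  rw [hxy] at h1
  exact q_ext C (h1.symm.trans h2)

private theorem smq_step (C : CubicRing k t R) (E : CubeRoot k t K) [CharP k 3] (ht : t ≠ 0)
    (n m : ℤ) (hm : m = n + 1) (h : ∀ i j : Fin 2, wtn n j - wt i ≤ wtn m j - wt i) :
    PF (AA C) (BMod.coker (smqIn C n m h)) := by
  subst hm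
  exact PF_coker_of_ses (qx C n) (qk C E (n + 1)) (ses_Q C E n) (PF_kap C E ht)

/-- `Q (n+2) / Q n` is an extension of `kap` by `kap` -/
theorem PF_coker_qx2 (C : CubicRing k t R) (E : CubeRoot k t K) [CharP k 3] (ht : t ≠ 0) (n : ℤ) :
    PF (AA C) (BMod.coker (qx2 C n)) := by
  have h1 : ∀ i j : Fin 2, wtn n j - wt i ≤ wtn (n + 1) j - wt i := fun i j => by simp [wtn]
  have h2 : ∀ i j : Fin 2, wtn (n + 1) j - wt i ≤ wtn (n + 2) j - wt i := fun i j => by
    simp [wtn]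
  have h3 : ∀ i j : Fin 2, wtn n j - wt i ≤ wtn (n + 2) j - wt i := fun i j => by simp [wtn]
  have e1 := smq_step C E ht n (n + 1) rfl h1
  have e2 := smq_step C E ht (n + 1) (n + 2) (by ring) h2
  exact PF_coker_comp (smqIn C n (n + 1) h1) (smqIn C (n + 1) (n + 2) h2) (smqIn C n (n + 2) h3)
    (fun x => q_ext C ((smq_qv C n (n + 2) h3 x).trans
      ((smq_qv C n (n + 1) h1 x).symm.trans (smq_qv C (n + 1) (n + 2) h2 _).symm)))
    (smq_inj C (n + 1) (n + 2) h2) e1 e2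

/-- all `Q n` are perfect: `PF_push` with `W (n+2)`, `G` and `- t^(-2) π` -/
theorem PF_Q (W : DblRing k C D) (E : CubeRoot k t K) [CharP k 3] (ht : t ≠ 0) (n : ℤ) :
    PF (AA C) (Qb C (n + 2)) := by
  have h3 : ∀ i j : Fin 2, wtn n j - wt i ≤ wtn (n + 2) j - wt i := fun i j => by simp [wtn]
  refine PF_push (gH W n) ((piH W (n + 2)).smul (-(t ^ 2)⁻¹)) (qx2 C n) (fun m => ?_)
    (smq_inj C n (n + 2) h3) (PF_W W E (n + 2)) (PF_coker_qx2 C E ht n)
  change (-(t ^ 2)⁻¹) • (piH W (n + 2)).f ((gH W n).f m) = (qx2 C n).f m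
  rw [piH_gH, smul_smul]
  have ht2 : t ^ 2 ≠ 0 := pow_ne_zero 2 ht
  have e : -(t ^ 2)⁻¹ * -t ^ 2 = 1 := by
    rw [neg_mul_neg, inv_mul_cancel₀ ht2]
  rw [e, one_smul]

end H36.NX
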