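import Pool.Agent.H36.NX.Lead

/-!
# Split : the bimodule of the point is a direct factor (step S3)

In `K ⊗ R` let `ell = 1 ⊗ w - α ⊗ u`, `quad = 1 ⊗ u^2 + α ⊗ u + 1 ⊗ 1`, `eps = u^(-2) quad`, `VY n` = the image of
`K ⊗ Y n`. Identities (characteristic 3, `α^3 = t`):
`ell * (α^2 ⊗ u^2 + α ⊗ u w + 1 ⊗ (w^2 - t^2)) = t^2 quad`, and the same divided by `u^3`.
-/

set_option autoImplicit false

open scoped TensorProduct

namespace H36.NX
namespace CubicRing

variable {k : Type} [Field k] {t : k} {R : Type} [CommRing R] [Algebra k R]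
variable {K : Type} [Field K] [Algebra k K]

/-- `1 ⊗ w - α ⊗ u` -/
noncomputable def ell (C : CubicRing k t R) (E : CubeRoot k t K) : K ⊗[k] R :=
  (1 : K) ⊗ₜ[k] C.w - E.α ⊗ₜ[k] (C.u : R)

/-- `1 ⊗ u^2 + α ⊗ u + 1 ⊗ 1` -/
noncomputable def quad (C : CubicRing k t R) (E : CubeRoot k t K) : K ⊗[k] R :=
  (1 : K) ⊗ₜ[k] (C.u : R) ^ 2 + E.α ⊗ₜ[k] (C.u : R) + (1 : K) ⊗ₜ[k] (1 : R)

/-- `u^(-2) quad` -/
noncomputable def eps (C : CubicRing k t R) (E : CubeRoot k t K) : K ⊗[k] R :=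
  (1 : K) ⊗ₜ[k] ((C.u ^ (-2 : ℤ) : Rˣ) : R) * C.quad E

/-- the image of `K ⊗ Y n` in `K ⊗ R` -/
noncomputable def VY (C : CubicRing k t R) (K : Type) [Field K] [Algebra k K] (n : ℤ) :
    Submodule k (K ⊗[k] R) :=
  LinearMap.range (TensorProduct.map (LinearMap.id : K →ₗ[k] K) (C.Y n).subtype)

/-- the image of `K ⊗ X` in `K ⊗ R` -/
noncomputable def VX (C : CubicRing k t R) (K : Type) [Field K] [Algebra k K] :
    Submodule k (K ⊗[k] R) :=
  LinearMap.range (TensorProduct.map (LinearMap.id : K →ₗ[k] K) C.X.subtype)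

/-- the value at `P` on `K ⊗ R`, in degree `n`: `c ⊗ r ↦ c * lead n r` -/
noncomputable def vlead (C : CubicRing k t R) (E : CubeRoot k t K) (n : ℤ) : K ⊗[k] R →ₗ[k] K :=
  (LinearMap.mul' k K).comp (TensorProduct.map (LinearMap.id : K →ₗ[k] K) (C.lead E n))

private theorem Split_VY_tmul (C : CubicRing k t R) {n : ℤ} (c : K) {r : R} (hr : r ∈ C.Y n) :
    c ⊗ₜ[k] r ∈ C.VY K n :=
  ⟨c ⊗ₜ[k] (⟨r, hr⟩ : C.Y n), by simp⟩

private theorem Split_tmul (c : K) (r : R) :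
    c ⊗ₜ[k] r = (c ⊗ₜ[k] (1 : R)) * ((1 : K) ⊗ₜ[k] r) := by
  rw [Algebra.TensorProduct.tmul_mul_tmul, mul_one, one_mul]

theorem ell_mul (C : CubicRing k t R) (E : CubeRoot k t K) [CharP k 3] :
    C.ell E * ((E.α ^ 2) ⊗ₜ[k] ((C.u : R) ^ 2) + E.α ⊗ₜ[k] ((C.u : R) * C.w)
      + (1 : K) ⊗ₜ[k] (C.w ^ 2 - algebraMap k R (t ^ 2))) = t ^ 2 • C.quad E := by
  have hA : (E.α ⊗ₜ[k] (1 : R)) ^ 3 = algebraMap k (K ⊗[k] R) t := by
    rw [Algebra.TensorProduct.tmul_pow, E.cube, one_pow]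
    rfl
  have hW : ((1 : K) ⊗ₜ[k] C.w) ^ 3 = algebraMap k (K ⊗[k] R) t ^ 2 * ((1 : K) ⊗ₜ[k] C.w)
      + algebraMap k (K ⊗[k] R) t * ((1 : K) ⊗ₜ[k] (C.u : R)) ^ 3
      + algebraMap k (K ⊗[k] R) t ^ 2 * ((1 : K) ⊗ₜ[k] (C.u : R)) ^ 2
      + algebraMap k (K ⊗[k] R) t ^ 2 := by
    have h := congrArg (Algebra.TensorProduct.includeRight : R →ₐ[k] K ⊗[k] R) C.rel
    simp only [map_add, map_mul, map_pow, AlgHom.commutes,
      Algebra.TensorProduct.includeRight_apply] at h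
    exact h
  have e1 : (E.α ^ 2) ⊗ₜ[k] ((C.u : R) ^ 2) =
      (E.α ⊗ₜ[k] (1 : R)) ^ 2 * ((1 : K) ⊗ₜ[k] (C.u : R)) ^ 2 := by
    simp
  have e2 : E.α ⊗ₜ[k] ((C.u : R) * C.w) =
      (E.α ⊗ₜ[k] (1 : R)) * (((1 : K) ⊗ₜ[k] (C.u : R)) * ((1 : K) ⊗ₜ[k] C.w)) := by
    simp
  have e3 : (1 : K) ⊗ₜ[k] (C.w ^ 2 - algebraMap k R (t ^ 2)) =
      ((1 : K) ⊗ₜ[k] C.w) ^ 2 - algebraMap k (K ⊗[k] R) t ^ 2 := by
    have h := map_sub (Algebra.TensorProduct.includeRight : R →ₐ[k] K ⊗[k] R) (C.w ^ 2)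
      (algebraMap k R (t ^ 2))
    simp only [map_pow, AlgHom.commutes, Algebra.TensorProduct.includeRight_apply] at h
    rw [map_pow]
    exact h
  have e4 : E.α ⊗ₜ[k] (C.u : R) = (E.α ⊗ₜ[k] (1 : R)) * ((1 : K) ⊗ₜ[k] (C.u : R)) :=
    Split_tmul _ _
  have e6 : (1 : K) ⊗ₜ[k] (1 : R) = 1 := rfl
  rw [e1, e2, e3, Algebra.smul_def, map_pow]
  unfold ell quad
  rw [e4, e6]
  generalize E.α ⊗ₜ[k] (1 : R) = A at *
  generalize (1 : K) ⊗ₜ[k] (C.u : R) = U at *
  generalize (1 : K) ⊗ₜ[k] C.w = W at *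
  generalize algebraMap k (K ⊗[k] R) t = T at *
  linear_combination hW - U ^ 3 * hA

/-- multiplication by `1 ⊗ u` shifts the coefficients -/
private theorem Split_shift (C : CubicRing k t R) (z : K ⊗[k] R) (m : ℤ) (a : Fin 3) :
    (Algebra.TensorProduct.basis K C.bas).repr ((1 : K) ⊗ₜ[k] (C.u : R) * z) (m, a) =
      (Algebra.TensorProduct.basis K C.bas).repr z (m - 1, a) := by
  classical
  let f : K ⊗[k] R →ₗ[K] K := (Finsupp.lapply (m, a)).comp
    ((Algebra.TensorProduct.basis K C.bas).repr.toLinearMap.comp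
      (LinearMap.mulLeft K ((1 : K) ⊗ₜ[k] (C.u : R))))
  let g : K ⊗[k] R →ₗ[K] K := (Finsupp.lapply (m - 1, a)).comp
    ((Algebra.TensorProduct.basis K C.bas).repr.toLinearMap)
  have h : f = g := by
    apply (Algebra.TensorProduct.basis K C.bas).ext
    rintro ⟨j, b⟩
    have h1 : (1 : K) ⊗ₜ[k] (C.u : R) * (Algebra.TensorProduct.basis K C.bas) (j, b) =
        (Algebra.TensorProduct.basis K C.bas) (j + 1, b) := by
      rw [Algebra.TensorProduct.basis_apply, Algebra.TensorProduct.basis_apply,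
        Algebra.TensorProduct.tmul_mul_tmul, one_mul, C.bas_eq, C.bas_eq, ← mul_assoc,
        ← Units.val_mul]
      congr 3
      rw [zpow_add_one, mul_comm]
    change (Algebra.TensorProduct.basis K C.bas).repr
      ((1 : K) ⊗ₜ[k] (C.u : R) * (Algebra.TensorProduct.basis K C.bas) (j, b)) (m, a) =
      (Algebra.TensorProduct.basis K C.bas).repr
        ((Algebra.TensorProduct.basis K C.bas) (j, b)) (m - 1, a)
    rw [h1, Module.Basis.repr_self, Module.Basis.repr_self, Finsupp.single_apply,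
      Finsupp.single_apply]
    congr 1
    apply propext
    simp only [Prod.mk.injEq]
    constructor
    · rintro ⟨h2, h3⟩
      exact ⟨by omega, h3⟩
    · rintro ⟨h2, h3⟩
      exact ⟨by omega, h3⟩
  exact LinearMap.congr_fun h z

/-- compare leading monomials: `K ⊗ R` has the `K`-basis `1 ⊗ u^m w^a` -/
theorem quad_mul_injective (C : CubicRing k t R) (E : CubeRoot k t K) (z : K ⊗[k] R)
    (h : C.quad E * z = 0) : z = 0 := by
  classical
  by_contra hz
  let B := Algebra.TensorProduct.basis K C.bas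
  have hs : (B.repr z).support.Nonempty := by
    rw [Finsupp.support_nonempty_iff]
    intro h0
    exact hz (B.repr.map_eq_zero_iff.1 h0)
  obtain ⟨p, hp, hmax⟩ := Finset.exists_max_image (B.repr z).support (fun p => p.1) hs
  have hgt : ∀ m : ℤ, p.1 < m → B.repr z (m, p.2) = 0 := by
    intro m hm
    by_contra hne
    have := hmax (m, p.2) (Finsupp.mem_support_iff.2 hne)
    simp only at this
    omega
  have hq : C.quad E * z = (1 : K) ⊗ₜ[k] (C.u : R) * ((1 : K) ⊗ₜ[k] (C.u : R) * z)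
      + E.α • ((1 : K) ⊗ₜ[k] (C.u : R) * z) + z := by
    have e2 : E.α ⊗ₜ[k] (C.u : R) = algebraMap K (K ⊗[k] R) E.α * ((1 : K) ⊗ₜ[k] (C.u : R)) :=
      Split_tmul _ _
    have e3 : (1 : K) ⊗ₜ[k] (1 : R) = 1 := rfl
    unfold quad
    rw [e2, e3, Algebra.smul_def]
    ring
  have h2 := congrArg (fun y => B.repr y (p.1 + 2, p.2)) (hq.symm.trans h)
  simp only [map_add, map_smul, Finsupp.add_apply, Finsupp.smul_apply, map_zero,
    Finsupp.zero_apply] at h2
  rw [Split_shift, Split_shift, Split_shift, hgt (p.1 + 2) (by omega),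
    hgt (p.1 + 2 - 1) (by omega), smul_zero, add_zero, add_zero] at h2
  have h3 : p.1 + 2 - 1 - 1 = p.1 := by omega
  rw [h3] at h2
  exact (Finsupp.mem_support_iff.1 hp) h2

theorem ell_mul_injective (C : CubicRing k t R) (E : CubeRoot k t K) [CharP k 3] (ht : t ≠ 0)
    (z : K ⊗[k] R) (h : C.ell E * z = 0) : z = 0 := by
  apply quad_mul_injective C E
  have h1 : t ^ 2 • (C.quad E * z) = 0 := by
    rw [← smul_mul_assoc, ← ell_mul, mul_right_comm, h, zero_mul]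
  exact (smul_eq_zero.1 h1).resolve_left (pow_ne_zero 2 ht)

theorem eps_mem_VY (C : CubicRing k t R) (E : CubeRoot k t K) : C.eps E ∈ C.VY K 0 := by
  unfold eps quad
  rw [mul_add, mul_add, Algebra.TensorProduct.tmul_pow, Algebra.TensorProduct.tmul_mul_tmul,
    Algebra.TensorProduct.tmul_mul_tmul, Algebra.TensorProduct.tmul_mul_tmul]
  refine add_mem (add_mem ?_ ?_) ?_
  · apply Split_VY_tmul
    have h1 : ((C.u ^ (-2 : ℤ) : Rˣ) : R) * (C.u : R) ^ 2 = ((C.u ^ (0 : ℤ) : Rˣ) : R) := by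
      rw [← Units.val_pow_eq_pow_val, ← Units.val_mul]
      congr 1
      rw [← zpow_natCast, ← zpow_add]
      rfl
    rw [h1]
    exact C.upow_mem_Y le_rfl
  · apply Split_VY_tmul
    have h1 : ((C.u ^ (-2 : ℤ) : Rˣ) : R) * (C.u : R) = ((C.u ^ (-1 : ℤ) : Rˣ) : R) := by
      rw [← Units.val_mul]
      congr 1
      rw [← zpow_add_one]
      rfl
    rw [h1]
    exact C.upow_mem_Y (by omega)
  · apply Split_VY_tmul
    rw [mul_one]
    exact C.upow_mem_Y (m := -2) (n := 0) (by omega)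

theorem ell_mul_mem_VY (C : CubicRing k t R) (E : CubeRoot k t K) {n : ℤ} {z : K ⊗[k] R}
    (h : z ∈ C.VY K n) : C.ell E * z ∈ C.VY K (n + 1) := by
  obtain ⟨y, rfl⟩ := h
  induction y with
  | zero => rw [map_zero, mul_zero]; exact zero_mem _
  | add a b ha hb => rw [map_add, mul_add]; exact add_mem ha hb
  | tmul c r =>
    rw [TensorProduct.map_tmul, LinearMap.id_apply, Submodule.subtype_apply]
    unfold ell
    rw [sub_mul, Algebra.TensorProduct.tmul_mul_tmul, Algebra.TensorProduct.tmul_mul_tmul]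
    refine sub_mem (Split_VY_tmul C _ ?_) (Split_VY_tmul C _ ?_)
    · rw [add_comm]
      exact C.mul_mem_Y (C.w_mem_Y le_rfl) r.2
    · rw [add_comm]
      refine C.mul_mem_Y ?_ r.2
      have := C.upow_mem_Y (m := 1) (n := 1) le_rfl
      rwa [zpow_one] at this

end CubicRing
end H36.NX
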