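import Pool.Agent.H16.NC.SD
import Pool.Agent.H36.NX.Pc

/-!
# Tri : the Čech complex of a module, the Čech dg algebra of a ring, sub dg algebras

An element `f : Pc → S` has values `f X` (chart `x ≠ 0`), `f Y` (chart `y ≠ 0`) in degree 0 and `f R` (overlap) in
degree 1; `(D f) R = f Y - f X`, and `(f g) X = f X g X`, `(f g) Y = f Y g Y`, `(f g) R = f X g R + f R g Y`.
-/

set_option autoImplicit false

open NC

namespace H36.NX

section

variable (k : Type) [Field k]

/-- the differential -/
def cD (S : Type) [AddCommGroup S] [Module k S] : (Pc → S) →ₗ[k] (Pc → S) where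
  toFun f := fun s => match s with
    | Pc.X => 0
    | Pc.Y => 0
    | Pc.R => f Pc.Y - f Pc.X
  map_add' x y := by funext s; cases s <;> simp; abel
  map_smul' c x := by funext s; cases s <;> simp [smul_sub]

/-- the even part -/
def cP (S : Type) [AddCommGroup S] [Module k S] : (Pc → S) →ₗ[k] (Pc → S) where
  toFun f := fun s => match s with
    | Pc.X => f Pc.X
    | Pc.Y => f Pc.Y
    | Pc.R => 0
  map_add' x y := by funext s; cases s <;> simp
  map_smul' c x := by funext s; cases s <;> simp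

section

variable {S : Type} [AddCommGroup S] [Module k S] (f : Pc → S)

@[simp] theorem cD_X : cD k S f Pc.X = 0 := rfl
@[simp] theorem cD_Y : cD k S f Pc.Y = 0 := rfl
@[simp] theorem cD_R : cD k S f Pc.R = f Pc.Y - f Pc.X := rfl
@[simp] theorem cP_X : cP k S f Pc.X = f Pc.X := rfl
@[simp] theorem cP_Y : cP k S f Pc.Y = f Pc.Y := rfl
@[simp] theorem cP_R : cP k S f Pc.R = 0 := rfl

end

/-- the Čech complex of a module -/
def cSD (S : Type) [AddCommGroup S] [Module k S] : SD k where
  V := Pc → S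
  D := cD k S
  P := cP k S
  DD v := by funext s; cases s <;> simp
  PP v := by funext s; cases s <;> simp
  DP v := by funext s; cases s <;> simp

/-- the cup product defined by a bilinear map -/
def cMul {S T N : Type} [AddCommGroup S] [Module k S] [AddCommGroup T] [Module k T]
    [AddCommGroup N] [Module k N] (m : S →ₗ[k] T →ₗ[k] N) :
    (Pc → S) →ₗ[k] (Pc → T) →ₗ[k] (Pc → N) :=
  LinearMap.mk₂ k (fun x y => fun s => match s with
      | Pc.X => m (x Pc.X) (y Pc.X)
      | Pc.Y => m (x Pc.Y) (y Pc.Y)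
      | Pc.R => m (x Pc.X) (y Pc.R) + m (x Pc.R) (y Pc.Y))
    (by intro x y z; funext s; cases s <;> simp; abel)
    (by intro c x y; funext s; cases s <;> simp [smul_add])
    (by intro x y z; funext s; cases s <;> simp; abel)
    (by intro c x y; funext s; cases s <;> simp [smul_add])

section

variable {S T N : Type} [AddCommGroup S] [Module k S] [AddCommGroup T]
    [Module k T] [AddCommGroup N] [Module k N] (m : S →ₗ[k] T →ₗ[k] N) (x : Pc → S) (y : Pc → T)

@[simp] theorem cMul_X : cMul k m x y Pc.X = m (x Pc.X) (y Pc.X) := rfl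
@[simp] theorem cMul_Y : cMul k m x y Pc.Y = m (x Pc.Y) (y Pc.Y) := rfl
@[simp] theorem cMul_R : cMul k m x y Pc.R = m (x Pc.X) (y Pc.R) + m (x Pc.R) (y Pc.Y) := rfl

theorem cMul_P : cP k N (cMul k m x y) = cMul k m (cP k S x) (cP k T y)
      + cMul k m (x - cP k S x) (y - cP k T y) := by
  funext s; cases s <;> simp

theorem cMul_D : cD k N (cMul k m x y) = cMul k m (cD k S x) y
      + cMul k m (cP k S x + cP k S x - x) (cD k T y) := by
  funext s; cases s <;> simp

end

theorem cMul_assoc {S T U M N Q : Type} [AddCommGroup S] [Module k S] [AddCommGroup T] [Module k T]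
    [AddCommGroup U] [Module k U] [AddCommGroup M] [Module k M] [AddCommGroup N] [Module k N]
    [AddCommGroup Q] [Module k Q] (m₁ : S →ₗ[k] T →ₗ[k] M) (m₂ : M →ₗ[k] U →ₗ[k] Q)
    (m₃ : T →ₗ[k] U →ₗ[k] N) (m₄ : S →ₗ[k] N →ₗ[k] Q)
    (h : ∀ a b c, m₂ (m₁ a b) c = m₄ a (m₃ b c)) (x : Pc → S) (y : Pc → T) (z : Pc → U) :
    cMul k m₂ (cMul k m₁ x y) z = cMul k m₄ x (cMul k m₃ y z) := by
  funext s; cases s <;> simp [h, add_assoc]

/-- the unit of the Čech algebra -/
def cOne (S : Type) [Ring S] : Pc → S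
  | Pc.X => 1
  | Pc.Y => 1
  | Pc.R => 0

@[simp] theorem cOne_X (S : Type) [Ring S] : cOne S Pc.X = 1 := rfl
@[simp] theorem cOne_Y (S : Type) [Ring S] : cOne S Pc.Y = 1 := rfl
@[simp] theorem cOne_R (S : Type) [Ring S] : cOne S Pc.R = 0 := rfl

/-- the Čech algebra of a ring -/
def cech (S : Type) [Ring S] [Algebra k S] : DGA k where
  toSD := cSD k S
  mul := cMul k (LinearMap.mul k S)
  one := cOne S
  one_mul' a := by
    change cMul k (LinearMap.mul k S) (cOne S) a = a
    funext s; cases s <;> simp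
  mul_one' a := by
    change cMul k (LinearMap.mul k S) a (cOne S) = a
    funext s; cases s <;> simp
  mul_assoc' a b c := cMul_assoc k _ _ _ _ (fun a b c => by simp [mul_assoc]) a b c
  P_one := by
    change cP k S (cOne S) = cOne S
    funext s; cases s <;> simp
  P_mul a b := cMul_P k _ a b
  D_mul a b := cMul_D k _ a b

end

/-- a sub dg module -/
def subSD {k : Type} [Field k] (A : SD k) (S : Submodule k A.V)
    (hD : ∀ a ∈ S, A.D a ∈ S) (hP : ∀ a ∈ S, A.P a ∈ S) : SD k where
  V := S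
  D := A.D.restrict hD
  P := A.P.restrict hP
  DD v := Subtype.ext (A.DD v)
  PP v := Subtype.ext (A.PP v)
  DP v := Subtype.ext (A.DP v)

/-- restriction of a bilinear map -/
def restrict₂ {k : Type} [Field k] {M N Q : Type} [AddCommGroup M] [Module k M] [AddCommGroup N]
    [Module k N] [AddCommGroup Q] [Module k Q] (m : M →ₗ[k] N →ₗ[k] Q) (S : Submodule k M)
    (T : Submodule k N) (U : Submodule k Q) (h : ∀ a ∈ S, ∀ b ∈ T, m a b ∈ U) :
    S →ₗ[k] T →ₗ[k] U :=
  LinearMap.mk₂ k (fun a b => ⟨m a b, h a a.2 b b.2⟩)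
    (by intro a b c; exact Subtype.ext (by simp))
    (by intro a b c; exact Subtype.ext (by simp))
    (by intro a b c; exact Subtype.ext (by simp))
    (by intro a b c; exact Subtype.ext (by simp))

/-- a sub dg algebra -/
def subDGA {k : Type} [Field k] (A : DGA k) (S : Submodule k A.V) (h1 : A.one ∈ S)
    (hm : ∀ a ∈ S, ∀ b ∈ S, A.mul a b ∈ S) (hD : ∀ a ∈ S, A.D a ∈ S) (hP : ∀ a ∈ S, A.P a ∈ S) :
    DGA k where
  toSD := subSD A.toSD S hD hP
  mul := restrict₂ A.mul S S S hm
  one := (⟨A.one, h1⟩ : S)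
  one_mul' a := Subtype.ext (A.one_mul' a.1)
  mul_one' a := Subtype.ext (A.mul_one' a.1)
  mul_assoc' a b c := Subtype.ext (A.mul_assoc' a.1 b.1 c.1)
  P_one := Subtype.ext A.P_one
  P_mul a b := Subtype.ext (A.P_mul a.1 b.1)
  D_mul a b := Subtype.ext (A.D_mul a.1 b.1)

end H36.NX
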