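import Pool.Agent.H36.NX.Kos
import Pool.Agent.H36.NX.Lead

/-!
# Val : the value at the point `x = 0` of a Čech matrix
-/

set_option autoImplicit false

open NC

namespace H36.NX

variable {k : Type} [Field k] {t : k} {R : Type} [CommRing R] [Algebra k R]
  {K : Type} [Field K] [Algebra k K] {I J L : Type}

/-- the value at the point `x = 0`: entry `(i, j)` = leading coefficient of degree `β j - α i` of the entry on
the chart `y ≠ 0` -/
noncomputable def val (C : CubicRing k t R) (E : CubeRoot k t K) (α : I → ℤ) (β : J → ℤ) :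
    (Pc → Matrix I J R) →ₗ[k] Matrix I J K where
  toFun f := fun i j => C.lead E (β j - α i) (f Pc.Y i j)
  map_add' f g := by ext i j; simp
  map_smul' c f := by ext i j; simp

@[simp] theorem val_apply (C : CubicRing k t R) (E : CubeRoot k t K) (α : I → ℤ) (β : J → ℤ)
    (f : Pc → Matrix I J R) (i : I) (j : J) :
    val C E α β f i j = C.lead E (β j - α i) (f Pc.Y i j) := rfl

theorem val_D (C : CubicRing k t R) (E : CubeRoot k t K) (α : I → ℤ) (β : J → ℤ)
    (f : Pc → Matrix I J R) : val C E α β (cD k _ f) = 0 := by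
  ext i j; simp

theorem val_P (C : CubicRing k t R) (E : CubeRoot k t K) (α : I → ℤ) (β : J → ℤ)
    (f : Pc → Matrix I J R) : val C E α β (cP k _ f) = val C E α β f := by
  ext i j; simp

theorem val_one (C : CubicRing k t R) (E : CubeRoot k t K) [DecidableEq I] [Fintype I]
    (α : I → ℤ) : val C E α α (cOne (Matrix I I R)) = 1 := by
  ext i j
  rw [val_apply, cOne_Y, Matrix.one_apply, Matrix.one_apply]
  split
  · next h => subst h; rw [sub_self]; exact C.lead_one E
  · exact map_zero _

theorem val_mul (C : CubicRing k t R) (E : CubeRoot k t K) [Fintype J] (α : I → ℤ) (β : J → ℤ)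
    (γ : L → ℤ) {f : Pc → Matrix I J R} (hf : f ∈ QQ C α β) {g : Pc → Matrix J L R}
    (hg : g ∈ QQ C β γ) :
    val C E α γ (cMul k (matMul k R I J L) f g) = val C E α β f * val C E β γ g := by
  ext i j
  rw [val_apply, cMul_Y, matMul_apply, Matrix.mul_apply, Matrix.mul_apply, map_sum]
  refine Finset.sum_congr rfl (fun l _ => ?_)
  rw [val_apply, val_apply, ← C.lead_mul E (hf Pc.Y i l) (hg Pc.Y l j),
    show β l - α i + (γ j - β l) = γ j - α i by ring]

/-- the kernel of the value on `QQ α β` is `QQ α (β - 1)` -/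
theorem val_eq_zero (C : CubicRing k t R) (E : CubeRoot k t K) {α α' : I → ℤ} {β β' : J → ℤ}
    (h : ∀ i j, β' j - α' i = β j - α i - 1) {f : Pc → Matrix I J R} (hf : f ∈ QQ C α β) :
    val C E α β f = 0 ↔ f ∈ QQ C α' β' := by
  constructor
  · intro h0 s i j
    rw [h i j]
    cases s with
    | X => exact hf Pc.X i j
    | Y =>
      have h1 := congrFun (congrFun h0 i) j
      exact (C.lead_eq_zero_iff E (hf Pc.Y i j)).1 h1
    | R => exact Submodule.mem_top
  · intro h0
    ext i j
    have h1 := h0 Pc.Y i j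
    rw [h i j] at h1
    exact (C.lead_eq_zero_iff E (hf Pc.Y i j)).2 h1

theorem val_surjective (C : CubicRing k t R) (E : CubeRoot k t K) (α : I → ℤ) (β : J → ℤ)
    (M : Matrix I J K) : ∃ f ∈ QQ C α β, val C E α β f = M := by
  choose r hr hr' using fun (i : I) (j : J) => C.exists_lead E (β j - α i) (M i j)
  refine ⟨fun s => match s with
    | Pc.X => 0
    | Pc.Y => fun i j => r i j
    | Pc.R => 0, ?_, ?_⟩
  · intro s i j
    cases s with
    | X => exact C.X.zero_mem
    | Y => exact hr i j
    | R => exact Submodule.mem_top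
  · ext i j
    rw [val_apply]
    exact hr' i j

theorem val_u (C : CubicRing k t R) (E : CubeRoot k t K) {α α' : I → ℤ} {β β' : J → ℤ}
    (h : ∀ i j, β j - α i + 1 = β' j - α' i) (f : Pc → Matrix I J R) :
    val C E α' β' (smulR k I J (C.u : R) f) = val C E α β f := by
  ext i j
  rw [val_apply, val_apply, smulR_apply, ← h i j]
  have := C.lead_upow_mul E 1 (β j - α i) (f Pc.Y i j)
  rwa [zpow_one] at this

end H36.NX
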